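import Pool.Agent.P.MP_e2f787_al.Ops

/-! Commutative algebra lemmas. -/

namespace Pool.Agent.P.MP_e2f787_al

open Module Polynomial

/-- No power of `σ` has a rational eigenvector, in a rank two group. -/
def Hyp {L : Type*} [CommGroup L] (σ : MulAut L) : Prop :=
  ∀ d : L, d ≠ 1 → ∀ z z' : ℤ, z ≠ z' → ∃ N : ℕ, 0 < N ∧
    ∀ K : Subgroup L, (σ ^ z) d ∈ K → (σ ^ z') d ∈ K → ∀ l, l ^ N ∈ K

theorem Hyp.pow {L : Type*} [CommGroup L] {σ : MulAut L} (h : Hyp σ) {j : ℕ} (hj : 0 < j) :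
    Hyp (σ ^ j) := by
  intro d hd z z' hz
  have := h d hd (j * z) (j * z') (fun h' => hz (mul_left_cancel₀ (by exact_mod_cast hj.ne') h'))
  simpa only [zpow_mul, zpow_natCast] using this

theorem Hyp.finite {L : Type*} [CommGroup L] {σ : MulAut L} (h : Hyp σ) (K : Subgroup L) (l0 : L)
    (hl : ∀ N : ℕ, 0 < N → l0 ^ N ∉ K) {D : Set L} (hD : D.Finite) (h1 : (1 : L) ∉ D) :
    {i : ℤ | ∃ d ∈ D, (σ ^ i) d ∈ K}.Finite := by
  have : {i : ℤ | ∃ d ∈ D, (σ ^ i) d ∈ K} = ⋃ d ∈ D, {i : ℤ | (σ ^ i) d ∈ K} := by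
    ext i; simp
  rw [this]
  refine hD.biUnion fun d hd => Set.Subsingleton.finite fun i hi j hj => ?_
  by_contra hij
  obtain ⟨N, hN, hK⟩ := h d (fun h' => h1 (h' ▸ hd)) i j hij
  exact hl N hN (hK K hi hj l0)

section Rank

variable {k : Type*} [CommRing k] {W : Type*} [AddCommGroup W] [Module k W]
variable {S : Type*} [CommRing S]

theorem gen_range_le (θ : S →+* End k W) (hk : ∀ c : k, ∃ s, ∀ v, θ s v = c • v)
    {Γ : Set (End k W)} (hΓ : Γ ⊆ Set.range θ) {ι : Type*} [Fintype ι] (b : ι → W) {v : W}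
    (hv : v ∈ gen Γ (Set.range b)) : ∃ c : ι → S, v = ∑ j, θ (c j) (b j) := by
  classical
  have hmul : ∀ a b v, θ (a * b) v = θ a (θ b v) := fun a b v => by rw [map_mul]; rfl
  let N : Submodule k W :=
    { carrier := {v | ∃ c : ι → S, v = ∑ j, θ (c j) (b j)}
      add_mem' := by
        rintro _ _ ⟨c, rfl⟩ ⟨c', rfl⟩
        exact ⟨c + c', by simp [Finset.sum_add_distrib]⟩
      zero_mem' := ⟨0, by simp⟩
      smul_mem' := by
        rintro a _ ⟨c, rfl⟩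
        obtain ⟨s, hs⟩ := hk a
        exact ⟨fun j => s * c j, by simp [hmul, hs, Finset.smul_sum]⟩ }
  refine gen_le (N := N) ?_ ?_ hv
  · rintro f hf _ ⟨c, rfl⟩
    obtain ⟨s, rfl⟩ := hΓ hf
    exact ⟨fun j => s * c j, by simp [hmul]⟩
  · rintro _ ⟨j, rfl⟩
    refine ⟨Pi.single j 1, ?_⟩
    rw [Finset.sum_eq_single j (fun i _ hi => by simp [hi]) (by simp)]
    simp

theorem rank_lemma (P : Ideal S) [hP : P.IsPrime] (θ : S →+* End k W) (τ : S →+* S)
    (hτ : Function.Surjective τ) (hτP : ∀ s, τ s ∈ P ↔ s ∈ P) (Y : End k W)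
    (hY : ∀ s v, Y (θ s v) = θ (τ s) (Y v)) (Z U : Submodule k W)
    (hZ : ∀ s, ∀ v ∈ Z, θ s v ∈ Z) (hU : ∀ s, ∀ v ∈ U, θ s v ∈ U)
    (hYZ : ∀ v, Y v ∈ Z → v ∈ Z) (hYU : ∀ v ∈ U, Y v ∈ U)
    (hPU : ∀ s ∈ P, ∀ v ∈ U, θ s v ∈ Z) {ι : Type*} [Fintype ι] (b : ι → W) (hb : ∀ j, b j ∈ U)
    (hk : ∀ c : k, ∃ s, ∀ v, θ s v = c • v)
    (hfin' : ∀ u ∈ U, ∃ d, d ∉ P ∧ θ d u ∈ gen (Set.range θ) (Set.range b) ⊔ Z) :
    ∀ u ∈ U, ∃ d, d ∉ P ∧ ∃ u' ∈ U, θ d u - Y u' ∈ Z := by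
  classical
  have hfin : ∀ u ∈ U, ∃ d, d ∉ P ∧ ∃ c : ι → S, θ d u - ∑ j, θ (c j) (b j) ∈ Z := by
    intro u hu
    obtain ⟨d, hd, h⟩ := hfin' u hu
    obtain ⟨x, hx, z, hz, h⟩ := Submodule.mem_sup.mp h
    obtain ⟨c, rfl⟩ := gen_range_le θ hk le_rfl b hx
    exact ⟨d, hd, c, by rw [← h]; simpa using hz⟩
  obtain ⟨r, hr⟩ : ∃ r, r = Fintype.card ι := ⟨_, rfl⟩
  intro u hu
  have hmul : ∀ a b v, θ (a * b) v = θ a (θ b v) := fun a b v => by rw [map_mul]; rfl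
  have hYn : ∀ n : ℕ, ∀ v ∈ U, (Y ^ n) v ∈ U := by
    intro n v hv
    induction n with
    | zero => simpa using hv
    | succ n ih => rw [pow_succ', Module.End.mul_apply]; exact hYU _ ih
  have hYnZ : ∀ n : ℕ, ∀ v, (Y ^ n) v ∈ Z → v ∈ Z := by
    intro n
    induction n with
    | zero => intro v hv; simpa using hv
    | succ n ih =>
      intro v hv
      rw [pow_succ', Module.End.mul_apply] at hv
      exact ih v (hYZ _ hv)
  have hsemi : ∀ (n : ℕ) (c : S), ∃ c' : S, (c' ∈ P ↔ c ∈ P) ∧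
      ∀ v, θ c ((Y ^ n) v) = (Y ^ n) (θ c' v) := by
    intro n
    induction n with
    | zero => intro c; exact ⟨c, Iff.rfl, fun v => by simp⟩
    | succ n ih =>
      intro c
      obtain ⟨c1, rfl⟩ := hτ c
      obtain ⟨c', h1, h2⟩ := ih c1
      refine ⟨c', h1.trans (hτP c1).symm, fun v => ?_⟩
      rw [pow_succ', Module.End.mul_apply, Module.End.mul_apply, ← hY, h2]
  choose d hd c hc using fun i : Fin (r + 1) => hfin _ (hYn i u hu)
  have hnli : ¬ LinearIndependent (S ⧸ P) fun (i : Fin (r + 1)) (j : ι) =>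
      Ideal.Quotient.mk P (c i j) := by
    intro h
    have := h.fintype_card_le_finrank
    simp [← hr] at this
  obtain ⟨e', he1, i0, hi0⟩ := Fintype.not_linearIndependent_iff.mp hnli
  choose e he using fun i => Ideal.Quotient.mk_surjective (e' i)
  have hdep : ∑ i, θ (e i * d i) ((Y ^ (i : ℕ)) u) ∈ Z := by
    have h1 : ∑ i, θ (e i) (θ (d i) ((Y ^ (i : ℕ)) u) - ∑ j, θ (c i j) (b j)) ∈ Z :=
      Z.sum_mem fun i _ => hZ _ _ (hc i)
    have h2 : ∑ j, θ (∑ i, e i * c i j) (b j) ∈ Z := by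
      refine Z.sum_mem fun j _ => hPU _ ?_ _ (hb j)
      rw [← Ideal.Quotient.eq_zero_iff_mem]
      have := congrFun he1 j
      simpa [← he, Finset.sum_apply] using this
    have h3 : ∑ i, θ (e i * d i) ((Y ^ (i : ℕ)) u) =
        ∑ i, θ (e i) (θ (d i) ((Y ^ (i : ℕ)) u) - ∑ j, θ (c i j) (b j)) +
          ∑ j, θ (∑ i, e i * c i j) (b j) := by
      simp only [map_sub, map_sum, hmul, Finset.sum_sub_distrib, LinearMap.sum_apply]
      rw [Finset.sum_comm (f := fun j i => θ (e i) (θ (c i j) (b j)))]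
      abel
    rw [h3]; exact Z.add_mem h1 h2
  have hex : ∃ i : ℕ, ∃ h : i < r + 1, e ⟨i, h⟩ * d ⟨i, h⟩ ∉ P := by
    refine ⟨i0, i0.2, fun h => ?_⟩
    rcases hP.mem_or_mem h with h | h
    · exact hi0 (by rw [← he]; exact Ideal.Quotient.eq_zero_iff_mem.mpr h)
    · exact hd _ h
  obtain ⟨hi, hiP⟩ := Nat.find_spec hex
  set i := Nat.find hex with hidef
  have hterm : ∀ i' : Fin (r + 1), i' ≠ ⟨i, hi⟩ → θ (e i' * d i') ((Y ^ (i' : ℕ)) u) ∈
      Z ⊔ U.map (Y ^ (i + 1)) := by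
    intro i' hne
    rcases lt_or_gt_of_ne (show (i' : ℕ) ≠ i from fun h => hne (Fin.ext h)) with h | h
    · refine Submodule.mem_sup_left (hPU _ ?_ _ (hYn _ u hu))
      by_contra hcon
      exact Nat.find_min hex h ⟨i'.2, hcon⟩
    · obtain ⟨m, hm⟩ := Nat.exists_eq_add_of_le (Nat.succ_le_of_lt h)
      obtain ⟨c', -, h2⟩ := hsemi (i + 1) (e i' * d i')
      refine Submodule.mem_sup_right ⟨θ c' ((Y ^ m) u), hU _ _ (hYn m u hu), ?_⟩
      rw [← h2, hm, pow_add Y (i.succ) m, Module.End.mul_apply]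
  have hmain : θ (e ⟨i, hi⟩ * d ⟨i, hi⟩) ((Y ^ i) u) ∈ Z ⊔ U.map (Y ^ (i + 1)) := by
    have h1 := Submodule.mem_sup_left (T := U.map (Y ^ (i + 1))) hdep
    rw [← Finset.add_sum_erase _ _ (Finset.mem_univ ⟨i, hi⟩)] at h1
    exact (Submodule.add_mem_iff_left _ (Submodule.sum_mem _ fun i' hi' =>
      hterm i' (Finset.ne_of_mem_erase hi'))).mp h1
  obtain ⟨c', h1, h2⟩ := hsemi i (e ⟨i, hi⟩ * d ⟨i, hi⟩)
  obtain ⟨z, hz, _, ⟨u', hu', rfl⟩, h3⟩ := Submodule.mem_sup.mp hmain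
  refine ⟨c', fun h => hiP (h1.mp h), u', hu', hYnZ i _ ?_⟩
  rw [map_sub, ← h2, ← h3, pow_succ, Module.End.mul_apply]
  simpa using hz

end Rank

section Val

variable {S : Type*} [CommRing S] {L : Type*} [CommGroup L]

theorem exists_field_of_prime.{u} {T : Type u} [CommRing T] (𝔭 : Ideal T) [𝔭.IsPrime] :
    ∃ (F : Type u) (_ : Field F) (ψ : T →+* F), ∀ t, ψ t = 0 ↔ t ∈ 𝔭 :=
  ⟨FractionRing (T ⧸ 𝔭), inferInstance, (algebraMap _ _).comp (Ideal.Quotient.mk 𝔭), fun t => by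
    simp [Ideal.Quotient.eq_zero_iff_mem]⟩

theorem val_lemma (P : Ideal S) [hP : P.IsPrime] {σ : MulAut L} (hσ : Hyp σ)
    (I : Ideal (MonoidAlgebra S L)) (hPI : ∀ p ∈ P, algebraMap S (MonoidAlgebra S L) p ∈ I)
    {D : Set L} (hD : D.Finite) (h1 : (1 : L) ∉ D)
    (hI : ∀ n : ℕ, ∃ f ∈ I, (∃ s, f.coeff s ∉ P) ∧ ∀ s s', f.coeff s ∉ P → f.coeff s' ∉ P →
      s ≠ s' → ∃ d ∈ D, s / s' = (σ ^ (-(n : ℤ))) d) (l0 : L) :
    ∃ p : S[X], (∃ i, p.coeff i ∉ P) ∧ aeval (MonoidAlgebra.of S L l0) p ∈ I := by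
  classical
  by_contra hcon
  push Not at hcon
  set x := MonoidAlgebra.of S L l0 with hx
  let M0 : Submonoid S[X] :=
    { carrier := {p | p.map (Ideal.Quotient.mk P) ≠ 0}
      mul_mem' := fun {a b} ha hb => by
        simp only [Set.mem_ofPred_eq, Polynomial.map_mul] at *
        exact mul_ne_zero ha hb
      one_mem' := by simp }
  have hM0 : ∀ p : S[X], p ∈ M0 ↔ ∃ i, p.coeff i ∉ P := by
    intro p
    change p.map (Ideal.Quotient.mk P) ≠ 0 ↔ _
    simp [Polynomial.ext_iff, Ideal.Quotient.eq_zero_iff_mem]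
  obtain ⟨𝔭, h𝔭, hI𝔭, hdisj⟩ := I.exists_le_prime_disjoint
    (M0.map (aeval x : S[X] →ₐ[S] MonoidAlgebra S L)) (by
      rw [Set.disjoint_left]
      rintro _ h ⟨p, hp, rfl⟩
      exact hcon p ((hM0 p).mp hp) h)
  have hnot : ∀ p : S[X], (∃ i, p.coeff i ∉ P) → aeval x p ∉ 𝔭 := fun p hp h =>
    Set.disjoint_left.mp hdisj h ⟨p, (hM0 p).mpr hp, rfl⟩
  obtain ⟨F, _, ψ, hψ⟩ := exists_field_of_prime 𝔭
  let ι : S →+* F := ψ.comp (algebraMap S _)
  have hι : ∀ c, c ∉ P → ι c ≠ 0 := by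
    intro c hc h
    refine hnot (C c) ⟨0, by simpa using hc⟩ ?_
    rw [aeval_C]; exact (hψ _).mp h
  let ev : S[X] →+* F := ψ.comp (aeval x : S[X] →ₐ[S] MonoidAlgebra S L)
  have hevC : ∀ c, ev (C c) = ι c := fun c => by simp [ev, ι]
  have hevX : ev X = ψ x := by simp [ev]
  let A : Subring F :=
    { carrier := {y | ∃ p : S[X], ∃ c, c ∉ P ∧ y * ι c = ev p}
      mul_mem' := by
        rintro a b ⟨p, c, hc, h⟩ ⟨p', c', hc', h'⟩
        refine ⟨p * p', c * c', fun h => (hP.mem_or_mem h).elim hc hc', ?_⟩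
        rw [map_mul, map_mul, ← h, ← h']; ring
      one_mem' := ⟨1, 1, fun h => hP.ne_top ((Ideal.eq_top_iff_one _).mpr h), by simp⟩
      add_mem' := by
        rintro a b ⟨p, c, hc, h⟩ ⟨p', c', hc', h'⟩
        refine ⟨p * C c' + p' * C c, c * c', fun h => (hP.mem_or_mem h).elim hc hc', ?_⟩
        rw [map_add, map_mul, map_mul, map_mul, ← h, ← h', hevC, hevC]; ring
      zero_mem' := ⟨0, 1, fun h => hP.ne_top ((Ideal.eq_top_iff_one _).mpr h), by simp⟩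
      neg_mem' := by
        rintro a ⟨p, c, hc, h⟩
        exact ⟨-p, c, hc, by rw [map_neg, ← h]; ring⟩ }
  have h1P : (1 : S) ∉ P := fun h => hP.ne_top ((Ideal.eq_top_iff_one _).mpr h)
  have hxA : ψ x ∈ A := ⟨X, 1, h1P, by simp [hevX]⟩
  obtain ⟨B, hAB, hB⟩ := Ideal.image_subset_nonunits_valuationSubring
    (Ideal.span {(⟨ψ x, hxA⟩ : A)}) (by
      intro h
      obtain ⟨⟨a, p, c, hc, ha⟩, h2⟩ := Ideal.mem_span_singleton'.mp ((Ideal.eq_top_iff_one _).mp h)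
      have h3 : a * ψ x = 1 := congrArg Subtype.val h2
      refine hnot (C c - X * p) ⟨0, by simpa using hc⟩ ((hψ _).mp ?_)
      change ev (C c - X * p) = 0
      rw [map_sub, map_mul, hevC, hevX, ← ha]
      linear_combination (-ι c) * h3)
  have hxlt : B.valuation (ψ x) < 1 :=
    (B.mem_nonunits_iff).mp (hB ⟨_, Ideal.subset_span rfl, rfl⟩)
  have hv1 : ∀ c, c ∉ P → B.valuation (ι c) = 1 := by
    intro c hc
    have a1 : B.valuation (ι c) ≤ 1 :=
      (B.valuation_le_one_iff _).mpr (hAB ⟨C c, 1, h1P, by simp [hevC]⟩)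
    have a2 : B.valuation (ι c)⁻¹ ≤ 1 :=
      (B.valuation_le_one_iff _).mpr (hAB ⟨1, c, hc, by simp [hι c hc]⟩)
    refine le_antisymm a1 ?_
    rw [map_inv₀] at a2
    exact (inv_le_one₀ (zero_lt_iff.mpr ((Valuation.ne_zero_iff _).mpr (hι c hc)))).mp a2
  let χ : L →* B.ValueGroup :=
    (B.valuation.toMonoidWithZeroHom.toMonoidHom.comp ψ.toMonoidHom).comp (MonoidAlgebra.of S L)
  have hχ : ∀ l, χ l = B.valuation (ψ (MonoidAlgebra.of S L l)) := fun l => rfl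
  have hχ0 : ∀ l, χ l ≠ 0 := fun l => ((Group.isUnit l).map χ).ne_zero
  have hfin := hσ.finite χ.ker l0 (fun N hN h => by
    rw [MonoidHom.mem_ker, map_pow, hχ] at h
    exact (pow_lt_one₀ zero_le hxlt hN.ne').ne h) hD h1
  refine Set.infinite_of_injective_forall_mem (f := fun n : ℕ => -(n : ℤ))
    (fun a b h => by simpa using h) (fun n => ?_) hfin
  obtain ⟨f, hf, ⟨s1, hs1⟩, hdiff⟩ := hI n
  let F0 := f.coeff.support.filter fun s => f.coeff s ∉ P
  have hmemF0 : ∀ s, s ∈ F0 ↔ f.coeff s ∉ P := by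
    intro s
    simp only [F0, Finset.mem_filter, Finsupp.mem_support_iff, and_iff_right_iff_imp]
    intro h h'
    exact h (h' ▸ P.zero_mem)
  obtain ⟨s0, hs0, hmax⟩ := F0.exists_max_image χ ⟨s1, (hmemF0 s1).mpr hs1⟩
  have hterm : ∀ s c, ψ (MonoidAlgebra.single s c) = ι c * ψ (MonoidAlgebra.of S L s) := by
    intro s c
    rw [MonoidAlgebra.single_eq_algebraMap_mul_of, map_mul]; rfl
  have hsum : ∑ s ∈ F0, ψ (MonoidAlgebra.single s (f.coeff s)) = 0 := by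
    have a1 : ψ f = 0 := (hψ f).mpr (hI𝔭 hf)
    rw [← f.sum_coeff_single, Finsupp.sum, map_sum] at a1
    rw [← a1]
    refine Finset.sum_filter_of_ne fun s _ hne hP' => hne ?_
    rw [hterm]
    have : ι (f.coeff s) = 0 := (hψ _).mpr (hI𝔭 (hPI _ hP'))
    rw [this, zero_mul]
  have hval : ∀ s ∈ F0, B.valuation (ψ (MonoidAlgebra.single s (f.coeff s))) = χ s := by
    intro s hs
    rw [hterm, map_mul, hv1 _ ((hmemF0 s).mp hs), one_mul, hχ]
  by_contra hne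
  have := B.valuation.map_sum_eq_of_lt (s := F0)
    (f := fun s => ψ (MonoidAlgebra.single s (f.coeff s))) hs0 (by
      intro s hs
      obtain ⟨hs, hs'⟩ := Finset.mem_sdiff.mp hs
      rw [hval s hs, hval s0 hs0]
      refine lt_of_le_of_ne (hmax s hs) fun heq => hne ?_
      obtain ⟨d, hd, hd'⟩ := hdiff s s0 ((hmemF0 s).mp hs) ((hmemF0 s0).mp hs0)
        (by simpa using hs')
      refine ⟨d, hd, ?_⟩
      rw [← hd', MonoidHom.mem_ker]
      have h5 : χ (s / s0) * χ s0 = 1 * χ s0 := by rw [← map_mul, div_mul_cancel, heq, one_mul]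
      exact mul_right_cancel₀ (hχ0 s0) h5)
  rw [hsum, map_zero, hval s0 hs0] at this
  exact hχ0 s0 this.symm

theorem exists_leadingCoeff {T : Type*} [CommRing T] [Algebra S T] (P : Ideal S) (I : Ideal T)
    (hPI : ∀ p ∈ P, algebraMap S T p ∈ I) (x : T) (p : S[X]) (h1 : ∃ i, p.coeff i ∉ P)
    (h2 : aeval x p ∈ I) : ∃ q : S[X], q.leadingCoeff ∉ P ∧ aeval x q ∈ I := by
  classical
  induction hn : p.support.card using Nat.strong_induction_on generalizing p with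
  | _ n ih =>
    by_cases h : p.leadingCoeff ∈ P
    · obtain ⟨i, hi⟩ := h1
      have hp : p ≠ 0 := by rintro rfl; exact hi (by simp)
      refine ih _ (hn ▸ eraseLead_support_card_lt hp) p.eraseLead ⟨i, ?_⟩ ?_ rfl
      · rwa [eraseLead_coeff_of_ne]
        rintro rfl
        exact hi h
      · rw [← self_sub_C_mul_X_pow, map_sub, map_mul, aeval_C]
        exact I.sub_mem h2 (I.mul_mem_right _ (hPI _ h))
    · exact ⟨p, h, h2⟩

theorem int_lemma [Group.FG L] (P : Ideal S) [hP : P.IsPrime]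
    (I : Ideal (MonoidAlgebra S L)) (hPI : ∀ p ∈ P, algebraMap S (MonoidAlgebra S L) p ∈ I)
    (h : ∀ l0, ∃ p : S[X], (∃ i, p.coeff i ∉ P) ∧ aeval (MonoidAlgebra.of S L l0) p ∈ I) :
    ∃ (r : ℕ) (g : Fin r → MonoidAlgebra S L), ∀ t, ∃ d, d ∉ P ∧ ∃ c : Fin r → S,
      d • t - ∑ j, c j • g j ∈ I := by
  classical
  let π := Ideal.Quotient.mkₐ S I
  have h' : ∀ l0, ∃ c, c ∉ P ∧ IsIntegral S (c • π (MonoidAlgebra.of S L l0)) := by
    intro l0
    obtain ⟨p, h1, h2⟩ := h l0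
    obtain ⟨q, h3, h4⟩ := exists_leadingCoeff P I hPI _ p h1 h2
    refine ⟨_, h3, isIntegral_leadingCoeff_smul q _ ?_⟩
    rw [aeval_algHom_apply]
    exact Ideal.Quotient.eq_zero_iff_mem.mpr h4
  choose c hc hint using h'
  obtain ⟨X0, hX0⟩ := (Group.fg_iff_monoid_fg.mp (inferInstance : Group.FG L)).fg_top
  let T' := Algebra.adjoin S ((fun l => c l • π (MonoidAlgebra.of S L l)) '' (X0 : Set L))
  have hfg : T'.toSubmodule.FG := fg_adjoin_of_finite (X0.finite_toSet.image _) (by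
    rintro _ ⟨l, -, rfl⟩; exact hint l)
  obtain ⟨r, g', hg'⟩ := Submodule.fg_iff_exists_fin_generating_family.mp hfg
  choose g hg using fun j => Ideal.Quotient.mkₐ_surjective S I (g' j)
  have h1P : (1 : S) ∉ P := fun h => hP.ne_top ((Ideal.eq_top_iff_one _).mpr h)
  have hmon : ∀ l, ∃ d, d ∉ P ∧ d • π (MonoidAlgebra.of S L l) ∈ T' := by
    intro l
    have hl : l ∈ Submonoid.closure (X0 : Set L) := hX0 ▸ Submonoid.mem_top l
    induction hl using Submonoid.closure_induction with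
    | mem l hl => exact ⟨c l, hc l, Algebra.subset_adjoin ⟨l, hl, rfl⟩⟩
    | one => exact ⟨1, h1P, by rw [map_one, map_one, one_smul]; exact T'.one_mem⟩
    | mul a b _ _ ha hb =>
      obtain ⟨d, hd, ha⟩ := ha
      obtain ⟨d', hd', hb⟩ := hb
      refine ⟨d * d', fun h => (hP.mem_or_mem h).elim hd hd', ?_⟩
      rw [map_mul, map_mul, ← smul_mul_smul_comm]
      exact T'.mul_mem ha hb
  have hall : ∀ t, ∃ d, d ∉ P ∧ d • π t ∈ T' := by
    intro t
    induction t using MonoidAlgebra.induction_on with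
    | of l => exact hmon l
    | add a b ha hb =>
      obtain ⟨d, hd, ha⟩ := ha
      obtain ⟨d', hd', hb⟩ := hb
      refine ⟨d * d', fun h => (hP.mem_or_mem h).elim hd hd', ?_⟩
      rw [map_add, smul_add]
      refine T'.add_mem ?_ ?_
      · rw [mul_comm, mul_smul]; exact T'.smul_mem ha _
      · rw [mul_smul]; exact T'.smul_mem hb _
    | smul r a ha =>
      obtain ⟨d, hd, ha⟩ := ha
      refine ⟨d, hd, ?_⟩
      rw [map_smul, smul_comm]; exact T'.smul_mem ha _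
  refine ⟨r, g, fun t => ?_⟩
  obtain ⟨d, hd, ht⟩ := hall t
  have ht' : d • π t ∈ Submodule.span S (Set.range g') := by rw [hg']; exact ht
  obtain ⟨c', hc'⟩ := (Submodule.mem_span_range_iff_exists_fun _).mp ht'
  refine ⟨d, hd, c', Ideal.Quotient.eq_zero_iff_mem.mp ?_⟩
  change π _ = 0
  rw [map_sub, map_smul, map_sum, ← hc']
  simp only [map_smul, π, hg, sub_self]

end Val

theorem exists_nilpotent_sub {C : Type*} [CommRing C] [IsNoetherianRing C] {A : Type*} [Infinite A]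
    (u : A → C) (hu : ∀ a, u a * u a = 1) : ∃ a b, a ≠ b ∧ IsNilpotent (u a - u b) := by
  classical
  have : Finite (minimalPrimes C) := (minimalPrimes.finite_of_isNoetherianRing C).to_subtype
  obtain ⟨a, b, hab, h⟩ := Finite.exists_ne_map_eq_of_infinite
    fun (a : A) (p : minimalPrimes C) => u a - 1 ∈ p.1
  refine ⟨a, b, hab, ?_⟩
  rw [← mem_nilradical, nilradical, Ideal.zero_eq_bot, ← Ideal.sInf_minimalPrimes,
    Submodule.mem_sInf]
  intro p hp
  have hprime : Ideal.IsPrime p := hp.1.1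
  have h1 : (u a - 1 ∈ p) = (u b - 1 ∈ p) := congrFun h ⟨p, hp⟩
  have h2 : ∀ a, u a - 1 ∈ p ∨ u a + 1 ∈ p := fun a => hprime.mem_or_mem (by
    have : (u a - 1) * (u a + 1) = 0 := by linear_combination hu a
    rw [this]; exact p.zero_mem)
  by_cases h3 : u a - 1 ∈ p
  · have := p.sub_mem h3 (h1 ▸ h3)
    simpa using this
  · have := p.sub_mem ((h2 a).resolve_left h3) ((h2 b).resolve_left (h1 ▸ h3))
    simpa using this

end Pool.Agent.P.MP_e2f787_al
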