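import Pool.Agent.P.MP_e2f787_al.Reduce3

/-! The counterexample. -/

namespace Pool.Agent.P.MP_e2f787_al

open Module SemidirectProduct MonoidAlgebra

theorem fg_map' {G H : Type*} [Group G] [Group H] {K : Subgroup G} (h : K.FG) (f : G →* H) :
    (K.map f).FG :=
  (Subgroup.fg_iff_submonoid_fg _).mpr (((Subgroup.fg_iff_submonoid_fg _).mp h).map f)

theorem fg_ext {H L Z : Type*} [Group H] [CommGroup L] [CommGroup Z] [Group.FG L] [Group.FG Z]
    (j : L →* H) (π : H →* Z) (h : π.ker ≤ j.range) (K : Subgroup H) : K.FG := by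
  obtain ⟨T, hT1, hT2⟩ := (Subgroup.fg_iff _).mp (subgroup_fg (K.map π))
  choose! s hs1 hs2 using fun t (ht : t ∈ T) =>
    (show t ∈ K.map π from hT1 ▸ Subgroup.subset_closure ht)
  have h1 : (Subgroup.closure (s '' T)).map π = K.map π := by
    rw [MonoidHom.map_closure, Set.image_image, ← hT1]
    congr 1
    exact (Set.image_congr hs2).trans (Set.image_id T)
  have h2 : Subgroup.closure (s '' T) ≤ K := by
    rw [Subgroup.closure_le]
    rintro _ ⟨t, ht, rfl⟩
    exact hs1 t ht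
  have : K = Subgroup.closure (s '' T) ⊔ (K.comap j).map j := by
    refine le_antisymm (fun x hx => ?_) (sup_le h2 (Subgroup.map_comap_le _ _))
    obtain ⟨c, hc, hcx⟩ : π x ∈ (Subgroup.closure (s '' T)).map π := h1 ▸ ⟨x, hx, rfl⟩
    obtain ⟨l, hl⟩ := h (show c⁻¹ * x ∈ π.ker by simp [MonoidHom.mem_ker, hcx])
    rw [show x = c * j l by rw [hl]; simp]
    exact Subgroup.mul_mem_sup hc ⟨l, show j l ∈ K from hl ▸ K.mul_mem (K.inv_mem (h2 hc)) hx, rfl⟩
  rw [this]
  exact ((Subgroup.fg_iff _).mpr ⟨_, rfl, hT2.image s⟩).sup (fg_map' (subgroup_fg _) j)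

theorem reduce' {H : Type} [Group H] {E : Type} [AddCommGroup E] (h2 : ∀ e : E, e + e = 0)
    (φ : H →* MulAut (Multiplicative E))
    (hinf : ∀ e : Multiplicative E, e ≠ 1 → (Set.range fun h => φ h e).Infinite)
    (G : Subgroup (Multiplicative E ⋊[φ] H)) (hG : ∀ h, inr h ∈ G) {e₀ : Multiplicative E}
    (he₀ : e₀ ≠ 1) (he₁ : inl e₀ ∈ G) {M : Type} [Group M] [Group.FG M]
    (hM : derivedSeries M 2 = ⊥) (f : G →* MulAut M) (hf : Function.Injective f) :
    ∃ (P : AddSubgroup E) (W : Type) (_ : AddCommGroup W) (_ : Module (ZMod 2) W)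
      (ρ : (M ⋊[f] G) →* End (ZMod 2) W) (j : H →* M ⋊[f] G) (ι : P →+ W), P ≠ ⊥ ∧
      Function.Injective ι ∧ (∀ m m', Commute (ρ (inl m)) (ρ (inl m'))) ∧
      Noeth (Set.range (ρ.comp inl)) ⊤ ∧
      ∀ h (p : P), ∃ p' : P, Multiplicative.ofAdd p'.1 = φ h (Multiplicative.ofAdd p.1) ∧
        ι p' = ρ (j h) (ι p) := by
  let A := (rightHom.comp G.subtype).ker
  have hA : ∀ a ∈ A, a.1 = inl a.1.left := fun a ha => by
    ext1
    · rfl
    · exact ha
  have hconj : ∀ h e, (inr h * inl e * (inr h)⁻¹ : Multiplicative E ⋊[φ] H) = inl (φ h e) :=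
    fun h e => by rw [inl_aut, map_inv]
  obtain ⟨A₁, W, _, _, ρ, ι, hn, hle, hne, hc, hNo, hι1, hι2, hι3⟩ := reduce hM f hf A
    (fun a ha b hb => Subtype.ext (by
      rw [Subgroup.coe_mul, Subgroup.coe_mul, hA a ha, hA b hb, ← map_mul, ← map_mul, mul_comm]))
    (fun a ha => Subtype.ext (by
      rw [Subgroup.coe_mul, hA a ha, ← map_mul, show a.1.left * a.1.left = 1 from h2 _, map_one]
      rfl))
    (fun h => he₀ (inl_injective (φ := φ) (by
      have : (⟨_, he₁⟩ : G) ∈ A := by simp [A, MonoidHom.mem_ker]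
      rw [h] at this
      simpa using this)))
    (fun A' hn hle hne => by
      obtain ⟨⟨a, ha⟩, ha1⟩ := Subgroup.ne_bot_iff_exists_ne_one.mp hne
      have h1 : a.1.left ≠ 1 := fun h => ha1 (Subtype.ext (Subtype.ext (by
        change a.1 = 1
        rw [hA a (hle ha), h, map_one])))
      refine Set.infinite_coe_iff.mpr (Set.Infinite.of_image (fun g : G => g.1.left)
        ((hinf _ h1).mono ?_))
      rintro _ ⟨h, rfl⟩
      refine ⟨_, hn.conj_mem a ha ⟨_, hG h⟩, ?_⟩
      change (inr h * a.1 * (inr h)⁻¹).left = _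
      rw [hA a (hle ha), hconj]
      rfl)
  let P : AddSubgroup E := Subgroup.toAddSubgroup' ((A₁.map G.subtype).comap inl)
  have hP : ∀ p : P, ∃ a ∈ A₁, a.1 = inl (Multiplicative.ofAdd p.1) := fun p => p.2
  choose s hs1 hs2 using hP
  have hs3 : ∀ p q, s (p + q) = s p * s q := fun p q => Subtype.ext (by
    rw [Subgroup.coe_mul, hs2, hs2, hs2, ← map_mul]; rfl)
  refine ⟨P, W, inferInstance, inferInstance, ρ, inr.comp (inr.codRestrict G hG),
    AddMonoidHom.mk' (fun p => ι (s p)) fun p q => by rw [hs3, hι1 _ (hs1 p) _ (hs1 q)],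
    ?_, ?_, hc, hNo, fun h p => ?_⟩
  · obtain ⟨⟨a, ha⟩, ha1⟩ := Subgroup.ne_bot_iff_exists_ne_one.mp hne
    refine AddSubgroup.ne_bot_iff_exists_ne_zero.mpr
      ⟨⟨a.1.left.toAdd, a, ha, hA a (hle ha)⟩, fun h => ha1 (Subtype.ext (Subtype.ext ?_))⟩
    have h1 : a.1.left = 1 := congrArg Subtype.val h
    change a.1 = 1
    rw [hA a (hle ha), h1, map_one]
  · rw [injective_iff_map_eq_zero]
    intro p hp
    have h1 := hs2 p
    rw [hι2 _ (hs1 p) hp] at h1
    exact Subtype.ext (inl_injective (φ := φ) (h1.symm.trans (map_one _).symm))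
  · have h1 : (⟨_, hG h⟩ * s p * (⟨_, hG h⟩ : G)⁻¹ : G).1 =
        inl (φ h (Multiplicative.ofAdd p.1)) := by
      rw [← hconj, ← hs2]; rfl
    refine ⟨⟨(φ h (Multiplicative.ofAdd p.1)).toAdd, _, hn.conj_mem _ (hs1 p) _, h1⟩, rfl, ?_⟩
    refine Eq.trans (congrArg ι (Subtype.ext ((hs2 _).trans h1.symm))) (hι3 _ _ (hs1 p))

theorem conj_zpow_of {L K : Type*} [Group L] [Group K] (σ : MulAut L) (fn : L →* K) (Y : K)
    (h : ∀ l, Y * fn l = fn (σ l) * Y) (z : ℤ) : ∀ l, Y ^ z * fn l = fn ((σ ^ z) l) * Y ^ z := by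
  induction z using Int.induction_on with
  | zero => simp
  | succ n ih => intro l; rw [zpow_add_one, zpow_add_one, mul_assoc, h, ← mul_assoc, ih, mul_assoc]; rfl
  | pred n ih =>
    intro l
    have h1 : Y⁻¹ * fn l = fn (σ⁻¹ l) * Y⁻¹ := by
      rw [inv_mul_eq_iff_eq_mul, ← mul_assoc, h]; simp
    rw [zpow_sub_one, zpow_sub_one, mul_assoc, h1, ← mul_assoc, ih, mul_assoc]; rfl

theorem main_abs {L : Type} [CommGroup L] [Group.FG L] [UniqueProds L] [IsMulTorsionFree L]
    [Infinite L] {σ : MulAut L} (hσ : Hyp σ) (hσ2 : ∀ z : ℤ, z ≠ 0 → ∃ l, (σ ^ z) l ≠ l)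
    {Zg : Type*} [CommGroup Zg] [IsMulTorsionFree Zg]
    [UniqueProds Zg] (χ : L →* Zg) (l0 : L) (hl0 : χ l0 ≠ 1) (x : L) (hx : χ x = 1) (hx1 : x ≠ 1) :
    ¬ (∀ (G : Type) [Group G] [Group.FG G] (A : Subgroup G) [A.Normal],
      (∀ x ∈ A, ∀ y ∈ A, x * y = y * x) →
      (∀ H : Subgroup (G ⧸ A), H.FG) →
      (∃ K : Subgroup (G ⧸ A), K.index ≠ 0 ∧ Group.IsSolvable K) →
      ∃ (M : Type) (_ : Group M), Group.FG M ∧ derivedSeries M 2 = ⊥ ∧
        ∃ f : G →* MulAut M, Function.Injective f) := by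
  intro hall
  let R := MonoidAlgebra (ZMod 2) L
  let E := FractionRing R
  let am := algebraMap R E
  have ham : Function.Injective am := IsFractionRing.injective R E
  have hsm : ∀ (r : ZMod 2) (s : R), r • s = 0 ∨ r • s = s := fun r s => by
    fin_cases r
    · exact Or.inl (zero_smul _ s)
    · exact Or.inr (one_smul _ s)
  have h2 : ∀ e : E, e + e = 0 := fun e => by
    have : (1 : R) + 1 = 0 := by
      rw [← two_smul (ZMod 2) (1 : R), show (2 : ZMod 2) = 0 from rfl, zero_smul]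
    have h := congrArg am this
    rw [map_add, map_one, map_zero] at h
    rw [← mul_one e, ← mul_add, h, mul_zero]
  let τ : E ≃+* E := IsFractionRing.ringEquivOfRingEquiv (domCongr (ZMod 2) (ZMod 2) σ).toRingEquiv
  have hτ : ∀ r, τ (am r) = am (domCongr (ZMod 2) (ZMod 2) σ r) := fun r =>
    IsFractionRing.ringEquivOfRingEquiv_algebraMap _ r
  let mu : Eˣ →* MulAut (Multiplicative E) :=
    { toFun := fun u => AddEquiv.toMultiplicative (DistribMulAction.toAddEquiv E u)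
      map_one' := by ext; simp
      map_mul' := fun a b => by ext; simp [mul_smul] }
  let fn : L →* MulAut (Multiplicative E) :=
    mu.comp (am.toMonoidHom.comp (of (ZMod 2) L)).toHomUnits
  have hfn : ∀ l e, fn l (Multiplicative.ofAdd e) = Multiplicative.ofAdd (am (single l 1) * e) :=
    fun _ _ => rfl
  have hxu : am (single x 1 - 1) ≠ 0 := by
    rw [map_ne_zero_iff _ ham, sub_ne_zero]
    exact fun h => hx1 (of_injective (R := ZMod 2) (h.trans (map_one _).symm))
  let Y : MulAut (Multiplicative E) :=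
    mu (Units.mk0 _ hxu) * AddEquiv.toMultiplicative τ.toAddEquiv
  have hY : ∀ e, Y (Multiplicative.ofAdd e) = Multiplicative.ofAdd (am (single x 1 - 1) * τ e) :=
    fun _ => rfl
  have hyl : ∀ l, (inr (Multiplicative.ofAdd 1) * inl l : L ⋊[zpowersHom _ σ] Multiplicative ℤ) =
      inl (σ l) * inr (Multiplicative.ofAdd 1) := fun l => by ext <;> simp
  let H := L ⋊[zpowersHom _ σ] Multiplicative ℤ
  let φ : H →* MulAut (Multiplicative E) := SemidirectProduct.lift fn (zpowersHom _ Y) fun z => by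
    ext1 l
    refine eq_mul_inv_of_mul_eq (conj_zpow_of σ fn Y (fun l => ?_) z.toAdd l).symm
    ext e
    change am _ * τ (am (single l 1) * e.toAdd) = am (single (σ l) 1) * (am _ * τ e.toAdd)
    rw [map_mul, hτ, domCongr_single]
    ring
  have hHfg : ∀ K : Subgroup H, K.FG := fg_ext inl rightHom range_inl_eq_ker_rightHom.ge
  have : Group.IsSolvable H :=
    Group.isSolvable_of_ker_le_range inl rightHom range_inl_eq_ker_rightHom.ge
  obtain ⟨X, hX1, hX2⟩ := (Subgroup.fg_iff _).mp (hHfg ⊤)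
  let G : Subgroup (Multiplicative E ⋊[φ] H) :=
    Subgroup.closure (insert (inl (Multiplicative.ofAdd 1)) (inr '' X))
  have : Group.FG G := (Group.fg_iff_subgroup_fg _).mpr
    ((Subgroup.fg_iff _).mpr ⟨_, rfl, (hX2.image _).insert _⟩)
  have hG : ∀ h, inr h ∈ G := fun h => by
    have : (⊤ : Subgroup H).map inr ≤ G := by
      rw [← hX1, MonoidHom.map_closure]
      exact Subgroup.closure_mono (Set.subset_insert _ _)
    exact this ⟨h, trivial, rfl⟩
  let π := rightHom.comp G.subtype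
  have hA : ∀ a ∈ π.ker, a.1 = inl a.1.left := fun a ha => by
    ext1
    · rfl
    · exact ha
  have := Group.isSolvable_of_isSolvable_injective (QuotientGroup.kerLift_injective π)
  obtain ⟨M, _, _, hM, f, hf⟩ := hall G π.ker
    (fun a ha b hb => Subtype.ext (by
      rw [Subgroup.coe_mul, Subgroup.coe_mul, hA a ha, hA b hb, ← map_mul, ← map_mul, mul_comm]))
    (fun K => (Subgroup.fg_iff_submonoid_fg _).mpr (Submonoid.FG.map_injective
      (QuotientGroup.kerLift π) (QuotientGroup.kerLift_injective π)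
      ((Subgroup.fg_iff_submonoid_fg _).mp (hHfg (K.map _)))))
    ⟨⊤, by simp, inferInstance⟩
  have hφl : ∀ l, φ (inl l) = fn l := fun l => lift_inl _ _ _ l
  obtain ⟨P, W, _, _, ρ, j, ι, hP, hι, hc, hNo, hιe⟩ := reduce' h2 φ (fun e he => by
      refine Set.Infinite.mono (s := Set.range fun l => φ (inl l) e)
        (by rintro _ ⟨l, rfl⟩; exact ⟨_, rfl⟩) (Set.infinite_range_of_injective fun a b hab => ?_)
      simp only [hφl] at hab
      exact of_injective (R := ZMod 2) (ham (mul_right_cancel₀ (b := e.toAdd) he hab)))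
    G hG (e₀ := Multiplicative.ofAdd 1) (one_ne_zero (α := E))
    (Subgroup.subset_closure (Set.mem_insert _ _)) hM f hf
  have hPm : ∀ (s : R), ∀ e ∈ P, am s * e ∈ P := fun s e he => by
    induction s using MonoidAlgebra.induction_on with
    | of l =>
      obtain ⟨p', h1, -⟩ := hιe (inl l) ⟨e, he⟩
      rw [hφl, hfn] at h1
      exact (show p'.1 = am (single l 1) * e from h1) ▸ p'.2
    | add a b ha hb => rw [map_add, add_mul]; exact P.add_mem ha hb
    | smul r a ha =>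
      rcases hsm r a with h | h <;> rw [h]
      · simp
      · exact ha
  let 𝔞 : Ideal R :=
    { toAddSubmonoid := (P.comap am.toAddMonoidHom).toAddSubmonoid
      smul_mem' := fun s r hr => by
        change am (s * r) ∈ P
        rw [map_mul]; exact hPm s _ hr }
  let ι0 : 𝔞 →+ P := AddMonoidHom.mk' (fun r => ⟨am r.1, r.2⟩) fun a b => Subtype.ext (map_add _ _ _)
  refine M1 hσ hσ2 χ l0 hl0 x hx ρ inl (fun g m => ?_) hc (j.comp inl)
    (j (inr (Multiplicative.ofAdd 1))) (fun l => ?_) hNo 𝔞 ?_ ((ι.comp ι0).toZModLinearMap 2)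
    (hι.comp fun a b hab => Subtype.ext (ham (congrArg Subtype.val hab))) (fun l r => ?_)
    fun r => ?_
  · have : g * inl m * g⁻¹ ∈ (inl : M →* M ⋊[f] G).range := by
      rw [range_inl_eq_ker_rightHom]
      exact (MonoidHom.normal_ker _).conj_mem _ (rightHom_inl m) g
    exact this.imp fun _ h => h.symm
  · rw [MonoidHom.comp_apply, MonoidHom.comp_apply, ← map_mul, ← map_mul]
    exact congrArg j (hyl l)
  · obtain ⟨⟨e, he⟩, he0⟩ := AddSubgroup.ne_bot_iff_exists_ne_zero.mp hP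
    obtain ⟨a, b, hb, hab⟩ := IsFractionRing.div_surjective (A := R) e
    have hb' : am b ≠ 0 := (map_ne_zero_iff _ ham).mpr (nonZeroDivisors.ne_zero hb)
    refine (Submodule.ne_bot_iff _).mpr ⟨a, ?_, ?_⟩
    · have := hPm b e he
      rwa [← hab, mul_div_cancel₀ _ hb'] at this
    · rintro rfl
      exact he0 (Subtype.ext (by simpa using hab.symm))
  · obtain ⟨p', h1, h3⟩ := hιe (inl l) (ι0 r)
    rw [hφl, hfn] at h1
    refine Eq.trans (congrArg ι (Subtype.ext ?_)) h3
    exact (map_mul am _ _).trans (Eq.symm h1)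
  · obtain ⟨p', h1, h3⟩ := hιe (inr (Multiplicative.ofAdd 1)) (ι0 r)
    have h4 : φ (inr (Multiplicative.ofAdd 1)) = Y := (lift_inr _ _ _ _).trans (zpow_one Y)
    rw [h4, hY] at h1
    have h5 : am ((single x 1 - 1) * domCongr (ZMod 2) (ZMod 2) σ r) = p'.1 := by
      rw [map_mul, ← hτ]; exact h1.symm
    exact ⟨⟨_, show am _ ∈ P from h5 ▸ p'.2⟩, rfl, Eq.trans (congrArg ι (Subtype.ext h5)) h3⟩

/-- The Fibonacci automorphism. -/
def fib : MulAut (Multiplicative (ℤ × ℤ)) :=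
  AddEquiv.toMultiplicative
    { toFun := fun p => (p.1 + p.2, p.1)
      invFun := fun p => (p.2, p.1 - p.2)
      left_inv := fun p => by ext <;> simp
      right_inv := fun p => by ext <;> simp
      map_add' := fun p q => by ext <;> simp; ring }

def det2 (u v : Multiplicative (ℤ × ℤ)) : ℤ := u.toAdd.1 * v.toAdd.2 - u.toAdd.2 * v.toAdd.1

theorem fib_pow (d : Multiplicative (ℤ × ℤ)) (n : ℕ) : ∃ c c' : ℤ, 0 < c ∧ 0 < c' ∧
    ((fib ^ (n + 2)) d).toAdd.1 = c * (d.toAdd.1 + d.toAdd.2) + c' * d.toAdd.1 ∧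
    ((fib ^ (n + 2)) d).toAdd.2 = c * d.toAdd.1 + c' * d.toAdd.2 := by
  induction n with
  | zero =>
    refine ⟨1, 1, one_pos, one_pos, ?_, ?_⟩
    · change d.toAdd.1 + d.toAdd.2 + d.toAdd.1 = _; ring
    · change d.toAdd.1 + d.toAdd.2 = _; ring
  | succ n ih =>
    obtain ⟨c, c', h1, h2, h3, h4⟩ := ih
    refine ⟨c + c', c, by omega, h1, ?_, ?_⟩
    · rw [add_right_comm, pow_succ']
      change ((fib ^ (n + 2)) d).toAdd.1 + ((fib ^ (n + 2)) d).toAdd.2 = _
      rw [h3, h4]; ring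
    · rw [add_right_comm, pow_succ']
      change ((fib ^ (n + 2)) d).toAdd.1 = _
      rw [h3]; ring

theorem det_fib_nat (d : Multiplicative (ℤ × ℤ)) (hd : d ≠ 1) (n : ℕ) (hn : n ≠ 0) :
    det2 d ((fib ^ n) d) ≠ 0 := by
  have hQ : d.toAdd.1 * d.toAdd.1 - d.toAdd.1 * d.toAdd.2 - d.toAdd.2 * d.toAdd.2 ≠ 0 := by
    intro h
    have h1 := (Zsqrtd.norm_eq_zero (d := 5) (fun n hn => by
      have : n % 4 = 0 ∨ n % 4 = 1 ∨ n % 4 = 2 ∨ n % 4 = 3 := by omega
      have h2 : n ≤ 2 := by nlinarith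
      have h3 : -2 ≤ n := by nlinarith
      interval_cases n <;> omega) ⟨2 * d.toAdd.1 - d.toAdd.2, d.toAdd.2⟩).mp (by
      rw [Zsqrtd.norm_def]; linear_combination 4 * h)
    have h2 : 2 * d.toAdd.1 - d.toAdd.2 = 0 := congrArg Zsqrtd.re h1
    have h3 : d.toAdd.2 = 0 := congrArg Zsqrtd.im h1
    exact hd (Multiplicative.toAdd.injective (Prod.ext (by change d.toAdd.1 = 0; omega) h3))
  obtain ⟨n, rfl⟩ := Nat.exists_eq_succ_of_ne_zero hn
  rcases n with _ | n
  · intro h
    refine hQ ?_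
    change d.toAdd.1 * d.toAdd.1 - d.toAdd.2 * (d.toAdd.1 + d.toAdd.2) = 0 at h
    linear_combination h
  · obtain ⟨c, c', h1, -, h3, h4⟩ := fib_pow d n
    intro h
    refine mul_ne_zero h1.ne' hQ ?_
    change d.toAdd.1 * ((fib ^ (n + 2)) d).toAdd.2 - d.toAdd.2 * ((fib ^ (n + 2)) d).toAdd.1 = 0 at h
    rw [h3, h4] at h
    linear_combination h

theorem det_fib (d : Multiplicative (ℤ × ℤ)) (hd : d ≠ 1) (z z' : ℤ) (hz : z ≠ z') :
    det2 ((fib ^ z) d) ((fib ^ z') d) ≠ 0 := by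
  wlog h : z < z' generalizing z z'
  · intro h'
    refine this z' z hz.symm (by omega) ?_
    unfold det2 at h' ⊢
    linear_combination -h'
  obtain ⟨n, rfl⟩ := Int.le.dest h.le
  have := det_fib_nat ((fib ^ z) d) (by simpa using hd) n (by omega)
  rw [add_comm, zpow_add, zpow_natCast]
  exact this

theorem hyp_fib : Hyp fib := by
  intro d hd z z' hz
  refine ⟨_, Int.natAbs_pos.mpr (det_fib d hd z z' hz), fun K h1 h2 l => ?_⟩
  generalize (fib ^ z) d = u at *
  generalize (fib ^ z') d = v at *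
  have h3 : l ^ det2 u v = u ^ det2 l v * v ^ det2 u l := by
    refine Multiplicative.toAdd.injective (Prod.ext ?_ ?_) <;> simp [det2] <;> ring
  have h4 : l ^ det2 u v ∈ K := h3 ▸ K.mul_mem (K.zpow_mem h1 _) (K.zpow_mem h2 _)
  rcases Int.natAbs_eq (det2 u v) with h | h <;> rw [h] at h4
  · rwa [zpow_natCast] at h4
  · rwa [zpow_neg, inv_mem_iff, zpow_natCast] at h4

theorem main :
    ¬ (∀ (G : Type) [Group G] [Group.FG G] (A : Subgroup G) [A.Normal],
      (∀ x ∈ A, ∀ y ∈ A, x * y = y * x) →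
      (∀ H : Subgroup (G ⧸ A), H.FG) →
      (∃ K : Subgroup (G ⧸ A), K.index ≠ 0 ∧ Group.IsSolvable K) →
      ∃ (M : Type) (_ : Group M), Group.FG M ∧ derivedSeries M 2 = ⊥ ∧
        ∃ f : G →* MulAut M, Function.Injective f) := by
  refine main_abs hyp_fib (fun z hz => ⟨Multiplicative.ofAdd (1, 0), fun h => ?_⟩)
    (AddMonoidHom.toMultiplicative (AddMonoidHom.snd ℤ ℤ)) (Multiplicative.ofAdd (0, 1))
    (by decide) (Multiplicative.ofAdd (1, 0)) rfl (by decide)
  refine det_fib (Multiplicative.ofAdd (1, 0)) (by decide) z 0 hz ?_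
  rw [h]
  rfl

end Pool.Agent.P.MP_e2f787_al
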