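import Pool.Agent.P.MP_e2f787_al.Inner2

/-! Group level lemmas, non-tameness, norms. -/

namespace Pool.Agent.P.MP_e2f787_al

open Module MonoidAlgebra

section Grp

variable {k : Type*} [CommRing k] {W : Type*} [AddCommGroup W] [Module k W]
variable {G : Type*} [Group G] (ρ : G →* End k W)

theorem rho_mul (a b : G) (v : W) : ρ (a * b) v = ρ a (ρ b v) := by rw [map_mul]; rfl

theorem rho_inv_self (a : G) (v : W) : ρ a⁻¹ (ρ a v) = v := by rw [← rho_mul]; simp

theorem rho_self_inv (a : G) (v : W) : ρ a (ρ a⁻¹ v) = v := by rw [← rho_mul]; simp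

theorem rho_bij (a : G) : Function.Bijective (ρ a) :=
  Function.bijective_iff_has_inverse.mpr ⟨ρ a⁻¹, rho_inv_self ρ a, rho_self_inv ρ a⟩

def stab (N : Submodule k W) : Subgroup G where
  carrier := {g | (∀ v ∈ N, ρ g v ∈ N) ∧ ∀ v ∈ N, ρ g⁻¹ v ∈ N}
  mul_mem' := fun {a b} ha hb => ⟨fun v hv => by rw [rho_mul]; exact ha.1 _ (hb.1 v hv),
    fun v hv => by rw [mul_inv_rev, rho_mul]; exact hb.2 _ (ha.2 v hv)⟩
  one_mem' := ⟨fun v hv => by simpa using hv, fun v hv => by simpa using hv⟩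
  inv_mem' := fun {a} ha => ⟨ha.2, by simpa using ha.1⟩

theorem inv_iff_le_stab (H : Subgroup G) (N : Submodule k W) :
    Inv (ρ '' H) N ↔ H ≤ stab ρ N :=
  ⟨fun h g hg => ⟨h _ ⟨g, hg, rfl⟩, h _ ⟨g⁻¹, H.inv_mem hg, rfl⟩⟩,
    by rintro h _ ⟨g, hg, rfl⟩; exact (h hg).1⟩

theorem inv_sup_iff (H H' : Subgroup G) (N : Submodule k W) :
    Inv (ρ '' (H ⊔ H' : Subgroup G)) N ↔ Inv (ρ '' H) N ∧ Inv (ρ '' H') N := by
  simp only [inv_iff_le_stab, sup_le_iff]

theorem nrm_group {H : Subgroup G} {q : G} (h1 : ∀ g ∈ H, q * g * q⁻¹ ∈ H)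
    (h2 : ∀ g ∈ H, q⁻¹ * g * q ∈ H) : Nrm (ρ '' H) (ρ q) := by
  constructor
  · rintro N hN _ ⟨g, hg, rfl⟩ _ ⟨v, hv, rfl⟩
    refine ⟨ρ (q⁻¹ * g * q) v, hN _ ⟨_, h2 g hg, rfl⟩ v hv, ?_⟩
    rw [← rho_mul, ← rho_mul]; congr 2; group
  · rintro N hN _ ⟨g, hg, rfl⟩ v hv
    change ρ q (ρ g v) ∈ N
    have : ρ q (ρ g v) = ρ (q * g * q⁻¹) (ρ q v) := by
      rw [← rho_mul, ← rho_mul]; congr 2; group
    rw [this]
    exact hN _ ⟨_, h1 g hg, rfl⟩ _ hv

theorem Nrm.insert_comm {Γ : Set (End k W)} {t t' : End k W} (h : Nrm Γ t) (hc : Commute t' t) :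
    Nrm (insert t' Γ) t := by
  have h' : Nrm {t'} t := nrm_of_commute fun f hf => by rw [Set.mem_singleton_iff.mp hf]; exact hc
  constructor
  · intro N hN
    rw [inv_insert] at hN ⊢
    exact ⟨h'.1 N (fun f hf => by rw [Set.mem_singleton_iff.mp hf]; exact hN.1) _ rfl, h.1 N hN.2⟩
  · intro N hN
    rw [inv_insert] at hN ⊢
    exact ⟨h'.2 N (fun f hf => by rw [Set.mem_singleton_iff.mp hf]; exact hN.1) _ rfl, h.2 N hN.2⟩

theorem good_step_group {R : Type*} [CommMonoid R] {θ : R →* End k W} {D : Submonoid R}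
    {Γ₀ : Set (End k W)} {Z : Submodule k W}
    (hD : ∀ N, Inv Γ₀ N → ∀ d ∈ D, ∀ v ∈ N, θ d v ∈ N) {H : Subgroup G} {q : G}
    (h : Good θ D Γ₀ Z (ρ '' H)) (h1 : ∀ g ∈ H, q * g * q⁻¹ ∈ H) (h2 : ∀ g ∈ H, q⁻¹ * g * q ∈ H)
    (hZ : q ∈ stab ρ Z) (hc : ∀ g ∈ H ⊔ Subgroup.zpowers q, ∀ d ∈ D, Commute (ρ g) (θ d)) :
    Good θ D Γ₀ Z (ρ '' (H ⊔ Subgroup.zpowers q : Subgroup G)) := by
  have hq : q ∈ H ⊔ Subgroup.zpowers q := Subgroup.mem_sup_right (Subgroup.mem_zpowers q)
  refine ((h.step hD (nrm_group ρ h1 h2) hZ.1 (hc q hq)).step hD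
    ((nrm_group ρ (q := q⁻¹) (by simpa using h2) (by simpa using h1)).insert_comm
      ((Commute.refl q).inv_right.map ρ)) hZ.2 (hc _ (Subgroup.inv_mem _ hq))).congr ?_ ?_
  · intro N
    rw [inv_insert, inv_insert, inv_sup_iff, inv_iff_le_stab ρ (Subgroup.zpowers q),
      Subgroup.zpowers_le]
    exact ⟨fun h => ⟨h.2.2, h.2.1, h.1⟩, fun h => ⟨h.2.2, h.2.1, h.1⟩⟩
  · rintro _ ⟨g, hg, rfl⟩
    exact hc g hg

end Grp

theorem noeth_finiteIndex {k : Type*} [CommRing k] [IsNoetherianRing k] {W : Type*}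
    [AddCommGroup W] [Module k W] {G : Type*} [CommGroup G] [Group.FG G] (ρ : G →* End k W)
    {N : ℕ} (hN : N ≠ 0) {S : Set W} (hS : S.Finite) :
    Noeth (Set.range (ρ.comp (powMonoidHom N))) (gen (Set.range ρ) S) := by
  have := Subgroup.finiteIndex_range_powMonoidHom_of_fg G hN
  let S1 := Set.image2 (fun (x : G ⧸ (powMonoidHom N : G →* G).range) v => ρ x.out v) Set.univ S
  refine (locNoeth_range (ρ.comp (powMonoidHom N)) (fun a b => (Commute.all a b).map _) S1
    (Set.finite_univ.image2 _ hS)).mono ?_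
  set M := gen (Set.range (ρ.comp (powMonoidHom N))) S1
  let M' : Submodule k W := ⨅ g, M.comap (ρ g)
  have hM' : ∀ v, v ∈ M' ↔ ∀ g, ρ g v ∈ M := fun v => by simp [M']
  refine (gen_le (N := M') ?_ ?_).trans fun v hv => by simpa using (hM' v).mp hv 1
  · rintro _ ⟨g, rfl⟩ v hv
    rw [hM'] at hv ⊢
    intro g'
    rw [← rho_mul]; exact hv _
  · intro v hv
    refine (hM' v).mpr fun g => ?_
    obtain ⟨⟨_, h, rfl⟩, hh⟩ := QuotientGroup.mk_out_eq_mul (powMonoidHom N : G →* G).range g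
    have : g = (h⁻¹) ^ N * (QuotientGroup.mk g : G ⧸ (powMonoidHom N : G →* G).range).out := by
      rw [hh]; simp [mul_comm]
    rw [this, rho_mul]
    exact inv_gen (Γ := Set.range (ρ.comp (powMonoidHom N))) _ ⟨h⁻¹, rfl⟩ _
      (subset_gen ⟨_, trivial, v, hv, rfl⟩)

theorem exists_fixed {L : Type*} [CommGroup L] [Group.FG L] {V : Type*} [AddCommGroup V]
    (a : L →* End ℤ V) (ha : ∀ l v, ∃ n : ℕ, ((a l - 1) ^ n) v = 0) (U : Submodule ℤ V)
    (hU : U ≠ ⊤) (hinv : ∀ l, ∀ v ∈ U, a l v ∈ U) : ∃ v, v ∉ U ∧ ∀ l, a l v - v ∈ U := by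
  classical
  obtain ⟨X, hX⟩ := (Group.fg_iff_monoid_fg.mp (inferInstance : Group.FG L)).fg_top
  have hinv' : ∀ l (n : ℕ), ∀ v ∈ U, ((a l - 1) ^ n) v ∈ U := fun l n =>
    Module.End.pow_apply_mem_of_forall_mem n fun v hv => U.sub_mem (hinv l v hv) hv
  have key : ∃ v, v ∉ U ∧ ∀ l ∈ X, (a l - 1) v ∈ U := by
    clear hX
    induction X using Finset.induction_on with
    | empty =>
      by_contra hcon
      push Not at hcon
      exact hU (Submodule.eq_top_iff'.mpr fun v => by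
        by_contra h
        simpa using hcon v h)
    | insert x X _ ih =>
      obtain ⟨v, hv, h⟩ := ih
      have hex : ∃ n : ℕ, ((a x - 1) ^ (n + 1)) v ∈ U := by
        obtain ⟨n, hn⟩ := ha x v
        exact ⟨n, by rw [pow_succ', Module.End.mul_apply, hn, map_zero]; exact U.zero_mem⟩
      refine ⟨((a x - 1) ^ Nat.find hex) v, ?_, fun l hl => ?_⟩
      · rcases h0 : Nat.find hex with _ | m
        · simpa using hv
        · exact Nat.find_min hex (by omega : m < Nat.find hex)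
      · rcases Finset.mem_insert.mp hl with rfl | hl
        · have := Nat.find_spec hex
          rwa [pow_succ', Module.End.mul_apply] at this
        · have hc : Commute (a l - 1) (a x - 1) :=
            ((((Commute.all l x).map a).sub_left (Commute.one_left _)).sub_right
              (Commute.one_right _))
          rw [← Module.End.mul_apply, (hc.pow_right _).eq, Module.End.mul_apply]
          exact hinv' x _ _ (h l hl)
  obtain ⟨v, hv, h⟩ := key
  refine ⟨v, hv, fun l => ?_⟩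
  have hl : l ∈ Submonoid.closure (X : Set L) := hX ▸ Submonoid.mem_top l
  induction hl using Submonoid.closure_induction with
  | mem x hx => exact h x hx
  | one => simp
  | mul x y _ _ hx hy =>
    have : a (x * y) v - v = a x (a y v - v) + (a x v - v) := by
      rw [map_mul, Module.End.mul_apply, map_sub]; abel
    rw [this]
    exact U.add_mem (hinv x _ hy) hx

section Norm

variable {k : Type*} [Field k] {L : Type*} [CommGroup L]

theorem exists_norm [UniqueProds L] {N : ℕ} (hN : N ≠ 0) {a : MonoidAlgebra k L} (ha : a ≠ 0) :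
    ∃ f : MonoidAlgebra k L, f ≠ 0 ∧ a ∣ mapDomainRingHom k (powMonoidHom N : L →* L) f := by
  let φ := mapDomainRingHom k (powMonoidHom N : L →* L)
  have hint : φ.IsIntegralElem a := by
    clear ha
    induction a using MonoidAlgebra.induction_linear with
    | zero => exact φ.isIntegralElem_zero
    | add x y hx hy => exact hx.add φ hy
    | single l c =>
      have h1 : single l c = φ (single 1 c) * single l 1 := by
        simp [φ, single_mul_single]
      rw [h1]
      refine (φ.isIntegralElem_map).mul φ ⟨Polynomial.X ^ N - Polynomial.C (single l 1),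
        Polynomial.monic_X_pow_sub_C _ hN, ?_⟩
      simp [φ, single_pow]
  obtain ⟨p, hp, hp'⟩ := hint
  have := Ideal.comap_ne_bot_of_root_mem (f := φ) (I := Ideal.span {a}) ha (Ideal.subset_span rfl)
    hp.ne_zero hp'
  obtain ⟨f, hf, hf0⟩ := Submodule.exists_mem_ne_zero_of_ne_bot this
  exact ⟨f, hf0, Ideal.mem_span_singleton.mp hf⟩

theorem finite_kill {σ : MulAut L} (hσ : Hyp σ) {Zg : Type*} [CommGroup Zg] [IsMulTorsionFree Zg]
    (χ : L →* Zg) (l0 : L) (hl0 : χ l0 ≠ 1) {a : MonoidAlgebra k L} (ha : a ≠ 0) :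
    {i : ℤ | mapDomainRingHom k (χ.comp ((σ ^ i : MulAut L) : L →* L)) a = 0}.Finite := by
  classical
  refine (hσ.finite χ.ker l0 (fun N hN h => hl0 ?_)
    (D := (Set.image2 (· / ·) (a.coeff.support : Set L) a.coeff.support) \ {1})
    ((Set.Finite.image2 _ (Finset.finite_toSet _) (Finset.finite_toSet _)).subset Set.sdiff_subset)
    (by simp)).subset fun i hi => ?_
  · rw [MonoidHom.mem_ker, map_pow] at h
    exact (pow_eq_one_iff_left hN.ne').mp h
  · by_contra hcon
    have hinj : Set.InjOn (χ.comp ((σ ^ i : MulAut L) : L →* L)) a.coeff.support := by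
      intro s hs s' hs' h
      by_contra hne
      refine hcon ⟨s / s', ⟨⟨s, hs, s', hs', rfl⟩, fun h' => hne (div_eq_one.mp h')⟩, ?_⟩
      rw [MonoidHom.mem_ker, map_div, map_div, div_eq_one]
      exact h
    have h1 := Finsupp.mapDomain_support_of_injOn a.coeff hinj
    have h2 : Finsupp.mapDomain (χ.comp ((σ ^ i : MulAut L) : L →* L)) a.coeff = 0 :=
      congrArg MonoidAlgebra.coeff hi
    rw [h2, Finsupp.support_zero, eq_comm, Finset.image_eq_empty, Finsupp.support_eq_empty] at h1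
    exact ha (coeff_eq_zero.mp h1)

theorem nontame {σ : MulAut L} (hσ : Hyp σ) {Zg : Type*} [CommGroup Zg] [IsMulTorsionFree Zg]
    [UniqueProds Zg] (χ : L →* Zg) (l0 : L) (hl0 : χ l0 ≠ 1) (x : L) (hx : χ x = 1)
    {j : ℕ} (hj : 0 < j) {a g : MonoidAlgebra k L} (ha : a ≠ 0) (hg : g ≠ 0)
    (h : ∀ n : ℕ, ∃ e : ℕ, (∏ i ∈ Finset.range (j * n), (single ((σ ^ i) x) 1 - 1)) ∣
      domCongr k k (σ ^ (j * n)) (g ^ e) * a) : False := by
  let κ : ℤ → MonoidAlgebra k L →+* MonoidAlgebra k Zg := fun i =>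
    mapDomainRingHom k (χ.comp ((σ ^ i : MulAut L) : L →* L))
  obtain ⟨i, hi⟩ : ∃ i : ℕ, κ (-(i : ℤ)) a ≠ 0 := by
    by_contra hcon
    push Not at hcon
    exact Set.infinite_of_injective_forall_mem (f := fun n : ℕ => -(n : ℤ))
      (fun a b h => by simpa using h) hcon (finite_kill hσ χ l0 hl0 ha)
  obtain ⟨n, hn⟩ : ∃ n : ℕ, κ (-(i : ℤ) + (j * (n + i + 1) : ℕ)) g ≠ 0 := by
    by_contra hcon
    push Not at hcon
    refine Set.infinite_of_injective_forall_mem
      (f := fun n : ℕ => -(i : ℤ) + (j * (n + i + 1) : ℕ))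
      (fun a b h => ?_) hcon (finite_kill hσ χ l0 hl0 hg)
    have h1 : j * (a + i + 1) = j * (b + i + 1) := by simpa using h
    have := Nat.eq_of_mul_eq_mul_left hj h1
    omega
  obtain ⟨e, he⟩ := h (n + i + 1)
  have h1 : κ (-(i : ℤ)) (single ((σ ^ i) x) 1 - 1) = 0 := by
    have : (σ ^ (-(i : ℤ))) ((σ ^ i) x) = x := by
      rw [zpow_neg, zpow_natCast]; exact (σ ^ i).symm_apply_apply x
    simp only [κ, map_sub, map_one, mapDomainRingHom_apply, mapDomain_single,
      MonoidHom.comp_apply, MonoidHom.coe_coe, this, hx]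
    exact sub_self _
  have hi' : i ∈ Finset.range (j * (n + i + 1)) := Finset.mem_range.mpr (by nlinarith)
  have h2 := map_dvd (κ (-(i : ℤ))) ((Finset.dvd_prod_of_mem _ hi').trans he)
  rw [h1, zero_dvd_iff, map_mul, mul_eq_zero, map_pow, map_pow] at h2
  refine h2.elim (fun h3 => hn ?_) hi
  rw [← pow_eq_zero_iff' .. |>.mp h3 |>.1]
  clear hg hn he h2 h3 h
  induction g using MonoidAlgebra.induction_linear with
  | zero => simp
  | add x y hx hy => rw [map_add, map_add, map_add, hx, hy]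
  | single l c =>
    simp only [κ, domCongr_single, mapDomainRingHom_apply, mapDomain_single, MonoidHom.comp_apply,
      MonoidHom.coe_coe]
    rw [zpow_add, zpow_natCast]; rfl

end Norm

end Pool.Agent.P.MP_e2f787_al
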