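import Pool.Agent.P.MP_e2f787_al.HFits
import Pool.Agent.P.MP_e2f787_al.Final

/-! The dichotomy for finite overgroups of a semidirect product of the plane lattice by a cyclic
group. -/

namespace Pool.Agent.P.MP_e2f787_al.Heis

open Module SemidirectProduct MonoidAlgebra

theorem neg_abs {L : Type} [CommGroup L] [Group.FG L] [UniqueProds L] [IsMulTorsionFree L]
    [Infinite L] {σ : MulAut L} (hσ : Hyp σ) (hσ2 : ∀ z : ℤ, z ≠ 0 → ∃ l, (σ ^ z) l ≠ l)
    {Zg : Type*} [CommGroup Zg] [IsMulTorsionFree Zg]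
    [UniqueProds Zg] (χ : L →* Zg) (l0 : L) (hl0 : χ l0 ≠ 1) (x : L) (hx : χ x = 1) (hx1 : x ≠ 1) :
    ∃ (E : Type) (_ : CommGroup E) (φ : L ⋊[zpowersHom _ σ] Multiplicative ℤ →* MulAut E) (e : E),
      ∀ G : Subgroup (E ⋊[φ] (L ⋊[zpowersHom _ σ] Multiplicative ℤ)), (∀ h, inr h ∈ G) →
        inl e ∈ G → ∀ (M : Type) [Group M] [Group.FG M], derivedSeries M 2 = ⊥ →
        ∀ f : G →* MulAut M, ¬ Function.Injective f := by
  let R := MonoidAlgebra (ZMod 2) L
  let E := FractionRing R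
  let am := algebraMap R E
  have ham : Function.Injective am := IsFractionRing.injective R E
  have hsm : ∀ (r : ZMod 2) (s : R), r • s = 0 ∨ r • s = s := fun r s => by
    fin_cases r
    · exact Or.inl (zero_smul _ s)
    · exact Or.inr (one_smul _ s)
  have h2 : ∀ e : E, e + e = 0 := fun e => by
    have : (1 : R) + 1 = 0 := by
      rw [← two_smul (ZMod 2) (1 : R), show (2 : ZMod 2) = 0 from rfl, zero_smul]
    have h := congrArg am this
    rw [map_add, map_one, map_zero] at h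
    rw [← mul_one e, ← mul_add, h, mul_zero]
  let τ : E ≃+* E := IsFractionRing.ringEquivOfRingEquiv (domCongr (ZMod 2) (ZMod 2) σ).toRingEquiv
  have hτ : ∀ r, τ (am r) = am (domCongr (ZMod 2) (ZMod 2) σ r) := fun r =>
    IsFractionRing.ringEquivOfRingEquiv_algebraMap _ r
  let mu : Eˣ →* MulAut (Multiplicative E) :=
    { toFun := fun u => AddEquiv.toMultiplicative (DistribMulAction.toAddEquiv E u)
      map_one' := by ext; simp
      map_mul' := fun a b => by ext; simp [mul_smul] }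
  let fn : L →* MulAut (Multiplicative E) :=
    mu.comp (am.toMonoidHom.comp (of (ZMod 2) L)).toHomUnits
  have hfn : ∀ l e, fn l (Multiplicative.ofAdd e) = Multiplicative.ofAdd (am (single l 1) * e) :=
    fun _ _ => rfl
  have hxu : am (single x 1 - 1) ≠ 0 := by
    rw [map_ne_zero_iff _ ham, sub_ne_zero]
    exact fun h => hx1 (of_injective (R := ZMod 2) (h.trans (map_one _).symm))
  let Y : MulAut (Multiplicative E) :=
    mu (Units.mk0 _ hxu) * AddEquiv.toMultiplicative τ.toAddEquiv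
  have hY : ∀ e, Y (Multiplicative.ofAdd e) = Multiplicative.ofAdd (am (single x 1 - 1) * τ e) :=
    fun _ => rfl
  have hyl : ∀ l, (inr (Multiplicative.ofAdd 1) * inl l : L ⋊[zpowersHom _ σ] Multiplicative ℤ) =
      inl (σ l) * inr (Multiplicative.ofAdd 1) := fun l => by ext <;> simp
  let H := L ⋊[zpowersHom _ σ] Multiplicative ℤ
  let φ : H →* MulAut (Multiplicative E) := SemidirectProduct.lift fn (zpowersHom _ Y) fun z => by
    ext1 l
    refine eq_mul_inv_of_mul_eq (conj_zpow_of σ fn Y (fun l => ?_) z.toAdd l).symm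
    ext e
    change am _ * τ (am (single l 1) * e.toAdd) = am (single (σ l) 1) * (am _ * τ e.toAdd)
    rw [map_mul, hτ, domCongr_single]
    ring
  refine ⟨Multiplicative E, inferInstance, φ, Multiplicative.ofAdd 1,
    fun G hG hG1 M _ _ hM f hf => ?_⟩
  have hφl : ∀ l, φ (inl l) = fn l := fun l => lift_inl _ _ _ l
  obtain ⟨P, W, _, _, ρ, j, ι, hP, hι, hc, hNo, hιe⟩ := reduce' h2 φ (fun e he => by
      refine Set.Infinite.mono (s := Set.range fun l => φ (inl l) e)
        (by rintro _ ⟨l, rfl⟩; exact ⟨_, rfl⟩) (Set.infinite_range_of_injective fun a b hab => ?_)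
      simp only [hφl] at hab
      exact of_injective (R := ZMod 2) (ham (mul_right_cancel₀ (b := e.toAdd) he hab)))
    G hG (e₀ := Multiplicative.ofAdd 1) (one_ne_zero (α := E)) hG1 hM f hf
  have hPm : ∀ (s : R), ∀ e ∈ P, am s * e ∈ P := fun s e he => by
    induction s using MonoidAlgebra.induction_on with
    | of l =>
      obtain ⟨p', h1, -⟩ := hιe (inl l) ⟨e, he⟩
      rw [hφl, hfn] at h1
      exact (show p'.1 = am (single l 1) * e from h1) ▸ p'.2
    | add a b ha hb => rw [map_add, add_mul]; exact P.add_mem ha hb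
    | smul r a ha =>
      rcases hsm r a with h | h <;> rw [h]
      · simp
      · exact ha
  let 𝔞 : Ideal R :=
    { toAddSubmonoid := (P.comap am.toAddMonoidHom).toAddSubmonoid
      smul_mem' := fun s r hr => by
        change am (s * r) ∈ P
        rw [map_mul]; exact hPm s _ hr }
  let ι0 : 𝔞 →+ P := AddMonoidHom.mk' (fun r => ⟨am r.1, r.2⟩) fun a b => Subtype.ext (map_add _ _ _)
  refine M1 hσ hσ2 χ l0 hl0 x hx ρ inl (fun g m => ?_) hc (j.comp inl)
    (j (inr (Multiplicative.ofAdd 1))) (fun l => ?_) hNo 𝔞 ?_ ((ι.comp ι0).toZModLinearMap 2)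
    (hι.comp fun a b hab => Subtype.ext (ham (congrArg Subtype.val hab))) (fun l r => ?_)
    fun r => ?_
  · have : g * inl m * g⁻¹ ∈ (inl : M →* M ⋊[f] G).range := by
      rw [range_inl_eq_ker_rightHom]
      exact (MonoidHom.normal_ker _).conj_mem _ (rightHom_inl m) g
    exact this.imp fun _ h => h.symm
  · rw [MonoidHom.comp_apply, MonoidHom.comp_apply, ← map_mul, ← map_mul]
    exact congrArg j (hyl l)
  · obtain ⟨⟨e, he⟩, he0⟩ := AddSubgroup.ne_bot_iff_exists_ne_zero.mp hP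
    obtain ⟨a, b, hb, hab⟩ := IsFractionRing.div_surjective (A := R) e
    have hb' : am b ≠ 0 := (map_ne_zero_iff _ ham).mpr (nonZeroDivisors.ne_zero hb)
    refine (Submodule.ne_bot_iff _).mpr ⟨a, ?_, ?_⟩
    · have := hPm b e he
      rwa [← hab, mul_div_cancel₀ _ hb'] at this
    · rintro rfl
      exact he0 (Subtype.ext (by simpa using hab.symm))
  · obtain ⟨p', h1, h3⟩ := hιe (inl l) (ι0 r)
    rw [hφl, hfn] at h1
    refine Eq.trans (congrArg ι (Subtype.ext ?_)) h3
    exact (map_mul am _ _).trans (Eq.symm h1)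
  · obtain ⟨p', h1, h3⟩ := hιe (inr (Multiplicative.ofAdd 1)) (ι0 r)
    have h4 : φ (inr (Multiplicative.ofAdd 1)) = Y := (lift_inr _ _ _ _).trans (zpow_one Y)
    rw [h4, hY] at h1
    have h5 : am ((single x 1 - 1) * domCongr (ZMod 2) (ZMod 2) σ r) = p'.1 := by
      rw [map_mul, ← hτ]; exact h1.symm
    exact ⟨⟨_, show am _ ∈ P from h5 ▸ p'.2⟩, rfl, Eq.trans (congrArg ι (Subtype.ext h5)) h3⟩

theorem neg_over {H Q E : Type} [Group H] [Group.FG H] [Group Q] [CommGroup E] (j : H →* Q)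
    (hj : Function.Injective j) (hi : j.range.index ≠ 0) (φ : H →* MulAut E) (e : E)
    (h : ∀ G : Subgroup (E ⋊[φ] H), (∀ h, inr h ∈ G) → inl e ∈ G →
      ∀ (M : Type) [Group M] [Group.FG M], derivedSeries M 2 = ⊥ →
        ∀ f : G →* MulAut M, ¬ Function.Injective f) :
    ¬ ∀ (G : Type) [Group G] [Group.FG G] (π : G →* Q), Function.Surjective π →
      (∀ a ∈ π.ker, ∀ b ∈ π.ker, a * b = b * a) →
      ∃ (M : Type) (_ : Group M), Group.FG M ∧ derivedSeries M 2 = ⊥ ∧
        ∃ f : G →* MulAut M, Function.Injective f := by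
  classical
  intro hall
  have : j.range.FiniteIndex := ⟨hi⟩
  obtain ⟨F, c, hF, hc⟩ := exists_action j.range
    (φ.comp (MonoidHom.ofInjective hj).symm.toMonoidHom)
  let t₀ : Q ⧸ j.range := QuotientGroup.mk 1
  let θ : E ⋊[φ] H →* (Q ⧸ j.range → E) ⋊[F] Q :=
    SemidirectProduct.map (MonoidHom.mulSingle (fun _ => E) t₀) j fun g => by
      refine MonoidHom.ext fun a => funext fun t => ?_
      change (Pi.mulSingle t₀ (φ g a) : Q ⧸ j.range → E) t = F (j g) (Pi.mulSingle t₀ a) t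
      have h1 : (j g)⁻¹ • t₀ = t₀ := QuotientGroup.eq.2 (by simp)
      rw [hF]
      by_cases ht : t = t₀
      · rw [ht, h1, Pi.mulSingle_eq_same, Pi.mulSingle_eq_same, hc ⟨j g, g, rfl⟩]
        exact congrArg (φ · a) ((MonoidHom.ofInjective hj).symm_apply_apply g).symm
      · rw [Pi.mulSingle_eq_of_ne ht, Pi.mulSingle_eq_of_ne
          fun h2 => ht (MulAction.injective _ (h2.trans h1.symm)), map_one]
  have hθ : Function.Injective θ := fun a b hab => SemidirectProduct.ext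
    (Pi.mulSingle_injective (M := fun _ => E) t₀ (congrArg SemidirectProduct.left hab))
    (hj (congrArg SemidirectProduct.right hab))
  obtain ⟨X, hX1, hX2⟩ := Group.fg_iff.1 (inferInstance : Group.FG H)
  let Y : Set Q := j '' X ∪ Set.range fun t : Q ⧸ j.range => t.out
  let G : Subgroup ((Q ⧸ j.range → E) ⋊[F] Q) :=
    Subgroup.closure (insert (θ (inl e)) (inr '' Y))
  have : Group.FG G := (Group.fg_iff_subgroup_fg _).mpr ((Subgroup.fg_iff _).mpr
    ⟨_, rfl, (((hX2.image _).union (Set.finite_range _)).image _).insert _⟩)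
  have hG : ∀ q, inr q ∈ G := fun q => by
    have h1 : (Subgroup.closure Y).map inr ≤ G := by
      rw [MonoidHom.map_closure]
      exact Subgroup.closure_mono (Set.subset_insert _ _)
    have h2 : j.range ≤ Subgroup.closure Y := by
      rw [MonoidHom.range_eq_map, ← hX1, MonoidHom.map_closure]
      exact Subgroup.closure_mono Set.subset_union_left
    obtain ⟨r, hr⟩ := QuotientGroup.mk_out_eq_mul j.range q
    refine h1 ⟨q, ?_, rfl⟩
    rw [← mul_inv_cancel_right q r, ← hr]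
    exact mul_mem (Subgroup.subset_closure (Or.inr ⟨_, rfl⟩)) (inv_mem (h2 r.2))
  have hA : ∀ a ∈ (rightHom.comp G.subtype).ker, a.1 = inl a.1.left := fun a ha => by
    ext1
    · rfl
    · exact ha
  obtain ⟨M, _, _, hM, f, hf⟩ := hall G (rightHom.comp G.subtype) (fun q => ⟨⟨_, hG q⟩, rfl⟩)
    fun a ha b hb => Subtype.ext (by
      rw [Subgroup.coe_mul, Subgroup.coe_mul, hA a ha, hA b hb, ← map_mul, ← map_mul, mul_comm])
  refine h (G.comap θ) (fun g => ?_) (Subgroup.subset_closure (Set.mem_insert _ _)) M hM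
    (f.comp (θ.subgroupComap G)) (hf.comp fun a b hab =>
      Subtype.ext (hθ (congrArg Subtype.val hab)))
  rw [Subgroup.mem_comap, SemidirectProduct.map_inr]
  exact hG _

theorem pow_mem_of_det {u v : Multiplicative (ℤ × ℤ)} {K : Subgroup (Multiplicative (ℤ × ℤ))}
    (h1 : u ∈ K) (h2 : v ∈ K) (l : Multiplicative (ℤ × ℤ)) : l ^ (det2 u v).natAbs ∈ K := by
  have h3 : l ^ det2 u v = u ^ det2 l v * v ^ det2 u l := by
    refine Multiplicative.toAdd.injective (Prod.ext ?_ ?_) <;> simp [det2] <;> ring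
  have h4 : l ^ det2 u v ∈ K := h3 ▸ K.mul_mem (K.zpow_mem h1 _) (K.zpow_mem h2 _)
  rcases Int.natAbs_eq (det2 u v) with h | h <;> rw [h] at h4
  · rwa [zpow_natCast] at h4
  · rwa [zpow_neg, inv_mem_iff, zpow_natCast] at h4

theorem exists_mat (τ : MulAut (Multiplicative (ℤ × ℤ))) : ∃ a b c d : ℤ, ∀ l,
    (τ l).toAdd = (a * l.toAdd.1 + b * l.toAdd.2, c * l.toAdd.1 + d * l.toAdd.2) := by
  refine ⟨(τ (Multiplicative.ofAdd (1, 0))).toAdd.1, (τ (Multiplicative.ofAdd (0, 1))).toAdd.1,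
    (τ (Multiplicative.ofAdd (1, 0))).toAdd.2, (τ (Multiplicative.ofAdd (0, 1))).toAdd.2,
    fun l => ?_⟩
  have : l = Multiplicative.ofAdd (1, 0) ^ l.toAdd.1 * Multiplicative.ofAdd (0, 1) ^ l.toAdd.2 :=
    Multiplicative.toAdd.injective (Prod.ext (by simp) (by simp))
  conv_lhs => rw [this, map_mul, map_zpow, map_zpow]
  refine Prod.ext ?_ ?_ <;> simp <;> ring

theorem trace_cases {t m δ : ℤ} (hδ : δ = 1 ∨ δ = -1) (h : (t - m) * (t + m) = 4 * δ) :
    (δ = 1 ∧ t * t = 4) ∨ (δ = -1 ∧ t = 0) := by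
  have h1 : t - m ∣ 4 := ⟨(t + m) * δ, by rcases hδ with rfl | rfl <;> linarith⟩
  have h2 := Int.le_of_dvd (by norm_num) h1
  have h3 := Int.le_of_dvd (by norm_num) h1.neg_left
  obtain ⟨u, rfl⟩ : ∃ u, t = m + u := ⟨t - m, by ring⟩
  rw [add_sub_cancel_left] at h h2 h3
  have h4 : -4 ≤ u := by omega
  rcases hδ with rfl | rfl
  · left
    refine ⟨rfl, ?_⟩
    interval_cases u <;> first | omega | simp [show m = 0 by omega]
  · right
    refine ⟨rfl, ?_⟩
    interval_cases u <;> omega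

theorem unip_of_det (τ : MulAut (Multiplicative (ℤ × ℤ))) (u : Multiplicative (ℤ × ℤ))
    (hu : u ≠ 1) (h : det2 u (τ u) = 0) (l : Multiplicative (ℤ × ℤ)) :
    (τ ^ 2) ((τ ^ 2) l / l) = (τ ^ 2) l / l := by
  obtain ⟨a, b, c, d, H⟩ := exists_mat τ
  obtain ⟨a', b', c', d', H'⟩ := exists_mat τ⁻¹
  have h1 := H (τ⁻¹ (Multiplicative.ofAdd (1, 0)))
  have h2 := H (τ⁻¹ (Multiplicative.ofAdd (0, 1)))
  rw [MulAut.apply_inv_self, H'] at h1 h2
  simp only [toAdd_ofAdd, mul_one, mul_zero, add_zero, zero_add, Prod.mk.injEq] at h1 h2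
  have h3 : a * d - b * c = 1 ∨ a * d - b * c = -1 :=
    Int.eq_one_or_neg_one_of_mul_eq_one (v := a' * d' - b' * c') (by
      linear_combination (-(c * b' + d * d')) * h1.1 - h2.2 + (c * a' + d * c') * h2.1)
  rw [det2, H] at h
  obtain ⟨m, hm⟩ : ∃ m, (a + d - m) * (a + d + m) = 4 * (a * d - b * c) := by
    by_cases hq : u.toAdd.2 = 0
    · have hp : u.toAdd.1 ≠ 0 := fun hp =>
        hu (Multiplicative.toAdd.injective (Prod.ext hp hq))
      have hc : c = 0 := by simpa [hq, hp] using h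
      exact ⟨a - d, by rw [hc]; ring⟩
    · obtain ⟨m, hm⟩ := (Int.pow_dvd_pow_iff two_ne_zero).1
        (⟨(d - a) ^ 2 + 4 * b * c, by linear_combination 4 * c * h⟩ :
          u.toAdd.2 ^ 2 ∣ (2 * c * u.toAdd.1 + (d - a) * u.toAdd.2) ^ 2)
      refine ⟨m, mul_left_cancel₀ (pow_ne_zero 2 hq) ?_⟩
      linear_combination (2 * c * u.toAdd.1 + (d - a) * u.toAdd.2 + u.toAdd.2 * m) * hm - 4 * c * h
  have hCH : ∀ l, τ (τ l) = τ l ^ (a + d) / l ^ (a * d - b * c) := fun l =>
    Multiplicative.toAdd.injective (Prod.ext (by simp [H]; ring) (by simp [H]; ring))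
  simp only [sq, MulAut.mul_apply]
  rcases trace_cases h3 hm with ⟨h4, h5⟩ | ⟨h4, h5⟩
  · rw [hCH (τ (τ l) / l), map_div, hCH l, map_div, map_zpow, map_zpow, hCH l, h4]
    generalize τ l = v
    refine Multiplicative.toAdd.injective (Prod.ext ?_ ?_)
    · simp only [toAdd_div, toAdd_zpow, Prod.fst_sub, Prod.smul_fst, smul_eq_mul]
      linear_combination ((a + d) * v.toAdd.1 - l.toAdd.1) * h5
    · simp only [toAdd_div, toAdd_zpow, Prod.snd_sub, Prod.smul_snd, smul_eq_mul]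
      linear_combination ((a + d) * v.toAdd.2 - l.toAdd.2) * h5
  · rw [hCH l, h4, h5]
    simp

theorem det_ne {σ : MulAut (Multiplicative (ℤ × ℤ))}
    (hσ : ¬ ∃ n : ℕ, 0 < n ∧ ∀ l, (σ ^ n) ((σ ^ n) l / l) = (σ ^ n) l / l)
    (d : Multiplicative (ℤ × ℤ)) (hd : d ≠ 1) (z z' : ℤ) (hz : z ≠ z') :
    det2 ((σ ^ z) d) ((σ ^ z') d) ≠ 0 := by
  wlog h : z < z' generalizing z z'
  · intro h'
    refine this z' z hz.symm (by omega) ?_
    unfold det2 at h' ⊢
    linear_combination -h'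
  obtain ⟨n, rfl⟩ := Int.le.dest h.le
  rw [add_comm, zpow_add, zpow_natCast]
  exact fun h' => hσ ⟨n * 2, by omega, fun l => by
    rw [pow_mul]
    exact unip_of_det (σ ^ n) ((σ ^ z) d) (by simpa using hd) h' l⟩

theorem index_ne {L : Type} [CommGroup L] [Group.FG L] {σ : MulAut L}
    (K : Subgroup (L ⋊[zpowersHom _ σ] Multiplicative ℤ)) {N n : ℕ} (hN : N ≠ 0) (hn : 0 < n)
    (h1 : ∀ l : L, inl (l ^ N) ∈ K) (h2 : inr (Multiplicative.ofAdd (n : ℤ)) ∈ K) :
    K.index ≠ 0 := by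
  have := Subgroup.finiteIndex_range_powMonoidHom_of_fg L hN
  have hn' : (0 : ℤ) < n := by exact_mod_cast hn
  have : Finite ((L ⋊[zpowersHom _ σ] Multiplicative ℤ) ⧸ K) := by
    refine Finite.of_surjective
      (fun p : (L ⧸ (powMonoidHom N : L →* L).range) × Set.Ico (0 : ℤ) n =>
        QuotientGroup.mk (inl p.1.out * inr (Multiplicative.ofAdd p.2.1))) fun t => ?_
    obtain ⟨g, rfl⟩ := QuotientGroup.mk_surjective t
    refine ⟨(QuotientGroup.mk g.left, ⟨g.right.toAdd % n, Int.emod_nonneg _ hn'.ne',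
      Int.emod_lt_of_pos _ hn'⟩), QuotientGroup.eq.2 ?_⟩
    obtain ⟨⟨_, l, rfl⟩, hl⟩ := QuotientGroup.mk_out_eq_mul (powMonoidHom N : L →* L).range g.left
    have h3 : g.right = Multiplicative.ofAdd (g.right.toAdd % n) *
        Multiplicative.ofAdd (n : ℤ) ^ (g.right.toAdd / n) :=
      Multiplicative.toAdd.injective (by simp [mul_comm, Int.emod_add_mul_ediv])
    have h4 := K.mul_mem (h1 (zpowersHom _ σ (Multiplicative.ofAdd (g.right.toAdd % n))⁻¹ l⁻¹))
      (K.zpow_mem h2 (g.right.toAdd / n))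
    rw [← map_pow, inl_aut, ← map_zpow, inv_inv, mul_assoc, ← map_mul, ← h3] at h4
    have key : ∀ (a c : L) (m r : Multiplicative ℤ),
        (inl (a * c) * inr m : L ⋊[zpowersHom _ σ] Multiplicative ℤ)⁻¹ * (inl a * inr r) =
          inr m⁻¹ * inl c⁻¹ * inr r := by
      intro a c m r
      simp only [map_mul, map_inv]
      group
    have h5 := key g.left (l ^ N) (Multiplicative.ofAdd (g.right.toAdd % n)) g.right
    rw [inl_left_mul_inr_right, ← inv_pow] at h5
    rw [hl]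
    exact h5 ▸ h4
  exact Subgroup.index_ne_zero_of_finite

open scoped commutatorElement in
theorem dichotomy (σ : MulAut (Multiplicative (ℤ × ℤ))) (Q : Type) [Group Q]
    (j : Multiplicative (ℤ × ℤ) ⋊[zpowersHom _ σ] Multiplicative ℤ →* Q)
    (hj : Function.Injective j) (hi : j.range.index ≠ 0) :
    (∀ (G : Type) [Group G] [Group.FG G] (π : G →* Q), Function.Surjective π →
      (∀ a ∈ π.ker, ∀ b ∈ π.ker, a * b = b * a) →
      ∃ (M : Type) (_ : Group M), Group.FG M ∧ derivedSeries M 2 = ⊥ ∧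
        ∃ f : G →* MulAut M, Function.Injective f) ↔
    ∃ n : ℕ, 0 < n ∧ ∀ l, (σ ^ n) ((σ ^ n) l / l) = (σ ^ n) l / l := by
  refine ⟨fun hall => by_contra fun hσ => ?_, fun ⟨n, hn, hσ⟩ G _ _ π hπ hA => ?_⟩
  · obtain ⟨E, _, φ, e, h⟩ := neg_abs (σ := σ)
      (fun d hd z z' hz => ⟨_, Int.natAbs_pos.mpr (det_ne hσ d hd z z' hz),
        fun K h1 h2 l => pow_mem_of_det h1 h2 l⟩)
      (fun z hz => ⟨Multiplicative.ofAdd (1, 0), fun h =>
        det_ne hσ (Multiplicative.ofAdd (1, 0)) (by decide) z 0 hz (by rw [h]; rfl)⟩)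
      (AddMonoidHom.toMultiplicative (AddMonoidHom.snd ℤ ℤ)) (Multiplicative.ofAdd (0, 1))
      (by decide) (Multiplicative.ofAdd (1, 0)) rfl (by decide)
    have : Group.FG (Multiplicative (ℤ × ℤ) ⋊[zpowersHom _ σ] Multiplicative ℤ) :=
      ⟨fg_ext inl rightHom range_inl_eq_ker_rightHom.ge ⊤⟩
    exact neg_over j hj hi φ e h hall
  let y : Multiplicative (ℤ × ℤ) ⋊[zpowersHom _ σ] Multiplicative ℤ :=
    inr (Multiplicative.ofAdd (n : ℤ))
  have hy : ∀ l, y * inl l * y⁻¹ = inl ((σ ^ n) l) := fun l => by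
    rw [← map_inv, ← inl_aut, zpowersHom_apply, toAdd_ofAdd, zpow_natCast]
  have hidx : ∀ K : Subgroup (Multiplicative (ℤ × ℤ) ⋊[zpowersHom _ σ] Multiplicative ℤ),
      K.index ≠ 0 → (K.map j).index ≠ 0 := fun K hK => by
    rw [K.index_map_of_injective hj]
    exact mul_ne_zero hK hi
  by_cases h1 : ∀ l, (σ ^ n) l = l
  · refine embed_virt π hπ hA _ (hidx (Subgroup.closure (insert y (Set.range inl)))
      (index_ne _ one_ne_zero hn (fun l => Subgroup.subset_closure (Or.inr ⟨_, rfl⟩))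
        (Subgroup.subset_closure (Set.mem_insert _ _)))) (Or.inl ?_)
    rintro _ ⟨a, ha, rfl⟩ _ ⟨b, hb, rfl⟩
    refine comm_closure j _ (fun a ha b hb => Commute.map ?_ j) a ha b hb
    have h2 : ∀ l, Commute y (inl l) := fun l => mul_inv_eq_iff_eq_mul.1 ((hy l).trans (by rw [h1]))
    rcases ha with rfl | ⟨a, rfl⟩ <;> rcases hb with rfl | ⟨b, rfl⟩
    exacts [.refl _, h2 _, (h2 _).symm, (Commute.all a b).map inl]
  push Not at h1
  obtain ⟨l₀, h1⟩ := h1
  have h2 : ⁅y, (inl l₀ : Multiplicative (ℤ × ℤ) ⋊[zpowersHom _ σ] Multiplicative ℤ)⁆ =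
      inl ((σ ^ n) l₀ / l₀) := by
    rw [commutatorElement_def, hy, div_eq_mul_inv, map_mul, map_inv]
  have h3 : det2 l₀ ((σ ^ n) l₀ / l₀) ≠ 0 := by
    intro h
    obtain ⟨a, b, c, d, H⟩ := exists_mat (σ ^ n)
    have h4 := congrArg Multiplicative.toAdd (hσ l₀)
    generalize hv : (σ ^ n) l₀ / l₀ = v at h h4
    have h5 := congrArg Multiplicative.toAdd hv
    rw [toAdd_div, H, Prod.ext_iff] at h5
    rw [H, Prod.ext_iff] at h4
    simp only [Prod.fst_sub, Prod.snd_sub, det2] at h h4 h5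
    refine h1 (div_eq_one.1 (hv.trans (Multiplicative.toAdd.injective (Prod.ext ?_ ?_))))
    · exact mul_self_eq_zero.1 (by
        linear_combination l₀.toAdd.1 * h4.1 - v.toAdd.1 * h5.1 - b * h)
    · exact mul_self_eq_zero.1 (by
        linear_combination l₀.toAdd.2 * h4.2 - v.toAdd.2 * h5.2 + c * h)
  have h4 : y ∈ Subgroup.closure {y, inl l₀} := Subgroup.subset_closure (by simp)
  have h5 : (inl l₀ : Multiplicative (ℤ × ℤ) ⋊[zpowersHom _ σ] Multiplicative ℤ) ∈
      Subgroup.closure {y, inl l₀} := Subgroup.subset_closure (by simp)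
  refine embed_virt π hπ hA _ (hidx (Subgroup.closure {y, inl l₀})
    (index_ne _ (Int.natAbs_ne_zero.2 h3) hn (pow_mem_of_det
      (K := (Subgroup.closure {y, inl l₀}).comap inl) h5 ?_) h4))
    (Or.inr ⟨j y, j (inl l₀), by rw [MonoidHom.map_closure, Set.image_pair], ?_, ?_⟩)
  · rw [Subgroup.mem_comap, ← h2]
    exact mul_mem (mul_mem (mul_mem h4 h5) (inv_mem h4)) (inv_mem h5)
  · rw [← map_commutatorElement, h2]
    exact Commute.map (mul_inv_eq_iff_eq_mul.1 ((hy _).trans (by rw [hσ]))) j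
  · rw [← map_commutatorElement, h2]
    exact ((Commute.all _ _).map inl).map j

end Pool.Agent.P.MP_e2f787_al.Heis
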