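import Pool.Agent.P.MP_e2f787_al.HTw

/-! Every finitely generated module over a two-generator group with central commutator fits. -/

namespace Pool.Agent.P.MP_e2f787_al.Heis

open Module MonoidAlgebra LaurentPolynomial TensorProduct

variable {K : Type} [Group K] {x y z : K}

theorem comm_closure {Γ₁ Γ : Type*} [Group Γ₁] [Group Γ] (σ : Γ₁ →* Γ) (X : Set Γ₁)
    (h : ∀ a ∈ X, ∀ b ∈ X, Commute (σ a) (σ b)) :
    ∀ p ∈ Subgroup.closure X, ∀ q ∈ Subgroup.closure X, Commute (σ p) (σ q) := by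
  intro p hp q hq
  induction hp, hq using Subgroup.closure_induction₂ with
  | mem a b ha hb => exact h a ha b hb
  | one_left => simp
  | one_right => simp
  | mul_left a b c _ _ _ h1 h2 => rw [map_mul]; exact h1.mul_left h2
  | mul_right a b c _ _ _ h1 h2 => rw [map_mul]; exact h1.mul_right h2
  | inv_left a b _ _ h1 => rw [map_inv]; exact h1.inv_left
  | inv_right a b _ _ h1 => rw [map_inv]; exact h1.inv_right

noncomputable def act (K A : Type) [Group K] [AddCommGroup A] [Module (MonoidAlgebra ℤ K) A] :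
    K →* (End ℤ A)ˣ :=
  ((Module.toModuleEnd ℤ A (S := MonoidAlgebra ℤ K)).toMonoidHom.comp (of ℤ K)).toHomUnits

variable {A : Type} [AddCommGroup A] [Module (MonoidAlgebra ℤ K) A]

theorem act_apply (g : K) (a : A) :
    (act K A g : End ℤ A) a = (single g 1 : MonoidAlgebra ℤ K) • a := rfl

theorem top_of_span {X : Set A} (hX : Submodule.span (MonoidAlgebra ℤ K) X = ⊤) (U : Submodule ℤ A)
    (h : ∀ a ∈ X, ∀ f : MonoidAlgebra ℤ K, f • a ∈ U) : U = ⊤ := by
  refine eq_top_iff.2 fun v _ => ?_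
  have hv : v ∈ Submodule.span (MonoidAlgebra ℤ K) X := hX ▸ Submodule.mem_top
  have : ∀ f : MonoidAlgebra ℤ K, f • v ∈ U := by
    induction hv using Submodule.span_induction with
    | mem a ha => exact h a ha
    | zero => simp
    | add a b _ _ ha hb => intro f; rw [smul_add]; exact U.add_mem (ha trivial f) (hb trivial f)
    | smul r a _ ha => intro f; rw [smul_smul]; exact ha trivial _
  simpa using this 1

namespace Two

variable (H : Two x y z)

include H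

theorem fits_of {W Γ : Type} [AddCommGroup W] [Group Γ] (ρ : Γ →* End ℤ W) (σ : K →* Γ)
    (X : Set K) (hX : X.Finite) (hz : z ∈ X) (h : ∀ a ∈ X, ∀ b ∈ X, Commute (σ a) (σ b))
    (t : Γ) (ht : ∀ g, Commute t (σ g)) (ι : A →+ W) (h1 : Function.Injective ι)
    (h2 : ∀ h a, ι ((single h 1 : MonoidAlgebra ℤ K) • a) = ρ (σ h) (ι a))
    (h3 : ∃ S : Set W, S.Finite ∧ ∀ V : Submodule ℤ W, S ⊆ V →
      (∀ g ∈ Subgroup.closure X, ∀ v ∈ V, ρ (σ g) v ∈ V) → (∀ n : ℤ, ∀ v ∈ V, ρ (t ^ n) v ∈ V) →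
      V = ⊤) : Fits K A := by
  obtain ⟨h4, h5, h6⟩ := ext_sub (MonoidHom.id K) (Subgroup.closure X)
    ((Subgroup.fg_iff _).2 ⟨X, rfl, hX⟩) (H.conj_mem (Subgroup.subset_closure hz)) σ
    (comm_closure σ X h) t ht
  obtain ⟨S, h7, h8⟩ := h3
  exact ⟨W, _, Γ, _, ρ, σ, _, ι, h1, h2, h4, h5, h6, S, h7, h8 _ subset_gen
    (fun g hg => inv_gen _ ⟨_, Subgroup.mem_sup_left ⟨g, hg, rfl⟩, rfl⟩)
    fun n => inv_gen _ ⟨_, Subgroup.mem_sup_right ⟨n, rfl⟩, rfl⟩⟩

theorem fits_fin [Module.Finite (MonoidAlgebra ℤ K) A] (h : IsOfFinOrder (act K A z)) :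
    Fits K A := by
  obtain ⟨N, hN, h1⟩ := isOfFinOrder_iff_pow_eq_one.1 h
  obtain ⟨X, hX⟩ := Module.Finite.fg_top (R := MonoidAlgebra ℤ K) (M := A)
  have h2 : Commute (act K A (x ^ (N : ℤ))) (act K A y) := by
    have := congrArg (act K A) (H.swap N 1)
    rwa [zpow_one, mul_one, map_mul, map_mul, map_mul, map_zpow _ z, zpow_natCast (act K A z), h1,
      one_mul] at this
  refine H.fits_of (Units.coeHom _) (act K A) {x ^ (N : ℤ), y, z} (Set.toFinite _) (by simp) ?_ 1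
    (fun g => Commute.one_left _) (AddMonoidHom.id A) Function.injective_id (fun _ _ => rfl)
    ⟨Set.image2 (fun (i : ℤ) a => (single (x ^ i) 1 : MonoidAlgebra ℤ K) • a) (Set.Ico 0 N) X,
      (Set.finite_Ico _ _).image2 _ X.finite_toSet, fun V h3 h4 _ =>
        top_of_span hX V fun a ha => smul_mem_of V fun g => ?_⟩
  · rintro _ (rfl | rfl | rfl) _ (rfl | rfl | rfl)
    exacts [.refl _, h2, (H.cen _).symm.map _, h2.symm, .refl _, (H.cen _).symm.map _,
      (H.cen _).map _, (H.cen _).map _, .refl _]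
  · obtain ⟨c, p, rfl⟩ := H.nf g
    have hN' : (0 : ℤ) < N := by exact_mod_cast hN
    have h5 := h4 (z ^ c * z ^ (p.1 * p.2) * y ^ p.2 * (x ^ (N : ℤ)) ^ (p.1 / N))
      (mul_mem (mul_mem (mul_mem (zpow_mem (Subgroup.subset_closure (by simp)) _)
        (zpow_mem (Subgroup.subset_closure (by simp)) _))
        (zpow_mem (Subgroup.subset_closure (by simp)) _))
        (zpow_mem (Subgroup.subset_closure (by simp)) _)) _
      (h3 ⟨p.1 % N, ⟨Int.emod_nonneg _ hN'.ne', Int.emod_lt_of_pos _ hN'⟩, a, ha, rfl⟩)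
    rw [Units.coeHom_apply, act_apply, smul_smul, single_mul_single, mul_one, mul_assoc,
      ← zpow_mul, ← zpow_add x, Int.mul_ediv_add_emod, mul_assoc, mul_assoc] at h5
    rwa [H.swap]

theorem fits_quot (I : Submodule (MonoidAlgebra ℤ K) (MonoidAlgebra ℤ K))
    (hI : ∀ f ∈ I, ∀ g, f * g ∈ I) : Fits K (MonoidAlgebra ℤ K ⧸ I) := by
  let τ : K →* End ℤ (MonoidAlgebra ℤ K ⧸ I) :=
    { toFun := fun g => (I.mapQ I (LinearMap.toSpanSingleton _ _ (single g⁻¹ 1))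
        fun f hf => hI f hf _).restrictScalars ℤ
      map_one' := LinearMap.ext fun v => by
        obtain ⟨v, rfl⟩ := I.mkQ_surjective v
        exact congrArg I.mkQ (show v * single 1⁻¹ 1 = v by rw [inv_one, ← one_def, mul_one])
      map_mul' := fun a b => LinearMap.ext fun v => by
        obtain ⟨v, rfl⟩ := I.mkQ_surjective v
        exact congrArg I.mkQ (show v * single (a * b)⁻¹ 1 = v * single b⁻¹ 1 * single a⁻¹ 1 by
          rw [mul_assoc, single_mul_single, mul_inv_rev, mul_one]) }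
  refine H.fits_of (Units.coeHom _) (act K _) {x, z} (Set.toFinite _) (by simp) ?_
    (τ.toHomUnits y) (fun g => Units.ext (LinearMap.ext fun v => ?_)) (AddMonoidHom.id _)
    Function.injective_id (fun _ _ => rfl) ⟨{I.mkQ 1}, Set.finite_singleton _, fun V h3 h4 h5 =>
      top_of_span (K := K) (X := {I.mkQ 1}) ?_ V ?_⟩
  · rintro _ (rfl | rfl) _ (rfl | rfl)
    exacts [.refl _, (H.cen _).symm.map _, (H.cen _).map _, .refl _]
  · obtain ⟨v, rfl⟩ := I.mkQ_surjective v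
    exact congrArg I.mkQ (mul_assoc (single g 1) v (single y⁻¹ 1))
  · refine eq_top_iff.2 fun v _ => ?_
    obtain ⟨v, rfl⟩ := I.mkQ_surjective v
    exact Submodule.mem_span_singleton.2 ⟨v, congrArg I.mkQ (mul_one v)⟩
  · rintro _ rfl
    refine smul_mem_of V fun g => ?_
    obtain ⟨c, p, rfl⟩ := H.nf g
    have h6 := h4 (z ^ c * x ^ p.1) (mul_mem (zpow_mem (Subgroup.subset_closure (by simp)) _)
      (zpow_mem (Subgroup.subset_closure (by simp)) _)) _ (h5 (-p.2) _ (h3 rfl))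
    rw [← map_zpow] at h6
    have h7 : (single (z ^ c * x ^ p.1) 1 : MonoidAlgebra ℤ K) * (1 * single (y ^ (-p.2))⁻¹ 1) =
        single (z ^ c * (x ^ p.1 * y ^ p.2)) 1 * 1 := by
      rw [one_mul, mul_one, single_mul_single, zpow_neg, inv_inv, mul_assoc, mul_one]
    exact (congrArg (fun f => I.mkQ f ∈ V) h7).mp h6

theorem chain {π : ℤ[T;T⁻¹]} (hp : ∀ a b, th z π ∣ a * b → th z π ∣ a ∨ th z π ∣ b)
    (h1 : ¬ th z π ∣ 1) [Module.Finite (MonoidAlgebra ℤ K) A] {n : ℕ}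
    (hn : ∀ a : A, th z π ^ n • a = 0)
    (ht : ∀ b : A, th z π • b = 0 → ∃ c, ¬ th z π ∣ c ∧ c • b = 0) :
    ∃ 𝒯 : Set (Finset (ℤ × ℤ) × (ℤ × ℤ → ℤ[T;T⁻¹])), 𝒯.Finite ∧
      (∀ F ∈ 𝒯, F.1.Nonempty ∧ ∀ p ∈ F.1, ¬ π ∣ F.2 p) ∧
      ∀ P : Submodule (MonoidAlgebra ℤ K) A → Prop, P ⊥ →
        (∀ B a, ∀ F ∈ 𝒯, P B → ev x y z F • a ∈ B → P (B ⊔ Submodule.span _ {a})) → P ⊤ := by
  have := H.noeth
  have htor : ∀ (i : ℕ) (a : A), th z π ^ i • a = 0 → ∃ c, ¬ th z π ∣ c ∧ c • a = 0 := by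
    intro i
    induction i with
    | zero => exact fun a ha => ⟨1, h1, by simpa using ha⟩
    | succ i ih =>
      intro a ha
      obtain ⟨c, h2, h3⟩ := ht (th z π ^ i • a) (by rw [smul_smul, ← pow_succ', ha])
      obtain ⟨c', h4, h5⟩ := ih (c • a) (by
        rw [smul_smul, ((H.th_comm π c).pow_left i).eq, mul_smul, h3])
      exact ⟨c' * c, fun h => (hp _ _ h).elim h4 h2, by rw [mul_smul, h5]⟩
  obtain ⟨B, ⟨𝒯, h2, h3, h4⟩, hmax⟩ := set_has_maximal_iff_noetherian.mpr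
    (inferInstance : IsNoetherian (MonoidAlgebra ℤ K) A)
    {B | ∃ 𝒯 : Set (Finset (ℤ × ℤ) × (ℤ × ℤ → ℤ[T;T⁻¹])), 𝒯.Finite ∧
      (∀ F ∈ 𝒯, F.1.Nonempty ∧ ∀ p ∈ F.1, ¬ π ∣ F.2 p) ∧
      ∀ P : Submodule (MonoidAlgebra ℤ K) A → Prop, P ⊥ →
        (∀ B a, ∀ F ∈ 𝒯, P B → ev x y z F • a ∈ B → P (B ⊔ Submodule.span _ {a})) → P B}
    ⟨⊥, ∅, Set.finite_empty, by simp, fun P h _ => h⟩
  by_cases hB : B = ⊤
  · exact ⟨𝒯, h2, h3, hB ▸ h4⟩
  obtain ⟨a, ha, ha'⟩ : ∃ a, a ∉ B ∧ th z π • a ∈ B := by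
    by_contra hcon
    push Not at hcon
    have key : ∀ (i : ℕ) (a : A), th z π ^ i • a ∈ B → a ∈ B := by
      intro i
      induction i with
      | zero => intro a ha; simpa using ha
      | succ i ih =>
        intro a ha
        rw [pow_succ, mul_smul] at ha
        exact by_contra fun h => hcon a h (ih _ ha)
    exact hB (eq_top_iff.2 fun a _ => key n a (by rw [hn]; exact B.zero_mem))
  obtain ⟨c, h5, h6⟩ := htor n a (hn a)
  obtain ⟨F, h7, w, h8⟩ := H.decomp π c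
  refine absurd (left_lt_sup.2 (mt (Submodule.span_singleton_le_iff_mem a B).1 ha))
    (hmax (B ⊔ Submodule.span _ {a}) ⟨insert F 𝒯, h2.insert F, ?_, fun P h9 h10 =>
      h10 B a F (Set.mem_insert _ _) (h4 P h9 fun B a G hG => h10 B a G (Or.inr hG)) ?_⟩)
  · rintro G (rfl | hG)
    · refine ⟨Finset.nonempty_iff_ne_empty.2 fun h => h5 ⟨w, ?_⟩, h7⟩
      simpa [ev, h] using h8
    · exact h3 G hG
  · rw [← sub_sub_cancel c (ev x y z F), h8, sub_smul, h6, zero_sub, (H.th_comm π w).eq, mul_smul]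
    exact B.neg_mem (B.smul_mem _ ha')

theorem fits_tors {π : ℤ[T;T⁻¹]} (hπ : ∀ a b, π ∣ a * b → π ∣ a ∨ π ∣ b) (hπ1 : ¬ π ∣ 1)
    (hp : ∀ a b, th z π ∣ a * b → th z π ∣ a ∨ th z π ∣ b)
    (h1 : ¬ th z π ∣ 1) [Module.Finite (MonoidAlgebra ℤ K) A] {n : ℕ}
    (hn : ∀ a : A, th z π ^ n • a = 0) (hi : ∀ r, ¬ π ∣ r → ∀ a : A, th z r • a = 0 → a = 0)
    (ht : ∀ b : A, th z π • b = 0 → ∃ c, ¬ th z π ∣ c ∧ c • b = 0) : Fits K A := by
  classical
  obtain ⟨𝒯, h2, h3, h4⟩ := H.chain hp h1 hn ht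
  obtain ⟨c₀, hc₀, h5⟩ : ∃ c₀, ¬ π ∣ c₀ ∧ ∀ F ∈ 𝒯, ∀ p ∈ F.1, F.2 p ∣ c₀ := by
    refine ⟨∏ F ∈ h2.toFinset, ∏ p ∈ F.1, F.2 p, ?_, fun F hF p hp =>
      (Finset.dvd_prod_of_mem _ hp).trans (Finset.dvd_prod_of_mem _ (h2.mem_toFinset.2 hF))⟩
    have h6 : ∀ a b, ¬ π ∣ a → ¬ π ∣ b → ¬ π ∣ a * b := fun a b ha hb h => (hπ a b h).elim ha hb
    exact Finset.prod_induction _ (fun r => ¬ π ∣ r) h6 hπ1 fun F hF =>
      Finset.prod_induction _ (fun r => ¬ π ∣ r) h6 hπ1 (h3 F (h2.mem_toFinset.1 hF)).2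
  obtain ⟨N, hN⟩ : ∃ N : ℤ, ∀ F ∈ 𝒯, Set.InjOn (fun p : ℤ × ℤ => p.1 - N * p.2) F.1 := by
    obtain ⟨b, hb⟩ := ((h2.biUnion fun F _ => F.1.finite_toSet).image fun p => |p.1|).bddAbove
    refine ⟨2 * b + 1, fun F hF p hp q hq h => ?_⟩
    have h6 := abs_le.1 (hb ⟨p, Set.mem_biUnion hF hp, rfl⟩)
    have h7 := abs_le.1 (hb ⟨q, Set.mem_biUnion hF hq, rfl⟩)
    have h8 : p.1 - q.1 = (2 * b + 1) * (p.2 - q.2) := by linear_combination h
    have h9 := Int.eq_zero_of_abs_lt_dvd ⟨_, h8⟩ (abs_lt.2 ⟨by omega, by omega⟩)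
    rw [h9, eq_comm, mul_eq_zero] at h8
    exact Prod.ext (by omega) (by omega)
  let _ : Module ℤ[T;T⁻¹] A := Module.compHom A (th z)
  let S := Localization.Away c₀
  let σ₀ : K →* End ℤ[T;T⁻¹] A :=
    { toFun := fun g =>
        { toFun := fun a => (single g 1 : MonoidAlgebra ℤ K) • a
          map_add' := smul_add _
          map_smul' := fun r a => by
            change single g 1 • th z r • a = th z r • (single g 1 : MonoidAlgebra ℤ K) • a
            rw [smul_smul, smul_smul, (H.th_comm r _).eq] }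
      map_one' := LinearMap.ext fun a => one_smul (MonoidAlgebra ℤ K) a
      map_mul' := fun g h => LinearMap.ext fun a => by
        change (single (g * h) 1 : MonoidAlgebra ℤ K) • a =
          (single g 1 : MonoidAlgebra ℤ K) • (single h 1 : MonoidAlgebra ℤ K) • a
        rw [smul_smul, single_mul_single, mul_one] }
  let σ : K →* (End S (S ⊗[ℤ[T;T⁻¹]] A))ˣ :=
    ((Module.End.baseChangeHom ℤ[T;T⁻¹] S A).toRingHom.toMonoidHom.comp σ₀).toHomUnits
  let ρ : (End S (S ⊗[ℤ[T;T⁻¹]] A))ˣ →* End ℤ (S ⊗[ℤ[T;T⁻¹]] A) :=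
    { toFun := fun u => u.1.toAddMonoidHom.toIntLinearMap
      map_one' := rfl
      map_mul' := fun _ _ => rfl }
  let t : (End S (S ⊗[ℤ[T;T⁻¹]] A))ˣ := Units.map (algebraMap S _).toMonoidHom
    (IsLocalization.Away.algebraMap_isUnit (S := S) c₀).unit
  have hL : IsLocalizedModule (Submonoid.powers c₀) (TensorProduct.mk ℤ[T;T⁻¹] S A 1) :=
    (isLocalizedModule_iff_isBaseChange _ S _).2 (TensorProduct.isBaseChange _ A S)
  let ι := (TensorProduct.mk ℤ[T;T⁻¹] S A 1).toAddMonoidHom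
  have hι : ∀ h a, ι ((single h 1 : MonoidAlgebra ℤ K) • a) = ρ (σ h) (ι a) := fun h a =>
    (LinearMap.baseChange_tmul (σ₀ h) (1 : S) a).symm
  have hρt : ∀ w, ρ t w = c₀ • w := fun w => algebraMap_smul S c₀ w
  have hback : ∀ V : Submodule ℤ (S ⊗[ℤ[T;T⁻¹]] A), (∀ n : ℤ, ∀ v ∈ V, ρ (t ^ n) v ∈ V) →
      ∀ w, c₀ • w ∈ V → w ∈ V := fun V hV w hw => by
    have := hV (-1) _ hw
    rwa [← hρt, zpow_neg_one, rho_inv_self] at this
  refine H.fits_of ρ σ {x ^ N * y, z} (Set.toFinite _) (by simp) ?_ t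
    (fun g => Units.ext (Algebra.commutes _ _)) ι ((injective_iff_map_eq_zero _).2 fun a ha => ?_)
    hι ?_
  · rintro _ (rfl | rfl) _ (rfl | rfl)
    exacts [.refl _, (H.cen _).symm.map _, (H.cen _).map _, .refl _]
  · obtain ⟨⟨_, k, rfl⟩, hk⟩ := (IsLocalizedModule.eq_zero_iff (Submonoid.powers c₀)
      (TensorProduct.mk ℤ[T;T⁻¹] S A 1)).1 ha
    refine hi (c₀ ^ k) (fun h => ?_) a hk
    clear hk
    induction k with
    | zero => exact hπ1 (by simpa using h)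
    | succ k ih => exact (hπ _ _ (pow_succ c₀ k ▸ h)).elim ih hc₀
  · obtain ⟨X, h6, h7⟩ := h4 (fun B => ∃ X : Set (S ⊗[ℤ[T;T⁻¹]] A), X.Finite ∧
      ∀ V : Submodule ℤ (S ⊗[ℤ[T;T⁻¹]] A), X ⊆ V →
        (∀ g ∈ Subgroup.closure {x ^ N * y, z}, ∀ v ∈ V, ρ (σ g) v ∈ V) →
        (∀ n : ℤ, ∀ v ∈ V, ρ (t ^ n) v ∈ V) → ∀ a ∈ B, ι a ∈ V)
      ⟨∅, Set.finite_empty, fun V _ _ _ a ha => by
        rw [(Submodule.mem_bot _).1 ha, map_zero]; exact V.zero_mem⟩ (by
      rintro B a F hF ⟨X, h6, h7⟩ h8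
      obtain ⟨lo, hi, h9⟩ := H.step (A := A) N c₀ F (h3 F hF).1 (h5 F hF) (hN F hF)
      refine ⟨X ∪ (fun i : ℤ => ι ((single (x ^ i) 1 : MonoidAlgebra ℤ K) • a)) '' Set.Icc lo hi,
        h6.union ((Set.finite_Icc _ _).image _), fun V h10 h11 h12 v hv => ?_⟩
      have h13 := h7 V (Set.subset_union_left.trans h10) h11 h12
      obtain ⟨b, hb, _, hc, rfl⟩ := Submodule.mem_sup.1 hv
      obtain ⟨f, rfl⟩ := Submodule.mem_span_singleton.1 hc
      rw [map_add]
      refine V.add_mem (h13 b hb) (h9 (V.comap ι.toIntLinearMap) (fun g hg b hb => ?_)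
        (fun b hb => hback V h12 _ ?_) a (fun f => h13 _ (B.smul_mem f h8))
        (fun i h14 h15 => h10 (Or.inr ⟨i, ⟨h14, h15⟩, rfl⟩)) f)
      · exact (show ι _ ∈ V from hι g b ▸ h11 g hg _ hb)
      · exact (map_smul (TensorProduct.mk ℤ[T;T⁻¹] S A 1) c₀ b) ▸ hb)
    refine ⟨X, h6, fun V h8 h9 h10 => eq_top_iff.2 fun w _ => ?_⟩
    obtain ⟨⟨a, _, k, rfl⟩, hk⟩ := IsLocalizedModule.surj (Submonoid.powers c₀)
      (TensorProduct.mk ℤ[T;T⁻¹] S A 1) w
    have h11 : c₀ ^ k • w ∈ V := (show c₀ ^ k • w = ι a from hk) ▸ h7 V h8 h9 h10 a trivial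
    clear hk
    induction k with
    | zero => simpa using h11
    | succ k ih => exact ih (hback V h10 _ (by rwa [smul_smul, ← pow_succ']))

theorem fits_uniform [Module.Finite (MonoidAlgebra ℤ K) A]
    (hU : ∀ N N' : Submodule (MonoidAlgebra ℤ K) A, N ⊓ N' = ⊥ → N = ⊥ ∨ N' = ⊥) : Fits K A := by
  by_cases hfin : IsOfFinOrder (act K A z)
  · exact H.fits_fin hfin
  have hz : ¬ IsOfFinOrder z := fun h => hfin ((act K A).isOfFinOrder h)
  have := H.noeth
  have := H.noeth_op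
  let ψ : ℤ[T;T⁻¹] →+* End (MonoidAlgebra ℤ K) A :=
    { toFun := fun r =>
        { toFun := fun a => th z r • a
          map_add' := smul_add _
          map_smul' := fun f a => by
            rw [RingHom.id_apply, smul_smul, smul_smul, (H.th_comm r f).eq] }
      map_one' := LinearMap.ext fun a => by simp
      map_mul' := fun r s => LinearMap.ext fun a => by
        change th z (r * s) • a = th z r • th z s • a
        rw [map_mul, mul_smul]
      map_zero' := LinearMap.ext fun a => by simp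
      map_add' := fun r s => LinearMap.ext fun a => by simp [add_smul] }
  let P := (RingHom.ker ψ).radical
  have hP : ∀ r, r ∈ P ↔ ∃ n : ℕ, ∀ a : A, th z r ^ n • a = 0 := fun r =>
    exists_congr fun n => by
      rw [RingHom.mem_ker, LinearMap.ext_iff, ← map_pow]
      rfl
  have hinj : ∀ r, r ∉ P → ∀ a : A, th z r • a = 0 → a = 0 := by
    intro r hr a ha
    obtain ⟨n, hn⟩ := Filter.eventually_atTop.1 (ψ r).eventually_disjoint_ker_pow_range_pow
    rcases hU _ _ (hn (n + 1) n.le_succ).eq_bot with h | h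
    · refine (Submodule.mem_bot _).1 (h ▸ LinearMap.mem_ker.2 ?_)
      rw [pow_succ, Module.End.mul_apply, show ψ r a = 0 from ha, map_zero]
    · exact absurd ⟨n + 1, by rw [RingHom.mem_ker, map_pow]; exact LinearMap.range_eq_bot.1 h⟩ hr
  have h1P : (1 : ℤ[T;T⁻¹]) ∉ P := fun h => by
    obtain ⟨n, hn⟩ := (hP 1).1 h
    refine hfin (isOfFinOrder_iff_pow_eq_one.2 ⟨1, one_pos, Units.ext (LinearMap.ext fun a => ?_)⟩)
    rw [show a = 0 by simpa using hn a, map_zero, map_zero]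
  have hprime : P.IsPrime := ⟨(Ideal.ne_top_iff_one P).2 h1P, fun {r s} h => by
    refine or_iff_not_imp_left.2 fun hr => ?_
    obtain ⟨n, hn⟩ := (hP _).1 h
    refine (hP s).2 ⟨n, fun a => hinj (r ^ n) (fun h => hr ?_) _ ?_⟩
    · exact Ideal.mem_radical_of_pow_mem h
    · rw [smul_smul, ← map_pow, ← map_mul, ← mul_pow, map_pow, hn]⟩
  rcases prime_cases (P.comap Polynomial.toLaurent) with ⟨π₀, hπ₀⟩ | ⟨p, hp, h1, g, h2, h3⟩
  · have hπ : ∀ r, r ∈ P ↔ Polynomial.toLaurent π₀ ∣ r := fun r => by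
      refine ⟨fun hr => ?_, fun hr => P.mem_of_dvd hr ((hπ₀ π₀).2 dvd_rfl)⟩
      obtain ⟨n, f, hf⟩ := exists_T_pow r
      have h1 := map_dvd Polynomial.toLaurent ((hπ₀ f).1 (by
        rw [Ideal.mem_comap, hf]; exact P.mul_mem_right _ hr))
      rwa [hf, (isUnit_T _).dvd_mul_right] at h1
    generalize Polynomial.toLaurent π₀ = π at hπ
    have h1 : ∀ a b, π ∣ a * b → π ∣ a ∨ π ∣ b := fun a b h => by
      rw [← hπ] at h
      rw [← hπ, ← hπ]
      exact hprime.mem_or_mem h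
    have h2 := H.th_prime hz h1
    obtain ⟨n, hn⟩ := (hP π).1 ((hπ π).2 dvd_rfl)
    have h3 : ¬ th z π ∣ 1 := by
      rintro ⟨w, hw⟩
      refine h1P ((hP 1).2 ⟨1, fun a => ?_⟩)
      have := hn (w ^ n • a)
      rwa [smul_smul, ← (H.th_comm π w).mul_pow, ← hw, one_pow, ← map_one (th z),
        ← pow_one (th z 1)] at this
    by_cases ht : ∀ b : A, th z π • b = 0 → ∃ c, ¬ th z π ∣ c ∧ c • b = 0
    · exact H.fits_tors h1 (fun h => h1P ((hπ 1).2 h)) h2 h3 hn
        (fun r hr => hinj r (mt (hπ r).1 hr)) ht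
    push Not at ht
    obtain ⟨b, hb, hb'⟩ := ht
    obtain ⟨m, φ, hφ⟩ := embed_free (H.th_comm π) h2 h3 (ore_left (H.th_comm π) h2)
      (ore_right (H.th_comm π) h2) hU ⟨n, hn⟩ b hb fun c hc => by_contra fun h => hb' c h hc
    refine (H.fits_quot _ fun f hf g => ?_).of_injective φ hφ
    obtain ⟨u, rfl⟩ := Submodule.mem_span_singleton.1 hf
    exact Submodule.mem_span_singleton.2 ⟨u * g, by
      rw [smul_eq_mul, smul_eq_mul, mul_assoc, mul_assoc, ((H.th_comm π g).pow_left m).eq]⟩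
  · obtain ⟨n, hn⟩ := (hP _).1 h1
    obtain ⟨m, hm⟩ := (hP _).1 h2
    let χ : MonoidAlgebra ℤ K →+* End ℤ A := Module.toModuleEnd ℤ A
    refine absurd (finOrder_of_integral _ (p ^ n) (pow_ne_zero _ hp) (LinearMap.ext fun a => ?_)
      ⟨g ^ m, h3.pow m, LinearMap.ext fun a => ?_⟩) hfin
    · rw [Polynomial.toLaurent_C, eq_intCast, map_intCast] at hn
      have := hn a
      rwa [← Int.cast_pow, Int.cast_smul_eq_zsmul] at this
    · have h4 : ((χ.comp (th z)).comp Polynomial.toLaurent) (g ^ m) =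
          Polynomial.eval₂ (algebraMap ℤ (End ℤ A)) (act K A z : End ℤ A) (g ^ m) := by
        rw [← Polynomial.aeval_def]
        refine DFunLike.congr_fun (show (χ.comp (th z)).comp Polynomial.toLaurent =
          (Polynomial.aeval (act K A z : End ℤ A)).toRingHom from
            Polynomial.ringHom_ext' (Subsingleton.elim _ _) ?_) _
        rw [RingHom.comp_apply, RingHom.comp_apply, Polynomial.toLaurent_X, T, th_single, zpow_one]
        exact (Polynomial.aeval_X _).symm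
      rw [← h4, RingHom.comp_apply, RingHom.comp_apply, map_pow, map_pow]
      exact hm a

theorem fits_all [Module.Finite (MonoidAlgebra ℤ K) A] : Fits K A := by
  have := H.noeth
  refine (IsNoetherian.induction (P := fun I : Submodule (MonoidAlgebra ℤ K) A => Fits K (A ⧸ I))
    (fun I ih => ?_) ⊥).of_injective (Submodule.mkQ ⊥) (LinearMap.ker_eq_bot.1 (by simp))
  by_cases hU : ∀ N N' : Submodule (MonoidAlgebra ℤ K) (A ⧸ I), N ⊓ N' = ⊥ → N = ⊥ ∨ N' = ⊥
  · exact H.fits_uniform hU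
  push Not at hU
  obtain ⟨N, N', h1, h2, h3⟩ := hU
  have key : ∀ N : Submodule (MonoidAlgebra ℤ K) (A ⧸ I), N ≠ ⊥ → Fits K ((A ⧸ I) ⧸ N) := by
    intro N hN
    have h4 : I ≤ N.comap I.mkQ := Submodule.le_comap_mkQ I N
    have h5 : (N.comap I.mkQ).map I.mkQ = N :=
      Submodule.map_comap_eq_of_surjective I.mkQ_surjective N
    have h6 := ih (N.comap I.mkQ) (lt_of_le_of_ne h4 fun h => hN (by
      rw [← h5, ← h, Submodule.mkQ_map_self]))
    rw [← h5]
    exact h6.of_injective (Submodule.quotientQuotientEquivQuotient I _ h4).toLinearMap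
      (LinearEquiv.injective _)
  exact ((key N h2).prod (key N' h3)).of_injective (N.mkQ.prod N'.mkQ)
    (LinearMap.ker_eq_bot.1 (by rw [LinearMap.ker_prod, Submodule.ker_mkQ, Submodule.ker_mkQ, h1]))

end Two

theorem fits_comm [Group.FG K] (h : ∀ a b : K, Commute a b)
    [Module.Finite (MonoidAlgebra ℤ K) A] : Fits K A := by
  obtain ⟨X, hX⟩ := Module.Finite.fg_top (R := MonoidAlgebra ℤ K) (M := A)
  obtain ⟨h4, h5, h6⟩ := ext_sub (MonoidHom.id K) ⊤ Group.FG.out (fun _ _ _ => trivial)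
    (act K A) (fun p _ q _ => (h p q).map _) 1 fun _ => Commute.one_left _
  refine ⟨A, _, _, _, Units.coeHom _, act K A, _, AddMonoidHom.id A, Function.injective_id,
    fun _ _ => rfl, h4, h5, h6, X, X.finite_toSet, top_of_span hX _ fun a ha =>
      smul_mem_of _ fun g => ?_⟩
  exact inv_gen _ (Set.mem_image_of_mem _
    (Subgroup.mem_sup_left (Subgroup.mem_map_of_mem _ (Subgroup.mem_top g)))) a (subset_gen ha)

open scoped commutatorElement in
theorem embed_virt {G Q : Type} [Group G] [Group.FG G] [Group Q] (π : G →* Q)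
    (hπ : Function.Surjective π) (hA : ∀ a ∈ π.ker, ∀ b ∈ π.ker, a * b = b * a)
    (K : Subgroup Q) (hi : K.index ≠ 0) (hK : (∀ a ∈ K, ∀ b ∈ K, Commute a b) ∨
      ∃ x y, K = Subgroup.closure {x, y} ∧ Commute x ⁅x, y⁆ ∧ Commute y ⁅x, y⁆) :
    ∃ (M : Type) (_ : Group M), Group.FG M ∧ derivedSeries M 2 = ⊥ ∧
      ∃ f : G →* MulAut M, Function.Injective f := by
  have : (K.comap π).FiniteIndex := ⟨by rwa [Subgroup.index_comap_of_surjective _ hπ]⟩
  have h0 := π.subgroupComap_surjective_of_surjective K hπ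
  obtain ⟨M, _, _, _, h1, f, hf⟩ := embed (π.subgroupComap K) h0
    (fun a ha b hb => Subtype.ext (hA _ (congrArg Subtype.val ha) _ (congrArg Subtype.val hb)))
    fun B _ _ _ => by
      rcases hK with h | ⟨x, y, rfl, hx, hy⟩
      · have := Group.fg_of_surjective h0
        exact fits_comm fun a b => Subtype.ext (h _ a.2 _ b.2)
      let x' : Subgroup.closure {x, y} := ⟨x, Subgroup.subset_closure (by simp)⟩
      let y' : Subgroup.closure {x, y} := ⟨y, Subgroup.subset_closure (by simp)⟩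
      refine Two.fits_all (x := x') (y := y') (z := ⁅x', y'⁆)
        ⟨fun g => Subtype.ext ?_, by rw [commutatorElement_def]; group, ?_⟩
      · refine ((show Subgroup.closure {x, y} ≤ Subgroup.centralizer {⁅x, y⁆} from
          (Subgroup.closure_le _).2 ?_) g.2 _ rfl)
        rintro _ (rfl | rfl) _ rfl
        exacts [hx.symm.eq, hy.symm.eq]
      · rw [← Subgroup.closure_closure_coe_preimage (k := {x, y})]
        congr 1
        ext g
        simp [x', y', Subtype.ext_iff]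
  exact embed_index (K.comap π) h1 f hf

end Pool.Agent.P.MP_e2f787_al.Heis
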