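import Pool.Agent.P.MP_e2f787_al.HRing

/-! Modules that embed in a module finitely generated over a normalised abelian group. -/

namespace Pool.Agent.P.MP_e2f787_al.Heis

open Module MonoidAlgebra SemidirectProduct

def Fits (K : Type) [Group K] (A : Type) [AddCommGroup A] [Module (MonoidAlgebra ℤ K) A] : Prop :=
  ∃ (W : Type) (_ : AddCommGroup W) (Γ : Type) (_ : Group Γ) (ρ : Γ →* End ℤ W) (j : K →* Γ)
    (Q : Subgroup Γ) (ι : A →+ W), Function.Injective ι ∧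
    (∀ h a, ι ((single h 1 : MonoidAlgebra ℤ K) • a) = ρ (j h) (ι a)) ∧ Q.FG ∧
    (∀ p ∈ Q, ∀ q ∈ Q, Commute p q) ∧ (∀ h, ∀ q ∈ Q, j h * q * (j h)⁻¹ ∈ Q) ∧
    ∃ S : Set W, S.Finite ∧ gen (ρ '' Q) S = ⊤

theorem fg_map {G H : Type*} [Group G] [Group H] {K : Subgroup G} (h : K.FG) (f : G →* H) :
    (K.map f).FG :=
  (Subgroup.fg_iff_submonoid_fg _).mpr (((Subgroup.fg_iff_submonoid_fg _).mp h).map f)

theorem ext_sub {K Γ₁ Γ : Type*} [Group K] [Group Γ₁] [Group Γ] (j : K →* Γ₁) (Q : Subgroup Γ₁)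
    (h1 : Q.FG) (h2 : ∀ h, ∀ q ∈ Q, j h * q * (j h)⁻¹ ∈ Q) (σ : Γ₁ →* Γ)
    (h3 : ∀ p ∈ Q, ∀ q ∈ Q, Commute (σ p) (σ q)) (t : Γ) (ht : ∀ g, Commute t (σ g)) :
    (Q.map σ ⊔ Subgroup.zpowers t).FG ∧
    (∀ p ∈ Q.map σ ⊔ Subgroup.zpowers t, ∀ q ∈ Q.map σ ⊔ Subgroup.zpowers t, Commute p q) ∧
    ∀ h, ∀ q ∈ Q.map σ ⊔ Subgroup.zpowers t,
      σ.comp j h * q * (σ.comp j h)⁻¹ ∈ Q.map σ ⊔ Subgroup.zpowers t := by
  refine ⟨(fg_map h1 σ).sup ((Subgroup.fg_iff _).2 ⟨{t}, (Subgroup.zpowers_eq_closure t).symm,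
    Set.finite_singleton t⟩), ?_, fun h => ?_⟩
  · have key : ∀ u : Γ, (∀ q ∈ Q, Commute u (σ q)) → Commute u t →
        ∀ q ∈ Q.map σ ⊔ Subgroup.zpowers t, Commute u q := by
      intro u h4 h5 q hq
      refine (show Q.map σ ⊔ Subgroup.zpowers t ≤ Subgroup.centralizer {u} from
        sup_le ?_ (Subgroup.zpowers_le.2 ?_)) hq u rfl
      · rintro _ ⟨q, hq, rfl⟩ _ rfl
        exact h4 q hq
      · rintro _ rfl
        exact h5
    intro p hp
    refine key p (fun q hq => (key _ (h3 q hq) (ht q).symm p hp).symm)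
      (key t (fun q _ => ht q) (Commute.refl t) p hp).symm
  · refine (show Q.map σ ⊔ Subgroup.zpowers t ≤ (Q.map σ ⊔ Subgroup.zpowers t).comap
      (MulAut.conj (σ (j h))).toMonoidHom from sup_le ?_ (Subgroup.zpowers_le.2 ?_))
    · rintro _ ⟨q, hq, rfl⟩
      exact Subgroup.mem_sup_left ⟨_, h2 h q hq, by simp⟩
    · change σ (j h) * t * (σ (j h))⁻¹ ∈ Q.map σ ⊔ Subgroup.zpowers t
      rw [← (ht _).eq, mul_inv_cancel_right]
      exact Subgroup.mem_sup_right (Subgroup.mem_zpowers t)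

variable {K : Type} [Group K] {A B : Type} [AddCommGroup A] [Module (MonoidAlgebra ℤ K) A]
  [AddCommGroup B] [Module (MonoidAlgebra ℤ K) B]

theorem Fits.of_injective (h : Fits K B) (φ : A →ₗ[MonoidAlgebra ℤ K] B)
    (hφ : Function.Injective φ) : Fits K A := by
  obtain ⟨W, _, Γ, _, ρ, j, Q, ι, h1, h2, h3⟩ := h
  exact ⟨W, _, Γ, _, ρ, j, Q, ι.comp φ.toAddMonoidHom, h1.comp hφ,
    fun g a => (congrArg ι (map_smul φ _ a)).trans (h2 g _), h3⟩

theorem gen_prod {W W' : Type*} [AddCommGroup W] [AddCommGroup W'] {T : Set (End ℤ W)}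
    {T' : Set (End ℤ W')} {S : Set W} {S' : Set W'} (hS : gen T S = ⊤) (hS' : gen T' S' = ⊤)
    {U : Set (End ℤ (W × W'))} (h : ∀ f ∈ T, ∃ u ∈ U, ∀ w, u (w, 0) = (f w, 0))
    (h' : ∀ f ∈ T', ∃ u ∈ U, ∀ w, u (0, w) = (0, f w)) :
    gen U (LinearMap.inl ℤ W W' '' S ∪ LinearMap.inr ℤ W W' '' S') = ⊤ := by
  set N := gen U (LinearMap.inl ℤ W W' '' S ∪ LinearMap.inr ℤ W W' '' S')
  have h1 : gen T S ≤ N.comap (LinearMap.inl ℤ W W') := by
    refine gen_le (fun f hf w hw => ?_) fun w hw => subset_gen (Or.inl ⟨w, hw, rfl⟩)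
    obtain ⟨u, hu, h2⟩ := h f hf
    exact (show (f w, 0) ∈ N from h2 w ▸ inv_gen u hu _ hw)
  have h2 : gen T' S' ≤ N.comap (LinearMap.inr ℤ W W') := by
    refine gen_le (fun f hf w hw => ?_) fun w hw => subset_gen (Or.inr ⟨w, hw, rfl⟩)
    obtain ⟨u, hu, h2⟩ := h' f hf
    exact (show (0, f w) ∈ N from h2 w ▸ inv_gen u hu _ hw)
  refine eq_top_iff.2 fun v _ => ?_
  have := N.add_mem (h1 (hS ▸ Submodule.mem_top : v.1 ∈ gen T S))
    (h2 (hS' ▸ Submodule.mem_top : v.2 ∈ gen T' S'))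
  simpa using this

theorem Fits.prod (h : Fits K A) (h' : Fits K B) : Fits K (A × B) := by
  obtain ⟨W, _, Γ, _, ρ, j, Q, ι, h1, h2, h3, h4, h5, S, h6, h7⟩ := h
  obtain ⟨W', _, Γ', _, ρ', j', Q', ι', h1', h2', h3', h4', h5', S', h6', h7'⟩ := h'
  let τ : Γ × Γ' →* End ℤ (W × W') :=
    (LinearMap.prodMapRingHom ℤ W W').toMonoidHom.comp (ρ.prodMap ρ')
  refine ⟨W × W', inferInstance, Γ × Γ', inferInstance, τ, j.prod j', Q.prod Q', ι.prodMap ι',
    h1.prodMap h1', fun g a => Prod.ext (h2 g a.1) (h2' g a.2), h3.prod h3',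
    fun p hp q hq => Prod.ext (h4 _ hp.1 _ hq.1) (h4' _ hp.2 _ hq.2),
    fun g q hq => ⟨h5 g _ hq.1, h5' g _ hq.2⟩, _, (h6.image _).union (h6'.image _),
    gen_prod h7 h7' ?_ ?_⟩
  · rintro _ ⟨q, hq, rfl⟩
    exact ⟨_, ⟨(q, 1), ⟨hq, Q'.one_mem⟩, rfl⟩, fun w => by simp [τ]⟩
  · rintro _ ⟨q, hq, rfl⟩
    exact ⟨_, ⟨(1, q), ⟨Q.one_mem, hq⟩, rfl⟩, fun w => by simp [τ]⟩

theorem Fits.noFix (h : Fits K A) :
    ∃ (W : Type) (_ : AddCommGroup W) (Γ : Type) (_ : Group Γ) (ρ : Γ →* End ℤ W) (j : K →* Γ)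
    (Q : Subgroup Γ) (ι : A →+ W), Function.Injective ι ∧
    (∀ h a, ι ((single h 1 : MonoidAlgebra ℤ K) • a) = ρ (j h) (ι a)) ∧ Q.FG ∧
    (∀ p ∈ Q, ∀ q ∈ Q, Commute p q) ∧ (∀ h, ∀ q ∈ Q, j h * q * (j h)⁻¹ ∈ Q) ∧
    (∃ S : Set W, S.Finite ∧ gen (ρ '' Q) S = ⊤) ∧ ∀ w, (∀ q ∈ Q, ρ q w = w) → w = 0 := by
  obtain ⟨W, _, Γ, _, ρ, j, Q, ι, h1, h2, h3, h4, h5, S, h6, h7⟩ := h
  let σ : Γ →* (End ℤ (W × W))ˣ :=
    ((LinearMap.prodMapRingHom ℤ W W).toMonoidHom.comp (ρ.prod ρ)).toHomUnits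
  have hσ : ∀ g v, (σ g : End ℤ (W × W)) v = (ρ g v.1, ρ g v.2) := fun _ _ => rfl
  let t : (End ℤ (W × W))ˣ :=
    ⟨(LinearMap.snd ℤ W W).prod (LinearMap.fst ℤ W W + LinearMap.snd ℤ W W),
      (LinearMap.snd ℤ W W - LinearMap.fst ℤ W W).prod (LinearMap.fst ℤ W W),
      LinearMap.ext fun v => by simp, LinearMap.ext fun v => by simp⟩
  have ht : ∀ v, (t : End ℤ (W × W)) v = (v.2, v.1 + v.2) := fun _ => rfl
  obtain ⟨h8, h9, h10⟩ := ext_sub j Q h3 h5 σ (fun p hp q hq => (h4 p hp q hq).map σ) t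
    fun g => Units.ext (LinearMap.ext fun v => by
      change (t : End ℤ (W × W)) ((σ g : End ℤ (W × W)) v) = (σ g : End ℤ (W × W)) (t.1 v)
      rw [hσ, hσ, ht, ht, map_add])
  refine ⟨W × W, inferInstance, _, inferInstance, Units.coeHom _, σ.comp j, _,
    (AddMonoidHom.inl W W).comp ι, fun a b hab => h1 (congrArg Prod.fst hab),
    fun g a => Prod.ext (h2 g a) (map_zero (ρ (j g))).symm, h8, h9, h10,
    ⟨_, (h6.image _).union (h6.image _), gen_prod h7 h7 ?_ ?_⟩, fun w hw => ?_⟩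
  · rintro _ ⟨q, hq, rfl⟩
    exact ⟨_, ⟨σ q, Subgroup.mem_sup_left ⟨q, hq, rfl⟩, rfl⟩, fun w =>
      Prod.ext rfl (map_zero (ρ q))⟩
  · rintro _ ⟨q, hq, rfl⟩
    exact ⟨_, ⟨σ q, Subgroup.mem_sup_left ⟨q, hq, rfl⟩, rfl⟩, fun w =>
      Prod.ext (map_zero (ρ q)) rfl⟩
  · have h11 : (w.2, w.1 + w.2) = w := hw t (Subgroup.mem_sup_right (Subgroup.mem_zpowers t))
    have h12 : w.1 = 0 := add_eq_right.1 (congrArg Prod.snd h11)
    exact Prod.ext h12 ((congrArg Prod.fst h11).trans h12)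

theorem exists_action {G : Type} [Group G] (G₀ : Subgroup G) {M : Type} [Group M]
    (f : G₀ →* MulAut M) : ∃ (F : G →* MulAut (G ⧸ G₀ → M)) (c : G → G ⧸ G₀ → G₀),
      (∀ g m t, F g m t = f (c g t) (m (g⁻¹ • t))) ∧
      ∀ g : G₀, c g (QuotientGroup.mk 1) = g := by
  classical
  obtain ⟨s, hs, hs1⟩ : ∃ s : G ⧸ G₀ → G, (∀ t, QuotientGroup.mk (s t) = t) ∧
      s (QuotientGroup.mk 1) = 1 :=
    ⟨fun t => if t = QuotientGroup.mk 1 then 1 else t.out, fun t => by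
      beta_reduce
      split_ifs with h
      exacts [h.symm, QuotientGroup.out_eq' t], if_pos rfl⟩
  let c : G → G ⧸ G₀ → G₀ := fun g t => ⟨(s t)⁻¹ * g * s (g⁻¹ • t), by
    rw [mul_assoc, ← QuotientGroup.eq, hs, ← smul_eq_mul, ← MulAction.Quotient.smul_mk, hs,
      smul_inv_smul]⟩
  have hc : ∀ g g' t, c (g * g') t = c g t * c g' (g⁻¹ • t) := fun g g' t =>
    Subtype.ext (by simp [c, mul_smul, mul_assoc])
  have hc1 : ∀ t, c 1 t = 1 := fun t => by simpa using hc 1 1 t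
  let _ : MulDistribMulAction G (G ⧸ G₀ → M) :=
    { smul := fun g m t => f (c g t) (m (g⁻¹ • t))
      one_smul := fun m => funext fun t => by
        change f (c 1 t) (m ((1 : G)⁻¹ • t)) = m t
        simp [hc1]
      mul_smul := fun g g' m => funext fun t => by
        change f (c (g * g') t) (m ((g * g')⁻¹ • t)) =
          f (c g t) (f (c g' (g⁻¹ • t)) (m (g'⁻¹ • g⁻¹ • t)))
        simp [hc, mul_smul]
      smul_mul := fun g a b => funext fun t => map_mul (f (c g t)) _ _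
      smul_one := fun g => funext fun t => map_one (f (c g t)) }
  refine ⟨MulDistribMulAction.toMulAut G _, c, fun _ _ _ => rfl, fun g => Subtype.ext ?_⟩
  have h1 : (g : G)⁻¹ • (QuotientGroup.mk 1 : G ⧸ G₀) = QuotientGroup.mk 1 :=
    QuotientGroup.eq.2 (by simp)
  simp only [c, h1, hs1, inv_one, one_mul, mul_one]

theorem embed_index {G : Type} [Group G] (G₀ : Subgroup G) [G₀.FiniteIndex] {M : Type} [Group M]
    [Group.FG M] [Nontrivial M] (hM : derivedSeries M 2 = ⊥) (f : G₀ →* MulAut M)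
    (hf : Function.Injective f) : ∃ (M : Type) (_ : Group M), Group.FG M ∧
      derivedSeries M 2 = ⊥ ∧ ∃ f : G →* MulAut M, Function.Injective f := by
  classical
  obtain ⟨F, c, hF, hc⟩ := exists_action G₀ f
  refine ⟨G ⧸ G₀ → M, inferInstance, inferInstance, eq_bot_iff.2 fun m hm => funext fun t => ?_,
    F, (injective_iff_map_eq_one _).2 fun g hg => ?_⟩
  · exact Subgroup.mem_bot.1 (hM ▸ map_derivedSeries_le_derivedSeries
      (Pi.evalMonoidHom (fun _ : G ⧸ G₀ => M) t) 2 ⟨m, hm, rfl⟩)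
  · have h1 : ∀ (m : G ⧸ G₀ → M) t, f (c g t) (m (g⁻¹ • t)) = m t := fun m t => by
      rw [← hF, hg, MulAut.one_apply]
    obtain ⟨m₀, hm₀⟩ := exists_ne (1 : M)
    let t : G ⧸ G₀ := QuotientGroup.mk 1
    have h2 : g⁻¹ • t = t := by_contra fun h => hm₀ (by
      simpa [Pi.mulSingle_eq_of_ne h] using (h1 (Pi.mulSingle t m₀) t).symm)
    have h3 : g ∈ G₀ := by simpa using QuotientGroup.eq.1 h2
    exact congrArg Subtype.val ((hc ⟨g, h3⟩).symm.trans (hf (by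
      rw [map_one]
      exact MulEquiv.ext fun m => h1 (fun _ => m) t)))

theorem exists_der {G : Type} [Group G] (π : G →* K) (hπ : Function.Surjective π)
    (hA : ∀ a ∈ π.ker, ∀ b ∈ π.ker, a * b = b * a) :
    ∃ (V : Type) (_ : AddCommGroup V) (_ : Module (MonoidAlgebra ℤ K) V) (δ : G → V),
      (∀ g g', δ (g * g') = δ g + (single (π g) 1 : MonoidAlgebra ℤ K) • δ g') ∧
      ∀ g, π g = 1 → δ g = 0 → g = 1 := by
  let _ : CommGroup π.ker :=
    { (inferInstance : Group π.ker) with mul_comm := fun a b => Subtype.ext (hA _ a.2 _ b.2) }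
  choose s hs using hπ
  let τ : Representation ℤ K (K → Additive π.ker) :=
    { toFun := fun h => LinearMap.funLeft ℤ _ fun t => h⁻¹ * t
      map_one' := by ext; simp
      map_mul' := fun _ _ => by ext; simp [mul_assoc] }
  let δ : G → K → Additive π.ker := fun g t =>
    Additive.ofMul ⟨(s t)⁻¹ * g * s ((π g)⁻¹ * t), by simp [MonoidHom.mem_ker, hs]⟩
  refine ⟨τ.asModule, inferInstance, inferInstance, δ, fun g g' => ?_, fun g h1 h2 => ?_⟩
  · change δ (g * g') = δ g + τ.asAlgebraHom (single (π g) 1) (δ g')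
    rw [Representation.asAlgebraHom_single_one]
    refine funext fun t => Subtype.ext ?_
    change (s t)⁻¹ * (g * g') * s ((π (g * g'))⁻¹ * t) =
      (s t)⁻¹ * g * s ((π g)⁻¹ * t) * ((s ((π g)⁻¹ * t))⁻¹ * g' * s ((π g')⁻¹ * ((π g)⁻¹ * t)))
    simp [mul_assoc]
  · have h3 : (s 1)⁻¹ * g * s ((π g)⁻¹ * 1) = 1 :=
      congrArg (fun F : K → Additive π.ker => (F 1).toMul.1) h2
    rwa [h1, inv_one, one_mul, mul_assoc, inv_mul_eq_one, eq_comm, mul_eq_right] at h3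

theorem embed {G : Type} [Group G] [Group.FG G] (π : G →* K) (hπ : Function.Surjective π)
    (hA : ∀ a ∈ π.ker, ∀ b ∈ π.ker, a * b = b * a)
    (hK : ∀ (B : Type) [AddCommGroup B] [Module (MonoidAlgebra ℤ K) B]
      [Module.Finite (MonoidAlgebra ℤ K) B], Fits K B) :
    ∃ (M : Type) (_ : Group M), Group.FG M ∧ Nontrivial M ∧
      derivedSeries M 2 = ⊥ ∧ ∃ f : G →* MulAut M, Function.Injective f := by
  classical
  obtain ⟨V, _, _, δ, hδ, hδ0⟩ := exists_der π hπ hA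
  have hδ1 : δ 1 = 0 := by simpa [← one_def] using hδ 1 1
  obtain ⟨X, hX, hXf⟩ := Group.fg_iff.1 (inferInstance : Group.FG G)
  let B : Submodule (MonoidAlgebra ℤ K) V := Submodule.span _ (δ '' X)
  have : Module.Finite (MonoidAlgebra ℤ K) B := Module.Finite.span_of_finite _ (hXf.image δ)
  have hB : ∀ g, δ g ∈ B := by
    intro g
    have hg : g ∈ Subgroup.closure X := hX ▸ Subgroup.mem_top g
    induction hg using Subgroup.closure_induction with
    | mem x hx => exact Submodule.subset_span ⟨x, hx, rfl⟩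
    | one => exact hδ1 ▸ B.zero_mem
    | mul x y _ _ hx hy => exact hδ x y ▸ B.add_mem hx (B.smul_mem _ hy)
    | inv x _ hx =>
      have h1 := hδ x⁻¹ x
      rw [inv_mul_cancel, hδ1, eq_comm, add_eq_zero_iff_eq_neg] at h1
      exact h1 ▸ B.neg_mem (B.smul_mem _ hx)
  obtain ⟨W, _, Γ, _, ρ, j, Q, ι, h1, h2, h3, h4, h5, ⟨S, h6, h7⟩, h8⟩ :=
    (hK (B × MonoidAlgebra ℤ K)).noFix
  let _ : DistribMulAction Γ W := DistribMulAction.compHom W ρ
  let φ : Γ →* MulAut (Multiplicative W) :=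
    { toFun := fun g => AddEquiv.toMultiplicative (DistribMulAction.toAddEquiv W g)
      map_one' := by ext; simp
      map_mul' := fun a b => by ext; simp [mul_smul] }
  have hφ : ∀ g w, φ g (Multiplicative.ofAdd w) = Multiplicative.ofAdd (ρ g w) := fun _ _ => rfl
  let ψ : G →* Multiplicative W ⋊[φ] Γ := MonoidHom.mk'
    (fun g => ⟨Multiplicative.ofAdd (ι (⟨δ g, hB g⟩, 0)), j (π g)⟩) fun g g' => by
      refine SemidirectProduct.ext ?_ (by simp)
      rw [mul_left, hφ, ← h2, ← ofAdd_add, ← map_add]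
      exact congrArg (fun v => Multiplicative.ofAdd (ι v))
        (Prod.ext (Subtype.ext (hδ g g')) (by simp))
  let M : Subgroup (Multiplicative W ⋊[φ] Γ) := Q.comap rightHom
  have hinl : ∀ w, inl w ∈ M := fun w => by simp [M, Subgroup.mem_comap]
  have hconj : ∀ g, ∀ u ∈ M, ψ g * u * (ψ g)⁻¹ ∈ M := fun g u hu => h5 (π g) _ hu
  have hnorm : ∀ g, ψ g ∈ Subgroup.normalizer (M : Set (Multiplicative W ⋊[φ] Γ)) := fun g =>
    Subgroup.mem_normalizer_iff.mpr fun u => ⟨hconj g u, fun h => by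
      simpa [mul_assoc] using hconj g⁻¹ _ h⟩
  refine ⟨M, inferInstance, (Group.fg_iff_subgroup_fg _).2 ?_,
    ⟨⟨inl (Multiplicative.ofAdd (ι (0, 1))), hinl _⟩, 1, fun h => ?_⟩, ?_,
    M.normalizerMonoidHom.comp (ψ.codRestrict _ hnorm),
    (injective_iff_map_eq_one _).2 fun g hg => ?_⟩
  · obtain ⟨Y, hY, hYf⟩ := (Subgroup.fg_iff _).1 h3
    refine (Subgroup.fg_iff _).2 ⟨(fun w => inl (Multiplicative.ofAdd w)) '' S ∪ inr '' Y,
      le_antisymm ((Subgroup.closure_le _).2 ?_) fun u hu => ?_, (h6.image _).union (hYf.image _)⟩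
    · rintro _ (⟨w, -, rfl⟩ | ⟨q, hq, rfl⟩)
      · exact hinl _
      · exact (show q ∈ Q from hY ▸ Subgroup.subset_closure hq)
    · set C := Subgroup.closure ((fun w => (inl (Multiplicative.ofAdd w) :
        Multiplicative W ⋊[φ] Γ)) '' S ∪ inr '' Y)
      have h9 : ∀ q ∈ Q, inr q ∈ C := fun q hq => by
        have : Q.map inr ≤ C := by
          rw [← hY, MonoidHom.map_closure]
          exact Subgroup.closure_mono Set.subset_union_right
        exact this ⟨q, hq, rfl⟩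
      have h10 : gen (ρ '' Q) S ≤ (Subgroup.toAddSubgroup' (C.comap inl)).toIntSubmodule := by
        refine gen_le ?_ fun w hw => Subgroup.subset_closure (Or.inl ⟨w, hw, rfl⟩)
        rintro _ ⟨q, hq, rfl⟩ w hw
        change inl (φ q (Multiplicative.ofAdd w)) ∈ C
        rw [inl_aut]
        exact C.mul_mem (C.mul_mem (h9 q hq) hw) (h9 _ (Q.inv_mem hq))
      rw [← inl_left_mul_inr_right u]
      exact C.mul_mem (h10 (h7 ▸ Submodule.mem_top : u.left.toAdd ∈ gen (ρ '' Q) S)) (h9 _ hu)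
  · have h9 : ι (0, 1) = ι 0 := (congrArg (fun u : M => u.1.left.toAdd) h).trans (map_zero ι).symm
    exact one_ne_zero (congrArg Prod.snd (h1 h9))
  · have h9 : commutator M ≤ (rightHom.comp M.subtype).ker :=
      Subgroup.commutator_le.2 fun a _ b _ => by
        rw [MonoidHom.mem_ker, map_commutatorElement, commutatorElement_eq_one_iff_commute]
        exact h4 _ a.2 _ b.2
    refine eq_bot_iff.2 (Subgroup.commutator_le.2 fun a ha b hb => ?_)
    obtain ⟨u, hu⟩ : a.1 ∈ (inl : _ →* Multiplicative W ⋊[φ] Γ).range :=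
      range_inl_eq_ker_rightHom.ge (h9 ha)
    obtain ⟨v, hv⟩ : b.1 ∈ (inl : _ →* Multiplicative W ⋊[φ] Γ).range :=
      range_inl_eq_ker_rightHom.ge (h9 hb)
    rw [Subgroup.mem_bot, commutatorElement_eq_one_iff_commute]
    refine Subtype.ext ?_
    rw [Subgroup.coe_mul, Subgroup.coe_mul, ← hu, ← hv, ← map_mul, ← map_mul, mul_comm]
  · have h9 : ∀ u ∈ M, ψ g * u * (ψ g)⁻¹ = u := fun u hu => by
      have h10 : M.normalizerMonoidHom ⟨ψ g, hnorm g⟩ = 1 := hg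
      have h11 := Subgroup.normalizerMonoidHom_apply_apply_coe M ⟨ψ g, hnorm g⟩ ⟨u, hu⟩
      rw [h10] at h11
      exact h11.symm
    have h10 : ∀ w, ρ (j (π g)) w = w := fun w => by
      have h11 := congrArg SemidirectProduct.left
        (mul_inv_eq_iff_eq_mul.1 (h9 _ (hinl (Multiplicative.ofAdd w))))
      rw [mul_left, mul_left, left_inl, right_inl, map_one, MulAut.one_apply, mul_comm] at h11
      exact congrArg Multiplicative.toAdd (mul_right_cancel h11)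
    have h11 : π g = 1 := by
      have h12 := h1 ((h2 (π g) (0, 1)).trans (h10 _))
      have h13 : (single (π g) 1 : MonoidAlgebra ℤ K) * 1 = 1 := congrArg Prod.snd h12
      exact of_injective (R := ℤ) (((mul_one _).symm.trans h13).trans (map_one _).symm)
    have h12 : ι (⟨δ g, hB g⟩, 0) = 0 := h8 _ fun q hq => by
      have h13 := congrArg SemidirectProduct.left
        (mul_inv_eq_iff_eq_mul.1 (h9 (inr q) hq))
      rw [mul_left, mul_left, left_inr, map_one, mul_one, one_mul, right_inr] at h13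
      exact h13.symm
    exact hδ0 g h11
      (congrArg (fun v : B × MonoidAlgebra ℤ K => v.1.1) (h1 (h12.trans (map_zero ι).symm)))

end Pool.Agent.P.MP_e2f787_al.Heis
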