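import Pool.Agent.P.MP_e2f787_al.HGood

/-! Primes of the integer polynomial ring; two-generator groups with central commutator. -/

namespace Pool.Agent.P.MP_e2f787_al.Heis

open Module MonoidAlgebra

section Prime

open Polynomial

theorem prime_cases (P : Ideal ℤ[X]) [hP : P.IsPrime] :
    (∃ π, ∀ r, r ∈ P ↔ π ∣ r) ∨ ∃ p : ℤ, p ≠ 0 ∧ C p ∈ P ∧ ∃ g ∈ P, g.Monic := by
  by_cases h : P.comap (C : ℤ →+* ℤ[X]) = ⊥
  · left
    by_cases h0 : P = ⊥
    · exact ⟨0, fun r => by simp [h0]⟩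
    obtain ⟨π, hπ, hπ'⟩ := hP.exists_mem_prime_of_ne_bot h0
    refine ⟨π, fun r => ⟨fun hr => by_contra fun hn => ?_, fun hr => P.mem_of_dvd hr hπ⟩⟩
    have := AdjoinRoot.isDomain_of_prime hπ'
    have h1 : IsAlgebraic ℤ (AdjoinRoot.mk π r) :=
      Algebra.isAlgebraic_adjoin_singleton_iff.mpr (AdjoinRoot.isAlgebraic_root hπ'.ne_zero) _
        (AdjoinRoot.adjoinRoot_eq_top (f := π) ▸ Algebra.mem_top)
    obtain ⟨m, hm, hm0⟩ := Submodule.exists_mem_ne_zero_of_ne_bot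
      (Ideal.comap_ne_bot_of_algebraic_mem (I := P.map (AdjoinRoot.mk π))
        (mt AdjoinRoot.mk_eq_zero.1 hn) (Ideal.mem_map_of_mem _ hr) h1)
    obtain ⟨s, hs, h2⟩ := (Ideal.mem_map_iff_of_surjective _ AdjoinRoot.mk_surjective).1 hm
    have h3 : π ∣ s - C m := AdjoinRoot.mk_eq_mk.1 h2
    have h4 : C m ∈ P := by simpa using P.sub_mem hs (P.mem_of_dvd h3 hπ)
    exact hm0 (Ideal.mem_bot.1 (h ▸ h4))
  obtain ⟨p, hp, hp'⟩ := (Ideal.comap_isPrime C P).exists_mem_prime_of_ne_bot h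
  by_cases h1 : ∀ r ∈ P, C p ∣ r
  · exact Or.inl ⟨C p, fun r => ⟨h1 r, fun hr => P.mem_of_dvd hr hp⟩⟩
  push Not at h1
  obtain ⟨g, hg, hg'⟩ := h1
  have := PrincipalIdealRing.isMaximal_of_irreducible hp'.irreducible
  let _ := Ideal.Quotient.field (Ideal.span {p})
  let f := Ideal.Quotient.mk (Ideal.span {p})
  have hf : ∀ r : ℤ[X], r.map f = 0 → C p ∣ r := fun r hr =>
    (C_dvd_iff_dvd_coeff _ _).2 fun i => Ideal.mem_span_singleton.1
      (Ideal.Quotient.eq_zero_iff_mem.1 (by rw [← Polynomial.coeff_map, hr, Polynomial.coeff_zero]))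
  obtain ⟨v, hv⟩ := Ideal.Quotient.mk_surjective (g.map f).leadingCoeff⁻¹
  obtain ⟨q, h2, -, h3⟩ := lifts_and_degree_eq_and_monic (f := f) ⟨g * C v, rfl⟩ (by
    rw [Polynomial.coe_mapRingHom, Polynomial.map_mul, map_C, hv]
    exact monic_mul_leadingCoeff_inv fun h => hg' (hf g h))
  refine Or.inr ⟨p, hp'.ne_zero, hp, q, ?_, h3⟩
  have h4 := P.mem_of_dvd (hf (q - g * C v) (by rw [Polynomial.map_sub, h2]; exact sub_self _)) hp
  simpa using P.add_mem h4 (P.mul_mem_right (C v) hg)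

theorem finOrder_of_integral {S : Type*} [Ring S] (ζ : Sˣ) (p : ℤ) (hp : p ≠ 0)
    (h1 : (p : S) = 0) (h2 : IsIntegral ℤ (ζ : S)) : IsOfFinOrder ζ := by
  let T := Subalgebra.toSubmodule (Algebra.adjoin ℤ {(ζ : S)})
  have : Module.Finite ℤ T := Module.Finite.iff_fg.2 h2.fg_adjoin_singleton
  have : Finite T := Module.finite_of_fg_torsion _ fun t =>
    ⟨⟨p, mem_nonZeroDivisors_of_ne_zero hp⟩, Subtype.ext (by
      change p • t.1 = 0
      rw [zsmul_eq_mul, h1, zero_mul])⟩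
  by_contra h
  exact not_injective_infinite_finite (fun n : ℕ => (⟨(ζ : S) ^ n,
    pow_mem (Algebra.self_mem_adjoin_singleton ℤ (ζ : S)) n⟩ : T)) fun a b hab =>
      injective_pow_iff_not_isOfFinOrder.2 h (Units.ext (by
        simpa using congrArg Subtype.val hab))

end Prime

structure Two {K : Type} [Group K] (x y z : K) : Prop where
  cen : ∀ g, Commute z g
  rel : x * y = z * (y * x)
  gen : Subgroup.closure {x, y} = ⊤

variable {K : Type} [Group K] {x y z : K}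

namespace Two

variable (H : Two x y z)

include H

theorem swap (a b : ℤ) : x ^ a * y ^ b = z ^ (a * b) * (y ^ b * x ^ a) := by
  have h1 : SemiconjBy y (z * x) x := by
    rw [SemiconjBy, H.rel, ← mul_assoc, ← (H.cen y).eq, mul_assoc]
  have h2 : SemiconjBy (x ^ a) y (z ^ a * y) := by
    rw [SemiconjBy, ← (h1.zpow_right a).eq, (H.cen x).mul_zpow, ((H.cen y).zpow_left a).eq,
      mul_assoc]
  rw [(h2.zpow_right b).eq, ((H.cen y).zpow_left a).mul_zpow, ← zpow_mul, mul_assoc]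

theorem umul (p q : ℤ × ℤ) : x ^ p.1 * y ^ p.2 * (x ^ q.1 * y ^ q.2) =
    z ^ (-(q.1 * p.2)) * (x ^ (p + q).1 * y ^ (p + q).2) := by
  have h1 : y ^ p.2 * x ^ q.1 = z ^ (-(q.1 * p.2)) * (x ^ q.1 * y ^ p.2) := by
    rw [H.swap, zpow_neg, inv_mul_cancel_left]
  rw [mul_assoc, ← mul_assoc (y ^ p.2), h1, ← mul_assoc, ← mul_assoc, ← mul_assoc,
    ← ((H.cen _).zpow_left _).eq, Prod.fst_add, Prod.snd_add, zpow_add, zpow_add]
  simp only [mul_assoc]

theorem zumul (c d : ℤ) (p q : ℤ × ℤ) :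
    z ^ c * (x ^ p.1 * y ^ p.2) * (z ^ d * (x ^ q.1 * y ^ q.2)) =
      z ^ (c + d - q.1 * p.2) * (x ^ (p + q).1 * y ^ (p + q).2) := by
  rw [((H.cen _).zpow_left d).symm.mul_mul_mul_comm, H.umul, sub_eq_add_neg, zpow_add, zpow_add]
  simp only [mul_assoc]

theorem nf (h : K) : ∃ (c : ℤ) (p : ℤ × ℤ), h = z ^ c * (x ^ p.1 * y ^ p.2) := by
  have hh : h ∈ Subgroup.closure {x, y} := H.gen ▸ Subgroup.mem_top h
  induction hh using Subgroup.closure_induction with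
  | mem g hg =>
    rcases hg with rfl | rfl
    · exact ⟨0, (1, 0), by simp⟩
    · exact ⟨0, (0, 1), by simp⟩
  | one => exact ⟨0, 0, by simp⟩
  | mul a b _ _ ha hb =>
    obtain ⟨c, p, rfl⟩ := ha
    obtain ⟨d, q, rfl⟩ := hb
    exact ⟨_, _, H.zumul c d p q⟩
  | inv a _ ha =>
    obtain ⟨c, p, rfl⟩ := ha
    refine ⟨-c - p.1 * p.2, -p, inv_eq_of_mul_eq_one_right ?_⟩
    rw [H.zumul, show c + (-c - p.1 * p.2) - (-p).1 * p.2 = 0 by rw [Prod.fst_neg]; ring]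
    simp

theorem conj (h g : K) : ∃ k : ℤ, h * g * h⁻¹ = z ^ k * g := by
  obtain ⟨c, p, rfl⟩ := H.nf h
  obtain ⟨d, q, rfl⟩ := H.nf g
  refine ⟨p.1 * q.2 - q.1 * p.2, ?_⟩
  rw [mul_inv_eq_iff_eq_mul, mul_assoc (z ^ (_ - _)), H.zumul, H.zumul,
    ← mul_assoc (z ^ (p.1 * q.2 - q.1 * p.2)), ← zpow_add, add_comm q p]
  congr 2
  ring

theorem conj_mem {Q : Subgroup K} (hz : z ∈ Q) (h : K) : ∀ q ∈ Q, h * q * h⁻¹ ∈ Q := by
  intro q hq
  obtain ⟨k, hk⟩ := H.conj h q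
  exact hk ▸ Q.mul_mem (Q.zpow_mem hz k) hq

theorem exists_deg (hz : ¬ IsOfFinOrder z) : ∃ deg : K →* Multiplicative (ℤ × ℤ),
    ∀ (c : ℤ) (p : ℤ × ℤ), deg (z ^ c * (x ^ p.1 * y ^ p.2)) = Multiplicative.ofAdd p := by
  have hi := injective_zpow_iff_not_isOfFinOrder.2 hz
  have key : ∀ (c d : ℤ) (p q : ℤ × ℤ),
      z ^ c * (x ^ p.1 * y ^ p.2) = z ^ d * (x ^ q.1 * y ^ q.2) → p = q := by
    intro c d p q h
    have h1 : ∀ r : ℤ × ℤ, r.1 * p.2 - p.1 * r.2 = r.1 * q.2 - q.1 * r.2 := by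
      intro r
      have h2 : ∀ (c : ℤ) (p : ℤ × ℤ), z ^ (r.1 * p.2 - p.1 * r.2) *
          (z ^ c * (x ^ p.1 * y ^ p.2) * (z ^ (0 : ℤ) * (x ^ r.1 * y ^ r.2))) =
          z ^ (0 : ℤ) * (x ^ r.1 * y ^ r.2) * (z ^ c * (x ^ p.1 * y ^ p.2)) := by
        intro c p
        rw [H.zumul, H.zumul, ← mul_assoc, ← zpow_add, add_comm p r]
        congr 2
        ring
      have h3 := h2 c p
      rw [h, ← h2 d q] at h3
      exact hi (mul_right_cancel h3)
    exact Prod.ext (by simpa using h1 (0, 1)) (by simpa using h1 (1, 0))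
  choose c P hP using H.nf
  refine ⟨MonoidHom.mk' (fun h => Multiplicative.ofAdd (P h)) fun a b => ?_, fun d p => ?_⟩
  · rw [← ofAdd_add]
    refine congrArg _ (key _ (c a + c b - (P b).1 * (P a).2) _ _ ((hP _).symm.trans ?_))
    rw [← H.zumul, ← hP, ← hP]
  · exact congrArg Multiplicative.ofAdd (key _ d _ p (hP (z ^ d * (x ^ p.1 * y ^ p.2))).symm)

theorem noeth : IsNoetherianRing (MonoidAlgebra ℤ K) := by
  let ρ : K →* End ℤ (MonoidAlgebra ℤ K) :=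
    (Algebra.lmul ℤ (MonoidAlgebra ℤ K)).toRingHom.toMonoidHom.comp (of ℤ K)
  let L : Subgroup K := Subgroup.closure {x, z}
  have hL : L.FG := (Subgroup.fg_iff _).2 ⟨_, rfl, Set.toFinite _⟩
  have : Group.FG L := (Group.fg_iff_subgroup_fg _).2 hL
  have hz : z ∈ L := Subgroup.subset_closure (by simp)
  have hc : IsMulCommutative L := Subgroup.isMulCommutative_closure (by
    rintro _ (rfl | rfl) _ (rfl | rfl)
    exacts [rfl, (H.cen _).symm.eq, (H.cen _).eq, rfl])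
  have h1 : LocNoeth (ρ '' L) := by
    have := locNoeth_range (ρ.comp L.subtype) fun a b => Commute.map (hc.is_comm.comm a b) _
    rwa [MonoidHom.coe_comp, Set.range_comp, Subgroup.coe_subtype, Subtype.range_coe] at this
  have h2 := H.conj_mem hz y
  have h3 : ∀ g ∈ L, y⁻¹ * g * y ∈ L := by simpa using H.conj_mem hz y⁻¹
  have h4 := (h1.insert (nrm_group ρ h2 h3)).insert
    ((nrm_group ρ (q := y⁻¹) (by simpa using h3) (by simpa using h2)).insert_comm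
      ((Commute.refl y).inv_right.map ρ)) {1} (Set.finite_singleton _)
  have h5 : ∀ N, Inv (insert (ρ y⁻¹) (insert (ρ y) (ρ '' L))) N → ∀ f, ∀ v ∈ N, f * v ∈ N := by
    intro N hN f v hv
    rw [inv_insert, inv_insert, inv_iff_le_stab] at hN
    have h6 : Subgroup.closure {x, y} ≤ stab ρ N := (Subgroup.closure_le _).2 (by
      rintro _ (rfl | rfl)
      exacts [hN.2.2 (Subgroup.subset_closure (by simp)), ⟨hN.2.1, hN.1⟩])
    induction f using MonoidAlgebra.induction_on with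
    | of g => exact (h6 (H.gen ▸ Subgroup.mem_top g)).1 v hv
    | add a b ha hb => rw [add_mul]; exact N.add_mem ha hb
    | smul r a ha => rw [smul_mul_assoc]; exact N.smul_mem r ha
  refine set_has_maximal_iff_noetherian.mp fun 𝓕 hne => ?_
  obtain ⟨_, ⟨I, hI, rfl⟩, hmax⟩ := h4 ((fun I => I.restrictScalars ℤ) '' 𝓕) (hne.image _) (by
    rintro _ ⟨I, -, rfl⟩
    refine ⟨?_, fun v _ => by
      simpa using h5 _ inv_gen v 1 (subset_gen (Set.mem_singleton 1))⟩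
    rintro _ (rfl | rfl | ⟨g, -, rfl⟩) v hv <;> exact I.smul_mem _ hv)
  exact ⟨I, hI, fun J hJ hlt => hlt.not_ge (hmax _ ⟨J, hJ, rfl⟩ hlt.le)⟩

theorem noeth_op : IsNoetherianRing (MonoidAlgebra ℤ K)ᵐᵒᵖ := by
  have := H.noeth
  let e1 : (MonoidAlgebra ℤ K)ᵐᵒᵖ ≃+* MonoidAlgebra ℤᵐᵒᵖ Kᵐᵒᵖ := MonoidAlgebra.opRingEquiv
  let e2 : MonoidAlgebra ℤ Kᵐᵒᵖ ≃+* MonoidAlgebra ℤᵐᵒᵖ Kᵐᵒᵖ :=
    mapRingEquiv Kᵐᵒᵖ (RingEquiv.toOpposite ℤ)
  let e3 : MonoidAlgebra ℤ K ≃+* MonoidAlgebra ℤ Kᵐᵒᵖ := mapDomainRingEquiv ℤ (MulEquiv.inv' K)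
  exact isNoetherianRing_of_ringEquiv (MonoidAlgebra ℤ K) ((e3.trans e2).trans e1.symm)

end Two

end Pool.Agent.P.MP_e2f787_al.Heis
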