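import Pool.Agent.P.MP_e2f787_al.HDich

/-! The dichotomy in terms of virtual nilpotency. -/

namespace Pool.Agent.P.MP_e2f787_al.Heis

open SemidirectProduct

open scoped commutatorElement

theorem nil_closure {G : Type*} [Group G] (X : Set G)
    (h : ∀ a ∈ X, ∀ b ∈ X, ∀ c ∈ X, Commute ⁅a, b⁆ c) :
    Group.IsNilpotent (Subgroup.closure X) := by
  refine Group.of_quotient_center_nilpotent ?_
  have h1 := comm_closure (QuotientGroup.mk' (Subgroup.center (Subgroup.closure X)))
    (((↑) : Subgroup.closure X → G) ⁻¹' X) (fun a ha b hb => by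
      rw [← commutatorElement_eq_one_iff_commute, ← map_commutatorElement]
      refine (QuotientGroup.eq_one_iff _).2 (Subgroup.mem_center_iff.2 fun g => Subtype.ext ?_)
      refine ((show Subgroup.closure X ≤ Subgroup.centralizer {⁅a.1, b.1⁆} from
        (Subgroup.closure_le _).2 ?_) g.2 _ rfl).symm
      rintro c hc _ rfl
      exact (h _ ha _ hb c hc).eq)
  rw [Subgroup.closure_closure_coe_preimage] at h1
  let _ : CommGroup (Subgroup.closure X ⧸ Subgroup.center (Subgroup.closure X)) :=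
    { (inferInstance : Group _) with
      mul_comm := fun a b => by
        obtain ⟨a, rfl⟩ := QuotientGroup.mk_surjective a
        obtain ⟨b, rfl⟩ := QuotientGroup.mk_surjective b
        exact (h1 a trivial b trivial).eq }
  exact CommGroup.isNilpotent

theorem nil_iff (σ : MulAut (Multiplicative (ℤ × ℤ))) (Q : Type) [Group Q]
    (j : Multiplicative (ℤ × ℤ) ⋊[zpowersHom _ σ] Multiplicative ℤ →* Q)
    (hj : Function.Injective j) (hi : j.range.index ≠ 0) :
    (∃ n : ℕ, 0 < n ∧ ∀ l, (σ ^ n) ((σ ^ n) l / l) = (σ ^ n) l / l) ↔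
      ∃ K : Subgroup Q, K.index ≠ 0 ∧ Group.IsNilpotent K := by
  have hy : ∀ (n : ℕ) l, ⁅(inr (Multiplicative.ofAdd (n : ℤ)) :
      Multiplicative (ℤ × ℤ) ⋊[zpowersHom _ σ] Multiplicative ℤ), inl l⁆ =
        inl ((σ ^ n) l / l) := fun n l => by
    rw [commutatorElement_def, ← map_inv, ← inl_aut, zpowersHom_apply, toAdd_ofAdd, zpow_natCast,
      div_eq_mul_inv, map_mul, map_inv]
  constructor
  · rintro ⟨n, hn, hσ⟩
    let y : Multiplicative (ℤ × ℤ) ⋊[zpowersHom _ σ] Multiplicative ℤ :=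
      inr (Multiplicative.ofAdd (n : ℤ))
    refine ⟨(Subgroup.closure (insert y (Set.range inl))).map j, ?_, ?_⟩
    · rw [Subgroup.index_map_of_injective _ hj]
      exact mul_ne_zero (index_ne _ one_ne_zero hn
        (fun l => Subgroup.subset_closure (Or.inr ⟨_, rfl⟩))
        (Subgroup.subset_closure (Set.mem_insert _ _))) hi
    rw [MonoidHom.map_closure]
    refine nil_closure _ ?_
    rintro _ ⟨a, ha, rfl⟩ _ ⟨b, hb, rfl⟩ _ ⟨c, hc, rfl⟩
    rw [← map_commutatorElement]
    refine Commute.map ?_ j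
    have h1 : ∀ l, Commute ⁅y, inl l⁆ c := fun l => by
      rw [hy]
      rcases hc with rfl | ⟨c, rfl⟩
      · refine (commutatorElement_eq_one_iff_commute.1 ?_).symm
        rw [hy, hσ, div_self', map_one]
      · exact (Commute.all _ _).map inl
    rcases ha with rfl | ⟨a, rfl⟩ <;> rcases hb with rfl | ⟨b, rfl⟩
    · rw [commutatorElement_self]
      exact Commute.one_left _
    · exact h1 b
    · rw [← commutatorElement_inv]
      exact (h1 a).inv_left
    · rw [commutatorElement_eq_one_iff_commute.2 ((Commute.all a b).map inl)]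
      exact Commute.one_left _
  rintro ⟨K, hK, hN⟩
  by_contra hσ
  have : K.FiniteIndex := ⟨hK⟩
  have h0 : K.normalCore.index ≠ 0 := Subgroup.FiniteIndex.index_ne_zero
  have h1 : ∀ q : Q, q ^ K.normalCore.index ∈ K := fun q =>
    K.normalCore_le (K.normalCore.pow_index_mem q)
  generalize K.normalCore.index = N at h0 h1
  have h2 : j (inr (Multiplicative.ofAdd (N : ℤ))) ∈ K := by
    have := h1 (j (inr (Multiplicative.ofAdd 1)))
    rwa [← map_pow, ← map_pow, ← ofAdd_nsmul, nsmul_one] at this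
  have h3 : ∀ k : ℕ, ∃ d, d ≠ 1 ∧ ∃ h : j (inl d) ∈ K,
      (⟨_, h⟩ : K) ∈ (⊤ : Subgroup K).lowerCentralSeries k := by
    intro k
    induction k with
    | zero =>
      refine ⟨Multiplicative.ofAdd (1, 0) ^ N, ?_, ?_, trivial⟩
      · exact fun h => h0 (by simpa using congrArg (fun v => v.toAdd.1) h)
      · rw [map_pow, map_pow]
        exact h1 _
    | succ k ih =>
      obtain ⟨d, hd, h, hk⟩ := ih
      have h4 : j (inl ((σ ^ N) d / d)⁻¹) = ⁅j (inl d), j (inr (Multiplicative.ofAdd (N : ℤ)))⁆ := by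
        rw [map_inv, ← hy, commutatorElement_inv, map_commutatorElement]
      refine ⟨((σ ^ N) d / d)⁻¹, fun h5 => ?_, h4 ▸ (⁅(⟨_, h⟩ : K), (⟨_, h2⟩ : K)⁆).2, ?_⟩
      · refine det_ne hσ d hd N 0 (by exact_mod_cast h0) ?_
        rw [zpow_natCast, div_eq_one.1 (inv_eq_one.1 h5), zpow_zero, MulAut.one_apply, det2]
        ring
      · have h5 := Subgroup.commutator_mem_commutator hk (Subgroup.mem_top (⟨_, h2⟩ : K))
        rw [Subgroup.lowerCentralSeries_succ]
        exact (congrArg (· ∈ _) (Subtype.ext h4)).mpr h5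
  obtain ⟨c, hc⟩ := Subgroup.nilpotent_iff_lowerCentralSeries.1 hN
  obtain ⟨d, hd, h, hk⟩ := h3 c
  rw [hc, Subgroup.mem_bot] at hk
  exact hd (inl_injective (hj ((congrArg Subtype.val hk).trans (by simp))))

end Pool.Agent.P.MP_e2f787_al.Heis
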