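import Pool.Agent.P.MP_e2f787_al.HNil

/-! Reduction of groups with a series of finite or cyclic factors, at most three of them
infinite, to the semidirect products of the previous files. -/

namespace Pool.Agent.P.MP_e2f787_al.Heis

open SemidirectProduct Subgroup

variable {Q : Type} [Group Q]

/-- Finitely many left cosets of `P` cover `H`. -/
def Cov (P H : Subgroup Q) : Prop := ∃ F : Set Q, F.Finite ∧ ∀ h ∈ H, ∃ c ∈ F, c⁻¹ * h ∈ P

/-- `H'` is a cyclic extension of `H`. -/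
def St (H H' : Subgroup Q) : Prop :=
  H ≤ H' ∧ ∃ t ∈ H', t ∈ normalizer (H : Set Q) ∧ ∀ g ∈ H', ∃ i : ℤ, (t ^ i)⁻¹ * g ∈ H

open Pointwise in
theorem Cov.trans {P H H' : Subgroup Q} (h1 : Cov P H) (h2 : Cov H H') : Cov P H' := by
  obtain ⟨F, hF, h1⟩ := h1
  obtain ⟨F', hF', h2⟩ := h2
  refine ⟨F' * F, hF'.mul hF, fun g hg => ?_⟩
  obtain ⟨c', hc', h3⟩ := h2 g hg
  obtain ⟨c, hc, h4⟩ := h1 _ h3
  exact ⟨c' * c, Set.mul_mem_mul hc' hc, by rwa [mul_inv_rev, mul_assoc]⟩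

theorem Cov.mono {P P' H : Subgroup Q} (h1 : Cov P H) (h : P ≤ P') : Cov P' H := by
  obtain ⟨F, hF, h1⟩ := h1
  exact ⟨F, hF, fun g hg => (h1 g hg).imp fun c hc => ⟨hc.1, h hc.2⟩⟩

theorem cov_of_finite {H H' : Subgroup Q} [Finite (H' ⧸ H.subgroupOf H')] : Cov H H' :=
  ⟨Set.range fun q : H' ⧸ H.subgroupOf H' => (q.out : Q), Set.finite_range _, fun g hg =>
    ⟨_, ⟨QuotientGroup.mk ⟨g, hg⟩, rfl⟩,
      mem_subgroupOf.1 (QuotientGroup.eq.1
        (QuotientGroup.out_eq' (QuotientGroup.mk (s := H.subgroupOf H') ⟨g, hg⟩)))⟩⟩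

theorem Cov.relIndex {P H : Subgroup Q} (h : P ≤ H) (h1 : Cov P H) : P.relIndex H ≠ 0 := by
  classical
  obtain ⟨F, hF, h1⟩ := h1
  have := hF.to_subtype
  have : Finite (H ⧸ P.subgroupOf H) := by
    refine Finite.of_surjective (fun c : F =>
      if hc : c.1 ∈ H then QuotientGroup.mk ⟨c.1, hc⟩ else QuotientGroup.mk 1) fun q => ?_
    obtain ⟨g, rfl⟩ := QuotientGroup.mk_surjective q
    obtain ⟨c, hc, h2⟩ := h1 g g.2
    have h3 : c ∈ H := by simpa using H.mul_mem g.2 (H.inv_mem (h h2))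
    exact ⟨⟨c, hc⟩, (dif_pos h3).trans (QuotientGroup.eq.2 h2)⟩
  exact index_ne_zero_of_finite

theorem st_of_cyclic {H H' : Subgroup Q} (h : H ≤ H') [(H.subgroupOf H').Normal]
    [IsCyclic (H' ⧸ H.subgroupOf H')] : St H H' := by
  obtain ⟨q, hq⟩ := IsCyclic.exists_generator (α := H' ⧸ H.subgroupOf H')
  obtain ⟨t, rfl⟩ := QuotientGroup.mk_surjective q
  refine ⟨h, t, t.2, le_normalizer_of_normal_subgroupOf h t.2, fun g hg => ?_⟩
  obtain ⟨i, hi⟩ := hq (QuotientGroup.mk ⟨g, hg⟩)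
  exact ⟨i, mem_subgroupOf.1 (QuotientGroup.eq.1 ((QuotientGroup.mk_zpow _ t i).trans hi))⟩

open Pointwise in
theorem Cov.ext {P H H' K : Subgroup Q} (h1 : Cov P H) {t : Q} (ht : t ∈ normalizer (H : Set Q))
    (h2 : ∀ g ∈ H', ∃ i : ℤ, (t ^ i)⁻¹ * g ∈ H) {m : ℕ} (hm : 0 < m) (h3 : P ≤ K)
    (h4 : t ^ m ∈ K) : Cov K H' := by
  obtain ⟨F, hF, h1⟩ := h1
  have hm' : (0 : ℤ) < m := by exact_mod_cast hm
  refine ⟨(fun r : ℤ => t ^ r) '' Set.Ico 0 (m : ℤ) * F,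
    ((Set.finite_Ico _ _).image _).mul hF, fun g hg => ?_⟩
  obtain ⟨i, hi⟩ := h2 g hg
  obtain ⟨c, hc, h5⟩ := h1 _ ((mem_normalizer_iff.1 (zpow_mem ht (m * (i / m))) _).1 hi)
  refine ⟨t ^ (i % m) * c, Set.mul_mem_mul
    ⟨_, ⟨Int.emod_nonneg _ hm'.ne', Int.emod_lt_of_pos _ hm'⟩, rfl⟩ hc, ?_⟩
  have h6 := K.mul_mem (h3 h5) (K.zpow_mem h4 (i / m))
  rw [← zpow_natCast, ← zpow_mul] at h6
  refine (congrArg (· ∈ K) ?_).mp h6
  rw [Int.emod_def]
  group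

theorem exists_norm {L : Type} [CommGroup L] [Group.FG L] (f : L →* Q) {H : Subgroup Q}
    (h : f.range ≤ H) (h1 : Cov f.range H) {t : Q} (ht : t ∈ normalizer (H : Set Q)) :
    ∃ m : ℕ, 0 < m ∧ t ^ m ∈ normalizer (f.range : Set Q) := by
  have : (f.range.subgroupOf H).FiniteIndex := ⟨h1.relIndex h⟩
  have h0 : (f.range.subgroupOf H).normalCore.index ≠ 0 := FiniteIndex.index_ne_zero
  have h2 : ∀ g ∈ H, g ^ (f.range.subgroupOf H).normalCore.index ∈ f.range := fun g hg =>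
    (f.range.subgroupOf H).normalCore_le (pow_index_mem _ (⟨g, hg⟩ : H))
  generalize (f.range.subgroupOf H).normalCore.index = N at h0 h2
  have h3 : Cov (Subgroup.closure ((· ^ N) '' (H : Set Q))) f.range := by
    have := finiteIndex_range_powMonoidHom_of_fg L h0
    refine ⟨Set.range fun q : L ⧸ (powMonoidHom N : L →* L).range => f q.out,
      Set.finite_range _, ?_⟩
    rintro _ ⟨l, rfl⟩
    refine ⟨_, ⟨QuotientGroup.mk l, rfl⟩, ?_⟩
    obtain ⟨l', hl⟩ := QuotientGroup.eq.1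
      (QuotientGroup.out_eq' (QuotientGroup.mk (s := (powMonoidHom N : L →* L).range) l))
    refine Subgroup.subset_closure ⟨f l', h ⟨_, rfl⟩, ?_⟩
    rw [← map_inv, ← map_mul, ← hl]
    simp
  obtain ⟨F, hF, h4⟩ := h3.trans h1
  let P : ℕ → Subgroup Q := fun i => f.range.comap (MulAut.conj (t ^ i)).toMonoidHom
  have h5 : ∀ i, Subgroup.closure ((· ^ N) '' (H : Set Q)) ≤ P i := fun i => (closure_le _).2 (by
    rintro _ ⟨g, hg, rfl⟩
    have := h2 _ ((mem_normalizer_iff.1 (pow_mem ht i) g).1 hg)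
    rwa [conj_pow] at this)
  have h6 : ∀ i j, F ∩ P i = F ∩ P j → P i ≤ P j := fun i j hij g hg => by
    obtain ⟨c, hc, h7⟩ := h4 g ((mem_normalizer_iff.1 (pow_mem ht i) g).2 (h hg))
    have h8 : c ∈ F ∩ P j := hij ▸ ⟨hc, by simpa using (P i).mul_mem hg ((P i).inv_mem (h5 i h7))⟩
    simpa using (P j).mul_mem h8.2 (h5 j h7)
  obtain ⟨i, j, hij, h7⟩ := Set.Finite.exists_lt_map_eq_of_forall_mem
    (f := fun i => F ∩ P i) (fun i => Set.mem_powerset Set.inter_subset_left) hF.powerset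
  obtain ⟨m, rfl⟩ := Nat.exists_eq_add_of_lt hij
  refine ⟨m + 1, by omega, mem_normalizer_iff.2 fun g => ?_⟩
  have h8 := SetLike.ext_iff.1 (le_antisymm (h6 _ _ h7) (h6 _ _ h7.symm)) ((t ^ i)⁻¹ * g * t ^ i)
  change t ^ i * ((t ^ i)⁻¹ * g * t ^ i) * (t ^ i)⁻¹ ∈ f.range ↔
    t ^ (i + m + 1) * ((t ^ i)⁻¹ * g * t ^ i) * (t ^ (i + m + 1))⁻¹ ∈ f.range at h8
  rwa [show t ^ i * ((t ^ i)⁻¹ * g * t ^ i) * (t ^ i)⁻¹ = g by group,
    show t ^ (i + m + 1) * ((t ^ i)⁻¹ * g * t ^ i) * (t ^ (i + m + 1))⁻¹ =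
      t ^ (m + 1) * g * (t ^ (m + 1))⁻¹ by group] at h8

/-- Virtually cyclic. -/
def V1 (H : Subgroup Q) : Prop := ∃ x ∈ H, Cov (zpowers x) H

/-- Virtually cyclic or virtually the plane lattice. -/
def V2 (H : Subgroup Q) : Prop := V1 H ∨ ∃ f : Multiplicative (ℤ × ℤ) →* Q,
  Function.Injective f ∧ f.range ≤ H ∧ Cov f.range H

/-- As before, or virtually a semidirect product of the plane lattice by the integers. -/
def V3 (H : Subgroup Q) : Prop := V2 H ∨ ∃ (σ : MulAut (Multiplicative (ℤ × ℤ)))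
  (j : Multiplicative (ℤ × ℤ) ⋊[zpowersHom _ σ] Multiplicative ℤ →* Q),
  Function.Injective j ∧ Cov j.range H

variable {H H' : Subgroup Q}

theorem step0 (h : Cov ⊥ H) (hs : St H H') : V1 H' := by
  obtain ⟨-, t, ht, h1, h2⟩ := hs
  exact ⟨t, ht, h.ext h1 h2 one_pos bot_le (pow_mem (mem_zpowers t) 1)⟩

theorem step1 (h : V1 H) (hs : St H H') : V2 H' := by
  obtain ⟨x, hx, h⟩ := h
  by_cases hfin : IsOfFinOrder x
  · have : Finite (zpowers x) := finite_zpowers.2 hfin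
    exact Or.inl (step0 (cov_of_finite.trans h) hs)
  obtain ⟨hle, t, ht, h1, h2⟩ := hs
  obtain ⟨m, hm, h3⟩ := exists_norm (zpowersHom Q x) (zpowers_le.2 hx) h h1
  have hinj := injective_zpow_iff_not_isOfFinOrder.2 hfin
  have h4 : Commute x (t ^ (m * 2)) := by
    rw [pow_mul]
    rw [range_zpowersHom] at h3
    generalize t ^ m = s at h3
    obtain ⟨a, ha⟩ := mem_zpowers_iff.1 ((mem_normalizer_iff.1 h3 x).1 (mem_zpowers x))
    obtain ⟨b, hb⟩ := mem_zpowers_iff.1 ((mem_normalizer_iff''.1 h3 x).1 (mem_zpowers x))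
    have h5 : a * b = 1 := hinj (show x ^ (a * b) = x ^ (1 : ℤ) by
      rw [zpow_mul, ha, conj_zpow, hb]
      group)
    have h6 : a * a = 1 := by
      rcases Int.eq_one_or_neg_one_of_mul_eq_one h5 with rfl | rfl <;> rfl
    have h7 : x = s * (s * x * s⁻¹) * s⁻¹ := by
      rw [← ha, ← conj_zpow, ← ha, ← zpow_mul, h6, zpow_one]
    calc x * s ^ 2 = s * (s * x * s⁻¹) * s⁻¹ * s ^ 2 := by rw [← h7]
      _ = s ^ 2 * x := by simp [sq, mul_assoc]
  let f : Multiplicative (ℤ × ℤ) →* Q :=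
    ((zpowersHom Q x).noncommCoprod (zpowersHom Q (t ^ (m * 2)))
      fun a b => h4.zpow_zpow _ _).comp (MulEquiv.prodMultiplicative ℤ ℤ).toMonoidHom
  have hf : ∀ l, f l = x ^ l.toAdd.1 * (t ^ (m * 2)) ^ l.toAdd.2 := fun l => rfl
  by_cases hi : Function.Injective f
  · refine Or.inr ⟨f, hi, ?_, h.ext h1 h2 (m := m * 2) (by omega)
      (zpowers_le.2 ⟨Multiplicative.ofAdd (1, 0), by simp [hf]⟩)
      ⟨Multiplicative.ofAdd (0, 1), by simp [hf]⟩⟩
    rintro _ ⟨l, rfl⟩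
    exact mul_mem (zpow_mem (hle hx) _) (zpow_mem (pow_mem ht _) _)
  rw [injective_iff_map_eq_one] at hi
  push Not at hi
  obtain ⟨l, h5, h6⟩ := hi
  rw [hf] at h5
  have h7 : l.toAdd.2 ≠ 0 := fun h7 => h6 (Multiplicative.toAdd.injective (Prod.ext
    (hinj (by simpa [h7] using h5)) h7))
  refine Or.inl ⟨x, hle hx, h.ext h1 h2 (m := m * 2 * l.toAdd.2.natAbs)
    (by have := Int.natAbs_pos.2 h7; positivity) le_rfl ?_⟩
  have h8 : (t ^ (m * 2)) ^ l.toAdd.2 ∈ zpowers x :=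
    eq_inv_of_mul_eq_one_right h5 ▸ inv_mem (zpow_mem (mem_zpowers x) _)
  rw [pow_mul, ← zpow_natCast]
  rcases Int.natAbs_eq l.toAdd.2 with h9 | h9
  · rwa [← h9]
  · rwa [← inv_mem_iff, ← zpow_neg, ← h9]

theorem step2 (h : V2 H) (hs : St H H') : V3 H' := by
  rcases h with h | ⟨f, hf, hle, h⟩
  · exact Or.inl (step1 h hs)
  obtain ⟨hle', t, ht, h1, h2⟩ := hs
  obtain ⟨m, hm, h3⟩ := exists_norm f hle h h1
  by_cases h4 : ∃ b : ℕ, 0 < b ∧ (t ^ m) ^ b ∈ f.range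
  · obtain ⟨b, hb, h4⟩ := h4
    exact Or.inl (Or.inr ⟨f, hf, hle.trans hle', h.ext h1 h2 (mul_pos hm hb) le_rfl
      (by rwa [pow_mul])⟩)
  let Φ : normalizer (f.range : Set Q) →* MulAut (Multiplicative (ℤ × ℤ)) :=
    (MulAut.congr (MonoidHom.ofInjective hf).symm).toMonoidHom.comp f.range.normalizerMonoidHom
  have hΦ : ∀ n l, f (Φ n l) = n * f l * (n : Q)⁻¹ := fun n l =>
    MonoidHom.apply_ofInjective_symm hf _
  let j : Multiplicative (ℤ × ℤ) ⋊[zpowersHom _ (Φ ⟨_, h3⟩)] Multiplicative ℤ →* Q :=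
    SemidirectProduct.lift f (zpowersHom Q (t ^ m)) fun g => MonoidHom.ext fun l => by
      have := hΦ (⟨_, h3⟩ ^ g.toAdd) l
      rw [map_zpow] at this
      exact this
  have hj : ∀ g, j g = f g.left * (t ^ m) ^ g.right.toAdd := fun g => rfl
  refine Or.inr ⟨_, j, (injective_iff_map_eq_one j).2 fun g hg => ?_, h.ext h1 h2 hm ?_
    ⟨inr (Multiplicative.ofAdd 1), show f 1 * (t ^ m) ^ (1 : ℤ) = t ^ m by simp⟩⟩
  · rw [hj] at hg
    have h8 : (t ^ m) ^ g.right.toAdd ∈ f.range :=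
      eq_inv_of_mul_eq_one_right hg ▸ inv_mem ⟨_, rfl⟩
    have h5 : g.right.toAdd = 0 := by
      by_contra h5
      refine h4 ⟨_, Int.natAbs_pos.2 h5, ?_⟩
      rw [← zpow_natCast]
      rcases Int.natAbs_eq g.right.toAdd with h9 | h9
      · rwa [← h9]
      · rwa [← inv_mem_iff, ← zpow_neg, ← h9]
    rw [h5, zpow_zero, mul_one] at hg
    exact SemidirectProduct.ext (hf (hg.trans f.map_one.symm)) h5
  · rintro _ ⟨l, rfl⟩
    exact ⟨inl l, show f l * (t ^ m) ^ (0 : ℤ) = f l by simp⟩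

/-- The four properties, indexed by the number of infinite cyclic factors. -/
def VV : ℕ → Subgroup Q → Prop
  | 0 => Cov ⊥
  | 1 => V1
  | 2 => V2
  | _ => V3

theorem VV.fin {k : ℕ} (h : VV k H) (hle : H ≤ H') (hc : Cov H H') : VV k H' := by
  have h1 : V1 H → V1 H' := fun ⟨x, hx, h⟩ => ⟨x, hle hx, h.trans hc⟩
  have h2 : V2 H → V2 H' := Or.imp h1 fun ⟨f, hf, h3, h⟩ => ⟨f, hf, h3.trans hle, h.trans hc⟩
  match k, h with
  | 0, h => exact Cov.trans h hc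
  | 1, h => exact h1 h
  | 2, h => exact h2 h
  | _ + 3, h => exact Or.imp h2 (fun ⟨σ, j, hj, h⟩ => ⟨σ, j, hj, h.trans hc⟩) h

theorem VV.bot (k : ℕ) : VV k (⊥ : Subgroup Q) := by
  have h1 : V1 (⊥ : Subgroup Q) := ⟨1, one_mem _, cov_of_finite⟩
  match k with
  | 0 => exact cov_of_finite
  | 1 => exact h1
  | 2 => exact Or.inl h1
  | _ + 3 => exact Or.inl (Or.inl h1)

theorem hirsch_three (Q : Type) [Group Q] (m : ℕ) (H : ℕ → Subgroup Q) (h0 : H 0 = ⊥)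
    (hm : H m = ⊤)
    (hH : ∀ i < m, H i ≤ H (i + 1) ∧ ∃ _ : ((H i).subgroupOf (H (i + 1))).Normal,
      Finite (H (i + 1) ⧸ (H i).subgroupOf (H (i + 1))) ∨
        IsCyclic (H (i + 1) ⧸ (H i).subgroupOf (H (i + 1))))
    (h3 : {i | i < m ∧ Infinite (H (i + 1) ⧸ (H i).subgroupOf (H (i + 1)))}.ncard ≤ 3) :
    (∀ (G : Type) [Group G] [Group.FG G] (π : G →* Q), Function.Surjective π →
      (∀ a ∈ π.ker, ∀ b ∈ π.ker, a * b = b * a) →
      ∃ (M : Type) (_ : Group M), Group.FG M ∧ derivedSeries M 2 = ⊥ ∧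
        ∃ f : G →* MulAut M, Function.Injective f) ↔
    ∃ K : Subgroup Q, K.index ≠ 0 ∧ Group.IsNilpotent K := by
  have key : ∀ n ≤ m, ∀ k ≤ 3,
      {i | i < n ∧ Infinite (H (i + 1) ⧸ (H i).subgroupOf (H (i + 1)))}.ncard ≤ k →
      VV k (H n) := by
    intro n
    induction n with
    | zero => exact fun _ k _ _ => h0 ▸ VV.bot k
    | succ n ih =>
      intro hn k hk hc
      obtain ⟨hle, _, h1⟩ := hH n hn
      let S : ℕ → Set ℕ := fun n =>
        {i | i < n ∧ Infinite (H (i + 1) ⧸ (H i).subgroupOf (H (i + 1)))}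
      have hfin : (S (n + 1)).Finite := (Set.finite_lt_nat _).subset fun i hi => hi.1
      have hsub : S n ⊆ S (n + 1) := fun i hi => ⟨Nat.lt_succ_of_lt hi.1, hi.2⟩
      rcases finite_or_infinite (H (n + 1) ⧸ (H n).subgroupOf (H (n + 1))) with h2 | h2
      · exact (ih (by omega) k hk ((Set.ncard_le_ncard hsub hfin).trans hc)).fin hle cov_of_finite
      have h6 : n ∈ S (n + 1) := ⟨n.lt_succ_self, h2⟩
      have h4 := (Set.ncard_lt_ncard ⟨hsub, fun h => lt_irrefl n (h h6).1⟩ hfin).trans_le hc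
      have := h1.resolve_left (not_finite_iff_infinite.2 h2)
      have hs := st_of_cyclic hle
      obtain ⟨k, rfl⟩ : ∃ k', k = k' + 1 := ⟨k - 1, by omega⟩
      have h5 := ih (by omega) k (by omega) (Nat.le_of_lt_succ h4)
      obtain rfl | rfl | rfl : k = 0 ∨ k = 1 ∨ k = 2 := by omega
      exacts [step0 h5 hs, step1 h5 hs, step2 h5 hs]
  have h1 : V3 (⊤ : Subgroup Q) := hm ▸ key m le_rfl 3 le_rfl h3
  have hidx : ∀ P : Subgroup Q, Cov P ⊤ → P.index ≠ 0 := fun P h =>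
    P.relIndex_top_right ▸ h.relIndex le_top
  have both : ∀ {L : Type} [CommGroup L] (f : L →* Q), Cov f.range ⊤ → _ := fun f h =>
    iff_of_true (fun (G : Type) [Group G] [Group.FG G] (π : G →* Q) hπ hA =>
      embed_virt π hπ hA _ (hidx _ h) (Or.inl (by
        rintro _ ⟨a, rfl⟩ _ ⟨b, rfl⟩
        exact (Commute.all a b).map f)))
      (show ∃ K : Subgroup Q, K.index ≠ 0 ∧ Group.IsNilpotent K from ⟨_, hidx _ h,
        Group.nilpotent_of_surjective f.rangeRestrict f.rangeRestrict_surjective⟩)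
  rcases h1 with (⟨x, -, h⟩ | ⟨f, -, -, h⟩) | ⟨σ, j, hj, h⟩
  · exact both (zpowersHom Q x) h
  · exact both f h
  · exact (dichotomy σ Q j hj (hidx _ h)).trans (nil_iff σ Q j hj (hidx _ h))

end Pool.Agent.P.MP_e2f787_al.Heis
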