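import Pool.Agent.P.MP_e2f787_al.Grp

/-! Ring lemmas: a central completely prime element, Ore conditions, uniform modules. -/

namespace Pool.Agent.P.MP_e2f787_al.Heis

variable {Λ : Type*} [Ring Λ] {π : Λ}

theorem ore_left [IsNoetherianRing Λ] (hc : ∀ a, Commute π a)
    (hp : ∀ a b, π ∣ a * b → π ∣ a ∨ π ∣ b) (a c : Λ) (h : ¬ π ∣ c) :
    ∃ c' s, ¬ π ∣ c' ∧ π ∣ c' * a - s * c := by
  let I : Submodule Λ Λ := Submodule.span Λ {π}
  have hI : ∀ f, f ∈ I ↔ π ∣ f := fun f => by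
    rw [Submodule.mem_span_singleton]
    exact ⟨fun ⟨g, hg⟩ => ⟨g, by rw [← hg, (hc g).eq, smul_eq_mul]⟩,
      fun ⟨g, hg⟩ => ⟨g, by rw [hg, (hc g).eq, smul_eq_mul]⟩⟩
  let r : Λ → (Λ ⧸ I) →ₗ[Λ] (Λ ⧸ I) := fun b =>
    I.mapQ I (LinearMap.toSpanSingleton Λ Λ b) fun f hf =>
      (hI _).2 (((hI f).1 hf).mul_right b)
  by_contra hcon
  push Not at hcon
  have hinj : Function.Injective ((r a).coprod (-(r c))) := by
    rw [injective_iff_map_eq_zero]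
    rintro ⟨u, v⟩ huv
    obtain ⟨u, rfl⟩ := I.mkQ_surjective u
    obtain ⟨v, rfl⟩ := I.mkQ_surjective v
    have h1 : π ∣ u * a - v * c := by
      rw [← hI, ← Submodule.Quotient.mk_eq_zero, sub_eq_add_neg]
      exact huv
    have h2 : π ∣ u := by_contra fun h2 => hcon u v h2 h1
    have h3 : π ∣ v * c := by
      have := dvd_sub (h2.mul_right a) h1
      rwa [sub_sub_cancel] at this
    exact Prod.ext ((Submodule.Quotient.mk_eq_zero _).2 ((hI _).2 h2))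
      ((Submodule.Quotient.mk_eq_zero _).2 ((hI _).2 ((hp _ _ h3).resolve_right h)))
  have := IsNoetherian.subsingleton_of_prod_injective _ hinj
  exact h ((hI c).1 ((Submodule.Quotient.mk_eq_zero _).1 (Subsingleton.elim _ _)))

theorem op_dvd (hc : ∀ a, Commute π a) (f : Λᵐᵒᵖ) : MulOpposite.op π ∣ f ↔ π ∣ f.unop :=
  ⟨fun ⟨g, hg⟩ => ⟨g.unop, by rw [hg, (hc _).eq]; rfl⟩,
    fun ⟨g, hg⟩ => ⟨MulOpposite.op g, MulOpposite.unop_injective (by rw [hg, (hc _).eq]; rfl)⟩⟩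

theorem ore_right [IsNoetherianRing Λᵐᵒᵖ] (hc : ∀ a, Commute π a)
    (hp : ∀ a b, π ∣ a * b → π ∣ a ∨ π ∣ b) (a c : Λ) (h : ¬ π ∣ c) :
    ∃ e t, ¬ π ∣ e ∧ π ∣ a * e - c * t := by
  obtain ⟨e, t, h1, h2⟩ := ore_left (π := MulOpposite.op π) (fun a => (hc a.unop).op)
    (fun a b hab => by
      rw [op_dvd hc] at hab
      rw [op_dvd hc, op_dvd hc]
      exact (hp _ _ hab).symm) (MulOpposite.op a) (MulOpposite.op c) (by rwa [op_dvd hc])
  rw [op_dvd hc] at h1 h2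
  exact ⟨e.unop, t.unop, h1, h2⟩

section

variable (hc : ∀ a, Commute π a) (hp : ∀ a b, π ∣ a * b → π ∣ a ∨ π ∣ b) (h1 : ¬ π ∣ 1)

include hc hp h1

theorem ore_left_pow (hL : ∀ a c, ¬ π ∣ c → ∃ c' s, ¬ π ∣ c' ∧ π ∣ c' * a - s * c) (n : ℕ)
    (a c : Λ) (h : ¬ π ∣ c) : ∃ c' s, ¬ π ∣ c' ∧ π ^ n ∣ c' * a - s * c := by
  induction n with
  | zero => exact ⟨1, 0, h1, by simp⟩
  | succ n ih =>
    obtain ⟨c', s, h2, r, h3⟩ := ih
    obtain ⟨c'', s', h4, r', h5⟩ := hL r c h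
    refine ⟨c'' * c', c'' * s + π ^ n * s', fun h6 => (hp _ _ h6).elim h4 h2, r', ?_⟩
    rw [pow_succ, mul_assoc (π ^ n), ← h5, mul_sub, ← mul_assoc (π ^ n), ((hc c'').pow_left n).eq,
      mul_assoc c'' (π ^ n), ← h3]
    noncomm_ring

theorem ore_right_pow (hR : ∀ a c, ¬ π ∣ c → ∃ e t, ¬ π ∣ e ∧ π ∣ a * e - c * t) (n : ℕ)
    (a c : Λ) (h : ¬ π ∣ c) : ∃ e t, ¬ π ∣ e ∧ π ^ n ∣ a * e - c * t := by
  induction n with
  | zero => exact ⟨1, 0, h1, by simp⟩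
  | succ n ih =>
    obtain ⟨e, t, h2, r, h3⟩ := ih
    obtain ⟨e', t', h4, r', h5⟩ := hR r c h
    refine ⟨e * e', t * e' + π ^ n * t', fun h6 => (hp _ _ h6).elim h2 h4, r', ?_⟩
    rw [pow_succ, mul_assoc (π ^ n), ← h5, mul_sub, ← mul_assoc (π ^ n), ← h3,
      ← mul_assoc (π ^ n), ((hc c).pow_left n).eq]
    noncomm_ring

theorem exists_sat (hL : ∀ a c, ¬ π ∣ c → ∃ c' s, ¬ π ∣ c' ∧ π ∣ c' * a - s * c)
    {P : Type*} [AddCommGroup P] [Module Λ P] {n : ℕ} (hn : ∀ v : P, π ^ n • v = 0)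
    (N : Submodule Λ P) : ∃ N' : Submodule Λ P, ∀ v, v ∈ N' ↔ ∃ c, ¬ π ∣ c ∧ c • v ∈ N := by
  have key : ∀ (a c : Λ) (v : P), ¬ π ∣ c → c • v ∈ N → ∃ c', ¬ π ∣ c' ∧ c' • a • v ∈ N := by
    intro a c v h hv
    obtain ⟨c', s, h2, r, h3⟩ := ore_left_pow hc hp h1 hL n a c h
    refine ⟨c', h2, ?_⟩
    rw [smul_smul, sub_eq_iff_eq_add.1 h3, add_smul, mul_smul, hn, zero_add, mul_smul]
    exact N.smul_mem _ hv
  refine ⟨{ carrier := {v | ∃ c, ¬ π ∣ c ∧ c • v ∈ N}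
            add_mem' := ?_
            zero_mem' := ⟨1, h1, by simp⟩
            smul_mem' := fun a v ⟨c, h, hv⟩ => key a c v h hv }, fun v => Iff.rfl⟩
  rintro v w ⟨c, h, hv⟩ ⟨d, h', hw⟩
  obtain ⟨c', h2, h3⟩ := key c d w h' hw
  refine ⟨c' * c, fun h6 => (hp _ _ h6).elim h2 h, ?_⟩
  rw [smul_add, mul_smul, mul_smul]
  exact N.add_mem (N.smul_mem _ hv) h3

theorem embed_free (hL : ∀ a c, ¬ π ∣ c → ∃ c' s, ¬ π ∣ c' ∧ π ∣ c' * a - s * c)
    (hR : ∀ a c, ¬ π ∣ c → ∃ e t, ¬ π ∣ e ∧ π ∣ a * e - c * t)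
    {A : Type*} [AddCommGroup A] [Module Λ A] [Module.Finite Λ A]
    (hU : ∀ N N' : Submodule Λ A, N ⊓ N' = ⊥ → N = ⊥ ∨ N' = ⊥)
    (hn : ∃ n : ℕ, ∀ a : A, π ^ n • a = 0) (b : A) (hb : π • b = 0)
    (hb' : ∀ c, c • b = 0 → π ∣ c) :
    ∃ (m : ℕ) (φ : A →ₗ[Λ] Λ ⧸ Submodule.span Λ {π ^ m}), Function.Injective φ := by
  classical
  have hsw : ∀ (i : ℕ) (c : Λ) (v : A), π ^ i • c • v = c • π ^ i • v := fun i c v => by
    rw [smul_smul, smul_smul, ((hc c).pow_left i).eq]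
  have hkill : ∀ (c : Λ) (v : A), π ∣ c → π • v = 0 → c • v = 0 := by
    rintro _ v ⟨g, rfl⟩ hv
    rw [(hc g).eq, mul_smul, hv, smul_zero]
  have hb0 : b ≠ 0 := fun h => h1 (hb' 1 (by rw [h, smul_zero]))
  have hm := Nat.find_spec hn
  obtain ⟨k, hk⟩ : ∃ k, Nat.find hn = k + 1 := Nat.exists_eq_succ_of_ne_zero fun h => by
    rw [h] at hm
    exact hb0 (by simpa using hm b)
  obtain ⟨a₀, ha₀⟩ : ∃ a : A, π ^ k • a ≠ 0 := not_forall.1 (Nat.find_min hn (by omega))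
  rw [hk] at hm
  have htf : ∀ (c : Λ) (v : A), ¬ π ∣ c → c • v = 0 → v = 0 := by
    obtain ⟨N, hN⟩ := exists_sat hc hp h1 hL hm ⊥
    have h2 : N ⊓ Submodule.span Λ {b} = ⊥ := by
      refine eq_bot_iff.2 fun v hv => ?_
      obtain ⟨f, rfl⟩ := Submodule.mem_span_singleton.1 hv.2
      obtain ⟨c, h3, h4⟩ := (hN _).1 hv.1
      rw [Submodule.mem_bot, smul_smul] at h4
      exact hkill f b ((hp _ _ (hb' _ h4)).resolve_left h3) hb
    have h3 := (hU _ _ h2).resolve_right (by rwa [Submodule.span_singleton_eq_bot])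
    exact fun c v h hv => (Submodule.mem_bot Λ).1 (h3 ▸ (hN v).2 ⟨c, h, hv⟩)
  have hann : ∀ f : Λ, f • a₀ = 0 → π ^ (k + 1) ∣ f := by
    intro f hf
    have : ∀ j, j ≤ k + 1 → π ^ j ∣ f := by
      intro j
      induction j with
      | zero => simp
      | succ j ih =>
        intro hj
        obtain ⟨g, rfl⟩ := ih (by omega)
        rw [pow_succ]
        refine mul_dvd_mul_left _ (by_contra fun h => ha₀ ?_)
        rw [mul_smul, hsw] at hf
        rw [show k = (k - j) + j by omega, pow_add, mul_smul, htf _ _ h hf, smul_zero]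
    exact this _ le_rfl
  have hπk : π • π ^ k • a₀ = 0 := by rw [smul_smul, ← pow_succ', hm]
  have hdense : ∀ i, i ≤ k + 1 → ∀ a : A, π ^ i • a = 0 →
      ∃ c d : Λ, ¬ π ∣ c ∧ c • a = d • a₀ := by
    intro i
    induction i with
    | zero => exact fun _ a ha => ⟨1, 0, h1, by simpa using ha⟩
    | succ i ih =>
      intro hi a ha
      by_cases h0 : π ^ i • a = 0
      · exact ih (by omega) a h0
      have h2 : Submodule.span Λ {π ^ i • a} ⊓ Submodule.span Λ {π ^ k • a₀} ≠ ⊥ := fun h =>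
        (hU _ _ h).elim (by rwa [Submodule.span_singleton_eq_bot])
          (by rwa [Submodule.span_singleton_eq_bot])
      obtain ⟨v, hv, hv0⟩ := Submodule.exists_mem_ne_zero_of_ne_bot h2
      obtain ⟨c, rfl⟩ := Submodule.mem_span_singleton.1 hv.1
      obtain ⟨d, hd⟩ := Submodule.mem_span_singleton.1 hv.2
      have h3 : ¬ π ∣ c := fun h => hv0 (hkill _ _ h (by rw [smul_smul, ← pow_succ', ha]))
      obtain ⟨c', d', h4, h5⟩ := ih (by omega) (c • a - d • π ^ (k - i) • a₀) (by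
        rw [smul_sub, hsw, hsw, ← hd, smul_smul (π ^ i), ← pow_add,
          show i + (k - i) = k by omega, sub_self])
      refine ⟨c' * c, d' + c' * (d * π ^ (k - i)), fun h6 => (hp _ _ h6).elim h4 h3, ?_⟩
      rw [add_smul, ← h5, mul_smul, mul_smul, mul_smul, smul_sub, sub_add_cancel]
  choose c d hcd1 hcd2 using fun a => hdense _ le_rfl a (hm a)
  obtain ⟨X, hX⟩ := Module.Finite.fg_top (R := Λ) (M := A)
  obtain ⟨e, he, hX'⟩ : ∃ e, ¬ π ∣ e ∧ ∀ a ∈ X, ∃ t, π ^ (k + 1) ∣ d a * e - c a * t := by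
    clear hX
    induction X using Finset.induction_on with
    | empty => exact ⟨1, h1, by simp⟩
    | insert a X _ ih =>
      obtain ⟨e, he, h2⟩ := ih
      obtain ⟨e', t, h3, h4⟩ := ore_right_pow hc hp h1 hR (k + 1) (d a * e) (c a) (hcd1 a)
      refine ⟨e * e', fun h6 => (hp _ _ h6).elim he h3, fun a' ha' => ?_⟩
      rcases Finset.mem_insert.1 ha' with rfl | ha'
      · exact ⟨t, by rwa [← mul_assoc]⟩
      · obtain ⟨t', h5⟩ := h2 a' ha'
        exact ⟨t' * e', by rw [← mul_assoc, ← mul_assoc, ← sub_mul]; exact h5.mul_right _⟩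
  set I : Submodule Λ Λ := Submodule.span Λ {π ^ (k + 1)} with hI
  have hI' : ∀ f, I.mkQ f = 0 ↔ π ^ (k + 1) ∣ f := fun f => by
    rw [Submodule.mkQ_apply, Submodule.Quotient.mk_eq_zero, Submodule.mem_span_singleton]
    exact ⟨fun ⟨g, hg⟩ => ⟨g, by rw [← hg, ((hc g).pow_left _).eq, smul_eq_mul]⟩,
      fun ⟨g, hg⟩ => ⟨g, by rw [hg, ((hc g).pow_left _).eq, smul_eq_mul]⟩⟩
  have hann' : ∀ f : Λ, π ^ (k + 1) ∣ f → f • a₀ = 0 := by
    rintro _ ⟨g, rfl⟩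
    rw [mul_smul, hm]
  obtain ⟨Φ, hΦ⟩ := exists_sat hc hp h1 hL (P := A × (Λ ⧸ I)) (n := k + 1) (by
    rintro ⟨a, t⟩
    obtain ⟨t, rfl⟩ := I.mkQ_surjective t
    refine Prod.ext (hm a) ?_
    change π ^ (k + 1) • I.mkQ t = 0
    rw [← map_smul, hI']
    exact Dvd.intro _ rfl) (Submodule.span Λ {(a₀, I.mkQ e)})
  have hbij : Function.Bijective ((LinearMap.fst Λ A (Λ ⧸ I)).domRestrict Φ) := by
    constructor
    · rw [injective_iff_map_eq_zero]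
      rintro ⟨⟨a, t⟩, h⟩ (rfl : a = 0)
      obtain ⟨t, rfl⟩ := I.mkQ_surjective t
      obtain ⟨c', h2, h3⟩ := (hΦ _).1 h
      obtain ⟨d', h4⟩ := Submodule.mem_span_singleton.1 h3
      have h5 : d' • a₀ = c' • (0 : A) := congrArg Prod.fst h4
      have h6 : d' • I.mkQ e = c' • I.mkQ t := congrArg Prod.snd h4
      rw [smul_zero] at h5
      rw [← map_smul, ← map_smul, smul_eq_mul, (hI' _).2 ((hann _ h5).mul_right e), eq_comm,
        hI'] at h6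
      have h7 := hann' _ h6
      rw [smul_eq_mul, mul_smul] at h7
      exact Subtype.ext (Prod.ext rfl ((hI' _).2 (hann _ (htf _ _ h2 h7))))
    · rw [← LinearMap.range_eq_top, eq_top_iff, ← hX, Submodule.span_le]
      intro a ha
      obtain ⟨t, ht⟩ := hX' a ha
      refine ⟨⟨(a, I.mkQ t), (hΦ _).2 ⟨c a, hcd1 a, Submodule.mem_span_singleton.2
        ⟨d a, Prod.ext (hcd2 a).symm ?_⟩⟩⟩, rfl⟩
      change d a • I.mkQ e = c a • I.mkQ t
      rw [← map_smul, ← map_smul, ← sub_eq_zero, ← map_sub, hI']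
      exact ht
  let φ : A →ₗ[Λ] Λ ⧸ I := (LinearMap.snd Λ A (Λ ⧸ I)).domRestrict Φ ∘ₗ
    (LinearEquiv.ofBijective _ hbij).symm.toLinearMap
  have hφ : φ a₀ = I.mkQ e := by
    have h2 : (a₀, I.mkQ e) ∈ Φ :=
      (hΦ _).2 ⟨1, h1, by rw [one_smul]; exact Submodule.mem_span_singleton_self _⟩
    have h3 : (LinearEquiv.ofBijective _ hbij).symm a₀ = ⟨_, h2⟩ :=
      (LinearEquiv.symm_apply_eq _).2 rfl
    exact congrArg ((LinearMap.snd Λ A (Λ ⧸ I)).domRestrict Φ) h3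
  refine ⟨k + 1, φ, LinearMap.ker_eq_bot.1 ((hU _ (Submodule.span Λ {π ^ k • a₀}) ?_).resolve_right
    (by rwa [Submodule.span_singleton_eq_bot]))⟩
  refine eq_bot_iff.2 fun v hv => ?_
  obtain ⟨f, rfl⟩ := Submodule.mem_span_singleton.1 hv.2
  have h2 : φ (f • π ^ k • a₀) = 0 := hv.1
  rw [map_smul, map_smul, hφ, ← map_smul, ← map_smul, hI'] at h2
  have h3 := hann' _ h2
  rw [smul_eq_mul, smul_eq_mul, mul_smul, mul_smul, hsw, smul_smul] at h3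
  exact hkill _ _ ((hp _ _ (by_contra fun h => ha₀ (htf _ _ h h3))).resolve_right he) hπk

end

end Pool.Agent.P.MP_e2f787_al.Heis
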