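import Pool.Agent.P.MP_e2f787_al.HGrp

/-! The group ring as a twisted ring over the Laurent polynomials in the central commutator. -/

namespace Pool.Agent.P.MP_e2f787_al.Heis

open Module MonoidAlgebra LaurentPolynomial

variable {K : Type} [Group K] {x y z : K}

noncomputable def th (z : K) : ℤ[T;T⁻¹] →+* MonoidAlgebra ℤ K :=
  (AddMonoidAlgebra.lift ℤ (MonoidAlgebra ℤ K) ℤ ((of ℤ K).comp (zpowersHom K z))).toRingHom

theorem th_single (n r : ℤ) : th z (AddMonoidAlgebra.single n r) = single (z ^ n) r :=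
  (AddMonoidAlgebra.lift_single _ n r).trans (by
    change r • (single (z ^ n) 1 : MonoidAlgebra ℤ K) = _
    rw [smul_single, smul_eq_mul, mul_one])

noncomputable def ev (x y z : K) (F : Finset (ℤ × ℤ) × (ℤ × ℤ → ℤ[T;T⁻¹])) : MonoidAlgebra ℤ K :=
  ∑ p ∈ F.1, th z (F.2 p) * single (x ^ p.1 * y ^ p.2) 1

theorem smul_mem_of {A : Type} [AddCommGroup A] [Module (MonoidAlgebra ℤ K) A] (U : Submodule ℤ A)
    {a : A} (h : ∀ g : K, (single g 1 : MonoidAlgebra ℤ K) • a ∈ U) (f : MonoidAlgebra ℤ K) :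
    f • a ∈ U := by
  induction f using MonoidAlgebra.induction_on with
  | of g => exact h g
  | add a b ha hb => rw [add_smul]; exact U.add_mem ha hb
  | smul r a ha => rw [smul_assoc]; exact U.smul_mem r ha

theorem int_fill (I : Set ℤ) (Φ : Finset ℤ) (lo hi : ℤ) (h1 : lo ∈ Φ) (h2 : hi ∈ Φ)
    (h3 : ∀ i ∈ Φ, lo ≤ i ∧ i ≤ hi)
    (h : ∀ j, ∀ i₀ ∈ Φ, (∀ i ∈ Φ, i ≠ i₀ → j + i ∈ I) → j + i₀ ∈ I)
    (h0 : ∀ i, lo ≤ i → i ≤ hi → i ∈ I) (i : ℤ) : i ∈ I := by
  have key : ∀ k : ℕ, ∀ i, lo - k ≤ i → i ≤ hi + k → i ∈ I := by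
    intro k
    induction k with
    | zero => simpa using h0
    | succ k ih =>
      intro i h4 h5
      by_cases h6 : i = (k + 1 : ℤ) + hi
      · exact h6 ▸ h _ hi h2 fun i' h7 h8 => ih _ (by have := h3 i' h7; omega)
          (by have := h3 i' h7; omega)
      by_cases h7 : i = -(k + 1 : ℤ) + lo
      · exact h7 ▸ h _ lo h1 fun i' h7 h8 => ih _ (by have := h3 i' h7; omega)
          (by have := h3 i' h7; omega)
      exact ih i (by omega) (by omega)
  exact key ((lo - i).natAbs + (i - hi).natAbs) i (by omega) (by omega)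

namespace Two

variable (H : Two x y z)

include H

theorem th_comm (r : ℤ[T;T⁻¹]) (f : MonoidAlgebra ℤ K) : Commute (th z r) f := by
  induction r using AddMonoidAlgebra.induction_linear with
  | zero => simp
  | add a b ha hb => rw [map_add]; exact ha.add_left hb
  | single n r =>
    induction f using MonoidAlgebra.induction_linear with
    | zero => simp
    | add a b ha hb => exact ha.add_right hb
    | single g m =>
      rw [th_single, Commute, SemiconjBy, single_mul_single, single_mul_single,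
        ((H.cen g).zpow_left n).eq, mul_comm r]

omit H in
theorem ind (hz : ¬ IsOfFinOrder z) {ι : Type*} (s : Finset ι) (r : ι → ℤ[T;T⁻¹]) (g : ι → K)
    {j : ι} (hj : j ∈ s) (hj' : ∀ i ∈ s, i ≠ j → g i * (g j)⁻¹ ∉ Subgroup.zpowers z)
    {π : ℤ[T;T⁻¹]} (h : th z π ∣ ∑ i ∈ s, th z (r i) * single (g i) 1) : π ∣ r j := by
  classical
  have hi := injective_zpow_iff_not_isOfFinOrder.2 hz
  let κ₀ : K → ℤ[T;T⁻¹] := fun h => if hh : ∃ c : ℤ, z ^ c = h then T hh.choose else 0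
  have h1 : ∀ c : ℤ, κ₀ (z ^ c) = T c := fun c => by
    have hh : ∃ d : ℤ, z ^ d = z ^ c := ⟨c, rfl⟩
    exact (dif_pos hh).trans (congrArg T (hi hh.choose_spec))
  have h2 : ∀ h, h ∉ Subgroup.zpowers z → κ₀ h = 0 := fun h hh => dif_neg hh
  let κ : MonoidAlgebra ℤ K →+ ℤ[T;T⁻¹] := liftNC (Int.castAddHom _) κ₀
  have h3 : ∀ r f, κ (th z r * f) = r * κ f := by
    intro r f
    induction r using AddMonoidAlgebra.induction_linear with
    | zero => simp
    | add a b ha hb => rw [map_add, add_mul, map_add, ha, hb, add_mul]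
    | single n r =>
      induction f using MonoidAlgebra.induction_linear with
      | zero => simp
      | add a b ha hb => rw [mul_add, map_add, ha, hb, map_add, mul_add]
      | single g m =>
        rw [th_single, single_mul_single, liftNC_single, liftNC_single, single_eq_C_mul_T]
        by_cases hg : g ∈ Subgroup.zpowers z
        · obtain ⟨c, rfl⟩ := hg
          rw [← zpow_add, h1, h1, T_add]
          simp only [Int.coe_castAddHom, Int.cast_mul, eq_intCast]
          ring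
        · rw [h2 g hg, h2 _ fun h => hg ((Subgroup.mul_mem_cancel_left _ (Subgroup.zpow_mem_zpowers z n)).1 h)]
          simp
  obtain ⟨w, hw⟩ := h.mul_right (single (g j)⁻¹ 1)
  refine ⟨κ w, ?_⟩
  rw [← h3, ← hw, Finset.sum_mul, map_sum, Finset.sum_eq_single_of_mem j hj]
  · rw [mul_assoc, h3, single_mul_single, mul_inv_cancel, liftNC_single, ← zpow_zero z, h1]
    simp
  · intro i hi hij
    rw [mul_assoc, h3, single_mul_single, liftNC_single, h2 _ (hj' i hi hij)]
    simp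

theorem decomp (π : ℤ[T;T⁻¹]) (f : MonoidAlgebra ℤ K) :
    ∃ F, (∀ p ∈ F.1, ¬ π ∣ F.2 p) ∧ th z π ∣ f - ev x y z F := by
  classical
  obtain ⟨F, rfl⟩ : ∃ F : ℤ × ℤ →₀ ℤ[T;T⁻¹],
      f = F.sum fun p r => th z r * single (x ^ p.1 * y ^ p.2) 1 := by
    induction f using MonoidAlgebra.induction_linear with
    | zero => exact ⟨0, by simp⟩
    | add a b ha hb =>
      obtain ⟨F, rfl⟩ := ha
      obtain ⟨F', rfl⟩ := hb
      exact ⟨F + F', (Finsupp.sum_add_index' (by simp) (by simp [add_mul])).symm⟩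
    | single g m =>
      obtain ⟨c, p, rfl⟩ := H.nf g
      exact ⟨Finsupp.single p (AddMonoidAlgebra.single c m), by
        rw [Finsupp.sum_single_index (by simp), th_single, single_mul_single, mul_one]⟩
  refine ⟨(F.support.filter fun p => ¬ π ∣ F p, F), fun p hp => (Finset.mem_filter.1 hp).2, ?_⟩
  rw [Finsupp.sum, ← Finset.sum_filter_add_sum_filter_not F.support fun p => π ∣ F p, ev,
    add_sub_cancel_right]
  exact Finset.dvd_sum fun p hp => (map_dvd _ (Finset.mem_filter.1 hp).2).mul_right _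

theorem th_prime (hz : ¬ IsOfFinOrder z) {π : ℤ[T;T⁻¹]}
    (hp : ∀ a b, π ∣ a * b → π ∣ a ∨ π ∣ b) (f g : MonoidAlgebra ℤ K) (h : th z π ∣ f * g) :
    th z π ∣ f ∨ th z π ∣ g := by
  classical
  obtain ⟨deg, hdeg⟩ := H.exists_deg hz
  have hz1 : deg z = 1 := by simpa using hdeg 1 0
  have hu : ∀ p : ℤ × ℤ, deg (x ^ p.1 * y ^ p.2) = Multiplicative.ofAdd p := fun p => by
    simpa using hdeg 0 p
  obtain ⟨⟨s, r⟩, h1, h2⟩ := H.decomp π f
  obtain ⟨⟨s', r'⟩, h1', h2'⟩ := H.decomp π g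
  rcases s.eq_empty_or_nonempty with rfl | hs
  · exact Or.inl (by simpa [ev] using h2)
  rcases s'.eq_empty_or_nonempty with rfl | hs'
  · exact Or.inr (by simpa [ev] using h2')
  obtain ⟨p, hp1, q, hq1, hpq⟩ := UniqueSums.uniqueAdd_of_nonempty hs hs'
  have h3 : th z π ∣ ev x y z (s, r) * ev x y z (s', r') := by
    obtain ⟨w, hw⟩ := h2'
    have h4 : th z π ∣ ev x y z (s, r) * (g - ev x y z (s', r')) :=
      ⟨ev x y z (s, r) * w, by rw [hw, ← mul_assoc, ← (H.th_comm π _).eq, mul_assoc]⟩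
    have h5 := dvd_sub (dvd_sub h (h2.mul_right g)) h4
    rwa [show f * g - (f - ev x y z (s, r)) * g - ev x y z (s, r) * (g - ev x y z (s', r')) =
      ev x y z (s, r) * ev x y z (s', r') by noncomm_ring] at h5
  have h4 : ev x y z (s, r) * ev x y z (s', r') = ∑ i ∈ s ×ˢ s', th z (r i.1 * r' i.2) *
      single (x ^ i.1.1 * y ^ i.1.2 * (x ^ i.2.1 * y ^ i.2.2)) 1 := by
    rw [ev, ev, Finset.sum_mul_sum, Finset.sum_product]
    refine Finset.sum_congr rfl fun a _ => Finset.sum_congr rfl fun b _ => ?_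
    rw [(H.th_comm _ _).symm.mul_mul_mul_comm, map_mul, single_mul_single, mul_one]
  rw [h4] at h3
  refine absurd (hp _ _ (ind hz _ _ _ (j := (p, q)) (Finset.mk_mem_product hp1 hq1) ?_ h3))
    (not_or.2 ⟨h1 p hp1, h1' q hq1⟩)
  rintro ⟨a, b⟩ hab hne ⟨c, hc⟩
  have h5 := congrArg deg hc
  rw [map_zpow, hz1, one_zpow, map_mul, map_inv, eq_mul_inv_iff_mul_eq, one_mul, map_mul,
    hu, hu, map_mul, hu, hu] at h5
  obtain ⟨h6, h7⟩ := hpq (Finset.mem_product.1 hab).1 (Finset.mem_product.1 hab).2 h5.symm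
  exact hne (Prod.ext h6 h7)

theorem split (N : ℤ) (c : ℤ) (p : ℤ × ℤ) : ∃ g ∈ Subgroup.closure {x ^ N * y, z},
    z ^ c * (x ^ p.1 * y ^ p.2) = g * x ^ (p.1 - N * p.2) := by
  have : (Subgroup.zpowers z).Normal := ⟨fun n hn g => H.conj_mem (Subgroup.mem_zpowers z) g n hn⟩
  let π := QuotientGroup.mk' (Subgroup.zpowers z)
  have hc : Commute (π x) (π y) := by
    have h1 : π z = 1 := (QuotientGroup.eq_one_iff z).2 (Subgroup.mem_zpowers z)
    rw [Commute, SemiconjBy, ← map_mul, H.rel, map_mul, h1, one_mul, map_mul]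
  obtain ⟨k, hk⟩ : x ^ p.1 * y ^ p.2 / ((x ^ N * y) ^ p.2 * x ^ (p.1 - N * p.2)) ∈
      Subgroup.zpowers z := by
    refine QuotientGroup.eq_iff_div_mem.1 (show π _ = π _ from ?_)
    simp only [map_mul, map_zpow]
    rw [(hc.zpow_left N).mul_zpow, ← zpow_mul, mul_assoc, ← (hc.zpow_zpow _ _).eq, ← mul_assoc,
      ← zpow_add, add_sub_cancel]
  have hz : z ∈ Subgroup.closure {x ^ N * y, z} := Subgroup.subset_closure (by simp)
  refine ⟨z ^ c * z ^ k * (x ^ N * y) ^ p.2, mul_mem (mul_mem (zpow_mem hz _) (zpow_mem hz _))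
    (zpow_mem (Subgroup.subset_closure (by simp)) _), ?_⟩
  rw [← eq_div_iff_mul_eq'.1 hk]
  simp only [mul_assoc]

theorem step {A : Type} [AddCommGroup A] [Module (MonoidAlgebra ℤ K) A] (N : ℤ) (c₀ : ℤ[T;T⁻¹])
    (F : Finset (ℤ × ℤ) × (ℤ × ℤ → ℤ[T;T⁻¹])) (h1 : F.1.Nonempty) (h2 : ∀ p ∈ F.1, F.2 p ∣ c₀)
    (h3 : Set.InjOn (fun p : ℤ × ℤ => p.1 - N * p.2) F.1) : ∃ lo hi : ℤ, ∀ U : Submodule ℤ A,
      (∀ g ∈ Subgroup.closure {x ^ N * y, z}, ∀ a ∈ U, (single g 1 : MonoidAlgebra ℤ K) • a ∈ U) →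
      (∀ a, th z c₀ • a ∈ U → a ∈ U) → ∀ a : A,
      (∀ f : MonoidAlgebra ℤ K, f • ev x y z F • a ∈ U) →
      (∀ i, lo ≤ i → i ≤ hi → (single (x ^ i) 1 : MonoidAlgebra ℤ K) • a ∈ U) →
      ∀ f : MonoidAlgebra ℤ K, f • a ∈ U := by
  classical
  let Φ := F.1.image fun p : ℤ × ℤ => p.1 - N * p.2
  have hΦ : Φ.Nonempty := h1.image _
  refine ⟨Φ.min' hΦ, Φ.max' hΦ, fun U hU hc a ha h0 => ?_⟩
  have hth : ∀ r, ∀ v ∈ U, th z r • v ∈ U := by
    intro r v hv
    induction r using AddMonoidAlgebra.induction_linear with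
    | zero => simp
    | add a b ha hb => rw [map_add, add_smul]; exact U.add_mem ha hb
    | single n r =>
      rw [th_single, ← mul_one r, ← smul_eq_mul, ← smul_single, smul_assoc]
      exact U.smul_mem r (hU _ (zpow_mem (Subgroup.subset_closure (by simp)) _) v hv)
  have key := int_fill {i | (single (x ^ i) 1 : MonoidAlgebra ℤ K) • a ∈ U} Φ _ _
    (Φ.min'_mem hΦ) (Φ.max'_mem hΦ) (fun i hi => ⟨Φ.min'_le i hi, Φ.le_max' i hi⟩) (by
      intro j i₀ hi₀ h4
      obtain ⟨p₀, hp₀, rfl⟩ := Finset.mem_image.1 hi₀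
      choose g hg hg' using fun p : ℤ × ℤ => H.split N 0 (j + p.1, p.2)
      have h5 : (single (x ^ j) 1 : MonoidAlgebra ℤ K) • ev x y z F • a = ∑ p ∈ F.1,
          th z (F.2 p) • (single (g p) 1 : MonoidAlgebra ℤ K) •
            (single (x ^ (j + (p.1 - N * p.2))) 1 : MonoidAlgebra ℤ K) • a := by
        rw [smul_smul, ev, Finset.mul_sum, Finset.sum_smul]
        refine Finset.sum_congr rfl fun p _ => ?_
        rw [← mul_assoc, ← (H.th_comm _ _).eq, mul_assoc, mul_smul, smul_smul (single (g p) 1),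
          single_mul_single, single_mul_single, ← add_sub_assoc, ← hg', zpow_zero, one_mul,
          one_mul, ← mul_assoc, ← zpow_add]
      have h6 := ha (single (x ^ j) 1)
      rw [h5, ← Finset.add_sum_erase _ _ hp₀, U.add_mem_iff_left (U.sum_mem fun p hp =>
        hth _ _ (hU _ (hg p) _ (h4 _ (Finset.mem_image_of_mem _ (Finset.mem_of_mem_erase hp))
          fun h => Finset.ne_of_mem_erase hp (h3 (Finset.mem_of_mem_erase hp) hp₀ h))))] at h6
      obtain ⟨r', hr'⟩ := h2 p₀ hp₀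
      have h7 := hth r' _ h6
      rw [smul_smul, ← map_mul, mul_comm, ← hr'] at h7
      have h8 := hU _ (inv_mem (hg p₀)) _ (hc _ h7)
      rwa [smul_smul, single_mul_single, inv_mul_cancel, mul_one, ← one_def, one_smul] at h8) h0
  refine smul_mem_of U fun h => ?_
  obtain ⟨c, p, rfl⟩ := H.nf h
  obtain ⟨g, hg, hg'⟩ := H.split N c p
  have := hU g hg _ (key (p.1 - N * p.2))
  rwa [smul_smul, single_mul_single, mul_one, ← hg'] at this

end Two

end Pool.Agent.P.MP_e2f787_al.Heis
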