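import Pool.Agent.P.MP_e2f787_al.CommAlg

/-! Specialisation lemma and choice of an orbital prime. -/

namespace Pool.Agent.P.MP_e2f787_al

open Module MonoidAlgebra

section

variable {k : Type*} [CommRing k] {W : Type*} [AddCommGroup W] [Module k W]
variable {S : Type*} [CommRing S] {L : Type*} [CommGroup L]

theorem ring_mul (θ : S →+* End k W) (a b : S) (v : W) : θ (a * b) v = θ a (θ b v) := by
  rw [map_mul]; rfl

theorem ring_comm (θ : S →+* End k W) (a b : S) (v : W) : θ a (θ b v) = θ b (θ a v) := by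
  rw [← ring_mul, mul_comm, ring_mul]

theorem theta_sum_mem (Θ : MonoidAlgebra S L →+* End k W) (t : MonoidAlgebra S L) (v : W)
    (N : Submodule k W) (h : ∀ l, Θ (single l (t.coeff l)) v ∈ N) : Θ t v ∈ N := by
  rw [← t.sum_coeff_single, Finsupp.sum, map_sum, LinearMap.sum_apply]
  exact N.sum_mem fun l _ => h l

theorem inv_Theta {θ : S →+* End k W} {lam : L →* End k W} {Θ : MonoidAlgebra S L →+* End k W}
    (hΘ : ∀ l c, Θ (single l c) = θ c * lam l) {N : Submodule k W}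
    (hN : Inv (Set.range θ ∪ Set.range lam) N) (t : MonoidAlgebra S L) :
    ∀ v ∈ N, Θ t v ∈ N := fun v hv =>
  theta_sum_mem Θ t v N fun l => by
    rw [hΘ, Module.End.mul_apply]
    exact hN _ (Or.inl ⟨_, rfl⟩) _ (hN _ (Or.inr ⟨_, rfl⟩) _ hv)

theorem sub_range_Theta {θ : S →+* End k W} {lam : L →* End k W}
    {Θ : MonoidAlgebra S L →+* End k W} (hΘ : ∀ l c, Θ (single l c) = θ c * lam l) :
    Set.range θ ∪ Set.range lam ⊆ Set.range Θ := by
  rintro _ (⟨c, rfl⟩ | ⟨l, rfl⟩)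
  · exact ⟨single 1 c, by simp [hΘ]⟩
  · exact ⟨single l 1, by simp [hΘ]⟩

theorem Theta_smul {θ : S →+* End k W} {lam : L →* End k W}
    {Θ : MonoidAlgebra S L →+* End k W} (hΘ : ∀ l c, Θ (single l c) = θ c * lam l)
    (c : S) (t : MonoidAlgebra S L) (v : W) : Θ (c • t) v = θ c (Θ t v) := by
  have h1 : c • t = single 1 c * t := by
    rw [Algebra.smul_def]; rfl
  rw [h1, ring_mul, hΘ]; simp

end

section

variable {k : Type*} [Field k] [Finite k] {W : Type*} [AddCommGroup W] [Module k W]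
variable {S : Type*} [CommRing S] [Algebra k S] [Algebra.FiniteType k S]
variable {L : Type*} [CommGroup L]

theorem spec_lemma (θ : S →+* End k W) (hθk : ∀ (c : k) v, θ (algebraMap k S c) v = c • v)
    (lam : L →* End k W) (Θ : MonoidAlgebra S L →+* End k W)
    (hΘ : ∀ l c, Θ (single l c) = θ c * lam l)
    (Γ : Set (End k W)) (hN : Noeth Γ ⊤)
    (hsub : ∀ N, Inv Γ N → Inv (Set.range θ ∪ Set.range lam) N)
    (hcΓ : ∀ f ∈ Γ, ∀ s, Commute f (θ s))
    (hF : ∀ (D : Submonoid S) (Z : Submodule k W), Inv Γ Z → ∀ S0 : Set W, S0.Finite →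
      GT (θ : S →* End k W) D ⊤ (gen (Set.range θ ∪ Set.range lam) S0 ⊔ Z))
    (Z0 : Submodule k W) (hZ0 : Inv Γ Z0) (u : W) (𝔞0 : Ideal S) (h𝔞0 : 𝔞0 ≠ ⊤)
    (hu : ∀ t, Θ t u ∈ Z0 ↔ ∀ l, t.coeff l ∈ 𝔞0) :
    ∃ Z, Inv Γ Z ∧
      (∀ f : MonoidAlgebra k L, Θ (mapRingHom L (algebraMap k S) f) u ∈ Z → f = 0) ∧
      ∃ N : ℕ, 0 < N ∧ ∀ (q : Sˣ) v, θ ((q : S) ^ N - 1) v ∈ Z := by
  classical
  obtain ⟨Z, ⟨hZ, 𝔞, h𝔞, hZu⟩, hmax⟩ := hN
    {Z | Inv Γ Z ∧ ∃ 𝔞 : Ideal S, 𝔞 ≠ ⊤ ∧ ∀ t, Θ t u ∈ Z ↔ ∀ l, t.coeff l ∈ 𝔞}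
    ⟨Z0, hZ0, 𝔞0, h𝔞0, hu⟩ (fun N hN => ⟨hN.1, le_top⟩)
  have hθN : ∀ N, Inv Γ N → ∀ s, ∀ v ∈ N, θ s v ∈ N :=
    fun N hN s => hsub N hN _ (Or.inl ⟨s, rfl⟩)
  have hrange : ∀ s, Inv Γ (Submodule.map (θ s) ⊤) :=
    fun s => (nrm_of_commute fun f hf => hcΓ f hf s).1 _ inv_top
  let 𝔠 : Ideal S :=
    { carrier := {s | ∀ v, θ s v ∈ Z}
      add_mem' := fun {a b} ha hb v => by
        rw [map_add, LinearMap.add_apply]; exact Z.add_mem (ha v) (hb v)
      zero_mem' := fun v => by simp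
      smul_mem' := fun c s hs v => by
        rw [smul_eq_mul, ring_mul]; exact hθN Z hZ _ _ (hs v) }
  have claimA : ∀ h ∈ 𝔞, ∃ e : ℕ, h ^ e ∈ 𝔠 := by
    intro h hh
    obtain ⟨e, he⟩ := hN.chain (fun n => Z.comap (θ (h ^ n)))
      (monotone_nat_of_le_succ fun n v hv => by
        change θ (h ^ (n + 1)) v ∈ Z
        rw [pow_succ', ring_mul]; exact hθN Z hZ _ _ hv)
      (fun n => (nrm_of_commute fun f hf => hcΓ f hf _).2 _ hZ) (fun n => le_top)
    refine ⟨e, fun v => hmax (Z ⊔ Submodule.map (θ (h ^ e)) ⊤)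
      ⟨hZ.sup (hrange _), 𝔞, h𝔞, fun t => ⟨fun ht => ?_, fun ht => ?_⟩⟩ le_sup_left
      (Submodule.mem_sup_right ⟨v, trivial, rfl⟩)⟩
    · obtain ⟨z, hz, _, ⟨w, -, rfl⟩, h1⟩ := Submodule.mem_sup.mp ht
      have h2 : Θ (h • t) u ∈ Z := (hZu _).mpr fun l => by
        rw [coeff_smul_apply, smul_eq_mul]; exact 𝔞.mul_mem_right _ hh
      rw [Theta_smul hΘ, ← h1, map_add, ← ring_mul, ← pow_succ'] at h2
      have h3 : w ∈ Z.comap (θ (h ^ (e + 1))) :=
        (Z.add_mem_iff_right (hθN Z hZ _ _ hz)).mp h2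
      rw [← hZu, ← h1]
      exact Z.add_mem hz (he _ (Nat.le_succ e) h3)
    · exact Submodule.mem_sup_left ((hZu t).mpr ht)
  have hJ : IsJacobsonRing S := isJacobsonRing_of_finiteType (A := k)
  have claimB : ∀ 𝔮 : Ideal S, 𝔮.IsPrime → 𝔞 ≤ 𝔮 → 𝔮.IsMaximal := by
    intro 𝔮 h𝔮 hle
    by_contra hnm
    obtain ⟨s, hs, hT⟩ := hF 𝔮.primeCompl Z hZ {u} (Set.finite_singleton u)
    have hs' : s ∉ 𝔮.jacobson := by rw [hJ.out h𝔮.isRadical]; exact hs
    rw [Ideal.jacobson, Submodule.mem_sInf] at hs'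
    push Not at hs'
    obtain ⟨𝔪, ⟨h1, h2⟩, h3⟩ := hs'
    obtain ⟨m, hm1, hm2⟩ : ∃ m ∈ 𝔪, m ∉ 𝔮 := by
      by_contra hcon
      push Not at hcon
      exact hnm (le_antisymm h1 hcon ▸ h2)
    obtain ⟨π, hπ1, hπ2, hcop⟩ : ∃ π ∈ 𝔪, π ∉ 𝔮 ∧ IsCoprime s π := by
      obtain ⟨a, π0, hπ0, h4⟩ := Ideal.IsMaximal.exists_inv h2 h3
      by_cases h5 : π0 ∈ 𝔮
      · refine ⟨π0 + m * (a * s), Ideal.add_mem _ hπ0 (Ideal.mul_mem_right _ _ hm1), fun h6 => ?_,
          a * (1 - m), 1, by linear_combination h4⟩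
        refine hm2 ?_
        have : m = (π0 + m * (a * s)) + (m - 1) * π0 := by linear_combination (-m) * h4
        rw [this]
        exact Ideal.add_mem _ h6 (Ideal.mul_mem_left _ _ h5)
      · exact ⟨π0, hπ0, h5, a, 1, by linear_combination h4⟩
    have hUinv : Inv (Set.range θ ∪ Set.range lam)
        (gen (Set.range θ ∪ Set.range lam) {u} ⊔ Z) := inv_gen.sup (hsub Z hZ)
    have hle' := hmax (Z ⊔ Submodule.map (θ π) ⊤)
      ⟨hZ.sup (hrange _), 𝔞 ⊔ Ideal.span {π}, fun h => h2.ne_top (eq_top_iff.mpr (h ▸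
        sup_le (hle.trans h1) ((Ideal.span_singleton_le_iff_mem _).mpr hπ1))),
        fun t => ⟨fun ht => ?_, fun ht => ?_⟩⟩ le_sup_left
    · have h4 : Θ (single 1 π) u ∈ Z := by
        rw [hΘ, map_one, mul_one]
        exact hle' (Submodule.mem_sup_right ⟨u, trivial, rfl⟩)
      have h5 := (hZu _).mp h4 1
      simp only [coeff_single, Finsupp.single_eq_same] at h5
      exact hπ2 (hle h5)
    · obtain ⟨z, hz, _, ⟨v, -, rfl⟩, h4⟩ := Submodule.mem_sup.mp ht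
      have h5 : θ π v ∈ gen (Set.range θ ∪ Set.range lam) {u} ⊔ Z := by
        have : θ π v = Θ t u - z := by rw [← h4]; abel
        rw [this]
        exact Submodule.sub_mem _ (Submodule.mem_sup_left
          (inv_Theta hΘ inv_gen t u (subset_gen rfl))) (Submodule.mem_sup_right hz)
      obtain ⟨e, he⟩ := hT v trivial ⟨π, hπ2, h5⟩
      obtain ⟨a, b, hab⟩ := hcop.pow_left (m := e)
      have h6 : v ∈ gen (Set.range θ ∪ Set.range lam) {u} ⊔ Z := by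
        have : v = θ a (θ (s ^ e) v) + θ b (θ π v) := by
          rw [← ring_mul, ← ring_mul, ← LinearMap.add_apply, ← map_add, hab]; simp
        rw [this]
        exact Submodule.add_mem _ (hUinv _ (Or.inl ⟨_, rfl⟩) _ he)
          (hUinv _ (Or.inl ⟨_, rfl⟩) _ h5)
      obtain ⟨x, hx, z', hz', rfl⟩ := Submodule.mem_sup.mp h6
      rw [← Set.range_const (ι := Unit)] at hx
      obtain ⟨c, rfl⟩ := gen_range_le Θ (fun c => ⟨single 1 (algebraMap k S c), fun v => by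
        rw [hΘ]; simp [hθk]⟩) (sub_range_Theta hΘ) _ hx
      have h7 : Θ (t - π • c ()) u ∈ Z := by
        rw [map_sub, LinearMap.sub_apply, Theta_smul hΘ, ← h4]
        simp only [Finset.univ_unique, Finset.sum_singleton, map_add]
        have : z + (θ π (Θ (c default) u) + θ π z') - θ π (Θ (c ()) u) = z + θ π z' := by abel
        rw [this]
        exact Z.add_mem hz (hθN Z hZ _ _ hz')
      intro l
      have h8 := (hZu _).mp h7 l
      have : t.coeff l = (t - π • c ()).coeff l + (c ()).coeff l * π := by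
        simp [mul_comm]
      rw [this]
      exact Submodule.add_mem_sup h8 (Ideal.mul_mem_left _ _ (Ideal.subset_span rfl))
    · refine theta_sum_mem Θ t u _ fun l => ?_
      obtain ⟨a, ha, b, hb, hab⟩ := Submodule.mem_sup.mp (ht l)
      obtain ⟨b', rfl⟩ := Ideal.mem_span_singleton'.mp hb
      rw [← hab, single_add, map_add, LinearMap.add_apply]
      refine Submodule.add_mem_sup ((hZu _).mpr fun l' => ?_) ⟨Θ (single l b') u, trivial, ?_⟩
      · simp only [coeff_single, Finsupp.single_apply]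
        split_ifs
        · exact ha
        · exact 𝔞.zero_mem
      · rw [← Theta_smul hΘ, smul_single, smul_eq_mul, mul_comm]
  have hfin : Module.Finite k (S ⧸ 𝔠) := by
    rw [Module.finite_iff_krullDimLE_zero,
      Ideal.krullDimLE_zero_quotient_iff_forall_minimalPrimes_isMaximal]
    intro J hJ
    refine claimB J hJ.1.1 fun h hh => ?_
    obtain ⟨e, he⟩ := claimA h hh
    exact hJ.1.1.mem_of_pow_mem e (hJ.1.2 he)
  have : Finite (S ⧸ 𝔠) := Module.finite_of_finite k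
  refine ⟨Z, hZ, fun f hf => ?_, Nat.card (S ⧸ 𝔠)ˣ, Nat.card_pos, fun q => ?_⟩
  · ext l
    have h1 := (hZu _).mp hf l
    rw [coeff_mapRingHom] at h1
    by_contra h2
    exact h𝔞 (Ideal.eq_top_of_isUnit_mem _ h1 ((Ne.isUnit (by simpa using h2)).map _))
  · change (q : S) ^ _ - 1 ∈ 𝔠
    rw [← Ideal.Quotient.eq_zero_iff_mem, map_sub, map_one, map_pow, sub_eq_zero]
    have := pow_card_eq_one' (x := Units.map (Ideal.Quotient.mk 𝔠 : S →* S ⧸ 𝔠) q)
    exact congrArg Units.val this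

end

section

variable {k : Type*} [CommRing k] {W : Type*} [AddCommGroup W] [Module k W]
variable {S : Type*} [CommRing S]

theorem semi_pow {θ : S →+* End k W} {Y : End k W} {τ : RingAut S}
    (hY : ∀ s v, Y (θ s v) = θ (τ s) (Y v)) (n : ℕ) :
    ∀ s v, (Y ^ n) (θ s v) = θ ((τ ^ n) s) ((Y ^ n) v) := by
  induction n with
  | zero => intro s v; rfl
  | succ n ih =>
    intro s v
    rw [pow_succ', pow_succ', Module.End.mul_apply, Module.End.mul_apply, ih, hY]; rfl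

theorem pow_iff {Y : End k W} {N : Submodule k W} (h : ∀ v, Y v ∈ N ↔ v ∈ N) (n : ℕ) :
    ∀ v, (Y ^ n) v ∈ N ↔ v ∈ N := by
  induction n with
  | zero => intro v; rfl
  | succ n ih => intro v; rw [pow_succ', Module.End.mul_apply, h, ih]

theorem prime_lemma [IsNoetherianRing S] (θ : S →+* End k W) (Γ : Set (End k W)) (hN : Noeth Γ ⊤)
    (hθN : ∀ N, Inv Γ N → ∀ s, ∀ v ∈ N, θ s v ∈ N) (hcΓ : ∀ f ∈ Γ, ∀ s, Commute f (θ s))
    (Y : End k W) (hYi : Function.Injective Y) (hYs : Function.Surjective Y) (τ : RingAut S)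
    (hY : ∀ s v, Y (θ s v) = θ (τ s) (Y v)) (A₀ : Submodule k W) (hA₀ : A₀ ≠ ⊥) :
    ∃ (j : ℕ) (W' W'' : Submodule k W) (P : Ideal S), 0 < j ∧ Inv Γ W' ∧
      (∀ v, (Y ^ j) v ∈ W' ↔ v ∈ W') ∧ W' ⊓ A₀ = ⊥ ∧ P.IsPrime ∧
      (∀ s, (τ ^ j) s ∈ P ↔ s ∈ P) ∧ (∀ v, v ∈ W'' ↔ ∀ s ∈ P, θ s v ∈ W') ∧
      (∀ v ∈ W'', ∀ s, s ∉ P → θ s v ∈ W' → v ∈ W') ∧ W'' ⊓ A₀ ≠ ⊥ := by
  classical
  obtain ⟨W', ⟨hW', ⟨j0, hj0, hYW'⟩, hWA⟩, hmax⟩ := hN
    {N | Inv Γ N ∧ (∃ j : ℕ, 0 < j ∧ ∀ v, (Y ^ j) v ∈ N ↔ v ∈ N) ∧ N ⊓ A₀ = ⊥}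
    ⟨⊥, inv_bot, ⟨1, one_pos, fun v => by
      simp only [pow_one, Submodule.mem_bot]
      exact map_eq_zero_iff _ hYi⟩, bot_inf_eq _⟩ (fun N hN => ⟨hN.1, le_top⟩)
  let ann : W → Ideal S := fun v =>
    { carrier := {s | θ s v ∈ W'}
      add_mem' := fun {a b} ha hb => by
        change θ (a + b) v ∈ W'
        rw [map_add, LinearMap.add_apply]; exact W'.add_mem ha hb
      zero_mem' := by simp
      smul_mem' := fun c s hs => by
        change θ (c • s) v ∈ W'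
        rw [smul_eq_mul, ring_mul]; exact hθN W' hW' _ _ hs }
  have hann : ∀ v s, s ∈ ann v ↔ θ s v ∈ W' := fun v s => Iff.rfl
  obtain ⟨v1, hv1⟩ : ∃ v, v ∉ W' := by
    by_contra hcon
    push Not at hcon
    exact hA₀ (by rw [← hWA, (Submodule.eq_top_iff'.mpr hcon : W' = ⊤), top_inf_eq])
  obtain ⟨_, ⟨v0, hv0, rfl⟩, hP⟩ := set_has_maximal_iff_noetherian.mpr
    (inferInstance : IsNoetherian S S) (ann '' {v | v ∉ W'}) ⟨_, v1, hv1, rfl⟩
  have hP' : ∀ v, v ∉ W' → ann v0 ≤ ann v → ann v ≤ ann v0 := fun v hv hle =>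
    (eq_of_le_of_not_lt hle (hP _ ⟨v, hv, rfl⟩)).ge
  let WJ : Ideal S → Submodule k W := fun J =>
    { carrier := {v | ∀ s ∈ J, θ s v ∈ W'}
      add_mem' := fun {a b} ha hb s hs => by rw [map_add]; exact W'.add_mem (ha s hs) (hb s hs)
      zero_mem' := fun s _ => by simp
      smul_mem' := fun c v hv s hs => by rw [map_smul]; exact W'.smul_mem c (hv s hs) }
  have hWJ : ∀ J, Inv Γ (WJ J) := fun J f hf v hv s hs => by
    rw [← Module.End.mul_apply, ← (hcΓ f hf s).eq, Module.End.mul_apply]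
    exact hW' f hf _ (hv s hs)
  have hYn : ∀ n v, (Y ^ (j0 * n)) v ∈ W' ↔ v ∈ W' := fun n => by
    rw [pow_mul]; exact pow_iff hYW' n
  have hsurj : ∀ n : ℕ, Function.Surjective (Y ^ n) := fun n => by
    rw [Module.End.coe_pow]; exact hYs.iterate n
  let Pn : ℕ → Ideal S := fun n => ann ((Y ^ (j0 * n)) v0)
  have hPn : ∀ n s, (τ ^ (j0 * n)) s ∈ Pn n ↔ s ∈ ann v0 := fun n s => by
    rw [hann, hann, ← semi_pow hY, hYn]
  have hPnmax : ∀ n v, v ∉ W' → Pn n ≤ ann v → ann v ≤ Pn n := by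
    intro n v hv hle s hs
    obtain ⟨v', rfl⟩ := hsurj (j0 * n) v
    obtain ⟨s', rfl⟩ := (τ ^ (j0 * n)).surjective s
    rw [hPn]
    refine hP' v' (fun h => hv ((hYn n v').mpr h)) (fun x hx => ?_) ?_
    · have := hle ((hPn n x).mpr hx)
      rwa [hann, ← semi_pow hY, hYn] at this
    · rwa [hann, ← semi_pow hY, hYn] at hs
  have hprime : ∀ v, v ∉ W' → (∀ v', v' ∉ W' → ann v ≤ ann v' → ann v' ≤ ann v) →
      (ann v).IsPrime := by
    intro v hv h
    refine ⟨fun h' => hv (by simpa using (hann v 1).mp (h' ▸ Submodule.mem_top)), ?_⟩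
    intro x y hxy
    by_cases hy : y ∈ ann v
    · exact Or.inr hy
    · refine Or.inl (h (θ y v) hy (fun s hs => ?_) ?_)
      · rw [hann, ring_comm]; exact hθN W' hW' _ _ hs
      · rw [hann, ← ring_mul]; exact hxy
  let c : ℕ → Submodule k W := fun n => (Finset.range n).sup fun i => WJ (Pn i)
  have hc : ∀ n, Inv Γ (c n) := fun n =>
    Finset.sup_induction inv_bot (fun _ h _ h' => h.sup h') fun i _ => hWJ _
  obtain ⟨n, hn⟩ := hN.chain c (fun a b hab => Finset.sup_mono (Finset.range_mono hab)) hc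
    (fun _ => le_top)
  have hn1 : (Y ^ (j0 * n)) v0 ∈ c n :=
    hn (n + 1) (Nat.le_succ n) (Finset.le_sup (f := fun i => WJ (Pn i))
      (Finset.self_mem_range_succ n) fun s hs => hs)
  have hn2 : c n ≤ WJ ((Finset.range n).inf Pn) :=
    Finset.sup_le fun i hi v hv s hs => hv s (Finset.inf_le (f := Pn) hi hs)
  have hnot : ∀ n, (Y ^ (j0 * n)) v0 ∉ W' := fun n h => hv0 ((hYn n v0).mp h)
  obtain ⟨i, hi, hle⟩ := (hprime _ (hnot n) (hPnmax n)).inf_le'.mp (hn2 hn1)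
  have heq : Pn i = Pn n := le_antisymm hle (hPnmax i _ (hnot n) hle)
  obtain ⟨m, rfl⟩ := Nat.exists_eq_add_of_lt (Finset.mem_range.mp hi)
  have hτP : ∀ s, (τ ^ (j0 * (m + 1))) s ∈ ann v0 ↔ s ∈ ann v0 := by
    intro s
    rw [← hPn i, heq, ← hPn (i + m + 1) s]
    have : τ ^ (j0 * (i + m + 1)) = τ ^ (j0 * i) * τ ^ (j0 * (m + 1)) := by
      rw [← pow_add]; congr 1; ring
    rw [this]; rfl
  refine ⟨j0 * (m + 1), W', WJ (ann v0), ann v0, Nat.mul_pos hj0 (Nat.succ_pos m), hW', hYn _, hWA,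
    hprime v0 hv0 hP', hτP, fun v => Iff.rfl, ?_, fun hbot => ?_⟩
  · intro v hv s hs h
    by_contra hcon
    exact hs (hP' v hcon hv h)
  · refine hv0 (hmax (WJ (ann v0)) ⟨hWJ _, ⟨j0 * (m + 1), Nat.mul_pos hj0 (Nat.succ_pos m),
      fun v => ⟨fun hv s hs => ?_, fun hv s hs => ?_⟩⟩, hbot⟩
      (fun v hv s _ => hθN W' hW' s v hv) (fun s hs => hs))
    · rw [← hYn (m + 1), semi_pow hY]
      exact hv _ ((hτP s).mpr hs)
    · obtain ⟨s', rfl⟩ := (τ ^ (j0 * (m + 1))).surjective s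
      rw [← semi_pow hY, hYn]
      exact hv _ ((hτP s').mp hs)

end

end Pool.Agent.P.MP_e2f787_al
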