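import Pool.Agent.P.MP_e2f787_al.Inner1

/-! The dichotomy. -/

namespace Pool.Agent.P.MP_e2f787_al

open Module MonoidAlgebra

theorem inv_range_iff {k : Type*} [CommRing k] {W : Type*} [AddCommGroup W] [Module k W]
    {G : Type*} [Monoid G] (ρ : G →* End k W) {X : Set G} (hX : Submonoid.closure X = ⊤)
    (N : Submodule k W) : Inv (ρ '' X) N ↔ Inv (Set.range ρ) N := by
  refine ⟨fun h => ?_, fun h => h.mono (Set.image_subset_range _ _)⟩
  rintro _ ⟨g, rfl⟩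
  have hg : g ∈ Submonoid.closure X := hX ▸ Submonoid.mem_top g
  induction hg using Submonoid.closure_induction with
  | mem x hx => exact h _ ⟨x, hx, rfl⟩
  | one => intro v hv; simpa using hv
  | mul a b _ _ ha hb => intro v hv; rw [map_mul]; exact ha _ (hb v hv)

theorem locNoeth_range {k : Type*} [CommRing k] [IsNoetherianRing k] {W : Type*} [AddCommGroup W]
    [Module k W] {G : Type*} [Group G] [Group.FG G] (ρ : G →* End k W)
    (h : ∀ a b, Commute (ρ a) (ρ b)) : LocNoeth (Set.range ρ) := by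
  obtain ⟨X, hX⟩ := (Group.fg_iff_monoid_fg.mp (inferInstance : Group.FG G)).fg_top
  refine (locNoeth_finite (X.finite_toSet.image ρ) ?_).congr (inv_range_iff ρ hX)
  rintro _ ⟨a, -, rfl⟩ _ ⟨b, -, rfl⟩
  exact h a b

variable {k : Type*} [Field k] [Finite k] {W : Type*} [AddCommGroup W] [Module k W]
variable {S : Type*} [CommRing S] [Algebra k S] [Algebra.FiniteType k S]
variable {L : Type*} [CommGroup L] [Group.FG L] [UniqueProds L]

theorem inner2 (θ : S →+* End k W) (hθk : ∀ (c : k) v, θ (algebraMap k S c) v = c • v)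
    (lam : L →* End k W) (hcomm : ∀ s l, Commute (θ s) (lam l))
    (Λ : MonoidAlgebra k L →+* End k W) (hΛ : ∀ l c v, Λ (single l c) v = c • lam l v)
    (Γ : Set (End k W)) (hN : Noeth Γ ⊤)
    (hsub : ∀ N, Inv Γ N → Inv (Set.range θ ∪ Set.range lam) N)
    (hcΓ : ∀ f ∈ Γ, ∀ s, Commute f (θ s))
    (hF : ∀ (D : Submonoid S) (Z : Submodule k W), Inv Γ Z → ∀ S0 : Set W, S0.Finite →
      GT (θ : S →* End k W) D ⊤ (gen (Set.range θ ∪ Set.range lam) S0 ⊔ Z))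
    (Y : End k W) (hYi : Function.Injective Y) (hYs : Function.Surjective Y) (τ : RingAut S)
    (hY : ∀ s v, Y (θ s v) = θ (τ s) (Y v)) (σ : MulAut L) (hσ : Hyp σ)
    (hYl : ∀ l v, Y (lam l v) = lam (σ l) (Y v))
    (A₀ : Submodule k W) (hA1 : Inv (Set.range lam) A₀) (hA2 : Noeth (Set.range lam) A₀)
    (hA3 : ∀ v ∈ A₀, Y v ∈ A₀)
    (W' W'' : Submodule k W) (P : Ideal S) (hW' : Inv Γ W') (hYW' : ∀ v, Y v ∈ W' ↔ v ∈ W')
    (hWA : W' ⊓ A₀ = ⊥) [hP : P.IsPrime] (hτP : ∀ s, τ s ∈ P ↔ s ∈ P)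
    (hW'' : ∀ v, v ∈ W'' ↔ ∀ s ∈ P, θ s v ∈ W')
    (hinj : ∀ v ∈ W'', ∀ s, s ∉ P → θ s v ∈ W' → v ∈ W') (hne : W'' ⊓ A₀ ≠ ⊥) :
    (∃ u ∈ A₀, ∃ Z, Inv Γ Z ∧ (∀ f, Λ f u ∈ Z → f = 0) ∧
      ∃ N : ℕ, 0 < N ∧ ∀ (q : Sˣ) v, θ ((q : S) ^ N - 1) v ∈ Z) ∨
    (∃ a ∈ A₀, a ≠ 0 ∧ ∃ g : MonoidAlgebra k L, g ≠ 0 ∧ ∀ n : ℕ, ∃ e : ℕ, ∃ a' ∈ A₀,
      Λ (domCongr k k (σ ^ n) (g ^ e)) a = (Y ^ n) a') := by
  classical
  let Θ : MonoidAlgebra S L →+* End k W := liftNCRingHom θ lam hcomm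
  have hΘ : ∀ l c, Θ (single l c) = θ c * lam l := fun l c => liftNCRingHom_single _ _ _ _ _
  set Γ₀ := Set.range θ ∪ Set.range lam with hΓ₀
  have hΛΘ : ∀ f v, Θ (mapRingHom L (algebraMap k S) f) v = Λ f v := by
    intro f v
    induction f using MonoidAlgebra.induction_linear with
    | zero => simp
    | add a b ha hb => simp [ha, hb]
    | single l c => rw [mapRingHom_single, hΘ, hΛ, Module.End.mul_apply, hθk]
  have hW'0 : Inv Γ₀ W' := hsub _ hW'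
  have hW''0 : Inv Γ₀ W'' := by
    rintro _ (⟨c, rfl⟩ | ⟨l, rfl⟩) v hv
    · rw [hW''] at hv ⊢
      intro s hs
      rw [ring_comm]; exact hW'0 _ (Or.inl ⟨c, rfl⟩) _ (hv s hs)
    · rw [hW''] at hv ⊢
      intro s hs
      rw [← Module.End.mul_apply, (hcomm s l).eq, Module.End.mul_apply]
      exact hW'0 _ (Or.inr ⟨l, rfl⟩) _ (hv s hs)
  have hYW'' : ∀ v, Y v ∈ W'' ↔ v ∈ W'' := by
    intro v
    rw [hW'', hW'']
    refine ⟨fun h s hs => ?_, fun h s hs => ?_⟩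
    · rw [← hYW', hY]; exact h _ ((hτP s).mpr hs)
    · obtain ⟨s', rfl⟩ := τ.surjective s
      rw [← hY, hYW']; exact h _ ((hτP s').mp hs)
  have hle : W' ≤ W'' := fun v hv => (hW'' v).mpr fun s _ => hW'0 _ (Or.inl ⟨s, rfl⟩) _ hv
  have hlam0 : Set.range lam ⊆ Γ₀ := Set.subset_union_right
  set A'' := W'' ⊓ A₀ with hA''
  have hA''inv : Inv (Set.range lam) A'' := (hW''0.mono hlam0).inf hA1
  have hYA'' : ∀ v ∈ A'', Y v ∈ A'' := fun v hv => ⟨(hYW'' v).mpr hv.1, hA3 v hv.2⟩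
  obtain ⟨S0, hS0, hS1, hS2⟩ := hA2.exists_gen hA''inv inf_le_right
  have := hS0.fintype
  let b : S0 → W := Subtype.val
  have hb : Set.range b = S0 := Subtype.range_coe
  have hbA : ∀ j, b j ∈ A'' := fun j => hS1 j.2
  have hgenA : gen (Set.range lam) S0 = A'' := le_antisymm (gen_le hA''inv hS1) hS2
  let Iv : W → Ideal (MonoidAlgebra S L) := fun a =>
    { carrier := {t | Θ t a ∈ W'}
      add_mem' := fun {x y} hx hy => by
        change Θ (x + y) a ∈ W'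
        rw [map_add, LinearMap.add_apply]; exact W'.add_mem hx hy
      zero_mem' := by simp
      smul_mem' := fun c s hs => by
        change Θ (c • s) a ∈ W'
        rw [smul_eq_mul, ring_mul]; exact inv_Theta hΘ hW'0 _ _ hs }
  let I : Ideal (MonoidAlgebra S L) := Finset.univ.inf fun j => Iv (b j)
  have hI : ∀ t, t ∈ I ↔ ∀ a ∈ gen Γ₀ S0, Θ t a ∈ W' := by
    intro t
    refine ⟨fun h => ?_, fun h => Submodule.mem_finsetInf.mpr fun j _ => h _ (subset_gen j.2)⟩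
    refine fun a ha => gen_le (N := W'.comap (Θ t)) ?_ ?_ ha
    · refine (nrm_of_commute fun f hf => ?_).2 _ hW'0
      obtain ⟨t', rfl⟩ := sub_range_Theta hΘ hf
      exact (Commute.all t' t).map Θ
    · exact fun a ha => Submodule.mem_finsetInf.mp h ⟨a, ha⟩ (Finset.mem_univ _)
  set U₀ := gen Γ₀ S0 with hU₀
  have hU₀W : U₀ ≤ W'' := gen_le hW''0 fun v hv => (hS1 hv).1
  have hAU : A'' ≤ U₀ := hS2.trans (gen_le (inv_gen.mono hlam0) subset_gen)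
  let PT : Ideal (MonoidAlgebra S L) := RingHom.ker (mapRingHom L (Ideal.Quotient.mk P))
  have hPT : ∀ t, t ∈ PT ↔ ∀ l, t.coeff l ∈ P := by
    intro t
    rw [RingHom.mem_ker, ← coeff_inj, Finsupp.ext_iff]
    simp [Ideal.Quotient.eq_zero_iff_mem]
  have hPTprime : PT.IsPrime := RingHom.ker_isPrime _
  have hPTa : ∀ t, (∀ l, t.coeff l ∈ P) → ∀ a ∈ W'', Θ t a ∈ W' := fun t ht a ha =>
    theta_sum_mem Θ t a W' fun l => by
      rw [hΘ, Module.End.mul_apply]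
      exact (hW'' _).mp (hW''0 _ (Or.inr ⟨l, rfl⟩) a ha) _ (ht l)
  by_cases hcase : I ≤ PT
  · left
    obtain ⟨j, -, hj⟩ := hPTprime.inf_le'.mp hcase
    obtain ⟨Z, h1, h2, h3⟩ := spec_lemma θ hθk lam Θ hΘ Γ hN hsub hcΓ hF W' hW' (b j) P hP.ne_top
      fun t => ⟨fun h => (hPT t).mp (hj h), fun h => hPTa t h _ (hbA j).1⟩
    exact ⟨b j, (hbA j).2, Z, h1, fun f hf => h2 f (by rwa [hΛΘ]), h3⟩
  right
  obtain ⟨f, hfI, hfP⟩ := Set.not_subset.mp hcase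
  let τ' : MonoidAlgebra S L ≃+* MonoidAlgebra S L :=
    (mapRingEquiv L τ).trans (mapDomainRingEquiv S σ)
  have hYΘ : ∀ t v, Y (Θ t v) = Θ (τ' t) (Y v) := by
    intro t v
    induction t using MonoidAlgebra.induction_linear with
    | zero => simp
    | add a b ha hb => simp [ha, hb]
    | single l c => simp [τ', hΘ, hY, hYl]
  have hYU : ∀ v ∈ U₀, Y v ∈ U₀ := by
    intro v hv
    refine gen_le (N := U₀.comap Y) ?_ (fun a ha => hAU (hYA'' a (hS1 ha))) hv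
    intro f hf v hv
    obtain ⟨t', rfl⟩ := sub_range_Theta hΘ hf
    change Y (Θ t' v) ∈ U₀
    rw [hYΘ]; exact inv_Theta hΘ inv_gen _ _ hv
  have hIτ : ∀ t ∈ I, τ'.symm t ∈ I := by
    intro t ht
    rw [hI] at ht ⊢
    intro a ha
    rw [← hYW', hYΘ, RingEquiv.apply_symm_apply]
    exact ht _ (hYU a ha)
  have hcoeff : ∀ t l, (τ'.symm t).coeff l ∈ P ↔ t.coeff (σ l) ∈ P := by
    intro t l
    obtain ⟨t, rfl⟩ := τ'.surjective t
    rw [RingEquiv.symm_apply_apply, ← hτP]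
    simp [τ']
  have hfn : ∀ n : ℕ, ∃ f' ∈ I, ∀ l, f'.coeff l ∈ P ↔ f.coeff ((σ ^ n) l) ∈ P := by
    intro n
    induction n with
    | zero => exact ⟨f, hfI, fun l => Iff.rfl⟩
    | succ n ih =>
      obtain ⟨f', h1, h2⟩ := ih
      exact ⟨_, hIτ f' h1, fun l => by rw [hcoeff, h2, pow_succ]; rfl⟩
  have hPI : ∀ p ∈ P, algebraMap S (MonoidAlgebra S L) p ∈ I := by
    intro p hp
    rw [hI]
    refine fun a ha => hPTa _ (fun l => ?_) a (hU₀W ha)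
    simp only [coe_algebraMap, Function.comp_apply, coeff_single, Finsupp.single_apply]
    split_ifs
    · exact hp
    · exact P.zero_mem
  obtain ⟨l1, hl1⟩ : ∃ l, f.coeff l ∉ P := by
    by_contra hcon
    push Not at hcon
    exact hfP ((hPT f).mpr hcon)
  have hsupp : ∀ l, f.coeff l ∉ P → l ∈ f.coeff.support := fun l h =>
    Finsupp.mem_support_iff.mpr fun h' => h (h' ▸ P.zero_mem)
  obtain ⟨r, g, hg⟩ := int_lemma P I hPI (val_lemma P hσ I hPI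
    (D := (Set.image2 (· / ·) (f.coeff.support : Set L) f.coeff.support) \ {1})
    ((Set.Finite.image2 _ (Finset.finite_toSet _) (Finset.finite_toSet _)).subset Set.diff_subset)
    (by simp) (fun n => by
      obtain ⟨f', h1, h2⟩ := hfn n
      refine ⟨f', h1, ⟨(σ ^ n).symm l1, by rw [h2]; simpa using hl1⟩, fun s s' hs hs' hne => ?_⟩
      refine ⟨(σ ^ n) s / (σ ^ n) s', ⟨⟨_, hsupp _ (by rwa [← h2]), _, hsupp _ (by rwa [← h2]),
        rfl⟩, fun h => hne ((σ ^ n).injective (div_eq_one.mp h))⟩, ?_⟩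
      rw [← map_div, zpow_neg, zpow_natCast]
      exact ((σ ^ n).symm_apply_apply _).symm))
  have hθW' : ∀ s, ∀ v ∈ W', θ s v ∈ W' := fun s => hW'0 _ (Or.inl ⟨s, rfl⟩)
  have hθU : ∀ s, ∀ v ∈ U₀, θ s v ∈ U₀ := fun s => inv_gen _ (Or.inl ⟨s, rfl⟩)
  have hfin : ∀ u ∈ U₀, ∃ d, d ∉ P ∧
      θ d u ∈ gen (Set.range θ) (Set.range fun p : Fin r × S0 => Θ (g p.1) (b p.2)) ⊔ W' := by
    set V := gen (Set.range θ) (Set.range fun p : Fin r × S0 => Θ (g p.1) (b p.2)) ⊔ W' with hV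
    have hVinv : ∀ s, ∀ v ∈ V, θ s v ∈ V := fun s =>
      (inv_gen.sup (hW'0.mono Set.subset_union_left)) _ ⟨s, rfl⟩
    intro u hu
    rw [hU₀, ← hb] at hu
    obtain ⟨c, rfl⟩ := gen_range_le Θ (fun c => ⟨single 1 (algebraMap k S c), fun v => by
      rw [hΘ]; simp [hθk]⟩) (sub_range_Theta hΘ) _ hu
    refine Finset.sum_induction _ (fun u => ∃ d, d ∉ P ∧ θ d u ∈ V) ?_
      ⟨1, fun h => hP.ne_top ((Ideal.eq_top_iff_one _).mpr h), by simp⟩ fun j _ => ?_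
    · rintro x y ⟨d, hd, hx⟩ ⟨d', hd', hy⟩
      refine ⟨d * d', fun h => (hP.mem_or_mem h).elim hd hd', ?_⟩
      rw [map_add]
      refine V.add_mem ?_ ?_
      · rw [mul_comm, ring_mul]; exact hVinv _ _ hx
      · rw [ring_mul]; exact hVinv _ _ hy
    · obtain ⟨d, hd, c', h⟩ := hg (c j)
      refine ⟨d, hd, ?_⟩
      have h1 := (hI _).mp h (b j) (subset_gen j.2)
      rw [map_sub, LinearMap.sub_apply, Theta_smul hΘ, map_sum, LinearMap.sum_apply] at h1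
      refine (V.sub_mem_iff_left (V.sum_mem fun i _ => ?_)).mp (Submodule.mem_sup_right h1)
      rw [Theta_smul hΘ]
      exact hVinv _ _ (Submodule.mem_sup_left (subset_gen ⟨(i, j), rfl⟩))
  obtain ⟨s, hs, hT⟩ := hF P.primeCompl W' hW' S0 hS0
  -- second level
  have hΛlam : ∀ l, Λ (single l 1) = lam l := fun l => by ext v; simp [hΛ]
  have hΛinv : ∀ N, Inv (Set.range lam) N → ∀ d, ∀ v ∈ N, Λ d v ∈ N := fun N hN d v hv =>
    theta_sum_mem Λ d v N fun l => by rw [hΛ]; exact N.smul_mem _ (hN _ ⟨l, rfl⟩ v hv)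
  have hΛcomm : ∀ f ∈ Γ₀, ∀ d, Commute f (Λ d) := by
    intro f hf d
    obtain ⟨t', rfl⟩ := sub_range_Theta hΘ hf
    have : Λ d = Θ (mapRingHom L (algebraMap k S) d) := LinearMap.ext fun v => (hΛΘ d v).symm
    rw [this]
    exact (Commute.all _ _).map Θ
  let D₂ := nonZeroDivisors (MonoidAlgebra k L)
  have hgood : Good (Λ : MonoidAlgebra k L →* End k W) D₂ (Set.range lam) W' Γ₀ := by
    obtain ⟨X, hX⟩ := (inferInstance : Algebra.FiniteType k S).out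
    refine ((Good.base (locNoeth_range lam fun a b => (Commute.all a b).map lam)
      (fun f hf d _ => hΛcomm f (hlam0 hf) d) (hW'0.mono hlam0)).union_finite
      (fun N hN d _ => hΛinv N hN d) (X.finite_toSet.image θ) ?_ ?_
      (hW'0.mono ((Set.image_subset_range _ _).trans Set.subset_union_left)) ?_).congr ?_
      fun f hf d _ => hΛcomm f hf d
    · rintro _ ⟨l, rfl⟩ _ ⟨x, -, rfl⟩; exact (hcomm x l).symm
    · rintro _ ⟨y, -, rfl⟩ _ ⟨x, -, rfl⟩; exact (Commute.all _ _).map θ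
    · rintro _ ⟨x, -, rfl⟩ d _; exact hΛcomm _ (Or.inl ⟨x, rfl⟩) d
    · intro N
      refine ⟨fun h => ?_, fun h => h.mono
        (Set.union_subset_union_left _ (Set.image_subset_range _ _))⟩
      rintro _ (⟨c, rfl⟩ | ⟨l, rfl⟩)
      · have hc : c ∈ Algebra.adjoin k (X : Set S) := hX ▸ Algebra.mem_top
        induction hc using Algebra.adjoin_induction with
        | mem x hx => exact h _ (Or.inl ⟨x, hx, rfl⟩)
        | algebraMap c => intro v hv; rw [hθk]; exact N.smul_mem _ hv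
        | add x y _ _ hx hy =>
          intro v hv; rw [map_add, LinearMap.add_apply]; exact N.add_mem (hx v hv) (hy v hv)
        | mul x y _ _ hx hy => intro v hv; rw [ring_mul]; exact hx _ (hy v hv)
      · exact h _ (Or.inr ⟨l, rfl⟩)
  obtain ⟨g1, hg1, hT1⟩ := hgood.gt S0 hS0
  rw [hgenA] at hT1
  have hNinv : Inv Γ₀ (U₀.map (θ s) ⊔ W') := by
    refine ((nrm_of_commute fun f hf => ?_).1 _ inv_gen).sup hW'0
    obtain ⟨t', rfl⟩ := sub_range_Theta hΘ hf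
    have : θ s = Θ (single 1 s) := by simp [hΘ]
    rw [this]
    exact (Commute.all _ _).map Θ
  obtain ⟨g2, hg2, hT2⟩ := (hgood.noeth S0 hS0).gt0 (θ := (Λ : MonoidAlgebra k L →* End k W))
    (D := D₂) inv_gen hNinv (fun f hf d _ => hΛcomm f hf d)
    (fun d _ => hΛinv _ (hNinv.mono hlam0) d)
  have hUW : Inv Γ₀ (U₀ ⊔ W') := inv_gen.sup hW'0
  have hθΛ : ∀ c d v, θ c (Λ d v) = Λ d (θ c v) := fun c d v =>
    LinearMap.congr_fun (hΛcomm _ (Or.inl ⟨c, rfl⟩) d).eq v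
  have descent : ∀ e : ℕ, ∀ v ∈ W'', θ (s ^ e) v ∈ U₀ ⊔ W' → (∃ d ∈ D₂, Λ d v ∈ U₀ ⊔ W') →
      ∃ m : ℕ, Λ (g2 ^ m) v ∈ U₀ ⊔ W' := by
    intro e
    induction e with
    | zero => intro v _ h _; exact ⟨0, by simpa using h⟩
    | succ e ih =>
      intro v hv h ⟨d, hd, hdv⟩
      obtain ⟨w, hw, z, hz, h1⟩ := Submodule.mem_sup.mp h
      have h2 : Λ g2 w ∈ U₀.map (θ s) ⊔ W' := by
        refine hT2 w hw ⟨d, hd, ?_⟩
        obtain ⟨u1, hu1, z1, hz1, h3⟩ := Submodule.mem_sup.mp hdv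
        have : Λ d w = θ s (θ (s ^ e) u1) + (θ (s ^ (e + 1)) z1 - Λ d z) := by
          rw [← ring_mul, ← pow_succ', ← add_sub_assoc, ← map_add, h3, hθΛ, ← h1, map_add]
          abel
        change Λ d w ∈ _
        rw [this]
        exact Submodule.add_mem_sup ⟨_, hθU _ _ hu1, rfl⟩
          (W'.sub_mem (hθW' _ _ hz1) (hΛinv _ (hW'0.mono hlam0) _ _ hz))
      obtain ⟨_, ⟨u2, hu2, rfl⟩, z2, hz2, h3⟩ := Submodule.mem_sup.mp h2
      have hv' : Λ g2 v ∈ W'' := hΛinv _ (hW''0.mono hlam0) _ _ hv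
      have h4 : θ (s ^ e) (Λ g2 v) - u2 ∈ W' := by
        refine hinj _ (W''.sub_mem (hW''0 _ (Or.inl ⟨_, rfl⟩) _ hv') (hU₀W hu2)) s hs ?_
        have : θ s (θ (s ^ e) (Λ g2 v) - u2) = z2 + Λ g2 z := by
          rw [map_sub, ← ring_mul, ← pow_succ', hθΛ, ← h1, map_add, ← h3]
          abel
        rw [this]
        exact W'.add_mem hz2 (hΛinv _ (hW'0.mono hlam0) _ _ hz)
      obtain ⟨m, hm⟩ := ih (Λ g2 v) hv' (by
        have : θ (s ^ e) (Λ g2 v) = u2 + (θ (s ^ e) (Λ g2 v) - u2) := by abel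
        rw [this]; exact Submodule.add_mem_sup hu2 h4)
        ⟨d, hd, by rw [ring_comm]; exact hΛinv _ (hUW.mono hlam0) _ _ hdv⟩
      exact ⟨m + 1, by rw [pow_succ, ring_mul]; exact hm⟩
  obtain ⟨a, ha, ha0⟩ := Submodule.exists_mem_ne_zero_of_ne_bot hne
  refine ⟨a, ha.2, ha0, g1 * g2, mem_nonZeroDivisors_iff_ne_zero.mp (D₂.mul_mem hg1 hg2),
    fun n => ?_⟩
  have hYlpow : ∀ l v, (Y ^ n) (lam l v) = lam ((σ ^ n) l) ((Y ^ n) v) := by
    intro l v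
    induction n with
    | zero => rfl
    | succ n ih => rw [pow_succ', pow_succ', Module.End.mul_apply, Module.End.mul_apply, ih, hYl]; rfl
  have hYΛ : ∀ d v, (Y ^ n) (Λ d v) = Λ (domCongr k k (σ ^ n) d) ((Y ^ n) v) := by
    intro d v
    induction d using MonoidAlgebra.induction_linear with
    | zero => simp
    | add a b ha hb => simp [ha, hb]
    | single l c => rw [domCongr_single, hΛ, hΛ, map_smul, hYlpow]
  have hpowmem : ∀ N : Submodule k W, (∀ v ∈ N, Y v ∈ N) → ∀ v ∈ N, (Y ^ n) v ∈ N := by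
    intro N hN v hv
    exact Module.End.pow_apply_mem_of_forall_mem n hN v hv
  have hYni : Function.Injective (Y ^ n) := by rw [Module.End.coe_pow]; exact hYi.iterate n
  obtain ⟨v, rfl⟩ : ∃ v, (Y ^ n) v = a := by rw [Module.End.coe_pow]; exact hYs.iterate n a
  have hvW : v ∈ W'' := (pow_iff hYW'' n v).mp ha.1
  have hτPn : ∀ s, (τ ^ n) s ∈ P ↔ s ∈ P := by
    intro s
    clear hYlpow hYΛ hpowmem hYni ha ha0
    induction n with
    | zero => rfl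
    | succ n ih => rw [pow_succ']; exact (hτP _).trans ih
  obtain ⟨d, hd, u', hu', h1⟩ := rank_lemma P θ ((τ ^ n : RingAut S) : S →+* S)
    (τ ^ n).surjective hτPn (Y ^ n) (semi_pow hY n) W' U₀ hθW' hθU
    (fun v => (pow_iff hYW' n v).mp) (hpowmem _ hYU)
    (fun s hs v hv => (hW'' v).mp (hU₀W hv) s hs) _
    (fun p => inv_Theta hΘ inv_gen _ _ (subset_gen p.2.2))
    (fun c => ⟨algebraMap k S c, hθk c⟩) hfin _ (hAU ha)
  obtain ⟨d', rfl⟩ := (τ ^ n).surjective d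
  rw [← semi_pow hY, ← map_sub, pow_iff hYW'] at h1
  obtain ⟨e, he⟩ := hT v trivial ⟨d', fun h => hd ((hτPn d').mpr h), by
    change θ d' v ∈ _
    have : θ d' v = u' + (θ d' v - u') := by abel
    rw [this]; exact Submodule.add_mem_sup hu' h1⟩
  obtain ⟨d2, hd2, a', ha', h2⟩ := rank_lemma (⊥ : Ideal (MonoidAlgebra k L)) Λ
    (domCongr k k (σ ^ n) : MonoidAlgebra k L →+* MonoidAlgebra k L)
    (domCongr k k (σ ^ n)).surjective (fun s => by simp) (Y ^ n) hYΛ ⊥ A''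
    (fun s v hv => by rw [(Submodule.mem_bot k).mp hv]; simp) (hΛinv _ hA''inv)
    (fun v hv => (map_eq_zero_iff _ hYni).mp hv) (hpowmem _ hYA'')
    (fun s hs v hv => by rw [Ideal.mem_bot.mp hs]; simp) b hbA
    (fun c => ⟨single 1 c, fun v => by simp [hΛ]⟩)
    (fun u hu => ⟨1, by simp, Submodule.mem_sup_left (by
      rw [map_one, Module.End.one_apply, hb]
      exact gen_le (inv_gen.mono (by rintro _ ⟨l, rfl⟩; exact ⟨_, hΛlam l⟩)) subset_gen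
        (hS2 hu))⟩) _ ha
  obtain ⟨d2', rfl⟩ := (domCongr k k (σ ^ n)).surjective d2
  rw [← hYΛ, ← map_sub, Submodule.mem_bot, map_eq_zero_iff _ hYni, sub_eq_zero] at h2
  have hd2' : d2' ∈ D₂ := mem_nonZeroDivisors_iff_ne_zero.mpr fun h => hd2 (by simp [h])
  obtain ⟨m, hm⟩ := descent e v hvW he ⟨d2', hd2', h2 ▸ Submodule.mem_sup_left (hAU ha')⟩
  obtain ⟨e1, he1⟩ := hT1 _ hm ⟨d2', hd2', by
    change Λ d2' (Λ (g2 ^ m) v) ∈ _
    rw [ring_comm, h2]; exact Submodule.mem_sup_left (hΛinv _ hA''inv _ _ ha')⟩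
  have h3 : Λ ((g1 * g2) ^ (e1 + m)) v ∈ A'' ⊔ W' := by
    have : (g1 * g2) ^ (e1 + m) = (g1 ^ m * g2 ^ e1) * (g1 ^ e1 * g2 ^ m) := by ring
    rw [this, ring_mul, ring_mul Λ (g1 ^ e1)]
    exact hΛinv _ (hA''inv.sup (hW'0.mono hlam0)) _ _ he1
  obtain ⟨a2, ha2, z, hz, h4⟩ := Submodule.mem_sup.mp h3
  refine ⟨e1 + m, a2, ha2.2, ?_⟩
  have h5 : (Y ^ n) z ∈ W' ⊓ A₀ := by
    refine ⟨(pow_iff hYW' n z).mpr hz, ?_⟩
    have : (Y ^ n) z = Λ (domCongr k k (σ ^ n) ((g1 * g2) ^ (e1 + m))) ((Y ^ n) v) -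
        (Y ^ n) a2 := by rw [← hYΛ, ← h4, map_add]; abel
    rw [this]
    exact A₀.sub_mem (hΛinv _ hA1 _ _ ha.2) (hpowmem _ hA3 _ ha2.2)
  rw [hWA, Submodule.mem_bot] at h5
  rw [← hYΛ, ← h4, map_add, h5, add_zero]

theorem inner (θ : S →+* End k W) (hθk : ∀ (c : k) v, θ (algebraMap k S c) v = c • v)
    (lam : L →* End k W) (hcomm : ∀ s l, Commute (θ s) (lam l))
    (Λ : MonoidAlgebra k L →+* End k W) (hΛ : ∀ l c v, Λ (single l c) v = c • lam l v)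
    (Γ : Set (End k W)) (hN : Noeth Γ ⊤)
    (hsub : ∀ N, Inv Γ N → Inv (Set.range θ ∪ Set.range lam) N)
    (hcΓ : ∀ f ∈ Γ, ∀ s, Commute f (θ s))
    (hF : ∀ (D : Submonoid S) (Z : Submodule k W), Inv Γ Z → ∀ S0 : Set W, S0.Finite →
      GT (θ : S →* End k W) D ⊤ (gen (Set.range θ ∪ Set.range lam) S0 ⊔ Z))
    (Y : End k W) (hYi : Function.Injective Y) (hYs : Function.Surjective Y) (τ : RingAut S)
    (hY : ∀ s v, Y (θ s v) = θ (τ s) (Y v)) (σ : MulAut L) (hσ : Hyp σ)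
    (hYl : ∀ l v, Y (lam l v) = lam (σ l) (Y v))
    (A₀ : Submodule k W) (hA0 : A₀ ≠ ⊥) (hA1 : Inv (Set.range lam) A₀)
    (hA2 : Noeth (Set.range lam) A₀) (hA3 : ∀ v ∈ A₀, Y v ∈ A₀) :
    (∃ u ∈ A₀, ∃ Z, Inv Γ Z ∧ (∀ f, Λ f u ∈ Z → f = 0) ∧
      ∃ N : ℕ, 0 < N ∧ ∀ (q : Sˣ) v, θ ((q : S) ^ N - 1) v ∈ Z) ∨
    (∃ j : ℕ, 0 < j ∧ ∃ a ∈ A₀, a ≠ 0 ∧ ∃ g : MonoidAlgebra k L, g ≠ 0 ∧ ∀ n : ℕ, ∃ e : ℕ,
      ∃ a' ∈ A₀, Λ (domCongr k k (σ ^ (j * n)) (g ^ e)) a = (Y ^ (j * n)) a') := by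
  have : IsNoetherianRing S := Algebra.FiniteType.isNoetherianRing k S
  obtain ⟨j, W', W'', P, hj, h1, h2, h3, h4, h5, h6, h7, h8⟩ := prime_lemma θ Γ hN
    (fun N hN s => hsub N hN _ (Or.inl ⟨s, rfl⟩)) hcΓ Y hYi hYs τ hY A₀ hA0
  have hYlpow : ∀ l v, (Y ^ j) (lam l v) = lam ((σ ^ j) l) ((Y ^ j) v) := by
    intro l v
    clear hj h2 h5
    induction j with
    | zero => rfl
    | succ n ih => rw [pow_succ', pow_succ', Module.End.mul_apply, Module.End.mul_apply, ih, hYl]; rfl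
  refine (inner2 θ hθk lam hcomm Λ hΛ Γ hN hsub hcΓ hF (Y ^ j)
    (by rw [Module.End.coe_pow]; exact hYi.iterate j)
    (by rw [Module.End.coe_pow]; exact hYs.iterate j) (τ ^ j) (semi_pow hY j) (σ ^ j)
    (hσ.pow hj) hYlpow A₀ hA1 hA2 (Module.End.pow_apply_mem_of_forall_mem j hA3) W' W'' P h1 h2 h3
    h5 h6 h7 h8).imp_right fun h => ⟨j, hj, ?_⟩
  simpa only [pow_mul] using h

end Pool.Agent.P.MP_e2f787_al
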