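import Pool.Agent.P.MP_e2f787_al.CommAlg

/-! A finite index subgroup of `L` acts unipotently. -/

namespace Pool.Agent.P.MP_e2f787_al

open Module TensorProduct

variable {L : Type*} [CommGroup L]

theorem exists_joint {K V : Type*} [Field K] [IsAlgClosed K] [AddCommGroup V] [Module K V]
    [FiniteDimensional K V] (a : L →* End K V) (U : Submodule K V) (hU : U ≠ ⊥)
    (hinv : ∀ l, ∀ v ∈ U, a l v ∈ U) :
    ∃ v ∈ U, v ≠ 0 ∧ ∃ χ : L →* K, ∀ l, a l v = χ l • v := by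
  obtain ⟨U', ⟨h1, h2, h3⟩, hmin⟩ := IsArtinian.set_has_minimal
    {U' : Submodule K V | U' ≠ ⊥ ∧ U' ≤ U ∧ ∀ l, ∀ v ∈ U', a l v ∈ U'} ⟨U, hU, le_rfl, hinv⟩
  have key : ∀ l, ∃ c : K, ∀ v ∈ U', a l v = c • v := by
    intro l
    have : Nontrivial U' := Submodule.nontrivial_iff_ne_bot.mpr h1
    obtain ⟨c, hc⟩ := Module.End.exists_eigenvalue ((a l).restrict (h3 l))
    obtain ⟨w, hw⟩ := hc.exists_hasEigenvector
    have hw1 : a l w = c • (w : V) := congrArg Subtype.val hw.apply_eq_smul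
    have hle : U' ≤ U' ⊓ (a l).eigenspace c := by
      by_contra hcon
      refine hmin (U' ⊓ (a l).eigenspace c) ⟨fun h => hw.2 ?_, inf_le_left.trans h2, ?_⟩
        (lt_of_le_not_ge inf_le_left hcon)
      · have : (w : V) ∈ U' ⊓ (a l).eigenspace c := ⟨w.2, Module.End.mem_eigenspace_iff.mpr hw1⟩
        rw [h] at this
        exact Subtype.ext this
      · intro l' v hv
        refine ⟨h3 l' v hv.1, Module.End.mem_eigenspace_iff.mpr ?_⟩
        rw [← Module.End.mul_apply, ← map_mul, mul_comm, map_mul, Module.End.mul_apply,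
          Module.End.mem_eigenspace_iff.mp hv.2, map_smul]
    exact ⟨c, fun v hv => Module.End.mem_eigenspace_iff.mp (hle hv).2⟩
  choose c hc using key
  obtain ⟨v, hv, hv0⟩ := Submodule.exists_mem_ne_zero_of_ne_bot h1
  refine ⟨v, h2 hv, hv0, ⟨⟨c, ?_⟩, fun x y => ?_⟩, fun l => hc l v hv⟩
  · refine smul_left_injective K hv0 ?_
    simp only [← hc 1 v hv, map_one, Module.End.one_apply, one_smul]
  · refine smul_left_injective K hv0 ?_
    simp only [← hc (x * y) v hv, map_mul, Module.End.mul_apply, hc y v hv, map_smul, hc x v hv,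
      smul_smul, mul_comm]

theorem unip_field [Group.FG L] {σ : MulAut L} (hσ : Hyp σ)
    (hσ2 : ∀ z : ℤ, z ≠ 0 → ∃ l, (σ ^ z) l ≠ l)
    {K V : Type*} [Field K] [IsAlgClosed K] [AddCommGroup V] [Module K V]
    [FiniteDimensional K V] (a : L →* End K V) (b : End K V) (hb : Function.Injective b)
    (hab : ∀ l v, b (a l v) = a (σ l) (b v)) :
    ∃ N : ℕ, 0 < N ∧ ∀ l v, ∃ n : ℕ, ((a (l ^ N) - 1) ^ n) v = 0 := by
  classical
  let 𝒳 : Set (L →* K) := {χ | ∃ v, v ≠ 0 ∧ ∀ l, a l v = χ l • v}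
  have hfin : 𝒳.Finite := by
    obtain ⟨X, hX⟩ := (Group.fg_iff_monoid_fg.mp (inferInstance : Group.FG L)).fg_top
    refine Set.Finite.of_finite_image (f := fun (χ : L →* K) (x : X) => χ x) ?_ ?_
    · refine (Set.Finite.pi' fun x : X => (a x).finite_hasEigenvalue).subset ?_
      rintro _ ⟨χ, ⟨v, hv, h⟩, rfl⟩ x
      exact Module.End.hasEigenvalue_of_hasEigenvector
        ⟨Module.End.mem_eigenspace_iff.mpr (h x), hv⟩
    · intro χ _ χ' _ h
      exact MonoidHom.eq_of_eqOn_denseM hX fun x hx => congrFun h ⟨x, hx⟩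
  have hstep : ∀ χ ∈ 𝒳, ∀ n : ℕ, χ.comp ((σ ^ (-(n : ℤ)) : MulAut L) : L →* L) ∈ 𝒳 := by
    intro χ hχ n
    induction n with
    | zero => exact hχ
    | succ n ih =>
      obtain ⟨v, hv, h⟩ := ih
      refine ⟨b v, fun h' => hv ((map_eq_zero_iff _ hb).mp h'), fun l => ?_⟩
      obtain ⟨l, rfl⟩ := σ.surjective l
      rw [← hab, h, map_smul]
      congr 1
      have : σ ^ (-(n : ℤ)) = σ ^ (-((n + 1 : ℕ) : ℤ)) * σ := by
        rw [← zpow_add_one]; congr 1; push_cast; ring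
      rw [this]; rfl
  have hN : ∀ χ ∈ 𝒳, ∃ N : ℕ, 0 < N ∧ ∀ l, χ (l ^ N) = 1 := by
    intro χ hχ
    obtain ⟨n, m, hnm, h⟩ : ∃ n m : ℕ, n ≠ m ∧
        χ.comp ((σ ^ (-(n : ℤ)) : MulAut L) : L →* L) =
          χ.comp ((σ ^ (-(m : ℤ)) : MulAut L) : L →* L) := by
      by_contra hcon
      push Not at hcon
      exact Set.infinite_of_injective_forall_mem
        (fun n m h => by by_contra h'; exact hcon n m h' h) (hstep χ hχ) hfin
    have h1 : ∀ l, χ ((σ ^ ((n : ℤ) - m)) l) = χ l := by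
      intro l
      have h2 : χ ((σ ^ (-(n : ℤ))) ((σ ^ (n : ℤ)) l)) = χ ((σ ^ (-(m : ℤ))) ((σ ^ (n : ℤ)) l)) :=
        DFunLike.congr_fun h _
      rw [← MulAut.mul_apply, ← MulAut.mul_apply, ← zpow_add, ← zpow_add, neg_add_cancel,
        neg_add_eq_sub] at h2
      exact h2.symm
    obtain ⟨l0, hl0⟩ := hσ2 ((n : ℤ) - m) (by omega)
    obtain ⟨N, hN, hK⟩ := hσ ((σ ^ ((n : ℤ) - m)) l0 / l0) (fun h => hl0 (div_eq_one.mp h)) 0 1
      zero_ne_one
    have h3 : ∀ l, (σ ^ ((n : ℤ) - m)) l / l ∈ χ.ker := fun l => by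
      rw [MonoidHom.mem_ker]
      refine mul_right_cancel₀ ((Group.isUnit l).map χ).ne_zero ?_
      rw [← map_mul, div_mul_cancel, h1, one_mul]
    refine ⟨N, hN, hK χ.ker (h3 l0) ?_⟩
    have h4 := h3 (σ l0)
    rw [zpow_one, map_div]
    rwa [← MulAut.mul_apply, ← zpow_add_one, add_comm, zpow_one_add, MulAut.mul_apply] at h4
  choose! N hN hN' using hN
  refine ⟨∏ χ ∈ hfin.toFinset, N χ, Finset.prod_pos fun χ hχ => hN χ (hfin.mem_toFinset.mp hχ),
    fun l v => ?_⟩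
  set f := a (l ^ ∏ χ ∈ hfin.toFinset, N χ) with hf
  have hv : v ∈ f.maxGenEigenspace 1 := by
    suffices h : ⊤ ≤ f.maxGenEigenspace 1 from h Submodule.mem_top
    rw [← f.iSup_maxGenEigenspace_eq_top]
    refine iSup_le fun μ => ?_
    by_cases hμ : μ = 1
    · rw [hμ]
    by_cases h0 : f.maxGenEigenspace μ = ⊥
    · rw [h0]; exact bot_le
    exfalso
    have h1 : f.HasEigenvalue μ := Module.End.HasUnifEigenvalue.lt (m := 1) (by simp) h0
    obtain ⟨w, hw, hw0, χ, hχ⟩ := exists_joint a (f.eigenspace μ) h1 (fun l' w hw => by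
      rw [Module.End.mem_eigenspace_iff] at hw ⊢
      rw [← Module.End.mul_apply, hf, ← map_mul, mul_comm, map_mul, Module.End.mul_apply, ← hf, hw,
        map_smul])
    have hχ' : χ ∈ 𝒳 := ⟨w, hw0, hχ⟩
    rw [Module.End.mem_eigenspace_iff, hf, hχ,
      ← Finset.prod_erase_mul _ _ (hfin.mem_toFinset.mpr hχ'), pow_mul, hN' χ hχ'] at hw
    exact hμ (smul_left_injective K hw0 hw).symm
  rw [Module.End.mem_maxGenEigenspace] at hv
  simpa using hv

theorem unip [Group.FG L] {σ : MulAut L} (hσ : Hyp σ)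
    (hσ2 : ∀ z : ℤ, z ≠ 0 → ∃ l, (σ ^ z) l ≠ l)
    {V : Type*} [AddCommGroup V] [Module.Finite ℤ V] [Module.IsTorsionFree ℤ V]
    (a : L →* End ℤ V) (b : End ℤ V) (hb : Function.Bijective b)
    (hab : ∀ l v, b (a l v) = a (σ l) (b v)) :
    ∃ N : ℕ, 0 < N ∧ ∀ l v, ∃ n : ℕ, ((a (l ^ N) - 1) ^ n) v = 0 := by
  let φ : End ℤ V →+* End ℂ (ℂ ⊗[ℤ] V) := (Module.End.baseChangeHom ℤ ℂ V).toRingHom
  have hφ : ∀ f v, φ f (1 ⊗ₜ v) = 1 ⊗ₜ f v := fun f v =>
    LinearMap.baseChange_tmul f 1 v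
  obtain ⟨N, hN, h⟩ := unip_field hσ hσ2 ((φ : End ℤ V →* End ℂ (ℂ ⊗[ℤ] V)).comp a) (φ b)
    (((Module.End.isUnit_iff _).mp (((Module.End.isUnit_iff b).mpr hb).map φ)).1) (fun l v => by
      have : b * a l = a (σ l) * b := LinearMap.ext (hab l)
      change (φ b * φ (a l)) v = (φ (a (σ l)) * φ b) v
      rw [← map_mul, this, map_mul])
  refine ⟨N, hN, fun l v => ?_⟩
  obtain ⟨n, hn⟩ := h l (1 ⊗ₜ v)
  refine ⟨n, ?_⟩
  have h1 : φ ((a (l ^ N) - 1) ^ n) (1 ⊗ₜ v) = 0 := by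
    rw [map_pow, map_sub, map_one]; exact hn
  rw [hφ] at h1
  have hinj := Module.Flat.rTensor_preserves_injective_linearMap (M := V) (Algebra.linearMap ℤ ℂ)
    (algebraMap ℤ ℂ).injective_int
  have h2 : (1 : ℤ) ⊗ₜ[ℤ] ((a (l ^ N) - 1) ^ n) v = 0 := by
    refine hinj ?_
    simpa using h1
  simpa using congrArg (TensorProduct.lid ℤ V) h2

end Pool.Agent.P.MP_e2f787_al
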