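import Pool.Agent.P.MP_e2f787_al.Grp
import Pool.Agent.P.MP_e2f787_al.Unip

/-! The module theorem in the critical case. -/

namespace Pool.Agent.P.MP_e2f787_al

open Module MonoidAlgebra

theorem subgroup_wf (Q : Type*) [CommGroup Q] [Group.FG Q] : WellFoundedGT (Subgroup Q) := by
  have : Module.Finite ℤ (Additive Q) := Module.Finite.iff_addGroup_fg.mpr inferInstance
  exact ((Subgroup.toAddSubgroup (G := Q)).trans
    AddSubgroup.toIntSubmodule).toOrderEmbedding.wellFoundedGT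

theorem subgroup_fg {Q : Type*} [CommGroup Q] [Group.FG Q] (C : Subgroup Q) : C.FG := by
  have : Module.Finite ℤ (Additive Q) := Module.Finite.iff_addGroup_fg.mpr inferInstance
  rw [Subgroup.fg_iff_add_fg, ← AddSubgroup.toIntSubmodule_toAddSubgroup C.toAddSubgroup,
    ← Submodule.fg_iff_addSubgroup_fg]
  exact IsNoetherian.noetherian _

/-- Automorphisms of a commutative group as linear maps. -/
def autEnd (Q : Type*) [CommGroup Q] : MulAut Q →* End ℤ (Additive Q) where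
  toFun f := (MulEquiv.toAdditive f).toAddMonoidHom.toIntLinearMap
  map_one' := rfl
  map_mul' _ _ := rfl

theorem exists_unip {L : Type*} [CommGroup L] [Group.FG L] {σ : MulAut L} (hσ : Hyp σ)
    (hσ2 : ∀ z : ℤ, z ≠ 0 → ∃ l, (σ ^ z) l ≠ l) {Q : Type*} [CommGroup Q] [Group.FG Q]
    [IsMulTorsionFree Q] (a : L →* MulAut Q) (b : MulAut Q)
    (hab : ∀ l q, b (a l q) = a (σ l) (b q)) :
    ∃ N : ℕ, 0 < N ∧ ∀ C : Subgroup Q, C ≠ ⊤ → (∀ l, ∀ q ∈ C, a (l ^ N) q ∈ C) →
      ∃ q, q ∉ C ∧ ∀ l, a (l ^ N) q / q ∈ C := by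
  have : Module.Finite ℤ (Additive Q) := Module.Finite.iff_addGroup_fg.mpr inferInstance
  obtain ⟨N, hN, h⟩ := unip hσ hσ2 ((autEnd Q).comp a) (autEnd Q b) b.bijective hab
  refine ⟨N, hN, fun C hC hinv => ?_⟩
  exact exists_fixed (((autEnd Q).comp a).comp (powMonoidHom N)) h C.toAddSubgroup.toIntSubmodule
    (fun h' => hC (eq_top_iff.mpr fun q _ =>
      (show Additive.ofMul q ∈ C.toAddSubgroup.toIntSubmodule from h' ▸ Submodule.mem_top))) hinv

theorem M0 {k : Type*} [Field k] [Finite k] {W : Type*} [AddCommGroup W] [Module k W]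
    {L : Type*} [CommGroup L] [Group.FG L] [UniqueProds L] [IsMulTorsionFree L] [Infinite L]
    {σ : MulAut L} (hσ : Hyp σ) (hσ2 : ∀ z : ℤ, z ≠ 0 → ∃ l, (σ ^ z) l ≠ l)
    {Zg : Type*} [CommGroup Zg] [IsMulTorsionFree Zg]
    [UniqueProds Zg] (χ : L →* Zg) (l0 : L) (hl0 : χ l0 ≠ 1) (x : L) (hx : χ x = 1)
    {G : Type*} [Group G] (ρ : G →* End k W) {Q : Type*} [CommGroup Q] [Group.FG Q]
    [IsMulTorsionFree Q] (e : Q →* G) (he : Function.Injective e) (lam : L →* G) (y : G)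
    (a : L →* MulAut Q) (b : MulAut Q)
    (h1 : ∀ l q, lam l * e q = e (a l q) * lam l) (h2 : ∀ q, y * e q = e (b q) * y)
    (h3 : ∀ l, y * lam l = lam (σ l) * y) (hNo : Noeth (Set.range (ρ.comp e)) ⊤)
    (𝔞 : Ideal (MonoidAlgebra k L)) (h𝔞 : 𝔞 ≠ ⊥) (ι : 𝔞 →ₗ[k] W) (hι : Function.Injective ι)
    (hιl : ∀ l (f : 𝔞), ι ((single l 1 : MonoidAlgebra k L) • f) = ρ (lam l) (ι f))
    (hιy : ∀ f : 𝔞, ∃ f' : 𝔞, (f' : MonoidAlgebra k L) = (single x 1 - 1) * domCongr k k σ f ∧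
      ι f' = ρ y (ι f))
    (crit : ∀ C : Subgroup Q, (∀ l, ∀ q ∈ C, a l q ∈ C) → (∀ q, b q ∈ C ↔ q ∈ C) →
      (∀ v ∈ Submodule.span k {w | ∃ q ∈ C, ∃ v, w = ρ (e q) v - v},
        v ∈ LinearMap.range ι → v = 0) → C = ⊥) : False := by
  classical
  have hab : ∀ l q, b (a l q) = a (σ l) (b q) := by
    intro l q
    refine he (mul_right_cancel (b := y * lam l) ?_)
    rw [← mul_assoc, ← h2, mul_assoc, ← h1, ← mul_assoc, h3, mul_assoc, h2, ← mul_assoc, h1,
      mul_assoc]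
  obtain ⟨N, hN, hfix⟩ := exists_unip hσ hσ2 a b hab
  let Q₁ : Subgroup Q :=
    { carrier := {q | ∀ l, a (l ^ N) q = q}
      mul_mem' := fun {p q} hp hq l => by rw [map_mul, hp l, hq l]
      one_mem' := fun l => map_one _
      inv_mem' := fun {p} hp l => by rw [map_inv, hp l] }
  have hQa : ∀ l, ∀ q ∈ Q₁, a l q ∈ Q₁ := fun l q hq l' => by
    rw [← MulAut.mul_apply, ← map_mul, mul_comm, map_mul, MulAut.mul_apply, hq l']
  have hQb : ∀ q, b q ∈ Q₁ ↔ q ∈ Q₁ := by
    intro q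
    refine ⟨fun h l => b.injective ?_, fun h l => ?_⟩
    · rw [hab, map_pow, h]
    · obtain ⟨l, rfl⟩ := σ.surjective l
      rw [← map_pow, ← hab, h]
  let b₁ : MulAut Q₁ :=
    { toFun := fun q => ⟨b q, (hQb q).mpr q.2⟩
      invFun := fun q => ⟨b.symm q, (hQb _).mp (by simp)⟩
      left_inv := fun q => by simp
      right_inv := fun q => by simp
      map_mul' := fun p q => by ext; simp }
  have : Group.FG Q₁ := (Group.fg_iff_subgroup_fg Q₁).mpr (subgroup_fg Q₁)
  let e₁ : Q₁ →* End k W := (ρ.comp e).comp Q₁.subtype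
  let θ : MonoidAlgebra k Q₁ →+* End k W := (lift k (End k W) Q₁ e₁).toRingHom
  have hθ : ∀ q c v, θ (single q c) v = c • ρ (e q) v := fun q c v => by simp [θ, e₁]
  let lamN : L →* G := lam.comp (powMonoidHom N)
  let lam₁ : L →* End k W := ρ.comp lamN
  have hθc : ∀ f : End k W, (∀ q ∈ Q₁, Commute f (ρ (e q))) → ∀ s, Commute f (θ s) := by
    intro f hf s
    induction s using MonoidAlgebra.induction_linear with
    | zero => simp
    | add a b ha hb => rw [map_add]; exact ha.add_right hb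
    | single q c =>
      have : θ (single q c) = c • ρ (e q) := LinearMap.ext (hθ q c)
      rw [this]; exact (hf q q.2).smul_right c
  let Γ : Subgroup Q → Subgroup G := fun C => C.map e ⊔ lamN.range
  have hΓc : ∀ C, ∀ g ∈ Γ C, ∀ s, Commute (ρ g) (θ s) := by
    intro C g hg
    refine hθc _ fun q hq => Commute.map ?_ ρ
    refine (show Γ C ≤ Subgroup.centralizer {e q} from sup_le ?_ ?_) hg _ rfl |>.symm
    · rintro _ ⟨p, -, rfl⟩ _ rfl
      exact ((Commute.all q p).map e).eq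
    · rintro _ ⟨l, rfl⟩ _ rfl
      change e q * lam (l ^ N) = lam (l ^ N) * e q
      rw [h1, hq l]
  have hθinv : ∀ M : Submodule k W, Inv (ρ '' (Q₁.map e)) M ↔ Inv (Set.range θ) M := by
    intro M
    refine ⟨fun h => ?_, fun h => ?_⟩
    · rintro _ ⟨s, rfl⟩ v hv
      refine theta_sum_mem θ s v M fun q => ?_
      rw [hθ]; exact M.smul_mem _ (h _ ⟨_, ⟨q, q.2, rfl⟩, rfl⟩ v hv)
    · rintro _ ⟨_, ⟨q, hq, rfl⟩, rfl⟩ v hv
      have := h _ ⟨single ⟨q, hq⟩ 1, rfl⟩ v hv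
      rwa [hθ, one_smul] at this
  have hlaminv : ρ '' lamN.range = Set.range lam₁ := by
    rw [MonoidHom.coe_range, ← Set.range_comp]; rfl
  have hΓ₀ : ∀ M : Submodule k W, Inv (Set.range θ ∪ Set.range lam₁) M ↔ Inv (ρ '' Γ Q₁) M := by
    intro M
    rw [inv_sup_iff, hθinv, hlaminv]
    exact ⟨fun h => ⟨h.mono Set.subset_union_left, h.mono Set.subset_union_right⟩,
      fun h f hf => hf.elim (h.1 f) (h.2 f)⟩
  have hΓmono : ∀ C, Γ C ≤ Γ ⊤ := fun C => sup_le_sup_right (Subgroup.map_mono le_top) _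
  have hsub : ∀ M, Inv (ρ '' Γ ⊤) M → Inv (Set.range θ ∪ Set.range lam₁) M := fun M hM =>
    (hΓ₀ M).mpr (hM.mono (Set.image_mono (hΓmono Q₁)))
  have hNΓ : Noeth (ρ '' Γ ⊤) ⊤ := hNo.of_inv fun M hM => hM.mono (by
    rintro _ ⟨q, rfl⟩
    exact ⟨e q, Subgroup.mem_sup_left ⟨q, trivial, rfl⟩, rfl⟩)
  have hcomm : ∀ s l, Commute (θ s) (lam₁ l) := fun s l =>
    (hΓc ⊤ _ (Subgroup.mem_sup_right ⟨l, rfl⟩) s).symm
  have hloc : LocNoeth (Set.range θ ∪ Set.range lam₁) := by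
    have hc : ∀ q l, Commute (e₁ q) (lam₁ l) := fun q l => by
      have := hcomm (single q 1) l
      rwa [show θ (single q 1) = e₁ q from LinearMap.ext fun v => by rw [hθ, one_smul]; rfl] at this
    refine (locNoeth_range (e₁.noncommCoprod lam₁ hc) fun p q => (Commute.all p q).map _).congr
      fun M => ⟨fun h => ?_, fun h => ?_⟩
    · rw [hΓ₀, inv_sup_iff, hlaminv]
      constructor
      · rintro _ ⟨_, ⟨q, hq, rfl⟩, rfl⟩ v hv
        simpa [e₁] using h _ ⟨(⟨q, hq⟩, 1), rfl⟩ v hv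
      · rintro _ ⟨l, rfl⟩ v hv
        simpa using h _ ⟨(1, l), rfl⟩ v hv
    · rw [hΓ₀, inv_sup_iff, hlaminv] at h
      rintro _ ⟨⟨q, l⟩, rfl⟩ v hv
      exact h.1 _ ⟨_, ⟨q, q.2, rfl⟩, rfl⟩ _ (h.2 _ ⟨l, rfl⟩ v hv)
  have hF : ∀ (D : Submonoid (MonoidAlgebra k Q₁)) (Z : Submodule k W), Inv (ρ '' Γ ⊤) Z →
      ∀ S0 : Set W, S0.Finite → GT (θ : MonoidAlgebra k Q₁ →* End k W) D ⊤
        (gen (Set.range θ ∪ Set.range lam₁) S0 ⊔ Z) := by
    intro D Z hZ S0 hS0
    have hD : ∀ M, Inv (Set.range θ ∪ Set.range lam₁) M → ∀ d ∈ D, ∀ v ∈ M,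
        (θ : MonoidAlgebra k Q₁ →* End k W) d v ∈ M := fun M hM d _ => hM _ (Or.inl ⟨d, rfl⟩)
    have := subgroup_wf Q
    obtain ⟨C, ⟨hC1, hC2⟩, hmax⟩ := wellFounded_gt.has_min
      {C : Subgroup Q | (∀ l, ∀ q ∈ C, a (l ^ N) q ∈ C) ∧
        Good (θ : MonoidAlgebra k Q₁ →* End k W) D (Set.range θ ∪ Set.range lam₁) Z (ρ '' Γ C)}
      ⟨Q₁, fun l => hQa _, (Good.base hloc (by
        rintro _ (⟨s, rfl⟩ | ⟨l, rfl⟩) d _
        · exact (Commute.all s d).map θ
        · exact (hcomm d l).symm) (hsub Z hZ)).congr hΓ₀ (by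
          rintro _ ⟨g, hg, rfl⟩ d _; exact hΓc _ g hg d)⟩
    have hCtop : C = ⊤ := by
      by_contra hne
      obtain ⟨q, hq, hq'⟩ := hfix C hne hC1
      have hnorm : ∀ q, (∀ l, a (l ^ N) q / q ∈ C) → ∀ g ∈ Γ C, e q * g * (e q)⁻¹ ∈ Γ C := by
        intro q hq
        refine (show Γ C ≤ (Γ C).comap (MulAut.conj (e q)).toMonoidHom from sup_le ?_ ?_)
        · rintro _ ⟨p, hp, rfl⟩
          refine Subgroup.mem_sup_left ⟨p, hp, ?_⟩
          change e p = e q * e p * (e q)⁻¹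
          rw [← map_inv, ← map_mul, ← map_mul, mul_inv_cancel_comm]
        · rintro _ ⟨l, rfl⟩
          change e q * lam (l ^ N) * (e q)⁻¹ ∈ Γ C
          rw [← map_inv, mul_assoc, h1, ← mul_assoc, ← map_mul, map_inv, ← div_eq_mul_inv,
            ← inv_div]
          exact Subgroup.mul_mem _ (Subgroup.mem_sup_left ⟨_, C.inv_mem (hq l), rfl⟩)
            (Subgroup.mem_sup_right ⟨l, rfl⟩)
      have hΓeq : Γ (C ⊔ Subgroup.zpowers q) = Γ C ⊔ Subgroup.zpowers (e q) := by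
        simp only [Γ, Subgroup.map_sup, MonoidHom.map_zpowers]
        ac_rfl
      refine hmax (C ⊔ Subgroup.zpowers q) ⟨fun l => ?_, ?_⟩ (left_lt_sup.mpr fun h =>
        hq (h (Subgroup.mem_zpowers q)))
      · refine (show C ⊔ Subgroup.zpowers q ≤ (C ⊔ Subgroup.zpowers q).comap
          (a (l ^ N)).toMonoidHom from sup_le (fun p hp => Subgroup.mem_sup_left (hC1 l p hp))
            (Subgroup.zpowers_le.mpr ?_))
        change a (l ^ N) q ∈ C ⊔ Subgroup.zpowers q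
        rw [← div_mul_cancel (a (l ^ N) q) q]
        exact Subgroup.mul_mem_sup (hq' l) (Subgroup.mem_zpowers q)
      · rw [hΓeq]
        refine good_step_group ρ hD hC2 (hnorm q hq') ?_
          ((inv_iff_le_stab ρ _ _).mp hZ (Subgroup.mem_sup_left ⟨q, trivial, rfl⟩))
          fun g hg d _ => hΓc _ g (hΓeq ▸ hg) d
        have := hnorm q⁻¹ fun l => by
          rw [map_inv, inv_div_inv, ← inv_div]; exact C.inv_mem (hq' l)
        simpa using this
    rw [hCtop] at hC2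
    exact hC2.gt_top hD hNΓ hS0
  let Λ : MonoidAlgebra k L →+* End k W := (lift k (End k W) L (ρ.comp lam)).toRingHom
  have hΛι : ∀ h (f : 𝔞), Λ h (ι f) = ι (h • f) := by
    intro h f
    induction h using MonoidAlgebra.induction_on with
    | of l => rw [of_apply, hιl]; simp [Λ]
    | add a b ha hb => rw [map_add, LinearMap.add_apply, ha, hb, add_smul, map_add]
    | smul r a ha =>
      rw [smul_assoc, map_smul ι, ← ha]
      exact LinearMap.congr_fun (map_smul (lift k (End k W) L (ρ.comp lam)) r a) _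
  have hΛinv : ∀ M, Inv (Set.range (ρ.comp lam)) M → ∀ d, ∀ v ∈ M, Λ d v ∈ M :=
    fun M hM d v hv => theta_sum_mem Λ d v M fun l => by
      simpa [Λ] using M.smul_mem _ (hM _ ⟨l, rfl⟩ v hv)
  let φ := mapDomainRingHom k (powMonoidHom N : L →* L)
  have hA2 : Noeth (Set.range lam₁) (LinearMap.range ι) := by
    have : IsNoetherianRing (MonoidAlgebra k L) := Algebra.FiniteType.isNoetherianRing k _
    obtain ⟨T, hT⟩ := (IsNoetherian.noetherian (⊤ : Submodule (MonoidAlgebra k L) 𝔞))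
    refine (noeth_finiteIndex (ρ.comp lam) hN.ne' (T.finite_toSet.image ι)).mono ?_
    rintro _ ⟨f, rfl⟩
    have hf : f ∈ Submodule.span (MonoidAlgebra k L) (T : Set 𝔞) := hT ▸ Submodule.mem_top
    induction hf using Submodule.span_induction with
    | mem x hx => exact subset_gen ⟨x, hx, rfl⟩
    | zero => simp
    | add x y _ _ hx hy => rw [map_add]; exact Submodule.add_mem _ hx hy
    | smul h x _ hx => rw [← hΛι]; exact hΛinv _ inv_gen _ _ hx
  obtain ⟨a1, ha1, ha1'⟩ := Submodule.exists_mem_ne_zero_of_ne_bot h𝔞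
  rcases inner θ (fun c v => by
      rw [coe_algebraMap, Function.comp_apply, hθ]; simp) lam₁ hcomm (Λ.comp φ)
    (fun l c v => by simp [Λ, φ, lam₁, lamN]) (ρ '' Γ ⊤) hNΓ hsub
    (by rintro _ ⟨g, hg, rfl⟩; exact hΓc _ g hg) hF (ρ y) (rho_bij ρ y).1 (rho_bij ρ y).2
    (mapDomainRingEquiv k b₁) (fun s v => by
      induction s using MonoidAlgebra.induction_linear with
      | zero => simp
      | add a b ha hb => simp only [map_add, LinearMap.add_apply, ha, hb]
      | single q c =>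
        rw [mapDomainRingEquiv_single, hθ, hθ, map_smul, ← rho_mul, h2, rho_mul]; rfl)
    σ hσ (fun l v => by
      change ρ y (ρ (lam (l ^ N)) v) = ρ (lam (σ l ^ N)) (ρ y v)
      rw [← rho_mul, h3, rho_mul, map_pow]) (LinearMap.range ι)
    (fun h => ha1' (congrArg Subtype.val (hι (a₁ := ⟨a1, ha1⟩) (a₂ := 0) (by
      rw [map_zero]; exact (Submodule.mem_bot k).mp (h ▸ LinearMap.mem_range_self ι _)))))
    (by rintro _ ⟨l, rfl⟩ _ ⟨f, rfl⟩; exact ⟨_, hιl (l ^ N) f⟩) hA2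
    (by rintro _ ⟨f, rfl⟩; obtain ⟨f', -, h⟩ := hιy f; exact ⟨f', h⟩) with hB | hT
  · obtain ⟨_, ⟨a0, rfl⟩, Z, hZ, hZu, N', hN', hZN⟩ := hB
    have hC := crit (Q₁.map (powMonoidHom N')) (by
      rintro l _ ⟨q, hq, rfl⟩
      exact ⟨a l q, hQa l q hq, by simp⟩) (fun q => ⟨by
        rintro ⟨p, hp, hp'⟩
        obtain ⟨p, rfl⟩ := b.surjective p
        exact ⟨p, (hQb p).mp hp, b.injective (by simpa using hp')⟩, by
        rintro ⟨p, hp, rfl⟩
        exact ⟨b p, (hQb p).mpr hp, by simp⟩⟩) (by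
      rintro _ hv ⟨f, rfl⟩
      by_contra hf0
      have hf : (f : MonoidAlgebra k L) ≠ 0 := fun h => hf0 (by
        rw [show f = 0 from Subtype.ext h, map_zero])
      obtain ⟨f1, hf1, h, hh⟩ := exists_norm hN.ne' hf
      set Z1 := Submodule.span k {w | ∃ q ∈ Q₁.map (powMonoidHom N'), ∃ v, w = ρ (e q) v - v}
      have hZ1 : Inv (Set.range (ρ.comp lam)) Z1 := by
        rintro _ ⟨l, rfl⟩
        refine (show Z1 ≤ Z1.comap (ρ (lam l)) from Submodule.span_le.mpr ?_)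
        rintro _ ⟨_, ⟨q, hq, rfl⟩, v, rfl⟩
        refine Submodule.subset_span ⟨_, ⟨a l q, hQa l q hq, rfl⟩, ρ (lam l) v, ?_⟩
        rw [map_sub, ← rho_mul, h1, rho_mul]; simp
      have hZ1Z : Z1 ≤ Z := by
        refine Submodule.span_le.mpr ?_
        rintro _ ⟨_, ⟨q, hq, rfl⟩, v, rfl⟩
        have := hZN (Units.map (of k Q₁) (toUnits ⟨q, hq⟩)) v
        rw [map_sub, map_one, LinearMap.sub_apply] at this
        simpa [single_pow, hθ] using this
      refine hf1 (hZu f1 (hZ1Z ?_))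
      have : (Λ.comp φ) f1 (ι a0) = Λ (h * a0) (ι f) := by
        rw [RingHom.comp_apply, hΛι, hΛι]
        congr 1
        ext1
        change φ f1 * a0 = h * a0 * f
        rw [hh]; ring
      rw [this]
      exact hΛinv _ hZ1 _ _ hv)
    have hQ₁ : Q₁ = ⊥ := by
      refine eq_bot_iff.mpr fun q hq => ?_
      have : q ^ N' ∈ (⊥ : Subgroup Q) := hC ▸ ⟨q, hq, rfl⟩
      exact (pow_eq_one_iff_left hN'.ne').mp this
    have hQ : (⊥ : Subgroup Q) = ⊤ := by
      by_contra hne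
      obtain ⟨q, hq, hq'⟩ := hfix ⊥ hne (fun l q hq => by
        rw [Subgroup.mem_bot.mp hq, map_one]; exact Subgroup.one_mem _)
      exact hq (hQ₁ ▸ fun l => div_eq_one.mp (hq' l))
    obtain ⟨S0, hS0, -, hS1⟩ := hNo.exists_gen inv_top le_rfl
    have hfin : Module.Finite k W := ⟨Submodule.fg_def.mpr ⟨S0, hS0, eq_top_iff.mpr (hS1.trans
      (gen_le (by
        rintro _ ⟨q, rfl⟩ v hv
        have : q = 1 := Subgroup.mem_bot.mp (hQ ▸ Subgroup.mem_top q)
        simpa [this] using hv) Submodule.subset_span))⟩⟩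
    have : Finite W := Module.finite_of_finite k
    have : Finite L := Finite.of_injective (fun l : L => ι ((single l 1 : MonoidAlgebra k L) •
      ⟨a1, ha1⟩)) fun l l' h => by
        have h4 : single l (1 : k) * a1 = single l' 1 * a1 := congrArg Subtype.val (hι h)
        exact of_injective (R := k) (mul_right_cancel₀ ha1' h4)
    exact not_finite L
  · obtain ⟨j, hj, _, ⟨a0, rfl⟩, ha0, g, hg, hT⟩ := hT
    have hYm : ∀ (m : ℕ) (f : 𝔞), ∃ f' : 𝔞, (f' : MonoidAlgebra k L) =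
        (∏ i ∈ Finset.range m, (single ((σ ^ i) x) 1 - 1)) * domCongr k k (σ ^ m) f ∧
        ι f' = (ρ y ^ m) (ι f) := by
      intro m
      induction m with
      | zero => exact fun f => ⟨f, by ext; simp; rfl, rfl⟩
      | succ m ih =>
        intro f
        obtain ⟨f1, h4, h5⟩ := hιy f
        obtain ⟨f2, h6, h7⟩ := ih f1
        refine ⟨f2, ?_, by rw [h7, h5, pow_succ]; rfl⟩
        rw [h6, h4, Finset.prod_range_succ, map_mul, map_sub, map_one, domCongr_single, mul_assoc]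
        congr 2
        ext; simp [pow_succ]; rfl
    refine nontame hσ χ l0 hl0 x hx hj (a := a0) (g := φ g)
      (fun h => ha0 (by rw [show a0 = 0 from Subtype.ext h, map_zero]))
      (fun h => hg (mapDomain_injective (pow_left_injective hN.ne') (h.trans (map_zero φ).symm)))
      fun n => ?_
    obtain ⟨e', _, ⟨a', rfl⟩, h4⟩ := hT n
    obtain ⟨f', h5, h6⟩ := hYm (j * n) a'
    rw [← h6, RingHom.comp_apply, hΛι] at h4
    refine ⟨e', domCongr k k (σ ^ (j * n)) a', ?_⟩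
    rw [← h5, ← hι h4, ← map_pow φ]
    change _ = φ _ * _
    congr 1
    generalize g ^ e' = t
    induction t using MonoidAlgebra.induction_linear with
    | zero => simp
    | add a b ha hb => simp only [map_add, ha, hb]
    | single l c => simp [φ]

end Pool.Agent.P.MP_e2f787_al
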