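import Pool.Agent.P.MP_e2f787_al.Main0

/-! The module theorem. -/

namespace Pool.Agent.P.MP_e2f787_al

open Module MonoidAlgebra

theorem exists_torsion_exp (Q : Type*) [CommGroup Q] [Group.FG Q] :
    ∃ m : ℕ, m ≠ 0 ∧ ∀ q : Q, IsOfFinOrder q → q ^ m = 1 := by
  have : Group.FG (CommGroup.torsion Q) := (Group.fg_iff_subgroup_fg _).mpr (subgroup_fg _)
  have : Finite (CommGroup.torsion Q) := CommGroup.finite_of_fg_isMulTorsion _ (by
    rintro ⟨q, hq⟩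
    exact ((CommGroup.torsion Q).subtype_injective.isOfFinOrder_iff).mp hq)
  refine ⟨Nat.card (CommGroup.torsion Q), Nat.card_pos.ne', fun q hq => ?_⟩
  exact congrArg Subtype.val (pow_card_eq_one' (x := (⟨q, hq⟩ : CommGroup.torsion Q)))

theorem M1 {k : Type*} [Field k] [Finite k] {W : Type*} [AddCommGroup W] [Module k W]
    {L : Type*} [CommGroup L] [Group.FG L] [UniqueProds L] [IsMulTorsionFree L] [Infinite L]
    {σ : MulAut L} (hσ : Hyp σ) (hσ2 : ∀ z : ℤ, z ≠ 0 → ∃ l, (σ ^ z) l ≠ l)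
    {Zg : Type*} [CommGroup Zg] [IsMulTorsionFree Zg]
    [UniqueProds Zg] (χ : L →* Zg) (l0 : L) (hl0 : χ l0 ≠ 1) (x : L) (hx : χ x = 1)
    {G : Type*} [Group G] (ρ : G →* End k W) {M : Type*} [Group M] [Group.FG M] (ε : M →* G)
    (hε : ∀ g m, ∃ m', g * ε m * g⁻¹ = ε m') (hεc : ∀ m m', Commute (ρ (ε m)) (ρ (ε m')))
    (lam : L →* G) (y : G)
    (h3 : ∀ l, y * lam l = lam (σ l) * y) (hNo : Noeth (Set.range (ρ.comp ε)) ⊤)
    (𝔞 : Ideal (MonoidAlgebra k L)) (h𝔞 : 𝔞 ≠ ⊥) (ι : 𝔞 →ₗ[k] W) (hι : Function.Injective ι)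
    (hιl : ∀ l (f : 𝔞), ι ((single l 1 : MonoidAlgebra k L) • f) = ρ (lam l) (ι f))
    (hιy : ∀ f : 𝔞, ∃ f' : 𝔞, (f' : MonoidAlgebra k L) = (single x 1 - 1) * domCongr k k σ f ∧
      ι f' = ρ y (ι f)) : False := by
  classical
  obtain ⟨W₀, ⟨hW1, hW2, hW3, hW4⟩, hmax⟩ := hNo
    {N | (∀ m, ε m ∈ stab ρ N) ∧ (∀ l, lam l ∈ stab ρ N) ∧ y ∈ stab ρ N ∧
      N ⊓ LinearMap.range ι = ⊥}
    ⟨⊥, fun m => ⟨by simp, by simp⟩, fun m => ⟨by simp, by simp⟩, ⟨by simp, by simp⟩, by simp⟩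
    (fun N hN => ⟨by rintro _ ⟨m, rfl⟩; exact (hN.1 m).1, le_top⟩)
  let G₀ := stab ρ W₀
  let ρ₀ : G₀ →* End k (W ⧸ W₀) :=
    Representation.quotient (ρ.comp G₀.subtype) W₀ fun g => g.2.1
  have hρ₀ : ∀ (g : G₀) v, ρ₀ g (W₀.mkQ v) = W₀.mkQ (ρ g v) := fun g v => rfl
  let π : G₀ →* (End k (W ⧸ W₀))ˣ := ρ₀.toHomUnits
  let ε₀ : M →* G₀ := ε.codRestrict G₀ hW1
  let Qb := (π.comp ε₀).range
  have hQbc : ∀ p ∈ Qb, ∀ q ∈ Qb, p * q = q * p := by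
    rintro _ ⟨m, rfl⟩ _ ⟨m', rfl⟩
    ext v
    change ρ₀ (ε₀ m) (ρ₀ (ε₀ m') (W₀.mkQ v)) = ρ₀ (ε₀ m') (ρ₀ (ε₀ m) (W₀.mkQ v))
    rw [hρ₀, hρ₀, hρ₀, hρ₀]
    exact congrArg W₀.mkQ (LinearMap.congr_fun (hεc m m').eq v)
  let _ : CommGroup Qb :=
    { (inferInstance : Group Qb) with mul_comm := fun p q => Subtype.ext (hQbc _ p.2 _ q.2) }
  obtain ⟨m, hm, hmt⟩ := exists_torsion_exp Qb
  let Q := (Qb.subtype.comp (powMonoidHom m)).range
  have hQle : Q ≤ Qb := by rintro _ ⟨q, rfl⟩; exact (q ^ m).2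
  let _ : CommGroup Q :=
    { (inferInstance : Group Q) with
      mul_comm := fun p q => Subtype.ext (hQbc _ (hQle p.2) _ (hQle q.2)) }
  have htf : IsMulTorsionFree Q := by
    refine ⟨fun n hn p q h => ?_⟩
    have h1 : (p / q) ^ n = 1 := by rw [div_pow]; exact div_eq_one.mpr h
    rw [← div_eq_one]
    obtain ⟨r, hr⟩ := (p / q).2
    refine Subtype.ext (hr.symm.trans (congrArg Subtype.val (hmt r ?_)))
    refine isOfFinOrder_iff_pow_eq_one.mpr ⟨m * n, Nat.pos_of_ne_zero (mul_ne_zero hm hn),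
      Subtype.ext ?_⟩
    rw [pow_mul]
    exact (congrArg (· ^ n) hr).trans (congrArg Subtype.val h1)
  have hconj : ∀ g : G₀, ∀ u ∈ Q, π g * u * (π g)⁻¹ ∈ Q := by
    rintro g _ ⟨⟨_, p, rfl⟩, rfl⟩
    obtain ⟨p', hp'⟩ := hε g p
    refine ⟨⟨_, p', rfl⟩, ?_⟩
    have : ε₀ p' = g * ε₀ p * g⁻¹ := Subtype.ext hp'.symm
    change π (ε₀ p') ^ m = π g * π (ε₀ p) ^ m * (π g)⁻¹
    rw [this, map_mul, map_mul, map_inv, conj_pow]
  have hnorm : ∀ g : G₀, π g ∈ Subgroup.normalizer (Q : Set (End k (W ⧸ W₀))ˣ) := fun g =>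
    Subgroup.mem_normalizer_iff.mpr fun u => ⟨hconj g u, fun h => by
      simpa [mul_assoc] using hconj g⁻¹ _ h⟩
  let A : G₀ →* MulAut Q := Q.normalizerMonoidHom.comp (π.codRestrict _ hnorm)
  have hA : ∀ g q, π g * Q.subtype q = Q.subtype (A g q) * π g := fun g q => by
    change _ = π g * q * (π g)⁻¹ * π g
    simp
  let lam₀ : L →* G₀ := lam.codRestrict G₀ hW2
  let y₀ : G₀ := ⟨y, hW3⟩
  have hNo' : Noeth (Set.range ((Units.coeHom _).comp Q.subtype)) (⊤ : Submodule k (W ⧸ W₀)) := by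
    obtain ⟨S0, hS0, -, hS1⟩ := hNo.exists_gen inv_top le_rfl
    have h := noeth_finiteIndex ((Units.coeHom _).comp Qb.subtype) hm (hS0.image W₀.mkQ)
    refine (h.mono fun v _ => ?_).of_inv fun N hN => hN.mono ?_
    · obtain ⟨v, rfl⟩ := W₀.mkQ_surjective v
      refine gen_le (N := Submodule.comap W₀.mkQ
        (gen (Set.range ((Units.coeHom _).comp Qb.subtype)) (W₀.mkQ '' S0))) ?_
        (fun w hw => subset_gen (S := W₀.mkQ '' S0) ⟨w, hw, rfl⟩) (hS1 trivial)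
      rintro _ ⟨p, rfl⟩ w hw
      exact inv_gen (Γ := Set.range ((Units.coeHom _).comp Qb.subtype)) _ ⟨⟨_, p, rfl⟩, rfl⟩ _ hw
    · rintro _ ⟨q, rfl⟩
      exact ⟨⟨_, q, rfl⟩, rfl⟩
  refine M0 hσ hσ2 χ l0 hl0 x hx (Units.coeHom _) Q.subtype Q.subtype_injective (π.comp lam₀)
    (π y₀) (A.comp lam₀) (A y₀) (fun l q => hA _ q) (hA _) (fun l => by
      rw [MonoidHom.comp_apply, MonoidHom.comp_apply, ← map_mul, ← map_mul]
      exact congrArg π (Subtype.ext (h3 l))) hNo' 𝔞 h𝔞 (W₀.mkQ.comp ι) ?_ ?_ ?_ ?_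
  · rw [injective_iff_map_eq_zero]
    intro f hf
    refine (map_eq_zero_iff _ hι).mp ((Submodule.mem_bot k).mp (hW4 ▸ ⟨?_, f, rfl⟩))
    exact (Submodule.Quotient.mk_eq_zero _).mp hf
  · intro l f
    exact congrArg W₀.mkQ (hιl l f)
  · intro f
    obtain ⟨f', h1, h2⟩ := hιy f
    exact ⟨f', h1, congrArg W₀.mkQ h2⟩
  · intro C hC1 hC2 hC3
    set Z1 := Submodule.span k {w : W ⧸ W₀ | ∃ q ∈ C, ∃ v,
      w = (Units.coeHom _) (Q.subtype q) v - v}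
    have hZ : ∀ g : G₀, (∀ q ∈ C, A g q ∈ C) → ∀ v ∈ Z1.comap W₀.mkQ,
        ρ g v ∈ Z1.comap W₀.mkQ := by
      intro g hg v hv
      change W₀.mkQ (ρ g v) ∈ Z1
      rw [← hρ₀]
      refine (show Z1 ≤ Z1.comap (ρ₀ g) from Submodule.span_le.mpr ?_) hv
      rintro _ ⟨q, hq, w, rfl⟩
      refine Submodule.subset_span ⟨_, hg q hq, ρ₀ g w, ?_⟩
      rw [map_sub]
      congr 1
      exact LinearMap.congr_fun (congrArg Units.val (hA g q)) w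
    have hAε : ∀ p q, A (ε₀ p) q = q := fun p q => by
      refine Subtype.ext (mul_right_cancel (b := π (ε₀ p)) ?_)
      exact (hA _ q).symm.trans (hQbc _ ⟨p, rfl⟩ _ (hQle q.2))
    have hle := hmax (Z1.comap W₀.mkQ) ⟨fun p => ⟨hZ (ε₀ p) fun q hq => by rwa [hAε], by
        rw [← map_inv]; exact hZ (ε₀ p⁻¹) fun q hq => by rwa [hAε]⟩,
      fun l => ⟨hZ (lam₀ l) (hC1 l), by rw [← map_inv]; exact hZ (lam₀ l⁻¹) (hC1 l⁻¹)⟩,
      ⟨hZ y₀ fun q hq => (hC2 q).mpr hq, hZ y₀⁻¹ fun q hq => (hC2 _).mp (by simpa using hq)⟩, by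
        refine eq_bot_iff.mpr ?_
        rintro _ ⟨hv, f, rfl⟩
        rw [← hW4]
        exact ⟨(Submodule.Quotient.mk_eq_zero _).mp (hC3 _ hv ⟨f, rfl⟩), f, rfl⟩⟩
      (fun v hv => by
        change W₀.mkQ v ∈ Z1
        rw [show W₀.mkQ v = 0 from (Submodule.Quotient.mk_eq_zero _).mpr hv]
        exact Z1.zero_mem)
    refine eq_bot_iff.mpr fun q hq => Subgroup.mem_bot.mpr (Subtype.ext (Units.ext ?_))
    refine LinearMap.ext fun v => ?_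
    have h1 : (Units.coeHom _) (Q.subtype q) v - v ∈ Z1 := Submodule.subset_span ⟨q, hq, v, rfl⟩
    obtain ⟨w, hw⟩ := W₀.mkQ_surjective ((Units.coeHom _) (Q.subtype q) v - v)
    have h2 : w ∈ W₀ := hle (show W₀.mkQ w ∈ Z1 from hw ▸ h1)
    rw [show W₀.mkQ w = 0 from (Submodule.Quotient.mk_eq_zero _).mpr h2] at hw
    exact sub_eq_zero.mp hw.symm

end Pool.Agent.P.MP_e2f787_al
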