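import Mathlib

/-! Submodules invariant under a set of operators; Hall type Noetherian and generic
torsion-freeness lemmas. -/

namespace Pool.Agent.P.MP_e2f787_al

open Module

variable {k : Type*} [CommRing k] {W : Type*} [AddCommGroup W] [Module k W]

def Inv (Γ : Set (End k W)) (N : Submodule k W) : Prop := ∀ f ∈ Γ, ∀ v ∈ N, f v ∈ N

def gen (Γ : Set (End k W)) (S : Set W) : Submodule k W := sInf {N | Inv Γ N ∧ S ⊆ N}

def Noeth (Γ : Set (End k W)) (M : Submodule k W) : Prop :=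
  ∀ 𝓕 : Set (Submodule k W), 𝓕.Nonempty → (∀ N ∈ 𝓕, Inv Γ N ∧ N ≤ M) →
    ∃ N ∈ 𝓕, ∀ N' ∈ 𝓕, N ≤ N' → N' ≤ N

def LocNoeth (Γ : Set (End k W)) : Prop := ∀ S : Set W, S.Finite → Noeth Γ (gen Γ S)

def Nrm (Γ : Set (End k W)) (t : End k W) : Prop :=
  (∀ N, Inv Γ N → Inv Γ (N.map t)) ∧ (∀ N, Inv Γ N → Inv Γ (N.comap t))

variable {Γ Γ' : Set (End k W)} {N N' M : Submodule k W} {S : Set W} {t : End k W}

theorem Inv.sup (h : Inv Γ N) (h' : Inv Γ N') : Inv Γ (N ⊔ N') := by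
  intro f hf v hv
  obtain ⟨a, ha, b, hb, rfl⟩ := Submodule.mem_sup.mp hv
  rw [map_add]
  exact Submodule.add_mem_sup (h f hf a ha) (h' f hf b hb)

theorem Inv.inf (h : Inv Γ N) (h' : Inv Γ N') : Inv Γ (N ⊓ N') :=
  fun f hf v hv => ⟨h f hf v hv.1, h' f hf v hv.2⟩

theorem inv_bot : Inv Γ (⊥ : Submodule k W) := by
  intro f _ v hv
  rw [(Submodule.mem_bot k).mp hv, map_zero]; exact Submodule.zero_mem _

theorem inv_top : Inv Γ (⊤ : Submodule k W) := fun _ _ _ _ => Submodule.mem_top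

theorem Inv.mono (h : Inv Γ N) (hs : Γ' ⊆ Γ) : Inv Γ' N := fun f hf => h f (hs hf)

theorem inv_insert : Inv (insert t Γ) N ↔ (∀ v ∈ N, t v ∈ N) ∧ Inv Γ N := by
  simp only [Inv, Set.mem_insert_iff, forall_eq_or_imp]

theorem inv_gen : Inv Γ (gen Γ S) := by
  intro f hf v hv
  simp only [gen, Submodule.mem_sInf, Set.mem_ofPred_eq] at hv ⊢
  exact fun N hN => hN.1 f hf v (hv N hN)

theorem subset_gen : S ⊆ gen Γ S := by
  intro v hv
  simp only [gen, SetLike.mem_coe, Submodule.mem_sInf, Set.mem_ofPred_eq]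
  exact fun N hN => hN.2 hv

theorem gen_le (h : Inv Γ N) (hs : S ⊆ N) : gen Γ S ≤ N := sInf_le ⟨h, hs⟩

theorem gen_congr (h : ∀ N, Inv Γ N ↔ Inv Γ' N) : gen Γ S = gen Γ' S :=
  le_antisymm (gen_le ((h _).mpr inv_gen) subset_gen) (gen_le ((h _).mp inv_gen) subset_gen)

theorem Noeth.mono (h : Noeth Γ M) (hM : N ≤ M) : Noeth Γ N :=
  fun 𝓕 h1 h2 => h 𝓕 h1 fun N hN => ⟨(h2 N hN).1, (h2 N hN).2.trans hM⟩

theorem Noeth.of_inv (h : Noeth Γ M) (hΓ : ∀ N, Inv Γ' N → Inv Γ N) : Noeth Γ' M :=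
  fun 𝓕 h1 h2 => h 𝓕 h1 fun N hN => ⟨hΓ _ (h2 N hN).1, (h2 N hN).2⟩

theorem LocNoeth.congr (h : LocNoeth Γ) (hΓ : ∀ N, Inv Γ N ↔ Inv Γ' N) : LocNoeth Γ' := by
  intro S hS
  rw [← gen_congr hΓ]
  exact (h S hS).of_inv fun N => (hΓ N).mpr

theorem Noeth.chain (h : Noeth Γ M) (c : ℕ → Submodule k W) (hc : Monotone c)
    (h1 : ∀ n, Inv Γ (c n)) (h2 : ∀ n, c n ≤ M) : ∃ n, ∀ m, n ≤ m → c m ≤ c n := by
  obtain ⟨N, ⟨n, rfl⟩, hN⟩ := h (Set.range c) (Set.range_nonempty c)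
    (by rintro N ⟨n, rfl⟩; exact ⟨h1 n, h2 n⟩)
  exact ⟨n, fun m hm => hN _ ⟨m, rfl⟩ (hc hm)⟩

theorem noeth_of_chain (h : ∀ c : ℕ → Submodule k W, Monotone c → (∀ n, Inv Γ (c n)) →
    (∀ n, c n ≤ M) → ∃ n, ∀ m, n ≤ m → c m ≤ c n) : Noeth Γ M := by
  intro 𝓕 ⟨N0, hN0⟩ h2
  by_contra hcon
  push Not at hcon
  choose F hF1 hF2 hF3 using hcon
  let c : ℕ → 𝓕 := fun n => Nat.rec ⟨N0, hN0⟩ (fun _ p => ⟨F p.1 p.2, hF1 p.1 p.2⟩) n
  have hmono : Monotone fun n => (c n).1 :=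
    monotone_nat_of_le_succ fun n => hF2 (c n).1 (c n).2
  obtain ⟨n, hn⟩ := h _ hmono (fun n => (h2 _ (c n).2).1) (fun n => (h2 _ (c n).2).2)
  exact hF3 (c n).1 (c n).2 (hn (n + 1) (Nat.le_succ n))

theorem Noeth.exists_gen (h : Noeth Γ M) (hN : Inv Γ N) (hle : N ≤ M) :
    ∃ S : Set W, S.Finite ∧ S ⊆ N ∧ N ≤ gen Γ S := by
  obtain ⟨_, ⟨S, hS, hSN, rfl⟩, hmax⟩ :=
    h {P | ∃ S : Set W, S.Finite ∧ S ⊆ N ∧ P = gen Γ S} ⟨_, ∅, Set.finite_empty, by simp, rfl⟩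
      (by rintro _ ⟨S, hS, hSN, rfl⟩; exact ⟨inv_gen, (gen_le hN hSN).trans hle⟩)
  refine ⟨S, hS, hSN, fun v hv => ?_⟩
  refine hmax _ ⟨insert v S, hS.insert v, Set.insert_subset hv hSN, rfl⟩
    (gen_le inv_gen ((Set.subset_insert v S).trans subset_gen)) (subset_gen (Set.mem_insert v S))

theorem locNoeth_empty [IsNoetherianRing k] : LocNoeth (∅ : Set (End k W)) := by
  intro S hS
  have h1 : gen (∅ : Set (End k W)) S ≤ Submodule.span k S :=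
    gen_le (fun f hf => absurd hf (Set.notMem_empty f)) Submodule.subset_span
  refine Noeth.mono (M := Submodule.span k S) ?_ h1
  have : IsNoetherian k (Submodule.span k S) :=
    isNoetherian_of_fg_of_noetherian _ (Submodule.fg_span hS)
  refine noeth_of_chain fun c hc _ h2 => ?_
  obtain ⟨n, hn⟩ := monotone_stabilizes_iff_noetherian.mpr this
    ⟨fun n => (c n).comap (Submodule.span k S).subtype, fun a b hab => Submodule.comap_mono (hc hab)⟩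
  refine ⟨n, fun m hm v hv => ?_⟩
  have h3 : (⟨v, h2 m hv⟩ : Submodule.span k S) ∈ (c m).comap (Submodule.span k S).subtype := hv
  have h4 : (c n).comap (Submodule.span k S).subtype =
      (c m).comap (Submodule.span k S).subtype := hn m hm
  rw [← h4] at h3
  exact h3

theorem Nrm.map_pow (h : Nrm Γ t) (hN : Inv Γ N) (n : ℕ) : Inv Γ (N.map (t ^ n)) := by
  induction n with
  | zero => simpa [Module.End.one_eq_id] using hN
  | succ n ih =>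
    rw [pow_succ', Module.End.mul_eq_comp, Submodule.map_comp]
    exact h.1 _ ih

theorem Nrm.comap_pow (h : Nrm Γ t) (n : ℕ) : ∀ {N}, Inv Γ N → Inv Γ (N.comap (t ^ n)) := by
  induction n with
  | zero => intro N hN; simpa [Module.End.one_eq_id] using hN
  | succ n ih =>
    intro N hN
    rw [pow_succ', Module.End.mul_eq_comp, Submodule.comap_comp]
    exact ih (h.2 _ hN)

theorem nrm_of_commute (h : ∀ f ∈ Γ, Commute f t) : Nrm Γ t := by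
  constructor
  · rintro N hN f hf _ ⟨v, hv, rfl⟩
    exact ⟨f v, hN f hf v hv, (LinearMap.congr_fun (h f hf).eq v).symm⟩
  · intro N hN f hf v hv
    have : t (f v) = f (t v) := (LinearMap.congr_fun (h f hf).eq v).symm
    change t (f v) ∈ N
    rw [this]; exact hN f hf _ hv

/-- The filtration `Z + M₀ + t M₀ + ... + t^(n-1) M₀`. -/
def filt (Z M₀ : Submodule k W) (t : End k W) : ℕ → Submodule k W
  | 0 => Z
  | n + 1 => filt Z M₀ t n ⊔ M₀.map (t ^ n)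

variable {Z M₀ : Submodule k W}

theorem filt_mono : Monotone (filt Z M₀ t) := monotone_nat_of_le_succ fun _ => le_sup_left

theorem inv_filt (h : Nrm Γ t) (hZ : Inv Γ Z) (hM : Inv Γ M₀) (n : ℕ) :
    Inv Γ (filt Z M₀ t n) := by
  induction n with
  | zero => exact hZ
  | succ n ih => exact ih.sup (h.map_pow hM n)

theorem filt_t (hZ : ∀ v ∈ Z, t v ∈ Z) (n : ℕ) :
    ∀ v ∈ filt Z M₀ t n, t v ∈ filt Z M₀ t (n + 1) := by
  induction n with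
  | zero => exact fun v hv => Submodule.mem_sup_left (hZ v hv)
  | succ n ih =>
    intro v hv
    obtain ⟨a, ha, _, ⟨b, hb, rfl⟩, rfl⟩ := Submodule.mem_sup.mp hv
    rw [map_add]
    refine Submodule.add_mem_sup (ih a ha) ⟨b, hb, ?_⟩
    rw [pow_succ']; rfl

theorem mem_filt_succ {n : ℕ} {v : W} (hv : v ∈ filt Z M₀ t (n + 1)) :
    ∃ a ∈ filt Z M₀ t n, ∃ m ∈ M₀, v = a + (t ^ n) m := by
  obtain ⟨a, ha, _, ⟨b, hb, rfl⟩, rfl⟩ := Submodule.mem_sup.mp hv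
  exact ⟨a, ha, b, hb, rfl⟩

theorem exists_filt (h : Nrm Γ t) (hZ : Inv Γ Z) (hZt : ∀ v ∈ Z, t v ∈ Z) {v : W}
    (hv : v ∈ gen (insert t Γ) S ⊔ Z) : ∃ n, v ∈ filt Z (gen Γ S) t n := by
  have hmem : ∀ v, v ∈ (⨆ n, filt Z (gen Γ S) t n) ↔ ∃ n, v ∈ filt Z (gen Γ S) t n :=
    fun v => Submodule.mem_iSup_of_chain ⟨filt Z (gen Γ S) t, filt_mono⟩ v
  rw [← hmem]
  revert v
  change gen (insert t Γ) S ⊔ Z ≤ _
  refine sup_le (gen_le (inv_insert.mpr ⟨?_, ?_⟩) ?_) (le_iSup (filt Z (gen Γ S) t) 0)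
  · intro v hv
    obtain ⟨n, hn⟩ := (hmem v).mp hv
    exact (hmem _).mpr ⟨n + 1, filt_t hZt n v hn⟩
  · intro f hf v hv
    obtain ⟨n, hn⟩ := (hmem v).mp hv
    exact (hmem _).mpr ⟨n, inv_filt h hZ inv_gen n f hf v hn⟩
  · intro v hv
    refine (hmem _).mpr ⟨1, Submodule.mem_sup_right ⟨v, subset_gen hv, by simp⟩⟩

theorem LocNoeth.insert (hΓ : LocNoeth Γ) (h : Nrm Γ t) : LocNoeth (insert t Γ) := by
  intro S hS
  have hM := hΓ S hS
  set M₀ := gen Γ S with hM₀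
  refine noeth_of_chain fun c hc h1 h2 => ?_
  have h1t : ∀ j, ∀ v ∈ c j, t v ∈ c j := fun j => (inv_insert.mp (h1 j)).1
  have h1Γ : ∀ j, Inv Γ (c j) := fun j => (inv_insert.mp (h1 j)).2
  have hbot : ∀ v ∈ (⊥ : Submodule k W), t v ∈ (⊥ : Submodule k W) := by
    intro v hv; rw [(Submodule.mem_bot k).mp hv, map_zero]; exact Submodule.zero_mem _
  let lc : ℕ → ℕ → Submodule k W := fun j n => M₀ ⊓ (c j ⊔ filt ⊥ M₀ t n).comap (t ^ n)
  have lcinv : ∀ j n, Inv Γ (lc j n) := fun j n =>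
    inv_gen.inf (h.comap_pow n ((h1Γ j).sup (inv_filt h inv_bot inv_gen n)))
  have lcj : ∀ n, Monotone fun j => lc j n := fun n a b hab =>
    inf_le_inf_left _ (Submodule.comap_mono (sup_le_sup_right (hc hab) _))
  have lcn : ∀ j, Monotone (lc j) := fun j => monotone_nat_of_le_succ fun n v hv => by
    refine ⟨hv.1, ?_⟩
    obtain ⟨a, ha, b, hb, hab⟩ := Submodule.mem_sup.mp hv.2
    change (t ^ (n + 1)) v ∈ c j ⊔ filt ⊥ M₀ t (n + 1)
    rw [pow_succ', Module.End.mul_apply, ← hab, map_add]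
    exact Submodule.add_mem_sup (h1t j a ha) (filt_t hbot n b hb)
  obtain ⟨_, ⟨⟨j1, n1⟩, rfl⟩, hmax⟩ := hM (Set.range fun p : ℕ × ℕ => lc p.1 p.2)
    (Set.range_nonempty _) (by rintro _ ⟨p, rfl⟩; exact ⟨lcinv _ _, inf_le_left⟩)
  choose jn hjn using fun n => hM.chain (fun j => lc j n) (lcj n) (fun j => lcinv j n)
    (fun j => inf_le_left)
  let j0 := max j1 ((Finset.range n1).sup jn)
  have key : ∀ j, j0 ≤ j → ∀ n, lc j n ≤ lc j0 n := by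
    intro j hj n
    rcases lt_or_ge n n1 with hn | hn
    · have h3 : jn n ≤ j0 :=
        (Finset.le_sup (f := jn) (Finset.mem_range.mpr hn)).trans (le_max_right _ _)
      exact (hjn n j (h3.trans hj)).trans (lcj n h3)
    · have h3 : j1 ≤ j0 := le_max_left _ _
      exact (hmax _ ⟨(j, n), rfl⟩ ((lcj n1 (h3.trans hj)).trans (lcn j hn))).trans
        ((lcj n1 h3).trans (lcn j0 hn))
  refine ⟨j0, fun j hj v hv => ?_⟩
  obtain ⟨n, hn⟩ := exists_filt h inv_bot hbot (Submodule.mem_sup_left (h2 j hv))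
  induction n generalizing v with
  | zero => rw [(Submodule.mem_bot k).mp hn]; exact Submodule.zero_mem _
  | succ n ih =>
    obtain ⟨a, ha, m, hm, rfl⟩ := mem_filt_succ hn
    have h3 : m ∈ lc j n := by
      refine ⟨hm, ?_⟩
      change (t ^ n) m ∈ c j ⊔ filt ⊥ M₀ t n
      have : (t ^ n) m = (a + (t ^ n) m) + (-a) := by abel
      rw [this]
      exact Submodule.add_mem_sup hv (Submodule.neg_mem _ ha)
    obtain ⟨x, hx, y, hy, hxy⟩ := Submodule.mem_sup.mp (key j hj n h3).2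
    have h4 : a + y ∈ c j := by
      have : a + y = (a + (t ^ n) m) - x := by rw [← hxy]; abel
      rw [this]
      exact Submodule.sub_mem _ hv (hc hj hx)
    have h5 := ih _ h4 (Submodule.add_mem _ ha hy)
    have : a + (t ^ n) m = (a + y) + x := by rw [← hxy]; abel
    rw [this]
    exact Submodule.add_mem _ h5 hx

section GT

variable {R : Type*} [CommMonoid R] (θ : R →* End k W) (D : Submonoid R)

/-- `D`-torsion of `M / N` is `s`-power torsion. -/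
def Tors (s : R) (M N : Submodule k W) : Prop :=
  ∀ v ∈ M, (∃ d ∈ D, θ d v ∈ N) → ∃ e : ℕ, θ (s ^ e) v ∈ N

def GT (M N : Submodule k W) : Prop := ∃ s ∈ D, Tors θ D s M N

variable {θ D}

theorem theta_mul (a b : R) (v : W) : θ (a * b) v = θ a (θ b v) := by rw [map_mul]; rfl

theorem theta_comm (a b : R) (v : W) : θ a (θ b v) = θ b (θ a v) := by
  rw [← theta_mul, mul_comm, theta_mul]

theorem Noeth.gt0 (h : Noeth Γ M) (hM : Inv Γ M) (hN : Inv Γ N)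
    (hc : ∀ f ∈ Γ, ∀ d ∈ D, Commute f (θ d)) (hND : ∀ d ∈ D, ∀ v ∈ N, θ d v ∈ N) :
    ∃ s ∈ D, ∀ v ∈ M, (∃ d ∈ D, θ d v ∈ N) → θ s v ∈ N := by
  obtain ⟨_, ⟨s, hs, rfl⟩, hmax⟩ := h {P | ∃ d ∈ D, P = M ⊓ N.comap (θ d)} ⟨_, 1, D.one_mem, rfl⟩
    (by
      rintro _ ⟨d, hd, rfl⟩
      exact ⟨hM.inf ((nrm_of_commute fun f hf => hc f hf d hd).2 _ hN), inf_le_left⟩)
  refine ⟨s, hs, fun v hv ⟨d, hd, hdv⟩ => ?_⟩
  refine (hmax _ ⟨d * s, D.mul_mem hd hs, rfl⟩ (fun w hw => ⟨hw.1, ?_⟩) ⟨hv, ?_⟩).2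
  · change θ (d * s) w ∈ N
    rw [theta_mul]; exact hND d hd _ hw.2
  · change θ (d * s) v ∈ N
    rw [theta_mul, theta_comm]; exact hND s hs _ hdv

theorem GT.trans {M₂ M₁ M₀ : Submodule k W} (h2 : GT θ D M₂ M₁) (h1 : GT θ D M₁ M₀)
    (hle : M₀ ≤ M₁) (h0 : ∀ d ∈ D, ∀ v ∈ M₀, θ d v ∈ M₀) : GT θ D M₂ M₀ := by
  obtain ⟨s2, hs2, h2⟩ := h2
  obtain ⟨s1, hs1, h1⟩ := h1
  refine ⟨s1 * s2, D.mul_mem hs1 hs2, fun v hv ⟨d, hd, hdv⟩ => ?_⟩
  obtain ⟨e, he⟩ := h2 v hv ⟨d, hd, hle hdv⟩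
  obtain ⟨e', he'⟩ := h1 _ he ⟨d, hd, by
    rw [theta_comm]; exact h0 _ (D.pow_mem hs2 e) _ hdv⟩
  refine ⟨e + e', ?_⟩
  have : (s1 * s2) ^ (e + e') = (s1 ^ e * s2 ^ e') * (s1 ^ e' * s2 ^ e) := by
    rw [mul_pow, pow_add, pow_add]; ac_rfl
  rw [this, theta_mul, theta_mul (s1 ^ e')]
  exact h0 _ (D.mul_mem (D.pow_mem hs1 e) (D.pow_mem hs2 e')) _ he'

theorem gt_step (hΓ : Noeth Γ (gen Γ S)) (h : Nrm Γ t) (hZ : Inv Γ Z) (hZt : ∀ v ∈ Z, t v ∈ Z)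
    (hc : ∀ f ∈ Γ, ∀ d ∈ D, Commute f (θ d)) (hct : ∀ d ∈ D, Commute t (θ d))
    (hD : ∀ N, Inv Γ N → ∀ d ∈ D, ∀ v ∈ N, θ d v ∈ N) :
    GT θ D (gen (insert t Γ) S ⊔ Z) (gen Γ S ⊔ Z) := by
  classical
  set M₀ := gen Γ S with hM₀
  have hF := inv_filt h hZ (inv_gen (Γ := Γ) (S := S))
  have hI : ∀ n, Inv Γ ((filt Z M₀ t n).comap (t ^ n)) := fun n => h.comap_pow n (hF n)
  choose sn hsn hsn' using fun n => hΓ.gt0 (θ := θ) (D := D) inv_gen (hI n) hc (hD _ (hI n))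
  obtain ⟨n0, hn0⟩ := hΓ.chain (fun n => M₀ ⊓ (filt Z M₀ t n).comap (t ^ n))
    (monotone_nat_of_le_succ fun n v hv => ⟨hv.1, by
      change (t ^ (n + 1)) v ∈ filt Z M₀ t (n + 1)
      rw [pow_succ', Module.End.mul_apply]
      exact filt_t hZt n _ hv.2⟩) (fun n => inv_gen.inf (hI n)) (fun n => inf_le_left)
  have hmono : ∀ n, n0 ≤ n → M₀ ⊓ (filt Z M₀ t n0).comap (t ^ n0) ≤
      M₀ ⊓ (filt Z M₀ t n).comap (t ^ n) := by
    intro n hn
    induction n, hn using Nat.le_induction with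
    | base => exact le_rfl
    | succ n _ ih =>
      refine ih.trans fun v hv => ⟨hv.1, ?_⟩
      change (t ^ (n + 1)) v ∈ filt Z M₀ t (n + 1)
      rw [pow_succ', Module.End.mul_apply]
      exact filt_t hZt n _ hv.2
  let s := ∏ n ∈ Finset.range (n0 + 1), sn n
  have hs : s ∈ D := D.prod_mem fun n _ => hsn n
  have key0 : ∀ n, n ≤ n0 → ∀ m ∈ M₀, (∃ d ∈ D, θ d m ∈ (filt Z M₀ t n).comap (t ^ n)) →
      θ s m ∈ (filt Z M₀ t n).comap (t ^ n) := by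
    intro n hn m hm hd
    have h1 := hsn' n m hm hd
    have h2 : s = (∏ i ∈ (Finset.range (n0 + 1)).erase n, sn i) * sn n :=
      (Finset.prod_erase_mul _ _ (Finset.mem_range.mpr (Nat.lt_succ_of_le hn))).symm
    rw [h2, theta_mul]
    exact hD _ (hI n) _ (D.prod_mem fun i _ => hsn i) _ h1
  have key : ∀ n, ∀ m ∈ M₀, (∃ d ∈ D, θ d m ∈ (filt Z M₀ t n).comap (t ^ n)) →
      θ s m ∈ (filt Z M₀ t n).comap (t ^ n) := by
    intro n m hm ⟨d, hd, hdm⟩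
    rcases le_total n n0 with hn | hn
    · exact key0 n hn m hm ⟨d, hd, hdm⟩
    · have h1 := (hn0 n hn ⟨hD _ inv_gen d hd m hm, hdm⟩).2
      exact (hmono n hn ⟨hD _ inv_gen s hs m hm, key0 n0 le_rfl m hm ⟨d, hd, h1⟩⟩).2
  have hcomm : ∀ d ∈ D, ∀ n m, θ d ((t ^ n) m) = (t ^ n) (θ d m) := fun d hd n m =>
    (LinearMap.congr_fun ((hct d hd).pow_left n).eq m).symm
  have key2 : ∀ n, ∀ v ∈ filt Z M₀ t (n + 1), (∃ d ∈ D, θ d v ∈ filt Z M₀ t n) →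
      θ s v ∈ filt Z M₀ t n := by
    intro n v hv ⟨d, hd, hdv⟩
    obtain ⟨a, ha, m, hm, rfl⟩ := mem_filt_succ hv
    rw [map_add] at hdv ⊢
    refine Submodule.add_mem _ (hD _ (hF n) s hs a ha) ?_
    rw [hcomm s hs]
    refine key n m hm ⟨d, hd, ?_⟩
    change (t ^ n) (θ d m) ∈ filt Z M₀ t n
    rw [← hcomm d hd]
    exact (Submodule.add_mem_iff_right _ (hD _ (hF n) d hd a ha)).mp hdv
  have h1 : filt Z M₀ t 1 = M₀ ⊔ Z := by
    simp [filt, Module.End.one_eq_id, sup_comm]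
  rw [← h1]
  refine ⟨s, hs, fun v hv hd => ?_⟩
  obtain ⟨n, hn⟩ := exists_filt h hZ hZt hv
  replace hn : v ∈ filt Z M₀ t (n + 1) := filt_mono (Nat.le_succ n) hn
  clear hv
  induction n generalizing v with
  | zero => exact ⟨0, by simpa using hn⟩
  | succ n ih =>
    obtain ⟨d, hd, hdv⟩ := hd
    have h2 := key2 (n + 1) v hn ⟨d, hd, filt_mono (by omega) hdv⟩
    obtain ⟨e, he⟩ := ih (θ s v) ⟨d, hd, by
      rw [theta_comm]; exact hD _ (hF 1) s hs _ hdv⟩ h2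
    exact ⟨e + 1, by rw [pow_succ, theta_mul]; exact he⟩

variable (θ D) in
/-- Invariant carried along a chain of normalising extensions. -/
structure Good (Γ₀ : Set (End k W)) (Z : Submodule k W) (Γ : Set (End k W)) : Prop where
  noeth : LocNoeth Γ
  sub : ∀ N, Inv Γ N → Inv Γ₀ N
  comm : ∀ f ∈ Γ, ∀ d ∈ D, Commute f (θ d)
  invZ : Inv Γ Z
  gt : ∀ S : Set W, S.Finite → GT θ D (gen Γ S ⊔ Z) (gen Γ₀ S ⊔ Z)

variable {Γ₀ : Set (End k W)}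

theorem Good.base (h1 : LocNoeth Γ₀) (h2 : ∀ f ∈ Γ₀, ∀ d ∈ D, Commute f (θ d)) (h3 : Inv Γ₀ Z) :
    Good θ D Γ₀ Z Γ₀ :=
  ⟨h1, fun _ h => h, h2, h3, fun _ _ => ⟨1, D.one_mem, fun v hv _ => ⟨0, by simpa using hv⟩⟩⟩

theorem Good.step (hD : ∀ N, Inv Γ₀ N → ∀ d ∈ D, ∀ v ∈ N, θ d v ∈ N)
    (h : Good θ D Γ₀ Z Γ) (ht : Nrm Γ t) (hZt : ∀ v ∈ Z, t v ∈ Z)
    (hct : ∀ d ∈ D, Commute t (θ d)) : Good θ D Γ₀ Z (insert t Γ) := by
  refine ⟨h.noeth.insert ht, fun N hN => h.sub N (inv_insert.mp hN).2, ?_,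
    inv_insert.mpr ⟨hZt, h.invZ⟩, fun S hS => ?_⟩
  · rintro f (rfl | hf)
    · exact hct
    · exact h.comm f hf
  · refine (gt_step (h.noeth S hS) ht h.invZ hZt h.comm hct
      (fun N hN => hD N (h.sub N hN))).trans (h.gt S hS)
      (sup_le_sup_right (gen_le (h.sub _ inv_gen) subset_gen) _) ?_
    exact hD _ (inv_gen.sup (h.sub _ h.invZ))

theorem Good.congr (h : Good θ D Γ₀ Z Γ) (hΓ : ∀ N, Inv Γ N ↔ Inv Γ' N)
    (hc : ∀ f ∈ Γ', ∀ d ∈ D, Commute f (θ d)) : Good θ D Γ₀ Z Γ' :=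
  ⟨h.noeth.congr hΓ, fun N hN => h.sub N ((hΓ N).mpr hN), hc, (hΓ Z).mp h.invZ,
    fun S hS => by rw [← gen_congr hΓ]; exact h.gt S hS⟩

/-- Adding finitely many operators commuting with everything. -/
theorem Good.union_finite (hD : ∀ N, Inv Γ₀ N → ∀ d ∈ D, ∀ v ∈ N, θ d v ∈ N)
    (h : Good θ D Γ₀ Z Γ) {T : Set (End k W)} (hT : T.Finite)
    (h1 : ∀ f ∈ Γ, ∀ t ∈ T, Commute f t) (h2 : ∀ f ∈ T, ∀ t ∈ T, Commute f t)
    (hZ : Inv T Z) (hct : ∀ t ∈ T, ∀ d ∈ D, Commute t (θ d)) : Good θ D Γ₀ Z (T ∪ Γ) := by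
  induction T, hT using Set.Finite.induction_on with
  | empty => simpa using h
  | @insert t T _ _ ih =>
    rw [Set.insert_union]
    refine (ih (fun f hf t ht => h1 f hf t (Or.inr ht))
      (fun f hf t ht => h2 f (Or.inr hf) t (Or.inr ht)) (hZ.mono (Set.subset_insert _ _))
      (fun t ht => hct t (Or.inr ht))).step hD (nrm_of_commute ?_) (hZ t (Or.inl rfl))
      (hct t (Or.inl rfl))
    rintro f (hf | hf)
    · exact h2 f (Or.inr hf) t (Or.inl rfl)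
    · exact h1 f hf t (Or.inl rfl)

theorem Good.gt_top (hD : ∀ N, Inv Γ₀ N → ∀ d ∈ D, ∀ v ∈ N, θ d v ∈ N)
    (h : Good θ D Γ₀ Z Γ) (hN : Noeth Γ ⊤) (hS : S.Finite) : GT θ D ⊤ (gen Γ₀ S ⊔ Z) := by
  obtain ⟨s, hs, hs'⟩ := hN.gt0 (θ := θ) (D := D) inv_top (inv_gen.sup h.invZ) h.comm
    (hD _ (h.sub _ ((inv_gen (S := S)).sup h.invZ)))
  refine GT.trans (M₁ := gen Γ S ⊔ Z) ⟨s, hs, fun v hv hd => ⟨1, by simpa using hs' v hv hd⟩⟩
    (h.gt S hS) (sup_le_sup_right (gen_le (h.sub _ inv_gen) subset_gen) _) ?_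
  exact hD _ (inv_gen.sup (h.sub _ h.invZ))

end GT

theorem locNoeth_finite [IsNoetherianRing k] {T : Set (End k W)} (hT : T.Finite)
    (h2 : ∀ f ∈ T, ∀ t ∈ T, Commute f t) : LocNoeth T := by
  have h := (Good.base (θ := (1 : Unit →* End k W)) (D := ⊥) (Z := ⊥) locNoeth_empty
    (fun f hf => absurd hf (Set.notMem_empty f)) inv_bot).union_finite
    (fun N _ d _ v hv => by simpa using hv) hT (fun f hf => absurd hf (Set.notMem_empty f)) h2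
    inv_bot (fun t _ d _ => by simp)
  simpa using h.noeth

end Pool.Agent.P.MP_e2f787_al
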