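import Pool.Agent.P.MP_e2f787_al.Main1

/-! General lemmas for the reduction to modules. -/

namespace Pool.Agent.P.MP_e2f787_al

open Module

section Pi

variable {k : Type*} [CommRing k] {W : Type*} [AddCommGroup W] [Module k W]

theorem noeth_transport {Γ : Set (End k W)} (h : Noeth Γ ⊤) {P : Type*} [Preorder P]
    (Φ : P → Submodule k W) (h1 : Monotone Φ) (h2 : ∀ a b, Φ a ≤ Φ b → a ≤ b)
    (𝓕 : Set P) (hne : 𝓕.Nonempty) (h3 : ∀ a ∈ 𝓕, Inv Γ (Φ a)) :
    ∃ a ∈ 𝓕, ∀ b ∈ 𝓕, a ≤ b → b ≤ a := by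
  obtain ⟨_, ⟨a, ha, rfl⟩, hmax⟩ := h (Φ '' 𝓕) (hne.image Φ)
    (by rintro _ ⟨a, ha, rfl⟩; exact ⟨h3 a ha, le_top⟩)
  exact ⟨a, ha, fun b hb hab => h2 _ _ (hmax _ ⟨b, hb, rfl⟩ (h1 hab))⟩

def piRep (ι : Type*) {M : Type*} [Monoid M] (ρ : M →* End k W) : M →* End k (ι → W) where
  toFun m := (ρ m).compLeft ι
  map_one' := by ext; simp
  map_mul' _ _ := by ext; simp

theorem noeth_pi [IsNoetherianRing k] (ι : Type*) [Finite ι] {M : Type*} [Group M] [Group.FG M]
    (ρ : M →* End k W) (hc : ∀ a b, Commute (ρ a) (ρ b)) {S : Set W} (hS : S.Finite)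
    (hg : gen (Set.range ρ) S = ⊤) : Noeth (Set.range (piRep ι ρ)) ⊤ := by
  classical
  have := Fintype.ofFinite ι
  let S1 : Set (ι → W) := Set.image2 (fun i v => Pi.single i v) Set.univ S
  refine (locNoeth_range (piRep ι ρ) (fun a b => ?_) S1 (Set.finite_univ.image2 _ hS)).mono ?_
  · refine LinearMap.ext fun w => funext fun i => ?_
    exact LinearMap.congr_fun (hc a b).eq (w i)
  · intro w _
    rw [← Finset.univ_sum_single w]
    refine Submodule.sum_mem _ fun i _ => ?_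
    have : gen (Set.range ρ) S ≤ (gen (Set.range (piRep ι ρ)) S1).comap
        (LinearMap.single k (fun _ => W) i) := by
      refine gen_le ?_ fun v hv => subset_gen ⟨i, trivial, v, hv, rfl⟩
      rintro _ ⟨m, rfl⟩ v hv
      have h1 := inv_gen (Γ := Set.range (piRep ι ρ)) _ ⟨m, rfl⟩ _ hv
      have h2 : piRep ι ρ m (LinearMap.single k (fun _ => W) i v) =
          LinearMap.single k (fun _ => W) i (ρ m v) := by
        funext j
        by_cases hj : j = i
        · subst hj; simp [piRep]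
        · simp [piRep, hj]
      rwa [h2] at h1
    exact this (hg ▸ Submodule.mem_top)

end Pi

theorem fin_invol {V : Type*} [AddCommGroup V] [Module.Finite ℤ V] {A : Type*} [Group A]
    [Infinite A] (α : A →* End ℤ V) (h : ∀ a : A, a * a = 1) : ∃ a, a ≠ 1 ∧ α a = 1 := by
  obtain ⟨e, he1, he2⟩ := Submodule.annihilator_top_inter_nonZeroDivisors
    (Submodule.torsion_isTorsion (R := ℤ) (M := V))
  have he0 : e ≠ 0 := nonZeroDivisors.ne_zero he2
  have he : ∀ (v : V) (r : ℤ), r ≠ 0 → r • v = 0 → e • v = 0 := fun v r hr hv =>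
    congrArg Subtype.val (Submodule.mem_annihilator.mp he1
      ⟨v, ⟨r, mem_nonZeroDivisors_of_ne_zero hr⟩, hv⟩ Submodule.mem_top)
  let K : Submodule ℤ V := LinearMap.range (LinearMap.lsmul ℤ V (3 * e))
  have : Finite (V ⧸ K) := Module.finite_of_fg_torsion _ (by
    intro x
    obtain ⟨v, rfl⟩ := K.mkQ_surjective x
    refine ⟨⟨3 * e, mem_nonZeroDivisors_of_ne_zero (by omega)⟩, ?_⟩
    change (3 * e) • K.mkQ v = 0
    rw [← map_smul]
    exact (Submodule.Quotient.mk_eq_zero K).mpr ⟨v, rfl⟩)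
  obtain ⟨X, hX⟩ := Module.Finite.fg_top (R := ℤ) (M := V)
  obtain ⟨a, b, hab, hh⟩ := Finite.exists_ne_map_eq_of_infinite
    fun (a : A) (x : X) => K.mkQ (α a x)
  have h1 : K.mkQ ∘ₗ α a = K.mkQ ∘ₗ α b :=
    LinearMap.ext_on hX fun x hx => congrFun hh ⟨x, hx⟩
  refine ⟨a * b, fun h' => hab (by rw [eq_inv_of_mul_eq_one_left h', inv_eq_of_mul_eq_one_left (h b)]), ?_⟩
  set c := a * b
  let N : End ℤ V := α c - 1
  have hN : ∀ v, ∃ w, N v = (3 * e) • w := fun v => by
    have h2 : K.mkQ (α a (α b v)) = K.mkQ (α b (α b v)) := LinearMap.congr_fun h1 (α b v)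
    rw [← rho_mul, ← rho_mul, h b, map_one] at h2
    obtain ⟨w, hw⟩ := (Submodule.Quotient.eq K).mp h2
    exact ⟨w, hw.symm⟩
  have hNN : ∀ v, N (N v) = -(2 : ℤ) • N v := fun v => by
    have : α c (α c v) = v := by rw [← rho_mul, h c, map_one]; rfl
    simp only [N, LinearMap.sub_apply, Module.End.one_apply, map_sub, this]
    module
  obtain ⟨r, hr1, hr2⟩ := Submodule.exists_sub_one_mem_and_smul_eq_zero_of_fg_of_le_smul
    (Ideal.span {(3 : ℤ)}) (LinearMap.range N) (IsNoetherian.noetherian _) (by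
      rintro _ ⟨v, rfl⟩
      obtain ⟨w, hw⟩ := hN v
      have h3 : N v = (3 : ℤ) • (N v + e • N w) := by
        have := hNN v
        rw [hw, map_smul] at this
        rw [smul_add, smul_smul, this, hw]
        module
      rw [h3]
      exact Submodule.smul_mem_smul (Ideal.mem_span_singleton_self _)
        (Submodule.add_mem _ ⟨v, rfl⟩ (Submodule.smul_mem _ _ ⟨w, rfl⟩)))
  have hr0 : r ≠ 0 := by
    rintro rfl
    rw [Ideal.mem_span_singleton] at hr1
    omega
  refine LinearMap.ext fun v => sub_eq_zero.mp ?_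
  obtain ⟨w, hw⟩ := hN v
  have h4 := hr2 _ ⟨v, rfl⟩
  rw [hw, smul_smul] at h4
  change N v = 0
  rw [hw, mul_smul, he w _ (mul_ne_zero hr0 (by omega)) h4, smul_zero]

open scoped IsMulCommutative in
theorem exists_ser {V : Type*} [AddCommGroup V] {H : Type*} [Group H] (α : H →* End ℤ V)
    (T : Subgroup H) [hT : T.Normal] (hc : ∀ p ∈ T, ∀ q ∈ T, Commute (α p) (α q))
    {M : Type*} [Group M] [Group.FG M] (ε : M →* H) (hε : ∀ m, ε m ∈ T) {S : Set V}
    (hS : S.Finite) (hg : gen (Set.range (α.comp ε)) S = ⊤)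
    {A : Type*} [Group A] [Infinite A] (j : A →* H) (hj : ∀ a, j a ∈ T) (hA : ∀ a : A, a * a = 1) :
    ∃ (ser : ℕ → Submodule ℤ V) (n : ℕ), ser 0 = ⊥ ∧ ser n = ⊤ ∧
      (∀ i γ, ∀ v ∈ ser i, α γ v ∈ ser i) ∧
      ∃ a, a ≠ 1 ∧ ∀ i, ∀ v ∈ ser (i + 1), α (j a) v - v ∈ ser i := by
  classical
  let C := Subring.closure (α '' T)
  have : IsMulCommutative C := Subring.isMulCommutative_closure (by
    rintro _ ⟨p, hp, rfl⟩ _ ⟨q, hq, rfl⟩
    exact (hc p hp q hq).eq)
  have hmem : ∀ t ∈ T, α t ∈ C := fun t ht => Subring.subset_closure ⟨t, ht, rfl⟩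
  have hCc : ∀ c ∈ C, ∀ d ∈ C, ∀ v, c (d v) = d (c v) := fun c hc d hd v =>
    LinearMap.congr_fun (congrArg Subtype.val (mul_comm (⟨c, hc⟩ : C) ⟨d, hd⟩)) v
  have hSf := hS.to_subtype
  have hNo := noeth_pi S (α.comp ε) (fun a b => hc _ (hε a) _ (hε b)) hS hg
  let ev : C →ₗ[ℤ] (S → V) :=
    AddMonoidHom.toIntLinearMap ⟨⟨fun c s => c.1 s, rfl⟩, fun _ _ => rfl⟩
  have hev : Function.Injective ev := by
    rw [injective_iff_map_eq_zero]
    intro c hc
    have : gen (Set.range (α.comp ε)) S ≤ LinearMap.ker c.1 := by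
      refine gen_le ?_ fun v hv => congrFun hc ⟨v, hv⟩
      rintro _ ⟨m, rfl⟩ v hv
      rw [LinearMap.mem_ker] at hv ⊢
      change c.1 (α (ε m) v) = 0
      rw [hCc _ c.2 _ (hmem _ (hε m)), hv, map_zero]
    rw [hg, top_le_iff, LinearMap.ker_eq_top] at this
    exact Subtype.ext this
  have : IsNoetherianRing C := by
    refine set_has_maximal_iff_noetherian.mp fun 𝓕 hne => ?_
    obtain ⟨I, hI, hmax⟩ := noeth_transport hNo (fun I : Ideal C => (I.restrictScalars ℤ).map ev)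
      (fun a b hab => Submodule.map_mono hab)
      (fun a b hab => (Submodule.map_le_map_iff_of_injective hev _ _).mp hab) 𝓕 hne (by
        rintro I - _ ⟨m, rfl⟩ _ ⟨c, hc, rfl⟩
        exact ⟨⟨_, hmem _ (hε m)⟩ * c, I.mul_mem_left _ hc, rfl⟩)
    exact ⟨I, hI, fun J hJ hlt => hlt.not_ge (hmax J hJ hlt.le)⟩
  have hconj : ∀ γ, ∀ c ∈ C, α γ⁻¹ * c * α γ ∈ C := by
    intro γ c hc
    have h1 : α γ * α γ⁻¹ = 1 := by rw [← map_mul]; simp
    have h2 : α γ⁻¹ * α γ = 1 := by rw [← map_mul]; simp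
    induction hc using Subring.closure_induction with
    | mem x hx =>
      obtain ⟨t, ht, rfl⟩ := hx
      rw [← map_mul, ← map_mul]
      exact hmem _ (by simpa using hT.conj_mem t ht γ⁻¹)
    | zero => simp
    | one => rw [mul_one, h2]; exact C.one_mem
    | add x y _ _ hx hy => rw [mul_add, add_mul]; exact C.add_mem hx hy
    | neg x _ hx => rw [mul_neg, neg_mul]; exact C.neg_mem hx
    | mul x y _ _ hx hy =>
      have : α γ⁻¹ * (x * y) * α γ = (α γ⁻¹ * x * α γ) * (α γ⁻¹ * y * α γ) := by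
        simp only [mul_assoc]
        rw [← mul_assoc (α γ), h1, one_mul]
      rw [this]; exact C.mul_mem hx hy
  let ser : ℕ → Submodule ℤ V := fun i =>
    Nat.rec ⊥ (fun _ Z => ⨅ c : nilradical C, Z.comap c.1.1) i
  have hser : ∀ i v, v ∈ ser (i + 1) ↔ ∀ c : C, IsNilpotent c → c.1 v ∈ ser i := fun i v => by
    change v ∈ ⨅ c : nilradical C, (ser i).comap c.1.1 ↔ _
    simp only [Submodule.mem_iInf, Submodule.mem_comap, Subtype.forall, mem_nilradical]
  obtain ⟨n, hn⟩ := IsNoetherianRing.isNilpotent_nilradical C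
  obtain ⟨a, b, hab, hnil⟩ := exists_nilpotent_sub (C := C) (fun a : A => ⟨_, hmem _ (hj a)⟩)
    fun a => Subtype.ext (by
      change α (j a) * α (j a) = 1
      rw [← map_mul, ← map_mul, hA, map_one, map_one])
  refine ⟨ser, n, rfl, ?_, ?_, b * a, fun h' => hab (by
    rw [eq_inv_of_mul_eq_one_right h', inv_eq_of_mul_eq_one_left (hA b)]), ?_⟩
  · have : ∀ i v, (∀ c ∈ nilradical C ^ i, c.1 v = 0) → v ∈ ser i := by
      intro i
      induction i with
      | zero => intro v hv; exact hv 1 (by simp)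
      | succ i ih =>
        intro v hv
        refine (hser i v).mpr fun c hc => ih _ fun d hd => hv (d * c) ?_
        rw [pow_succ]
        exact Ideal.mul_mem_mul hd (mem_nilradical.mpr hc)
    refine eq_top_iff.mpr fun v _ => this n v fun c hc => ?_
    rw [hn, Ideal.zero_eq_bot, Ideal.mem_bot] at hc
    rw [hc]; rfl
  · intro i γ
    induction i with
    | zero => intro v hv; rw [(Submodule.mem_bot ℤ).mp hv, map_zero]; exact Submodule.zero_mem _
    | succ i ih =>
      intro v hv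
      refine (hser i _).mpr fun c hc => ?_
      have h1 := (hser i v).mp hv ⟨_, hconj γ c.1 c.2⟩ (by
        obtain ⟨m, hm⟩ := hc
        refine ⟨m, Subtype.ext ?_⟩
        have h2 : c.1 ^ m = 0 := congrArg Subtype.val hm
        change (α γ⁻¹ * c.1 * α γ) ^ m = 0
        have h3 := Units.conj_pow' (α.toHomUnits γ) c.1 m
        rw [h2, mul_zero, zero_mul] at h3
        exact h3)
      have h2 := ih _ h1
      change α γ (α γ⁻¹ (c.1 (α γ v))) ∈ _ at h2
      rwa [rho_self_inv] at h2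
  · intro i v hv
    have h1 := (hser i v).mp hv _ ((Commute.all _ _).isNilpotent_mul_left (x := ⟨_, hmem _ (hj b)⟩) hnil)
    change α (j b) (α (j a) v - α (j b) v) ∈ _ at h1
    rwa [map_sub, ← rho_mul, ← rho_mul, ← map_mul, ← map_mul, hA, map_one, map_one] at h1

end Pool.Agent.P.MP_e2f787_al
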