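import Pool.Agent.P.MP_e2f787_al.Reduce1

/-! Derivation modules. -/

namespace Pool.Agent.P.MP_e2f787_al

open Module

universe u

theorem exists_der {H : Type*} [Group H] {M : Type u} [Group M] [Group.FG M] {V : Type u}
    [AddCommGroup V] (α : H →* End ℤ V) (β : H →* MulAut M) (ε : M →* H)
    (h1 : ∀ m, β (ε m) = 1) (h2 : ∀ γ m v, α γ (α (ε m) v) = α (ε (β γ m)) (α γ v))
    (hc : ∀ m m', Commute (α (ε m)) (α (ε m'))) {S : Set V} (hS : S.Finite)
    (hg : gen (Set.range (α.comp ε)) S = ⊤) :
    ∃ (W : Type u) (_ : AddCommGroup W) (_ : Module (ZMod 2) W) (ρ : H →* End (ZMod 2) W)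
      (e : W →+ (M → V)), Function.Injective e ∧
      (∀ δ : M → V, (∀ x y, δ (x * y) = δ x + α (ε x) (δ y)) → (∀ x, δ x + δ x = 0) →
        ∃ w, e w = δ) ∧
      (∀ γ w x, e (ρ γ w) x = α γ (e w ((β γ)⁻¹ x))) ∧
      (∀ m m', Commute (ρ (ε m)) (ρ (ε m'))) ∧ Noeth (Set.range (ρ.comp ε)) ⊤ := by
  classical
  let W : AddSubgroup (M → V) :=
    { carrier := {δ | (∀ x y, δ (x * y) = δ x + α (ε x) (δ y)) ∧ ∀ x, δ x + δ x = 0}
      add_mem' := fun {a b} ha hb => ⟨fun x y => by
        simp only [Pi.add_apply, ha.1, hb.1, map_add]; abel, fun x => by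
        rw [Pi.add_apply, add_add_add_comm, ha.2, hb.2, add_zero]⟩
      zero_mem' := ⟨by simp, by simp⟩
      neg_mem' := fun {a} ha => ⟨fun x y => by
        simp only [Pi.neg_apply, ha.1, map_neg]; abel, fun x => by
        rw [Pi.neg_apply, ← neg_add, ha.2, neg_zero]⟩ }
  let _ : Module (ZMod 2) W := AddCommGroup.zmodModule fun w =>
    Subtype.ext (funext fun x => by
      rw [two_nsmul]; exact w.2.2 x)
  let r : H → W →+ W := fun γ =>
    { toFun := fun w => ⟨fun x => α γ (w.1 ((β γ)⁻¹ x)), fun x y => by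
        beta_reduce
        rw [map_mul, w.2.1, map_add, h2]
        simp, fun x => by beta_reduce; rw [← map_add, w.2.2, map_zero]⟩
      map_zero' := Subtype.ext (funext fun x => by simp)
      map_add' := fun a b => Subtype.ext (funext fun x => by simp) }
  let ρ : H →* End (ZMod 2) W :=
    { toFun := fun γ => (r γ).toZModLinearMap 2
      map_one' := LinearMap.ext fun w => Subtype.ext (funext fun x => by simp [r]; rfl)
      map_mul' := fun a b => LinearMap.ext fun w => Subtype.ext (funext fun x => by simp [r]; rfl) }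
  have hρ : ∀ m (w : W) x, (ρ (ε m) w).1 x = α (ε m) (w.1 x) := fun m w x => by
    change α (ε m) (w.1 ((β (ε m))⁻¹ x)) = _
    rw [h1]; rfl
  refine ⟨W, inferInstance, inferInstance, ρ, W.subtype, W.subtype_injective,
    fun δ a b => ⟨⟨δ, a, b⟩, rfl⟩, fun γ w x => rfl, fun m m' => ?_, ?_⟩
  · refine LinearMap.ext fun w => Subtype.ext (funext fun x => ?_)
    change (ρ (ε m) (ρ (ε m') w)).1 x = (ρ (ε m') (ρ (ε m) w)).1 x
    rw [hρ, hρ, hρ, hρ]
    exact LinearMap.congr_fun (hc m m').eq _
  · obtain ⟨X, hX⟩ := (Group.fg_iff_monoid_fg.mp (inferInstance : Group.FG M)).fg_top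
    have hNo := noeth_pi X (α.comp ε) hc hS hg
    let ev : W →ₗ[ℤ] (X → V) :=
      AddMonoidHom.toIntLinearMap ⟨⟨fun c s => c.1 s, rfl⟩, fun _ _ => rfl⟩
    have hev : Function.Injective ev := by
      rw [injective_iff_map_eq_zero]
      intro c hc
      refine Subtype.ext (funext fun x => ?_)
      have hx : x ∈ Submonoid.closure (X : Set M) := hX ▸ Submonoid.mem_top x
      change c.1 x = 0
      induction hx using Submonoid.closure_induction with
      | mem x hx => exact congrFun hc ⟨x, hx⟩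
      | one => simpa using c.2.1 1 1
      | mul a b _ _ ha hb => rw [c.2.1, ha, hb, map_zero, add_zero]
    intro 𝓕 hne h3
    refine noeth_transport hNo
      (fun I : Submodule (ZMod 2) W => I.toAddSubgroup.toIntSubmodule.map ev)
      (fun a b hab => Submodule.map_mono hab)
      (fun a b hab => (Submodule.map_le_map_iff_of_injective hev _ _).mp hab) 𝓕 hne ?_
    rintro I hI _ ⟨m, rfl⟩ _ ⟨c, hc, rfl⟩
    exact ⟨ρ (ε m) c, (h3 I hI).1 _ ⟨m, rfl⟩ c hc, funext fun x => hρ m c x⟩

open scoped commutatorElement in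
theorem exists_B (M : Type u) [Group M] [Group.FG M] (h : derivedSeries M 2 = ⊥) :
    ∃ (V : Type u) (_ : AddCommGroup V) (κ : V → M) (act : MulAut M →* End ℤ V) (S : Set V),
      Function.Injective κ ∧ (∀ v w, κ (v + w) = κ v * κ w) ∧ (∀ φ v, κ (act φ v) = φ (κ v)) ∧
      (∀ m, m ∈ commutator M ↔ ∃ v, κ v = m) ∧ S.Finite ∧
      gen (Set.range (act.comp MulAut.conj)) S = ⊤ := by
  have h' : ⁅commutator M, commutator M⁆ = ⊥ := h
  let _ : CommGroup (commutator M) :=
    { (inferInstance : Group (commutator M)) with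
      mul_comm := fun a b => Subtype.ext (commutatorElement_eq_one_iff_mul_comm.mp
        (Subgroup.mem_bot.mp (h' ▸ Subgroup.commutator_mem_commutator a.2 b.2))) }
  have hch : ∀ (φ : MulAut M), ∀ b ∈ commutator M, φ b ∈ commutator M := fun φ b hb =>
    (Subgroup.characteristic_iff_le_comap.mp inferInstance φ) hb
  let act : MulAut M →* End ℤ (Additive (commutator M)) :=
    { toFun := fun φ => (MonoidHom.toAdditive ((φ.toMonoidHom.comp (commutator M).subtype).codRestrict
        (commutator M) fun b => hch φ b.1 b.2)).toIntLinearMap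
      map_one' := rfl
      map_mul' := fun _ _ => rfl }
  let κ : Additive (commutator M) → M := fun v => (Additive.toMul v).1
  have hκ : Function.Injective κ := fun a b hab => Subtype.ext hab
  obtain ⟨X, hX1, hX2⟩ := Group.fg_iff.mp (inferInstance : Group.FG M)
  let S := κ ⁻¹' Set.image2 (fun x y => ⁅x, y⁆) X X
  refine ⟨Additive (commutator M), inferInstance, κ, act, S, hκ, fun _ _ => rfl, fun _ _ => rfl,
    fun m => ⟨fun hm => ⟨Additive.ofMul ⟨m, hm⟩, rfl⟩, by rintro ⟨v, rfl⟩; exact v.2⟩,
    (hX2.image2 _ hX2).preimage hκ.injOn, ?_⟩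
  let K : Subgroup M := (AddSubgroup.toSubgroup' (G := commutator M)
    (gen (Set.range (act.comp MulAut.conj)) S).toAddSubgroup).map (commutator M).subtype
  have : K.Normal := ⟨by
    rintro _ ⟨v, hv, rfl⟩ g
    exact ⟨_, inv_gen (Γ := Set.range (act.comp MulAut.conj)) _ ⟨g, rfl⟩ _ hv, rfl⟩⟩
  have hK : commutator M ≤ K := by
    refine Subgroup.commutator_le.mpr fun a _ b _ => ?_
    rw [← QuotientGroup.eq_one_iff, ← QuotientGroup.mk'_apply, map_commutatorElement,
      commutatorElement_eq_one_iff_commute]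
    have ha : a ∈ Subgroup.closure X := hX1 ▸ Subgroup.mem_top a
    have hb : b ∈ Subgroup.closure X := hX1 ▸ Subgroup.mem_top b
    induction ha, hb using Subgroup.closure_induction₂ with
    | mem x y hx hy =>
      rw [← commutatorElement_eq_one_iff_commute, ← map_commutatorElement, QuotientGroup.mk'_apply,
        QuotientGroup.eq_one_iff]
      exact ⟨⟨⁅x, y⁆, Subgroup.commutator_mem_commutator (Subgroup.mem_top x) (Subgroup.mem_top y)⟩,
        subset_gen (S := S) ⟨x, hx, y, hy, rfl⟩, rfl⟩
    | one_left x _ => simp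
    | one_right x _ => simp
    | mul_left x y z _ _ _ h1 h2 => rw [map_mul]; exact (h1 trivial trivial).mul_left (h2 trivial trivial)
    | mul_right x y z _ _ _ h1 h2 => rw [map_mul]; exact (h1 trivial trivial).mul_right (h2 trivial trivial)
    | inv_left x y _ _ h1 => rw [map_inv]; exact (h1 trivial trivial).inv_left
    | inv_right x y _ _ h1 => rw [map_inv]; exact (h1 trivial trivial).inv_right
  refine eq_top_iff.mpr fun v _ => ?_
  obtain ⟨w, hw, hwv⟩ := hK (Additive.toMul v).2
  have : w = Additive.toMul v := Subtype.ext hwv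
  subst this
  exact hw

end Pool.Agent.P.MP_e2f787_al
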