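import Pool.Agent.P.MP_e2f787_al.Reduce2

/-! Reduction from automorphism groups of metabelian groups to modules. -/

namespace Pool.Agent.P.MP_e2f787_al

open Module SemidirectProduct

universe u

theorem exists_A0 {G : Type*} [Group G] {M : Type u} [Group M] [Group.FG M]
    (f : G →* MulAut M) (A : Subgroup G) [A.Normal] [Infinite A] (hA2 : ∀ a ∈ A, a * a = 1) :
    ∃ A₀ : Subgroup G, A₀.Normal ∧ A₀ ≤ A ∧ A₀ ≠ ⊥ ∧
      ∀ a ∈ A₀, ∀ x, f a x * x⁻¹ ∈ commutator M := by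
  have : Group.FG (Abelianization M) := QuotientGroup.fg _
  have : Module.Finite ℤ (Additive (Abelianization M)) :=
    Module.Finite.iff_addGroup_fg.mpr inferInstance
  let α : G →* End ℤ (Additive (Abelianization M)) :=
    { toFun := fun g => (MonoidHom.toAdditive (Abelianization.map (f g).toMonoidHom)).toIntLinearMap
      map_one' := LinearMap.ext fun v => by
        obtain ⟨x, rfl⟩ := QuotientGroup.mk_surjective (s := commutator M) v
        rw [map_one]; rfl
      map_mul' := fun a b => LinearMap.ext fun v => by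
        obtain ⟨x, rfl⟩ := QuotientGroup.mk_surjective (s := commutator M) v
        rw [map_mul]; rfl }
  obtain ⟨a, ha1, ha2⟩ := fin_invol (α.comp A.subtype) fun a => Subtype.ext (hA2 a a.2)
  refine ⟨A ⊓ α.ker, inferInstance, inf_le_left, fun h => ha1 (Subtype.ext ?_), fun b hb x => ?_⟩
  · exact Subgroup.mem_bot.mp (h ▸ (⟨a.2, ha2⟩ : a.1 ∈ A ⊓ α.ker))
  · have h1 : Abelianization.of (f b x) = Abelianization.of x :=
      LinearMap.congr_fun (show α b = 1 from hb.2) (Additive.ofMul (Abelianization.of x))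
    rw [← Abelianization.ker_of, MonoidHom.mem_ker, map_mul, map_inv, h1, mul_inv_cancel]

theorem reduce {G : Type*} [Group G] {M : Type u} [Group M] [Group.FG M]
    (hM : derivedSeries M 2 = ⊥) (f : G →* MulAut M) (hf : Function.Injective f)
    (A : Subgroup G) [hAn : A.Normal] (hAc : ∀ a ∈ A, ∀ b ∈ A, a * b = b * a)
    (hA2 : ∀ a ∈ A, a * a = 1) (hA0 : A ≠ ⊥)
    (hinf : ∀ A' : Subgroup G, A'.Normal → A' ≤ A → A' ≠ ⊥ → Infinite A') :
    ∃ (A₁ : Subgroup G) (W : Type u) (_ : AddCommGroup W) (_ : Module (ZMod 2) W)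
      (ρ : (M ⋊[f] G) →* End (ZMod 2) W) (ι : G → W), A₁.Normal ∧ A₁ ≤ A ∧ A₁ ≠ ⊥ ∧
      (∀ m m', Commute (ρ (inl m)) (ρ (inl m'))) ∧ Noeth (Set.range (ρ.comp inl)) ⊤ ∧
      (∀ a ∈ A₁, ∀ b ∈ A₁, ι (a * b) = ι a + ι b) ∧ (∀ a ∈ A₁, ι a = 0 → a = 1) ∧
      ∀ g, ∀ a ∈ A₁, ι (g * a * g⁻¹) = ρ (inr g) (ι a) := by
  classical
  have := hinf A hAn le_rfl hA0
  obtain ⟨A₀, hn0, hle0, hne0, hδ0⟩ := exists_A0 f A hA2
  have := hinf A₀ hn0 hle0 hne0
  obtain ⟨V, _, κ, act, S, hκ, hκa, hκφ, hκr, hS, hg⟩ := exists_B M hM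
  let Φ : (M ⋊[f] G) →* MulAut M := SemidirectProduct.lift MulAut.conj f fun g => by
    ext m x; simp
  let α := act.comp Φ
  have hαl : ∀ m, α (inl m) = act (MulAut.conj m) := fun m => by simp [α, Φ]
  have hαr : ∀ g, α (inr g) = act (f g) := fun m => by simp [α, Φ]
  have hg' : gen (Set.range (α.comp inl)) S = ⊤ := by
    rw [show α.comp inl = act.comp MulAut.conj from MonoidHom.ext hαl, hg]
  have hα1 : ∀ m ∈ commutator M, α (inl m) = 1 := fun m hm => LinearMap.ext fun v => hκ (by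
    obtain ⟨w, rfl⟩ := (hκr m).mp hm
    rw [hαl, hκφ, MulAut.conj_apply, ← hκa, add_comm, hκa]
    simp)
  have hcll : ∀ m m', Commute (α (inl m)) (α (inl m')) := fun m m' => by
    have h1 := hα1 (m * m' * m⁻¹ * m'⁻¹)
      (Subgroup.commutator_mem_commutator (Subgroup.mem_top m) (Subgroup.mem_top m'))
    have h2 : m * m' = (m * m' * m⁻¹ * m'⁻¹) * (m' * m) := by group
    rw [Commute, SemiconjBy, ← map_mul, ← map_mul, h2, map_mul, map_mul, h1, one_mul, map_mul,
      map_mul]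
  have hcrl : ∀ a ∈ A₀, ∀ m, Commute (α (inr a)) (α (inl m)) := fun a ha m => by
    have h2 : (inr a * inl m : M ⋊[f] G) = inl (f a m * m⁻¹) * (inl m * inr a) := by
      ext <;> simp
    rw [Commute, SemiconjBy, ← map_mul, h2, map_mul, hα1 _ (hδ0 a ha m), one_mul, map_mul]
  have hcrr : ∀ a ∈ A₀, ∀ b ∈ A₀, Commute (α (inr a)) (α (inr b)) := fun a ha b hb =>
    (Commute.map (hAc a (hle0 ha) b (hle0 hb)) inr).map α
  obtain ⟨ser, n, hs0, hsn, hsinv, a₀, ha₀, hu₀⟩ := exists_ser α (A₀.comap rightHom)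
    (fun p hp q hq => by
      rw [← inl_left_mul_inr_right p, ← inl_left_mul_inr_right q, map_mul, map_mul]
      exact ((hcll _ _).mul_right (hcrl _ hq _).symm).mul_left
        ((hcrl _ hp _).mul_right (hcrr _ hp _ hq)))
    inl (fun m => by simp [Subgroup.mem_comap]) hS hg' (inr.comp A₀.subtype)
    (fun a => by simp [Subgroup.mem_comap]) fun a => Subtype.ext (hA2 a (hle0 a.2))
  choose! δ hδ using fun a ha x => (hκr _).mp (hδ0 a ha x)
  have d1 : ∀ a ∈ A₀, ∀ b ∈ A₀, ∀ x, δ (a * b) x = α (inr a) (δ b x) + δ a x :=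
    fun a ha b hb x => hκ (by
      rw [hκa, hαr, hκφ, hδ _ (A₀.mul_mem ha hb), hδ _ ha, hδ _ hb]
      simp)
  have d2 : ∀ a ∈ A₀, ∀ x y, δ a (x * y) = δ a x + α (inl x) (δ a y) :=
    fun a ha x y => hκ (by
      rw [hκa, hαl, hκφ, hδ _ ha, hδ _ ha, hδ _ ha]
      simp [mul_assoc])
  have d3 : ∀ g, ∀ a ∈ A₀, ∀ x, δ (g * a * g⁻¹) x = α (inr g) (δ a ((f g)⁻¹ x)) :=
    fun g a ha x => hκ (by
      rw [hαr, hκφ, hδ _ ha, hδ _ (hn0.conj_mem a ha g)]
      simp)
  have d4 : ∀ x, δ 1 x = 0 := fun x => by simpa using d1 1 A₀.one_mem 1 A₀.one_mem x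
  let U : ℕ → Subgroup G := fun i =>
    { carrier := {a | a ∈ A₀ ∧ (∀ j, ∀ v ∈ ser (j + 1), α (inr a) v - v ∈ ser j) ∧
        ∀ x, δ a x ∈ ser i}
      mul_mem' := fun {a b} ha hb => ⟨A₀.mul_mem ha.1 hb.1, fun j v hv => by
        have : α (inr (a * b)) v - v = α (inr a) (α (inr b) v - v) + (α (inr a) v - v) := by
          rw [map_mul, rho_mul, map_sub]; abel
        rw [this]
        exact Submodule.add_mem _ (hsinv _ _ _ (hb.2.1 j v hv)) (ha.2.1 j v hv), fun x => by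
        rw [d1 a ha.1 b hb.1]
        exact Submodule.add_mem _ (hsinv _ _ _ (hb.2.2 x)) (ha.2.2 x)⟩
      one_mem' := ⟨A₀.one_mem, fun j v _ => by simp, fun x => by simp [d4]⟩
      inv_mem' := fun {a} ha => by rwa [inv_eq_of_mul_eq_one_left (hA2 a (hle0 ha.1))] }
  have hUn : ∀ i, (U i).Normal := fun i => ⟨fun a ha g => ⟨hn0.conj_mem a ha.1 g, fun j v hv => by
      have : α (inr (g * a * g⁻¹)) v - v =
          α (inr g) (α (inr a) (α (inr g)⁻¹ v) - α (inr g)⁻¹ v) := by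
        rw [map_mul inr, map_mul inr, map_inv, rho_mul, rho_mul, map_sub, rho_self_inv]
      rw [this]
      exact hsinv _ _ _ (ha.2.1 j _ (hsinv _ _ _ hv)), fun x => by
      rw [d3 g a ha.1]
      exact hsinv _ _ _ (ha.2.2 _)⟩⟩
  obtain ⟨i, hi0, hi1⟩ : ∃ i, U i = ⊥ ∧ U (i + 1) ≠ ⊥ := by
    by_contra hcon
    push Not at hcon
    have : ∀ i, U i = ⊥ := by
      intro i
      induction i with
      | zero =>
        refine eq_bot_iff.mpr fun a ha => Subgroup.mem_bot.mpr (hf ?_)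
        ext x
        have h1 := ha.2.2 x
        rw [hs0, Submodule.mem_bot] at h1
        have h2 := hδ a ha.1 x
        rw [h1, ← d4 x, hδ 1 A₀.one_mem] at h2
        exact mul_right_cancel h2.symm
      | succ i ih => exact hcon i ih
    refine ha₀ (Subtype.ext (Subgroup.mem_bot.mp (this n ▸ ?_)))
    exact ⟨a₀.2, hu₀, fun x => hsn ▸ Submodule.mem_top⟩
  let α' : (M ⋊[f] G) →* End ℤ (V ⧸ ser i) := Representation.quotient α (ser i) (hsinv i)
  have hα' : ∀ γ v, α' γ ((ser i).mkQ v) = (ser i).mkQ (α γ v) := fun _ _ => rfl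
  obtain ⟨W, _, _, ρ, e, he, hsur, heq, hcomm, hNo⟩ := exists_der α' (f.comp rightHom) inl
    (fun m => by simp) (fun γ m v => by
      obtain ⟨v, rfl⟩ := (ser i).mkQ_surjective v
      rw [hα', hα', hα', hα']
      congr 1
      have h1 : γ * inl m = inl γ.left * (inl (f γ.right m) * inr γ.right) := by ext <;> simp
      have h2 := LinearMap.congr_fun (hcll γ.left (f γ.right m)).eq (α (inr γ.right) v)
      rw [← rho_mul, h1, rho_mul, rho_mul]
      refine h2.trans ?_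
      change α _ (α _ (α _ v)) = _
      rw [← rho_mul α (inl γ.left), inl_left_mul_inr_right]
      rfl) (fun m m' => by
      refine LinearMap.ext fun v => ?_
      obtain ⟨v, rfl⟩ := (ser i).mkQ_surjective v
      exact congrArg (ser i).mkQ (LinearMap.congr_fun (hcll m m').eq v))
    (hS.image (ser i).mkQ) (by
      have : gen (Set.range (α.comp inl)) S ≤
          (gen (Set.range (α'.comp inl)) ((ser i).mkQ '' S)).comap (ser i).mkQ := by
        refine gen_le ?_ fun v hv => subset_gen ⟨v, hv, rfl⟩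
        rintro _ ⟨m, rfl⟩ v hv
        exact inv_gen (Γ := Set.range (α'.comp inl)) _ ⟨m, rfl⟩ _ hv
      refine eq_top_iff.mpr fun v _ => ?_
      obtain ⟨v, rfl⟩ := (ser i).mkQ_surjective v
      exact this (hg' ▸ Submodule.mem_top))
  have d5 : ∀ a ∈ U (i + 1), ∀ b ∈ U (i + 1), ∀ x,
      (ser i).mkQ (δ (a * b) x) = (ser i).mkQ (δ a x) + (ser i).mkQ (δ b x) := by
    intro a ha b hb x
    rw [d1 a ha.1 b hb.1, map_add, add_comm]
    congr 1
    exact (Submodule.Quotient.eq _).mpr (ha.2.1 i _ (hb.2.2 x))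
  choose! ι hι using fun a (ha : a ∈ U (i + 1)) => hsur (fun x => (ser i).mkQ (δ a x))
    (fun x y => by rw [d2 a ha.1, map_add, hα']) fun x => by
      rw [← d5 a ha a ha, hA2 a (hle0 ha.1), d4, map_zero]
  refine ⟨U (i + 1), W, inferInstance, inferInstance, ρ, ι, hUn _, fun a ha => hle0 ha.1, hi1,
    hcomm, hNo, fun a ha b hb => he ?_, fun a ha h0 => ?_, fun g a ha => he ?_⟩
  · rw [map_add, hι _ (Subgroup.mul_mem _ ha hb), hι _ ha, hι _ hb]
    exact funext (d5 a ha b hb)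
  · refine Subgroup.mem_bot.mp (hi0 ▸ ?_)
    refine ⟨ha.1, ha.2.1, fun x => (Submodule.Quotient.mk_eq_zero _).mp ?_⟩
    have := congrFun (hι a ha) x
    rw [h0, map_zero] at this
    exact this.symm
  · funext x
    rw [heq, hι _ ((hUn _).conj_mem a ha g), hι _ ha]
    beta_reduce
    rw [d3 g a ha.1, hα']
    rfl

end Pool.Agent.P.MP_e2f787_al
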